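import Pool.Agent.Lib.MP_537232_an.NM.SpecE

set_option autoImplicit false

namespace Pool.Agent.Lib.MP_537232_an.NM

open MeasureTheory ProbabilityTheory Finset Filter Topology

private theorem apl_real {Ω : Type} (N : ℕ) (x : ℕ → Ω → ℝ) (θ : ℝ) (ω : Ω) :
    Xc N x (θ : ℂ) ω = ((Xs N (range (N + 1)) x θ ω : ℝ) : ℂ) := by
  unfold Xc Xs co
  push_cast
  rfl

private theorem apl_diff {Ω : Type} [Fintype Ω] (N : ℕ) (x : ℕ → Ω → ℝ) (φ : Ω → ℝ) (α s r : ℂ) :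
    Differentiable ℂ fun z => ∑ ω, (φ ω : ℂ) * Xc N x (α - s * z / r) ω := by
  unfold Xc
  refine Differentiable.fun_sum (fun ω _ => Differentiable.const_mul ?_ _)
  refine Differentiable.fun_sum (fun m _ => ?_)
  have h1 : Differentiable ℂ fun z : ℂ => α - s * z / r := by fun_prop
  exact ((h1.ccos.pow _).mul (h1.csin.pow _)).mul_const _

/-- the entire function for one counterexample -/
private theorem apl_one (hHb : S_Hb) {q : ℝ} (hq : 2 < q) (C : Cst q) {η : ℝ} (hη : 0 < η) {L : ℕ}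
    {K : ℝ} (hK : 1 ≤ K) {N : ℕ} {Ω : Type} [Fintype Ω] {x : ℕ → Ω → ℝ} (hx : Model q C N x) {s : ℝ}
    {R : Finset ℕ}
    (hc : ∀ c : Fin L → ℝ, (∀ l, |c l| ≤ K) → η ^ q < ∑ ω, |Xs N (range (N + 1)) x C.α ω -
      ∑ l, c l * Xs N R x (th C.α (s * qp l) N) ω| ^ q) :
    ∃ ψ : ℂ → ℂ, Differentiable ℂ ψ ∧
      (∀ (z : ℂ) (B : ℝ), 0 ≤ B →
        (MC (kap q) q ((C.α : ℂ) - (s : ℂ) * z / ((Real.sqrt N : ℝ) : ℂ)) / C.σ ^ q) ^ N ≤ B ^ q →
          ‖ψ z‖ ≤ B) ∧ η ≤ (ψ 0).re ∧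
      ∀ (l : Fin L) (t : ℝ), 0 ≤ t → ∑ ω, |Xs N (range (N + 1)) x (th C.α (s * qp l) N) ω -
        Xs N R x (th C.α (s * qp l) N) ω| ^ q ≤ t ^ q →
        K * (‖ψ (-((qp l : ℝ) : ℂ))‖ - t) ≤ ‖ψ 0‖ := by
  obtain ⟨φ, hφ1, hφ2⟩ := hHb q (by linarith) Ω L (Xs N (range (N + 1)) x C.α)
    (fun l => Xs N R x (th C.α (s * qp l) N)) K η (by linarith) hη hc
  have h0 : (∑ ω, (φ ω : ℂ) * Xc N x ((C.α : ℂ) - (s : ℂ) * 0 / ((Real.sqrt N : ℝ) : ℂ)) ω) =
      ((∑ ω, φ ω * Xs N (range (N + 1)) x C.α ω : ℝ) : ℂ) := by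
    rw [mul_zero, zero_div, sub_zero]
    push_cast
    exact Finset.sum_congr rfl (fun ω _ => by rw [apl_real])
  have hsum : 0 ≤ ∑ l : Fin L, |∑ ω, φ ω * Xs N R x (th C.α (s * qp l) N) ω| :=
    Finset.sum_nonneg fun l _ => abs_nonneg _
  have hφη : η ≤ ∑ ω, φ ω * Xs N (range (N + 1)) x C.α ω := by
    have : 0 ≤ K * ∑ l : Fin L, |∑ ω, φ ω * Xs N R x (th C.α (s * qp l) N) ω| :=
      mul_nonneg (by linarith) hsum
    linarith
  refine ⟨fun z => ∑ ω, (φ ω : ℂ) * Xc N x ((C.α : ℂ) - (s : ℂ) * z / ((Real.sqrt N : ℝ) : ℂ)) ω,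
    apl_diff N x φ _ _ _, fun z B hB h => hφ1 _ B hB ((hx.cpx _).trans h), ?_, ?_⟩
  · simp only
    rw [h0, Complex.ofReal_re]
    exact hφη
  · intro l t ht hlt
    simp only
    rw [h0, Complex.norm_real, Real.norm_eq_abs, abs_of_nonneg (hη.le.trans hφη)]
    have h1 : ∀ ω, Xc N x ((C.α : ℂ) - (s : ℂ) * (-((qp l : ℝ) : ℂ)) / ((Real.sqrt N : ℝ) : ℂ)) ω =
        ((Xs N (range (N + 1)) x (th C.α (s * qp l) N) ω : ℝ) : ℂ) := by
      intro ω
      rw [← apl_real]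
      congr 1
      unfold th
      push_cast
      ring
    have h2 : (∑ ω, (φ ω : ℂ) * Xc N x ((C.α : ℂ) - (s : ℂ) * (-((qp l : ℝ) : ℂ)) /
        ((Real.sqrt N : ℝ) : ℂ)) ω) =
        ((∑ ω, φ ω * Xs N R x (th C.α (s * qp l) N) ω : ℝ) : ℂ) +
        ∑ ω, (φ ω : ℂ) * (((Xs N (range (N + 1)) x (th C.α (s * qp l) N) ω -
          Xs N R x (th C.α (s * qp l) N) ω : ℝ)) : ℂ) := by
      push_cast
      rw [← Finset.sum_add_distrib]
      refine Finset.sum_congr rfl (fun ω _ => ?_)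
      rw [h1]
      ring
    have h3 : ‖∑ ω, (φ ω : ℂ) * (((Xs N (range (N + 1)) x (th C.α (s * qp l) N) ω -
          Xs N R x (th C.α (s * qp l) N) ω : ℝ)) : ℂ)‖ ≤ t := by
      refine hφ1 _ t ht ?_
      simp only [Complex.norm_real, Real.norm_eq_abs]
      exact hlt
    have h4 : |∑ ω, φ ω * Xs N R x (th C.α (s * qp l) N) ω| ≤
        ∑ l : Fin L, |∑ ω, φ ω * Xs N R x (th C.α (s * qp l) N) ω| :=
      Finset.single_le_sum (f := fun l : Fin L => |∑ ω, φ ω * Xs N R x (th C.α (s * qp l) N) ω|)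
        (fun _ _ => abs_nonneg _) (Finset.mem_univ l)
    have h5 : ‖∑ ω, (φ ω : ℂ) * Xc N x ((C.α : ℂ) - (s : ℂ) * (-((qp l : ℝ) : ℂ)) /
        ((Real.sqrt N : ℝ) : ℂ)) ω‖ - t ≤ |∑ ω, φ ω * Xs N R x (th C.α (s * qp l) N) ω| := by
      rw [h2]
      have h6 := norm_add_le ((∑ ω, φ ω * Xs N R x (th C.α (s * qp l) N) ω : ℝ) : ℂ)
        (∑ ω, (φ ω : ℂ) * (((Xs N (range (N + 1)) x (th C.α (s * qp l) N) ω -
          Xs N R x (th C.α (s * qp l) N) ω : ℝ)) : ℂ))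
      rw [Complex.norm_real, Real.norm_eq_abs] at h6
      linarith
    have hK0 : 0 ≤ K := by linarith
    calc K * (‖∑ ω, (φ ω : ℂ) * Xc N x ((C.α : ℂ) - (s : ℂ) * (-((qp l : ℝ) : ℂ)) /
        ((Real.sqrt N : ℝ) : ℂ)) ω‖ - t) ≤ K * |∑ ω, φ ω * Xs N R x (th C.α (s * qp l) N) ω| :=
          mul_le_mul_of_nonneg_left h5 hK0
      _ ≤ K * ∑ l : Fin L, |∑ ω, φ ω * Xs N R x (th C.α (s * qp l) N) ω| :=
          mul_le_mul_of_nonneg_left h4 hK0
      _ ≤ _ := by linarith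

private theorem qp_pos (l : ℕ) : 0 < qp l := by
  unfold qp
  positivity

/-- the numbers `qp l` are dense in `(0, ∞)` -/
private theorem qp_dense (x : ℝ) (hx : 0 < x) (ε : ℝ) (hε : 0 < ε) : ∃ l, |qp l - x| < ε := by
  obtain ⟨r, hr1, hr2⟩ := exists_rat_btwn (lt_add_of_pos_right x hε)
  have hr0 : 0 < r := by
    have : (0 : ℝ) < r := hx.trans hr1
    exact_mod_cast this
  have hn : 0 < r.num := Rat.num_pos.2 hr0
  refine ⟨Nat.pair (r.num.toNat - 1) (r.den - 1), ?_⟩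
  have h1 : qp (Nat.pair (r.num.toNat - 1) (r.den - 1)) = (r : ℝ) := by
    unfold qp
    rw [Nat.unpair_pair]
    have h2 : (((r.num.toNat - 1 : ℕ) : ℝ)) + 1 = (r.num : ℝ) := by
      have h3 : 1 ≤ r.num.toNat := by omega
      have h4 : ((r.num.toNat : ℕ) : ℤ) = r.num := Int.toNat_of_nonneg hn.le
      rw [Nat.cast_sub h3]
      have h5 : ((r.num.toNat : ℕ) : ℝ) = (r.num : ℝ) := by
        rw [← h4]
        push_cast
        rfl
      rw [h5]
      push_cast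
      ring
    have h6 : (((r.den - 1 : ℕ) : ℝ)) + 1 = (r.den : ℝ) := by
      rw [Nat.cast_sub r.pos]
      push_cast
      ring
    simp only
    rw [h2, h6]
    exact (Rat.cast_def r).symm
  rw [h1, abs_lt]
  constructor <;> linarith

theorem wApl (hPgl : S_Pgl) (hPlo : S_Plo) (hPhL : S_PhL) (hHb : S_Hb) (hLim : S_Lim)
    (hTru : S_Tru) : S_Apl := by
  intro q hq C η hη
  by_contra hcon
  push Not at hcon
  have hq0 : 0 < q := by linarith
  choose P hP1 hP using hPlo q hq C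
  choose T hT using fun (l : ℕ) => hTru q hq C (qp l)
  -- the functions for all `m`
  have key : ∀ m : ℕ, ∃ (N : ℕ) (ψ : ℂ → ℂ), m + 1 ≤ N ∧ Differentiable ℂ ψ ∧
      (∀ z, ‖ψ z‖ ≤ Real.exp (z.im ^ 2)) ∧
      (∀ (z : ℂ) (ε : ℝ) (hε : 0 < ε), P z.re z.im (q * ε) (mul_pos hq0 hε) ≤ N →
        P (-z.re) (-z.im) (q * ε) (mul_pos hq0 hε) ≤ N →
          ‖ψ z‖ ≤ Real.exp (bq q * z.im ^ 2 + ε)) ∧
      η ≤ (ψ 0).re ∧
      ∀ l < m, ∀ (ε : ℝ) (hε : 0 < ε), T l ε (qp_pos l) hε ≤ N →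
        ‖ψ (-((qp l : ℝ) : ℂ))‖ ≤ Real.exp (-(qp l) ^ 2) + ε + 1 / ((m : ℝ) + 1) := by
    intro m
    have hK : (1 : ℝ) ≤ (m : ℝ) + 1 := by
      have : (0 : ℝ) ≤ m := Nat.cast_nonneg m
      linarith
    obtain ⟨N, hN, Ω, hΩ, x, hx, s, R, hsR, hc⟩ := hcon m (m + 1) ((m : ℝ) + 1) hK
    obtain ⟨ψ, hψd, hψB, hψη, hψl⟩ := apl_one hHb hq C hη hK hx hc
    have hs : s = 1 ∨ s = -1 := by
      rcases hsR with h | h
      · exact Or.inr h.1
      · exact Or.inl h.1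
    have hN1 : 1 ≤ N := by omega
    -- the argument in the form of `Pgl`
    have harg : ∀ z : ℂ, ∃ x' y' : ℝ, (C.α : ℂ) - (s : ℂ) * z / ((Real.sqrt N : ℝ) : ℂ) =
        (C.α : ℂ) + ((x' : ℂ) + (y' : ℂ) * Complex.I) / ((Real.sqrt N : ℝ) : ℂ) ∧
        y' ^ 2 = z.im ^ 2 ∧ ((x' = z.re ∧ y' = z.im) ∨ (x' = -z.re ∧ y' = -z.im)) := by
      intro z
      rcases hs with rfl | rfl
      · refine ⟨-z.re, -z.im, ?_, by ring, Or.inr ⟨rfl, rfl⟩⟩
        have : z = (z.re : ℂ) + (z.im : ℂ) * Complex.I := (Complex.re_add_im z).symm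
        conv_lhs => rw [this]
        push_cast
        ring
      · refine ⟨z.re, z.im, ?_, rfl, Or.inl ⟨rfl, rfl⟩⟩
        have : z = (z.re : ℂ) + (z.im : ℂ) * Complex.I := (Complex.re_add_im z).symm
        conv_lhs => rw [this]
        push_cast
        ring
    have hB : ∀ z, ‖ψ z‖ ≤ Real.exp (z.im ^ 2) := by
      intro z
      obtain ⟨x', y', h1, h2, -⟩ := harg z
      refine hψB z _ (Real.exp_pos _).le ?_
      rw [h1, ← Real.exp_mul, mul_comm (z.im ^ 2) q, ← h2]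
      exact hPgl q hq C N x' y' hN1
    refine ⟨N, ψ, hN, hψd, hB, ?_, hψη, ?_⟩
    · intro z ε hε h1 h2
      obtain ⟨x', y', h3, h4, h5⟩ := harg z
      refine hψB z _ (Real.exp_pos _).le ?_
      have h6 : Real.exp (bq q * z.im ^ 2 + ε) ^ q = Real.exp (q * bq q * y' ^ 2 + q * ε) := by
        rw [← Real.exp_mul, h4]
        congr 1
        ring
      rw [h3, h6]
      rcases h5 with ⟨rfl, rfl⟩ | ⟨rfl, rfl⟩
      · exact hP _ _ _ _ N h1
      · exact hP _ _ _ _ N h2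
    · intro l hl ε hε hNT
      have h1 := hT l ε (qp_pos l) hε N hNT Ω x hx s R hsR
      have h2 : 0 ≤ Real.exp (-(qp l) ^ 2) + ε := by positivity
      have h3 := hψl ⟨l, hl⟩ _ h2 h1
      have h4 : ‖ψ 0‖ ≤ 1 := by
        have := hB 0
        simpa using this
      have hm1 : (0 : ℝ) < (m : ℝ) + 1 := by linarith
      have h5 : ‖ψ (-((qp l : ℝ) : ℂ))‖ - (Real.exp (-(qp l) ^ 2) + ε) ≤ 1 / ((m : ℝ) + 1) := by
        rw [le_div_iff₀ hm1, mul_comm]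
        exact h3.trans h4
      linarith
  choose N ψ hN hd hB hC hη' hE using key
  obtain ⟨U, f, hU, hf, hlim⟩ := hLim ψ hd hB
  have hNat : Tendsto N atTop atTop := by
    refine tendsto_atTop_mono (fun m => ?_) tendsto_id
    exact (Nat.le_succ m).trans (hN m)
  have hNU : ∀ n : ℕ, ∀ᶠ m in (U : Filter ℕ), n ≤ N m := fun n =>
    hU (hNat.eventually_ge_atTop n)
  -- first bound
  have hf1 : ∀ z, ‖f z‖ ≤ Real.exp (bq q * z.im ^ 2) := by
    intro z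
    have h1 : ∀ ε : ℝ, 0 < ε → ‖f z‖ ≤ Real.exp (bq q * z.im ^ 2 + ε) := by
      intro ε hε
      refine le_of_tendsto (hlim z).norm ?_
      filter_upwards [hNU (P z.re z.im (q * ε) (mul_pos hq0 hε)),
        hNU (P (-z.re) (-z.im) (q * ε) (mul_pos hq0 hε))] with m h2 h3
      exact hC m z ε hε h2 h3
    have h4 : Tendsto (fun ε : ℝ => Real.exp (bq q * z.im ^ 2 + ε)) (𝓝[>] 0)
        (𝓝 (Real.exp (bq q * z.im ^ 2 + 0))) := by
      have : Continuous fun ε : ℝ => Real.exp (bq q * z.im ^ 2 + ε) := by fun_prop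
      exact (this.tendsto 0).mono_left nhdsWithin_le_nhds
    rw [add_zero] at h4
    refine ge_of_tendsto h4 ?_
    filter_upwards [self_mem_nhdsWithin] with ε hε
    exact h1 ε hε
  -- second bound
  have hf2 : ∀ l : ℕ, ‖f (-((qp l : ℝ) : ℂ))‖ ≤ Real.exp (-(qp l) ^ 2) := by
    intro l
    refine le_of_forall_pos_le_add (fun ε hε => ?_)
    refine le_of_tendsto (hlim _).norm ?_
    have h1 : ∀ᶠ m : ℕ in (U : Filter ℕ), 1 / ((m : ℝ) + 1) < ε / 2 :=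
      hU ((tendsto_one_div_add_atTop_nhds_zero_nat (𝕜 := ℝ)).eventually_lt_const (half_pos hε))
    have h2 : ∀ᶠ m : ℕ in (U : Filter ℕ), l < m := hU (eventually_gt_atTop l)
    filter_upwards [h1, h2, hNU (T l (ε / 2) (qp_pos l) (half_pos hε))] with m h3 h4 h5
    have := hE m l h4 (ε / 2) (half_pos hε) h5
    linarith
  have hcf : Continuous fun x : ℝ => ‖f (x : ℂ)‖ := (hf.continuous.comp Complex.continuous_ofReal).norm
  have hf3 : ∀ x : ℝ, x < 0 → ‖f (x : ℂ)‖ ≤ Real.exp (-x ^ 2) := by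
    intro x hx
    have hcl : IsClosed {x : ℝ | ‖f (x : ℂ)‖ ≤ Real.exp (-x ^ 2)} :=
      isClosed_le hcf (by fun_prop)
    have hmem : x ∈ closure {x : ℝ | ‖f (x : ℂ)‖ ≤ Real.exp (-x ^ 2)} := by
      rw [Metric.mem_closure_iff]
      intro ε hε
      obtain ⟨l, hl⟩ := qp_dense (-x) (by linarith) ε hε
      refine ⟨-(qp l), ?_, ?_⟩
      · have := hf2 l
        show ‖f ((-(qp l) : ℝ) : ℂ)‖ ≤ Real.exp (-(-(qp l)) ^ 2)
        rw [neg_sq]
        push_cast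
        exact this
      · rw [Real.dist_eq]
        have : x - -qp l = qp l - -x := by ring
        rw [this]
        exact hl
    rw [hcl.closure_eq] at hmem
    exact hmem
  have hb1 : 0 < bq q := by
    unfold bq
    have : 0 < 2 * (q - 1) := by linarith
    positivity
  have hb2 : bq q < 1 := by
    unfold bq
    rw [div_lt_one (by linarith)]
    linarith
  have h0 := hPhL (bq q) hb1 hb2 f hf hf1 hf3
  have h1 : η ≤ (f 0).re := by
    have h2 : Tendsto (fun m => (ψ m 0).re) U (𝓝 (f 0).re) :=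
      (Complex.continuous_re.tendsto _).comp (hlim 0)
    exact ge_of_tendsto h2 (Eventually.of_forall fun m => hη' m)
  rw [h0, Complex.zero_re] at h1
  linarith

end Pool.Agent.Lib.MP_537232_an.NM
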