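import Pool.Agent.Lib.MP_537232_an.NM.SpecA

set_option autoImplicit false

namespace Pool.Agent.Lib.MP_537232_an.NM

open MeasureTheory ProbabilityTheory Finset Filter Topology

namespace Arg

theorem int_neg (F : ℝ → ℝ) (hF : Continuous F) : ∫ x, F (-x) ∂gam = ∫ x, F x ∂gam := by
  have h : gam.map (fun x : ℝ => -x) = gam := by
    unfold gam
    rw [gaussianReal_map_neg, neg_zero]
  have h2 : ∫ y, F y ∂(gam.map fun x : ℝ => -x) = ∫ x, F (-x) ∂gam :=
    integral_map measurable_neg.aemeasurable hF.aestronglyMeasurable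
  rw [← h2, h]

theorem yv_cont (κ θ : ℝ) : Continuous fun x => Yv κ θ x := by
  unfold Yv; fun_prop

theorem mr_cont (h1 : S_Int) {q : ℝ} (hq : 0 ≤ q) (κ : ℝ) : Continuous fun θ => MR κ q θ := by
  unfold MR
  refine (h1 ((1 + |κ|) ^ q) q hq).2 (fun θ x => |Yv κ θ x| ^ q) ?_ fun θ x => ?_
  · have : Continuous fun z : ℝ × ℝ => Yv κ z.1 z.2 := by unfold Yv; fun_prop
    exact (continuous_abs.comp this).rpow_const fun x => Or.inr hq
  · rw [abs_of_nonneg (Real.rpow_nonneg (abs_nonneg _) q),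
      ← Real.mul_rpow (by positivity) (by positivity)]
    refine Real.rpow_le_rpow (abs_nonneg _) ?_ hq
    have e1 : |Yv κ θ x| ≤ |Real.cos θ| + |κ * Real.sin θ * x| := abs_add_le _ _
    have e2 : |κ * Real.sin θ * x| ≤ |κ| * |x| := by
      rw [abs_mul, abs_mul]
      refine mul_le_mul_of_nonneg_right ?_ (abs_nonneg _)
      calc |κ| * |Real.sin θ| ≤ |κ| * 1 :=
            mul_le_mul_of_nonneg_left (Real.abs_sin_le_one θ) (abs_nonneg _)
        _ = |κ| := mul_one _
    have e3 := Real.abs_cos_le_one θ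
    have e4 := abs_nonneg κ
    have e5 := abs_nonneg x
    nlinarith

theorem mr_neg (κ q θ : ℝ) (hq : 0 ≤ q) : MR κ q (Real.pi - θ) = MR κ q θ := by
  unfold MR
  rw [← int_neg (fun x => |Yv κ θ x| ^ q)
    ((continuous_abs.comp (yv_cont κ θ)).rpow_const fun x => Or.inr hq)]
  refine integral_congr_ae (Eventually.of_forall fun x => ?_)
  show |Yv κ (Real.pi - θ) x| ^ q = |Yv κ θ (-x)| ^ q
  have : Yv κ (Real.pi - θ) x = -Yv κ θ (-x) := by
    unfold Yv
    rw [Real.cos_pi_sub, Real.sin_pi_sub]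
    ring
  rw [this, abs_neg]

theorem mr_per (κ q : ℝ) : Function.Periodic (fun θ => MR κ q θ) Real.pi := by
  intro θ
  show MR κ q (θ + Real.pi) = MR κ q θ
  unfold MR
  refine integral_congr_ae (Eventually.of_forall fun x => ?_)
  show |Yv κ (θ + Real.pi) x| ^ q = |Yv κ θ x| ^ q
  have : Yv κ (θ + Real.pi) x = -Yv κ θ x := by
    unfold Yv
    rw [Real.cos_add_pi, Real.sin_add_pi]
    ring
  rw [this, abs_neg]

theorem mr_zero (κ q : ℝ) : MR κ q 0 = 1 := by
  unfold MR
  have : (fun x : ℝ => |Yv κ 0 x| ^ q) = fun _ => 1 := by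
    funext x
    unfold Yv
    simp
  rw [this]
  simp

end Arg

open Arg in
theorem wArg (h1 : S_Int) (h2 : S_Mom) (h3 : S_Max) : S_Arg := by
  intro q hq
  have hq0 : 0 ≤ q := by linarith
  have hq1 : 0 < 2 * (q - 1) := by linarith
  obtain ⟨m0, m2, mm⟩ := h2
  set κ := kap q with hκ
  have hb : 0 < bq q := by unfold bq; exact div_pos (by linarith) hq1
  have hκ2 : κ ^ 2 = q / (2 * (q - 1)) := by
    rw [hκ, kap, Real.sq_sqrt hb.le]
    rfl
  have hκ0 : 0 < κ := Real.sqrt_pos.2 hb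
  have hc := mr_cont h1 hq0 κ
  obtain ⟨α, ⟨hα0, hα1⟩, hαm⟩ := isCompact_Icc.exists_isMaxOn
    (Set.nonempty_Icc.2 (by positivity : (0 : ℝ) ≤ Real.pi / 2)) hc.continuousOn
  have hmax : ∀ θ, MR κ q θ ≤ MR κ q α := by
    intro θ
    obtain ⟨y, ⟨hy0, hy1⟩, hy⟩ := (mr_per κ q).exists_mem_Ico₀ Real.pi_pos θ
    have hy' : MR κ q θ = MR κ q y := hy
    rw [hy']
    by_cases hy2 : y ≤ Real.pi / 2
    · exact hαm ⟨hy0, hy2⟩
    · rw [← mr_neg κ q y hq0]
      push Not at hy2
      exact hαm ⟨by linarith, by linarith⟩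
  have hM := h3 q κ α hq hmax
  have hα0' : 0 < α := by
    rcases hα0.lt_or_eq with h | h
    · exact h
    exfalso
    rw [← h, mr_zero] at hM
    have hV : VS κ q 0 = κ ^ 2 := by
      unfold VS
      have : (fun x : ℝ => |Yv κ 0 x| ^ (q - 2) * Zv κ 0 x ^ 2) = fun x => κ ^ 2 * |x| ^ (2 : ℝ) := by
        funext x
        unfold Yv Zv
        rw [Real.rpow_two, sq_abs]
        simp
        ring
      rw [this, integral_const_mul]
      have : ∫ x, |x| ^ (2 : ℝ) ∂gam = 1 := m2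
      rw [this, mul_one]
    rw [hV, hκ2] at hM
    have : (q - 1) * (q / (2 * (q - 1))) = q / 2 := by
      have : q - 1 ≠ 0 := by linarith
      field_simp
    rw [this] at hM
    linarith
  have hα1' : α < Real.pi / 2 := by
    rcases hα1.lt_or_eq with h | h
    · exact h
    exfalso
    rw [h] at hM
    have hV : VS κ q (Real.pi / 2) = κ ^ (q - 2) * mq (q - 2) := by
      unfold VS mq
      rw [← integral_const_mul]
      refine integral_congr_ae (Eventually.of_forall fun x => ?_)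
      show |Yv κ (Real.pi / 2) x| ^ (q - 2) * Zv κ (Real.pi / 2) x ^ 2 = κ ^ (q - 2) * |x| ^ (q - 2)
      have e1 : Yv κ (Real.pi / 2) x = κ * x := by unfold Yv; simp
      have e2 : Zv κ (Real.pi / 2) x = -1 := by unfold Zv; simp
      rw [e1, e2, abs_mul, abs_of_pos hκ0, Real.mul_rpow hκ0.le (abs_nonneg _)]
      ring
    have hR : MR κ q (Real.pi / 2) = κ ^ q * mq q := by
      unfold MR mq
      rw [← integral_const_mul]
      refine integral_congr_ae (Eventually.of_forall fun x => ?_)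
      show |Yv κ (Real.pi / 2) x| ^ q = κ ^ q * |x| ^ q
      have e1 : Yv κ (Real.pi / 2) x = κ * x := by unfold Yv; simp
      rw [e1, abs_mul, abs_of_pos hκ0, Real.mul_rpow hκ0.le (abs_nonneg _)]
    rw [hV, hR, mm q hq] at hM
    have hp : κ ^ q = κ ^ (q - 2) * κ ^ 2 := by
      rw [← Real.rpow_natCast, ← Real.rpow_add hκ0]
      congr 1
      push_cast
      ring
    rw [hp, hκ2] at hM
    have c1 : 0 < κ ^ (q - 2) := Real.rpow_pos_of_pos hκ0 _
    have c2 : 0 < mq (q - 2) := m0 _ (by linarith)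
    have c3 : 0 < (q - 1) * (κ ^ (q - 2) * mq (q - 2)) := by
      have : 0 < q - 1 := by linarith
      positivity
    have c4 : q / (2 * (q - 1)) < 1 := by
      rw [div_lt_one hq1]
      linarith
    nlinarith
  have hf1 : 1 ≤ MR κ q α := by
    rw [← mr_zero κ q]
    exact hmax 0
  have hf0 : 0 < MR κ q α := by linarith
  have hσ : (MR κ q α ^ (1 / q)) ^ q = MR κ q α := by
    rw [← Real.rpow_mul hf0.le, one_div, inv_mul_cancel₀ (by linarith), Real.rpow_one]
  exact ⟨⟨α, MR κ q α ^ (1 / q), hα0', hα1', Real.rpow_pos_of_pos hf0 _, hσ.symm,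
    fun θ => by rw [hσ]; exact hmax θ⟩⟩

end Pool.Agent.Lib.MP_537232_an.NM
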