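import Pool.Agent.Lib.MP_537232_an.NM.SpecE

set_option autoImplicit false

/-!
# MP_537232_an, directory NM: binomial tails (`S_Bin`)
-/

namespace Pool.Agent.Lib.MP_537232_an.NM

open MeasureTheory ProbabilityTheory Finset Filter Topology

namespace Bin

/-- the exponent -/
private noncomputable def fe (α θ : ℝ) : ℝ :=
  Real.cos α ^ 2 * Real.log (Real.cos θ) + Real.sin α ^ 2 * Real.log (Real.sin θ)

private lemma cs_pos {θ : ℝ} (h0 : 0 < θ) (h1 : θ < Real.pi / 2) : 0 < Real.cos θ ∧ 0 < Real.sin θ :=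
  ⟨Real.cos_pos_of_mem_Ioo ⟨by linarith [Real.pi_pos], h1⟩,
    Real.sin_pos_of_pos_of_lt_pi h0 (by linarith [Real.pi_pos])⟩

private lemma fe_max {α : ℝ} (h0 : 0 < α) (h1 : α < Real.pi / 2) {e : ℝ} (he : 0 < e) :
    ∀ᶠ θ in 𝓝 α, fe α θ - fe α α ≤ -(1 - e) * (θ - α) ^ 2 := by
  obtain ⟨hc, hs⟩ := cs_pos h0 h1
  have hd : ∀ᶠ θ in 𝓝 α, HasDerivAt (fun θ => fe α θ + (1 - e) * (θ - α) ^ 2)
      (Real.cos α ^ 2 * (-Real.sin θ / Real.cos θ) + Real.sin α ^ 2 * (Real.cos θ / Real.sin θ) +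
        (1 - e) * (2 * (θ - α))) θ := by
    have hcn : ∀ᶠ θ in 𝓝 α, 0 < Real.cos θ :=
      Real.continuous_cos.continuousAt.eventually (lt_mem_nhds hc)
    have hsn : ∀ᶠ θ in 𝓝 α, 0 < Real.sin θ :=
      Real.continuous_sin.continuousAt.eventually (lt_mem_nhds hs)
    filter_upwards [hcn, hsn] with θ h2 h3
    have e1 := ((Real.hasDerivAt_cos θ).log h2.ne').const_mul (Real.cos α ^ 2)
    have e2 := ((Real.hasDerivAt_sin θ).log h3.ne').const_mul (Real.sin α ^ 2)
    have e3 := (((hasDerivAt_id θ).sub_const α).pow 2).const_mul (1 - e)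
    have e4 := (e1.add e2).add e3
    refine (e4.congr_deriv ?_)
    simp only [id]
    ring
  have hdd : HasDerivAt (fun θ => Real.cos α ^ 2 * (-Real.sin θ / Real.cos θ) +
      Real.sin α ^ 2 * (Real.cos θ / Real.sin θ) + (1 - e) * (2 * (θ - α))) (-2 * e) α := by
    have e1 : HasDerivAt (fun θ => Real.cos α ^ 2 * (-Real.sin θ / Real.cos θ))
        (Real.cos α ^ 2 * ((-Real.cos α * Real.cos α - (-Real.sin α) * -Real.sin α) /
          Real.cos α ^ 2)) α :=
      (((Real.hasDerivAt_sin α).neg.div (Real.hasDerivAt_cos α) hc.ne')).const_mul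
        (Real.cos α ^ 2)
    have e2 := (((Real.hasDerivAt_cos α).div (Real.hasDerivAt_sin α) hs.ne')).const_mul
      (Real.sin α ^ 2)
    have e3 := ((((hasDerivAt_id α).sub_const α).const_mul 2)).const_mul (1 - e)
    refine ((e1.add e2).add e3).congr_deriv ?_
    have h4 := Real.sin_sq_add_cos_sq α
    field_simp
    have h5 : Real.cos α ^ 2 = 1 - Real.sin α ^ 2 := by linarith
    linear_combination (-2 : ℝ) * h4
  have hdv : deriv (fun θ => fe α θ + (1 - e) * (θ - α) ^ 2) =ᶠ[𝓝 α]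
      fun θ => Real.cos α ^ 2 * (-Real.sin θ / Real.cos θ) +
      Real.sin α ^ 2 * (Real.cos θ / Real.sin θ) + (1 - e) * (2 * (θ - α)) :=
    hd.mono fun θ h => h.deriv
  have hmax := isLocalMax_of_deriv_deriv_neg (f := fun θ => fe α θ + (1 - e) * (θ - α) ^ 2)
    (x₀ := α) (by
      rw [hdv.deriv_eq, hdd.deriv]
      linarith) (by
      rw [hd.self_of_nhds.deriv]
      field_simp
      ring) hd.self_of_nhds.continuousAt
  filter_upwards [hmax] with θ h
  have h6 : fe α θ + (1 - e) * (θ - α) ^ 2 ≤ fe α α + (1 - e) * (α - α) ^ 2 := h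
  have h7 : (α - α) ^ 2 = 0 := by ring
  rw [h7] at h6
  linarith

private lemma co_exp {N m : ℕ} {θ : ℝ} (hc : 0 < Real.cos θ) (hs : 0 < Real.sin θ) :
    co N m θ ^ 2 = Real.exp (2 * (((N - m : ℕ) : ℝ) * Real.log (Real.cos θ) +
      m * Real.log (Real.sin θ))) := by
  have e1 : Real.exp (((N - m : ℕ) : ℝ) * Real.log (Real.cos θ)) = Real.cos θ ^ (N - m) := by
    rw [Real.exp_nat_mul, Real.exp_log hc]
  have e2 : Real.exp ((m : ℝ) * Real.log (Real.sin θ)) = Real.sin θ ^ m := by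
    rw [Real.exp_nat_mul, Real.exp_log hs]
  rw [two_mul, Real.exp_add, Real.exp_add, e1, e2, co]
  ring

private lemma co_le {N m : ℕ} (hm : m ≤ N) {α θ : ℝ} (hc : 0 < Real.cos θ) (hs : 0 < Real.sin θ)
    (hc' : 0 < Real.cos α) (hs' : 0 < Real.sin α)
    (h : ((m : ℝ) - N * Real.sin α ^ 2) * ((Real.log (Real.sin θ) - Real.log (Real.sin α)) -
      (Real.log (Real.cos θ) - Real.log (Real.cos α))) ≤ 0) :
    co N m θ ^ 2 ≤ co N m α ^ 2 * Real.exp (2 * N * (fe α θ - fe α α)) := by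
  rw [co_exp hc hs, co_exp hc' hs', ← Real.exp_add]
  apply Real.exp_le_exp.2
  rw [Nat.cast_sub hm]
  unfold fe
  have h4 := Real.sin_sq_add_cos_sq α
  have h5 : Real.cos α ^ 2 = 1 - Real.sin α ^ 2 := by linarith
  rw [h5]
  nlinarith [h]

private lemma co_sum (N : ℕ) (α : ℝ) :
    ∑ m ∈ range (N + 1), (N.choose m : ℝ) * co N m α ^ 2 = 1 := by
  have h := add_pow (Real.sin α ^ 2) (Real.cos α ^ 2) N
  rw [Real.sin_sq_add_cos_sq, one_pow] at h
  rw [h]
  refine Finset.sum_congr rfl fun m _ => ?_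
  unfold co
  ring

private lemma sum_le {N : ℕ} {α : ℝ} {E : ℝ} (hE : 0 ≤ E) {R : Finset ℕ} (hR : R ⊆ range (N + 1))
    {θ : ℝ} (h : ∀ m ∈ R, co N m θ ^ 2 ≤ co N m α ^ 2 * E) :
    ∑ m ∈ R, (N.choose m : ℝ) * co N m θ ^ 2 ≤ E := by
  calc ∑ m ∈ R, (N.choose m : ℝ) * co N m θ ^ 2
      ≤ ∑ m ∈ R, (N.choose m : ℝ) * co N m α ^ 2 * E := by
        refine Finset.sum_le_sum fun m hm => ?_
        rw [mul_assoc]
        exact mul_le_mul_of_nonneg_left (h m hm) (Nat.cast_nonneg _)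
    _ = (∑ m ∈ R, (N.choose m : ℝ) * co N m α ^ 2) * E := by rw [Finset.sum_mul]
    _ ≤ (∑ m ∈ range (N + 1), (N.choose m : ℝ) * co N m α ^ 2) * E := by
        refine mul_le_mul_of_nonneg_right (Finset.sum_le_sum_of_subset_of_nonneg hR
          fun m _ _ => ?_) hE
        positivity
    _ = E := by rw [co_sum, one_mul]

private lemma th_tendsto (α δ : ℝ) : Tendsto (fun N : ℕ => th α δ N) atTop (𝓝 α) := by
  have h1 : Tendsto (fun N : ℕ => Real.sqrt N) atTop atTop :=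
    Real.tendsto_sqrt_atTop.comp tendsto_natCast_atTop_atTop
  have h2 : Tendsto (fun N : ℕ => α + δ / Real.sqrt N) atTop (𝓝 (α + 0)) :=
    tendsto_const_nhds.add (h1.const_div_atTop δ)
  simpa [th] using h2

private lemma th_sq (α δ : ℝ) {N : ℕ} (hN : 1 ≤ N) : (N : ℝ) * (th α δ N - α) ^ 2 = δ ^ 2 := by
  have h0 : (0 : ℝ) < N := by exact_mod_cast hN
  unfold th
  rw [add_sub_cancel_left, div_pow, Real.sq_sqrt h0.le]
  field_simp

end Bin

open Bin in
theorem wBin : S_Bin := by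
  intro α h0 h1 δ ε hδ hε
  obtain ⟨hc, hs⟩ := cs_pos h0 h1
  set e : ℝ := Real.log (1 + ε) / (2 * δ ^ 2) with hedef
  have he : 0 < e := div_pos (Real.log_pos (by linarith)) (by positivity)
  have heδ : 2 * e * δ ^ 2 = Real.log (1 + ε) := by rw [hedef]; field_simp
  have hexp : Real.exp (-2 * (1 - e) * δ ^ 2) ≤ Real.exp (-2 * δ ^ 2) + ε := by
    have e1 : -2 * (1 - e) * δ ^ 2 = -2 * δ ^ 2 + Real.log (1 + ε) := by rw [← heδ]; ring
    rw [e1, Real.exp_add, Real.exp_log (by linarith)]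
    have e2 : Real.exp (-2 * δ ^ 2) ≤ 1 := Real.exp_le_one_iff.2 (by nlinarith)
    nlinarith
  have hev : ∀ᶠ θ in 𝓝 α, (0 < θ ∧ θ < Real.pi / 2) ∧
      fe α θ - fe α α ≤ -(1 - e) * (θ - α) ^ 2 :=
    ((eventually_gt_nhds h0).and (eventually_lt_nhds h1)).and (fe_max h0 h1 he)
  have hev1 := (th_tendsto α (-δ)).eventually hev
  have hev2 := (th_tendsto α δ).eventually hev
  obtain ⟨N₀, hN₀⟩ := eventually_atTop.1 ((hev1.and hev2).and (eventually_ge_atTop 1))
  refine ⟨N₀, fun N hN => ?_⟩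
  obtain ⟨⟨⟨⟨ha0, ha1⟩, ha2⟩, ⟨hb0, hb1⟩, hb2⟩, hN1⟩ := hN₀ N hN
  have hNpos : (0 : ℝ) < N := by exact_mod_cast hN1
  have hS0 : 0 ≤ (N : ℝ) * Real.sin α ^ 2 := by positivity
  have hE : ∀ d : ℝ, d ^ 2 = δ ^ 2 → fe α (th α d N) - fe α α ≤ -(1 - e) * (th α d N - α) ^ 2 →
      Real.exp (2 * N * (fe α (th α d N) - fe α α)) ≤ Real.exp (-2 * δ ^ 2) + ε := by
    intro d hd hdle
    refine le_trans (Real.exp_le_exp.2 ?_) hexp
    have e1 := th_sq α d hN1
    rw [hd] at e1
    calc 2 * (N : ℝ) * (fe α (th α d N) - fe α α)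
        ≤ 2 * (N : ℝ) * (-(1 - e) * (th α d N - α) ^ 2) :=
          mul_le_mul_of_nonneg_left hdle (by positivity)
      _ = -2 * (1 - e) * ((N : ℝ) * (th α d N - α) ^ 2) := by ring
      _ = -2 * (1 - e) * δ ^ 2 := by rw [e1]
  have hsq : 0 < Real.sqrt N := Real.sqrt_pos.2 hNpos
  have hlt : th α (-δ) N < α := by
    unfold th
    have : 0 < δ / Real.sqrt N := by positivity
    rw [neg_div]; linarith
  have hgt : α < th α δ N := by
    unfold th
    have : 0 < δ / Real.sqrt N := by positivity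
    linarith
  obtain ⟨hca, hsa⟩ := cs_pos ha0 ha1
  obtain ⟨hcb, hsb⟩ := cs_pos hb0 hb1
  constructor
  · refine le_trans (sum_le (α := α) (E := Real.exp (2 * N * (fe α (th α (-δ) N) - fe α α)))
      (Real.exp_pos _).le ?_ ?_) (hE (-δ) (by ring) ha2)
    · intro m hm
      rw [Rhi, Finset.mem_Ioc] at hm
      exact Finset.mem_range.2 (by omega)
    · intro m hm
      rw [Rhi, Finset.mem_Ioc] at hm
      refine co_le hm.2 hca hsa hc hs ?_
      have e1 : (N : ℝ) * Real.sin α ^ 2 < m := (Nat.floor_lt hS0).1 hm.1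
      have e2 : Real.log (Real.sin (th α (-δ) N)) ≤ Real.log (Real.sin α) :=
        Real.log_le_log hsa (Real.sin_le_sin_of_le_of_le_pi_div_two (by linarith) h1.le hlt.le)
      have e3 : Real.log (Real.cos α) ≤ Real.log (Real.cos (th α (-δ) N)) :=
        Real.log_le_log hc (Real.cos_le_cos_of_nonneg_of_le_pi ha0.le (by linarith) hlt.le)
      exact mul_nonpos_of_nonneg_of_nonpos (by linarith) (by linarith)
  · refine le_trans (sum_le (α := α) (E := Real.exp (2 * N * (fe α (th α δ N) - fe α α)))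
      (Real.exp_pos _).le ?_ ?_) (hE δ rfl hb2)
    · intro m hm
      have hk : kk α N ≤ N := by
        unfold kk
        refine Nat.floor_le_of_le ?_
        have := Real.sin_sq_le_one α
        nlinarith
      rw [Rlo, Finset.mem_range] at hm
      exact Finset.mem_range.2 (by omega)
    · intro m hm
      have hk : kk α N ≤ N := by
        unfold kk
        refine Nat.floor_le_of_le ?_
        have := Real.sin_sq_le_one α
        nlinarith
      rw [Rlo, Finset.mem_range] at hm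
      refine co_le (by omega) hcb hsb hc hs ?_
      have e1 : (m : ℝ) ≤ (N : ℝ) * Real.sin α ^ 2 := by
        have h5 : m ≤ kk α N := by omega
        exact (Nat.le_floor_iff hS0).1 h5
      have e2 : Real.log (Real.sin α) ≤ Real.log (Real.sin (th α δ N)) :=
        Real.log_le_log hs (Real.sin_le_sin_of_le_of_le_pi_div_two (by linarith) hb1.le hgt.le)
      have e3 : Real.log (Real.cos (th α δ N)) ≤ Real.log (Real.cos α) :=
        Real.log_le_log hcb (Real.cos_le_cos_of_nonneg_of_le_pi h0.le (by linarith) hgt.le)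
      exact mul_nonpos_of_nonpos_of_nonneg (by linarith) (by linarith)

end Pool.Agent.Lib.MP_537232_an.NM
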