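import Pool.Agent.Lib.MP_537232_an.NM.SpecD

set_option autoImplicit false

/-!
# MP_537232_an, directory NM, Blk: the blocks
-/

namespace Pool.Agent.Lib.MP_537232_an.NM

open MeasureTheory ProbabilityTheory Finset Filter Topology

namespace Blk

variable {q : ℝ} {C : Cst q} {N r : ℕ} {Pi : ℝ} {d : ℕ}

private theorem elim_mul {e : Option (Fin d)} (f g : Fin d → ℝ) :
    e.elim 1 f * e.elim 1 g = e.elim 1 fun x => f x * g x := by
  cases e <;> simp

private theorem tvtv (G G' : ℕ → Fin d → ℝ) (j : Fin d × (Fin N → Option (Fin d))) :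
    tv G j * tv G' j = (G 0 j.1 * G' 0 j.1) *
      ∏ l : Fin N, (j.2 l).elim 1 fun e => G (l + 1) e * G' (l + 1) e := by
  rw [tv, tv]
  have h : ∏ l : Fin N, (j.2 l).elim 1 (fun e => G (l + 1) e * G' (l + 1) e) =
      (∏ l : Fin N, (j.2 l).elim 1 (G (l + 1))) * ∏ l : Fin N, (j.2 l).elim 1 (G' (l + 1)) := by
    rw [← Finset.prod_mul_distrib]
    exact Finset.prod_congr rfl fun l _ => (elim_mul _ _).symm
  rw [h]
  ring

private theorem p1 (h1 : S_Ex) (h3 : S_Wwt) (α s : ℝ) (R : Finset ℕ) (hv : 0 < vp α s N R)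
    (G G' : ℕ → Fin d → ℝ) : ∑ j : Bx d N R, gv α s R G j * gv α s R G' j =
    gg (G 0) (G' 0) * ∑ m ∈ R, ww α s N m / vp α s N R *
      ∑ A ∈ powersetCard m (univ : Finset (Fin N)), ∏ l ∈ A, gg (G (l + 1)) (G' (l + 1)) := by
  have h := h1 d N R (fun m => ww α s N m / vp α s N R) (fun i => G 0 i * G' 0 i)
    fun l e => G (l + 1) e * G' (l + 1) e
  rw [show (∑ i, G 0 i * G' 0 i) = gg (G 0) (G' 0) from rfl] at h
  refine Eq.trans (Finset.sum_congr rfl fun j _ => ?_) h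
  have h5 : 0 ≤ ww α s N (nz j.1.2) / vp α s N R := div_nonneg (h3.1 α s N _).1 hv.le
  rw [gv, gv, ← tvtv]
  have h6 := Real.mul_self_sqrt h5
  calc _ = (Real.sqrt (ww α s N (nz j.1.2) / vp α s N R) *
        Real.sqrt (ww α s N (nz j.1.2) / vp α s N R)) * (tv G j.1 * tv G' j.1) := by ring
    _ = _ := by rw [h6]

private theorem p2 (h1 : S_Ex) (h3 : S_Wwt) (α s : ℝ) (R : Finset ℕ) (hv : 0 < vp α s N R)
    (G : ℕ → Fin d → ℝ) (hG : UG G) : ∑ j : Bx d N R, gv α s R G j ^ 2 = 1 := by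
  have h := p1 (N := N) h1 h3 α s R hv G G
  have hg : ∀ j, gg (G j) (G j) = 1 := by
    intro j
    rw [gg, ← hG j]
    exact Finset.sum_congr rfl fun i _ => (sq _).symm
  have h5 : ∑ j : Bx d N R, gv α s R G j ^ 2 = ∑ j : Bx d N R, gv α s R G j * gv α s R G j :=
    Finset.sum_congr rfl fun j _ => sq _
  rw [h5, h, hg, one_mul]
  have h6 : ∀ m ∈ R, ww α s N m / vp α s N R *
      ∑ A ∈ powersetCard m (univ : Finset (Fin N)), ∏ l ∈ A, gg (G (l + 1)) (G (l + 1)) =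
      ((N.choose m : ℝ) * ww α s N m) / vp α s N R := by
    intro m _
    have h7 : ∑ A ∈ powersetCard m (univ : Finset (Fin N)), ∏ l ∈ A, gg (G (l + 1)) (G (l + 1)) =
        (N.choose m : ℝ) := by
      have h8 : ∀ A ∈ powersetCard m (univ : Finset (Fin N)),
          ∏ l ∈ A, gg (G (l + 1)) (G (l + 1)) = (1 : ℝ) :=
        fun A _ => Finset.prod_eq_one fun l _ => hg _
      rw [Finset.sum_congr rfl h8]
      simp
    rw [h7]
    ring
  rw [Finset.sum_congr rfl h6, ← Finset.sum_div]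
  exact div_self hv.ne'

private theorem bmee (S : SiteD q C N r Pi d) (s : ℝ) (R : Finset ℕ) (l : ℕ) (j : Bx d N R)
    (ω : S.Om) : S.bm s R l j ω = Real.sqrt (vp C.α s N R / ww C.α s N (nz j.1.2)) *
      co N (nz j.1.2) (th C.α (s * qp l) N) * S.ee j.1 ω := rfl

private theorem subsum (R : Finset ℕ) (F : Fin d × (Fin N → Option (Fin d)) → ℝ)
    (hF : ∀ j, nz j.2 ∉ R → F j = 0) : ∑ j : Bx d N R, F j.1 = ∑ j, F j := by
  classical
  have h1 : ∑ j ∈ univ.filter (fun j : Fin d × (Fin N → Option (Fin d)) => nz j.2 ∈ R), F j =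
      ∑ j : Bx d N R, F j.1 := Finset.sum_subtype _ (fun x => by simp) F
  rw [← h1]
  apply Finset.sum_subset (Finset.filter_subset _ _)
  intro j _ hj
  apply hF
  intro h
  exact hj (Finset.mem_filter.2 ⟨mem_univ _, h⟩)

private theorem bdd (h3 : S_Wwt) (α s : ℝ) (R : Finset ℕ) (hR : R ⊆ range (N + 1))
    (hv : 0 < vp α s N R) (l m : ℕ) :
    (Real.sqrt (vp α s N R / ww α s N m) * co N m (th α (s * qp l) N)) ^ 2 ≤ 2 ^ (l + 1) := by
  have h4 := h3.1 α s N m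
  have h5 := h4.2 l
  have h6 := h3.2.1 α s N R hR
  rw [mul_pow, Real.sq_sqrt (div_nonneg hv.le h4.1)]
  rcases h4.1.eq_or_lt with h7 | h7
  · rw [← h7, div_zero, zero_mul]
    positivity
  · rw [div_mul_eq_mul_div, div_le_iff₀ h7]
    have h8 : co N m (th α (s * qp l) N) ^ 2 ≤ 2 ^ (l + 1) * ww α s N m := by
      have h9 := mul_le_mul_of_nonneg_left h5 (show (0 : ℝ) ≤ 2 ^ (l + 1) by positivity)
      rw [← mul_assoc, ← mul_pow] at h9
      norm_num at h9
      exact h9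
    calc _ ≤ 1 * co N m (th α (s * qp l) N) ^ 2 :=
          mul_le_mul_of_nonneg_right h6 (sq_nonneg _)
      _ ≤ _ := by rw [one_mul]; exact h8

private theorem p3 (h2 : S_Ee) (h3 : S_Wwt) (hq : 2 < q) (S : SiteD q C N r Pi d) (s : ℝ)
    (R : Finset ℕ) (hR : R ⊆ range (N + 1)) (hv : 0 < vp C.α s N R) (l : ℕ) (a : Bx d N R → ℝ) :
    ∑ ω, |∑ j, a j * S.bm s R l j ω| ^ q ≤ ((2 : ℝ) ^ (l + 1) * ∑ j, a j ^ 2) ^ (q / 2) := by
  classical
  let a' : Fin d × (Fin N → Option (Fin d)) → ℝ := fun j =>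
    if h : nz j.2 ∈ R then a ⟨j, h⟩ * (Real.sqrt (vp C.α s N R / ww C.α s N (nz j.2)) *
      co N (nz j.2) (th C.α (s * qp l) N)) else 0
  have ha' : ∀ j : Bx d N R, a' j.1 = a j * (Real.sqrt (vp C.α s N R / ww C.α s N (nz j.1.2)) *
      co N (nz j.1.2) (th C.α (s * qp l) N)) := fun j => dif_pos j.2
  have ha0 : ∀ j, nz j.2 ∉ R → a' j = 0 := fun j h => dif_neg h
  have h4 := h2 q hq C N r Pi d S a'
  have h5 : ∀ ω, ∑ j, a' j * S.ee j ω = ∑ j, a j * S.bm s R l j ω := by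
    intro ω
    rw [← subsum R (fun j => a' j * S.ee j ω) fun j h => by rw [ha0 j h, zero_mul]]
    refine Finset.sum_congr rfl fun j _ => ?_
    rw [ha', bmee]
    ring
  simp only [h5] at h4
  refine h4.trans (Real.rpow_le_rpow (Finset.sum_nonneg fun _ _ => sq_nonneg _) ?_ (by linarith))
  rw [← subsum R (fun j => a' j ^ 2) fun j h => by rw [ha0 j h]; simp, Finset.mul_sum]
  refine Finset.sum_le_sum fun j _ => ?_
  rw [ha', mul_pow, mul_comm]
  exact mul_le_mul_of_nonneg_right (bdd h3 C.α s R hR hv l _) (sq_nonneg _)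

private theorem p4 (h1 : S_Ex) (h3 : S_Wwt) (S : SiteD q C N r Pi d) (s : ℝ)
    (R : Finset ℕ) (hv : 0 < vp C.α s N R) (l : ℕ) (G : ℕ → Fin d → ℝ) (ω : S.Om) :
    ∑ j : Bx d N R, gv C.α s R G j * S.bm s R l j ω =
    Xs N R (S.xrow G) (th C.α (s * qp l) N) ω := by
  have hk : ∀ m, Real.sqrt (ww C.α s N m / vp C.α s N R) *
      (Real.sqrt (vp C.α s N R / ww C.α s N m) * co N m (th C.α (s * qp l) N)) =
      co N m (th C.α (s * qp l) N) := by
    intro m
    have h4 := h3.1 C.α s N m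
    rcases h4.1.eq_or_lt with h7 | h7
    · have h5 := h4.2 l
      rw [← h7] at h5
      have h8 : co N m (th C.α (s * qp l) N) = 0 := by
        have h9 : (0 : ℝ) < (1 / 2) ^ (l + 1) := by positivity
        have h10 : co N m (th C.α (s * qp l) N) ^ 2 ≤ 0 := by
          by_contra hcon
          push Not at hcon
          exact absurd h5 (not_le.2 (mul_pos h9 hcon))
        exact pow_eq_zero_iff (two_ne_zero) |>.1 (le_antisymm h10 (sq_nonneg _))
      rw [h8, mul_zero, mul_zero]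
    · rw [← mul_assoc, ← Real.sqrt_mul (div_nonneg h7.le hv.le)]
      rw [div_mul_div_comm, mul_comm (vp C.α s N R), div_self (mul_pos h7 hv).ne', Real.sqrt_one,
        one_mul]
  have h := h1 d N R (fun m => co N m (th C.α (s * qp l) N)) (fun i => G 0 i * S.ξ i ω.1)
    fun l e => G (l + 1) e * (kap q * S.ξ e (ω.2 l))
  have hterm : ∀ j : Bx d N R, gv C.α s R G j * S.bm s R l j ω =
      (S.wt ω ^ (1 / q) * mq q ^ (-(1 / q)) * (C.σ ^ N)⁻¹) *
      (co N (nz j.1.2) (th C.α (s * qp l) N) * ((G 0 j.1.1 * S.ξ j.1.1 ω.1) *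
        ∏ l : Fin N, (j.1.2 l).elim 1 fun e => G (l + 1) e * (kap q * S.ξ e (ω.2 l)))) := by
    intro j
    have h5 : ∏ l : Fin N, (j.1.2 l).elim 1 (fun e => G (l + 1) e * (kap q * S.ξ e (ω.2 l))) =
        (∏ l : Fin N, (j.1.2 l).elim 1 (G (l + 1))) *
          ∏ l : Fin N, (j.1.2 l).elim 1 fun e => kap q * S.ξ e (ω.2 l) := by
      rw [← Finset.prod_mul_distrib]
      exact Finset.prod_congr rfl fun l _ => (elim_mul _ _).symm
    rw [h5, bmee, gv, tv, SiteD.ee]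
    calc _ = (Real.sqrt (ww C.α s N (nz j.1.2) / vp C.α s N R) *
          (Real.sqrt (vp C.α s N R / ww C.α s N (nz j.1.2)) *
            co N (nz j.1.2) (th C.α (s * qp l) N))) *
          ((S.wt ω ^ (1 / q) * mq q ^ (-(1 / q)) * (C.σ ^ N)⁻¹) *
            ((G 0 j.1.1 * S.ξ j.1.1 ω.1) *
              ((∏ l : Fin N, (j.1.2 l).elim 1 (G (l + 1))) *
                ∏ l : Fin N, (j.1.2 l).elim 1 fun e => kap q * S.ξ e (ω.2 l)))) := by ring
      _ = _ := by rw [hk]; ring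
  rw [Finset.sum_congr rfl fun j _ => hterm j, ← Finset.mul_sum, h, Xs]
  have h6 : ∀ l : Fin N, ∑ e, G (l + 1) e * (kap q * S.ξ e (ω.2 l)) =
      kap q * S.lin (G (l + 1)) (ω.2 l) := by
    intro l
    rw [SiteD.lin, Finset.mul_sum]
    exact Finset.sum_congr rfl fun e _ => by ring
  simp only [h6]
  rw [Finset.mul_sum, Finset.mul_sum]
  refine Finset.sum_congr rfl fun m _ => ?_
  rw [SiteD.xrow]
  rw [show S.lin (G 0) ω.1 = ∑ i, G 0 i * S.ξ i ω.1 from rfl]
  ring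

end Blk

open Blk in
theorem wBlk (h1 : S_Ex) (h2 : S_Ee) (h3 : S_Wwt) : S_Blk := by
  intro q hq C N r Pi d S s R hR hv
  exact ⟨p1 h1 h3 C.α s R hv, p2 h1 h3 C.α s R hv, p3 h2 h3 hq S s R hR hv, p4 h1 h3 S s R hv⟩

end Pool.Agent.Lib.MP_537232_an.NM
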