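import Pool.Agent.Lib.MP_537232_an.NM.SpecD

set_option autoImplicit false

/-!
# MP_537232_an, directory NM: Cbx, dimensions
-/

namespace Pool.Agent.Lib.MP_537232_an.NM

open MeasureTheory ProbabilityTheory Finset

namespace Cbx

/-- The number of the patterns with at most `k` entries. -/
theorem card_pat (d N k : ℕ) (hd : 1 ≤ d) :
    ((univ : Finset (Fin N → Option (Fin d))).filter fun κ => nz κ ≤ k).card ≤ 2 ^ N * d ^ k := by
  classical
  set s := (univ : Finset (Fin N → Option (Fin d))).filter fun κ => nz κ ≤ k with hs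
  set f : (Fin N → Option (Fin d)) → Finset (Fin N) := fun κ => univ.filter fun j => κ j ≠ none
    with hf
  have h1 : s.card ≤ d ^ k * (s.image f).card := by
    apply Finset.card_le_mul_card_image
    intro A hA
    obtain ⟨κ₀, hκ₀, hA'⟩ := Finset.mem_image.1 hA
    have hAk : A.card ≤ k := by
      rw [← hA']
      exact (Finset.mem_filter.1 hκ₀).2
    have h2 : (s.filter fun κ => f κ = A).card ≤ (univ : Finset (A → Fin d)).card := by
      apply Finset.card_le_card_of_injOn (fun κ (j : A) => (κ j).getD ⟨0, hd⟩)
        (fun κ _ => Finset.mem_coe.2 (mem_univ _))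
      intro κ hκ κ' hκ' he
      have hκA : f κ = A := (Finset.mem_filter.1 (Finset.mem_coe.1 hκ)).2
      have hκA' : f κ' = A := (Finset.mem_filter.1 (Finset.mem_coe.1 hκ')).2
      funext j
      by_cases hj : j ∈ A
      · have i1 : j ∈ f κ := by rw [hκA]; exact hj
        have i2 : j ∈ f κ' := by rw [hκA']; exact hj
        have e1 : κ j ≠ none := (Finset.mem_filter.1 i1).2
        have e2 : κ' j ≠ none := (Finset.mem_filter.1 i2).2
        have e3 := congrFun he ⟨j, hj⟩
        simp only at e3
        obtain ⟨x, hx⟩ := Option.ne_none_iff_exists'.1 e1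
        obtain ⟨y, hy⟩ := Option.ne_none_iff_exists'.1 e2
        rw [hx, hy] at e3 ⊢
        simpa using e3
      · have e1 : κ j = none := by
          by_contra hn
          have i1 : j ∈ f κ := Finset.mem_filter.2 ⟨mem_univ _, hn⟩
          rw [hκA] at i1
          exact hj i1
        have e2 : κ' j = none := by
          by_contra hn
          have i1 : j ∈ f κ' := Finset.mem_filter.2 ⟨mem_univ _, hn⟩
          rw [hκA'] at i1
          exact hj i1
        rw [e1, e2]
    refine h2.trans ?_
    rw [Finset.card_univ, Fintype.card_fun, Fintype.card_fin, Fintype.card_coe]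
    exact Nat.pow_le_pow_right hd hAk
  refine h1.trans ?_
  rw [mul_comm]
  apply Nat.mul_le_mul_right
  calc (s.image f).card ≤ (univ : Finset (Finset (Fin N))).card := Finset.card_le_card (subset_univ _)
    _ = 2 ^ N := by rw [Finset.card_univ, Fintype.card_finset, Fintype.card_fin]

end Cbx

theorem wCbx : S_Cbx := by
  intro α d N hd
  classical
  constructor
  · have hz : nz (fun _ : Fin N => (none : Option (Fin d))) ∈ Rlo α N := by
      have h0 : nz (fun _ : Fin N => (none : Option (Fin d))) = 0 := by simp [nz]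
      rw [h0, Rlo]
      exact mem_range.2 (Nat.succ_pos _)
    have := Fintype.card_le_of_injective
      (fun i : Fin d => (⟨(i, fun _ => none), hz⟩ : Bx d N (Rlo α N)))
      (fun i j h => congrArg (fun x => x.1.1) h)
    rwa [Fintype.card_fin] at this
  · have h1 : Fintype.card (Bx d N (Rlo α N)) ≤
        Fintype.card (Fin d × {κ : Fin N → Option (Fin d) // nz κ ≤ kk α N}) := by
      apply Fintype.card_le_of_injective (fun j : Bx d N (Rlo α N) =>
        ((j.1.1, ⟨j.1.2, Nat.lt_succ_iff.1 (mem_range.1 j.2)⟩) :
          Fin d × {κ : Fin N → Option (Fin d) // nz κ ≤ kk α N}))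
      rintro ⟨⟨i, κ⟩, h⟩ ⟨⟨i', κ'⟩, h'⟩ he
      simp only [Prod.mk.injEq, Subtype.mk.injEq] at he
      simp only [Subtype.mk.injEq, Prod.mk.injEq]
      exact he
    refine h1.trans ?_
    rw [Fintype.card_prod, Fintype.card_fin, Fintype.card_subtype]
    calc d * _ ≤ d * (2 ^ N * d ^ kk α N) := Nat.mul_le_mul_left _ (Cbx.card_pat d N _ hd)
      _ = 2 ^ N * d ^ (kk α N + 1) := by ring

end Pool.Agent.Lib.MP_537232_an.NM
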