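import Pool.Agent.Lib.MP_537232_an.NM.SpecA

set_option autoImplicit false

/-!
# MP_537232_an, NM/Cfm: the formula for complex angles (helper82)
-/

namespace Pool.Agent.Lib.MP_537232_an.NM

open MeasureTheory ProbabilityTheory Finset Filter Topology

namespace Cfm

theorem point (κ θ y x : ℝ) :
    Complex.cos ((θ : ℂ) + (y : ℂ) * Complex.I) +
      (κ : ℂ) * Complex.sin ((θ : ℂ) + (y : ℂ) * Complex.I) * (x : ℂ) =
      ((Real.cosh y * Yv κ θ x : ℝ) : ℂ) + ((Real.sinh y * Zv κ θ x : ℝ) : ℂ) * Complex.I := by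
  rw [Complex.cos_add_mul_I, Complex.sin_add_mul_I]
  unfold Yv Zv
  push_cast
  ring

theorem norm_rpow (a b q : ℝ) :
    ‖((a : ℝ) : ℂ) + ((b : ℝ) : ℂ) * Complex.I‖ ^ q = (a ^ 2 + b ^ 2) ^ (q / 2) := by
  have h1 : ‖((a : ℝ) : ℂ) + ((b : ℝ) : ℂ) * Complex.I‖ ^ (2 : ℝ) = a ^ 2 + b ^ 2 := by
    rw [Real.rpow_two, ← Complex.normSq_eq_norm_sq, Complex.normSq_add_mul_I]
  rw [← h1, ← Real.rpow_mul (norm_nonneg _)]
  congr 1
  ring

end Cfm

theorem wCfm : S_Cfm := by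
  intro q κ z
  unfold MC
  refine integral_congr_ae (Filter.Eventually.of_forall fun x => ?_)
  have hz : z = (z.re : ℂ) + (z.im : ℂ) * Complex.I := (Complex.re_add_im z).symm
  show ‖Complex.cos z + (κ : ℂ) * Complex.sin z * (x : ℂ)‖ ^ q = _
  have h1 := Cfm.point κ z.re z.im x
  rw [← hz] at h1
  rw [h1, Cfm.norm_rpow, mul_pow, mul_pow]

end Pool.Agent.Lib.MP_537232_an.NM
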