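import Pool.Agent.Lib.MP_537232_an.NM.SpecA

set_option autoImplicit false

namespace Pool.Agent.Lib.MP_537232_an.NM

open MeasureTheory ProbabilityTheory Finset Filter Topology

namespace Clo

/-- the integrand -/
noncomputable def g (κ q T θ x : ℝ) : ℝ := (Yv κ θ x ^ 2 + T * (1 + κ ^ 2 * x ^ 2)) ^ (q / 2)

theorem yv_le (κ θ x : ℝ) : |Yv κ θ x| ≤ (1 + |κ|) * (1 + |x|) := by
  have e1 : |Yv κ θ x| ≤ |Real.cos θ| + |κ * Real.sin θ * x| := abs_add_le _ _
  have e2 : |κ * Real.sin θ * x| ≤ |κ| * |x| := by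
    rw [abs_mul, abs_mul]
    refine mul_le_mul_of_nonneg_right ?_ (abs_nonneg _)
    calc |κ| * |Real.sin θ| ≤ |κ| * 1 :=
          mul_le_mul_of_nonneg_left (Real.abs_sin_le_one θ) (abs_nonneg _)
      _ = |κ| := mul_one _
  have e3 := Real.abs_cos_le_one θ
  have e4 := abs_nonneg κ
  have e5 := abs_nonneg x
  nlinarith

theorem yz (κ θ x : ℝ) : Yv κ θ x ^ 2 + Zv κ θ x ^ 2 = 1 + κ ^ 2 * x ^ 2 := by
  unfold Yv Zv
  have := Real.sin_sq_add_cos_sq θ
  linear_combination (1 + κ ^ 2 * x ^ 2) * this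

theorem base_nonneg {κ T θ x : ℝ} (hT : 0 ≤ T) :
    0 ≤ Yv κ θ x ^ 2 + T * (1 + κ ^ 2 * x ^ 2) := by positivity

theorem g_nonneg {κ q T θ x : ℝ} (hT : 0 ≤ T) : 0 ≤ g κ q T θ x :=
  Real.rpow_nonneg (base_nonneg hT) _

theorem g_le {κ q T θ x : ℝ} (hq : 0 ≤ q) (hT : 0 ≤ T) :
    |g κ q T θ x| ≤ (1 + T) ^ (q / 2) * (1 + |κ|) ^ q * (1 + |x|) ^ q := by
  rw [abs_of_nonneg (g_nonneg hT)]
  have h1 : Yv κ θ x ^ 2 ≤ ((1 + |κ|) * (1 + |x|)) ^ 2 := by
    rw [← sq_abs]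
    exact pow_le_pow_left₀ (abs_nonneg _) (yv_le κ θ x) 2
  have h2 : 1 + κ ^ 2 * x ^ 2 ≤ ((1 + |κ|) * (1 + |x|)) ^ 2 := by
    have e1 : κ ^ 2 * x ^ 2 = (|κ| * |x|) ^ 2 := by rw [mul_pow, sq_abs, sq_abs]
    rw [e1]
    have e2 := abs_nonneg κ
    have e3 := abs_nonneg x
    have e4 : 0 ≤ |κ| * |x| := mul_nonneg e2 e3
    have e5 : 1 + |κ| * |x| ≤ (1 + |κ|) * (1 + |x|) := by nlinarith
    have e6 : 1 + (|κ| * |x|) ^ 2 ≤ (1 + |κ| * |x|) ^ 2 := by nlinarith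
    exact e6.trans (pow_le_pow_left₀ (by positivity) e5 2)
  have h3 : Yv κ θ x ^ 2 + T * (1 + κ ^ 2 * x ^ 2) ≤ (1 + T) * ((1 + |κ|) * (1 + |x|)) ^ 2 := by
    have := mul_le_mul_of_nonneg_left h2 hT
    linarith
  unfold g
  refine (Real.rpow_le_rpow (base_nonneg hT) h3 (by linarith)).trans (le_of_eq ?_)
  rw [Real.mul_rpow (by positivity) (by positivity), ← Real.rpow_natCast (_ * _) 2,
    ← Real.rpow_mul (by positivity)]
  have : ((2 : ℕ) : ℝ) * (q / 2) = q := by push_cast; ring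
  rw [this, Real.mul_rpow (by positivity) (by positivity)]
  ring

theorem g_cont (κ : ℝ) {q : ℝ} (hq : 0 ≤ q) (T : ℝ) :
    Continuous fun z : ℝ × ℝ => g κ q T z.1 z.2 := by
  unfold g Yv
  exact (by fun_prop : Continuous fun z : ℝ × ℝ =>
    (Real.cos z.1 + κ * Real.sin z.1 * z.2) ^ 2 + T * (1 + κ ^ 2 * z.2 ^ 2)).rpow_const
    fun x => Or.inr (by linarith)

theorem g_int (h1 : S_Int) (κ : ℝ) {q T : ℝ} (hq : 0 ≤ q) (hT : 0 ≤ T) (θ : ℝ) :
    Integrable (fun x => g κ q T θ x) gam := by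
  have hc : Continuous fun x : ℝ => ((θ, x) : ℝ × ℝ) := by fun_prop
  have h : Continuous fun x : ℝ => g κ q T θ x := by
    have h := (g_cont κ hq T).comp hc
    simpa only [Function.comp_def] using h
  have hb : ∀ x, |g κ q T θ x| ≤ (1 + T) ^ (q / 2) * (1 + |κ|) ^ q * (1 + |x|) ^ q :=
    fun x => g_le hq hT
  exact (h1 _ q hq).1 _ h hb

/-- the integral -/
noncomputable def G (κ q T θ : ℝ) : ℝ := ∫ x, g κ q T θ x ∂gam

theorem G_cont (h1 : S_Int) (κ : ℝ) {q T : ℝ} (hq : 0 ≤ q) (hT : 0 ≤ T) :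
    Continuous fun θ => G κ q T θ := by
  refine (h1 ((1 + T) ^ (q / 2) * (1 + |κ|) ^ q) q hq).2 (fun θ x => g κ q T θ x)
    (g_cont κ hq T) fun θ x => g_le hq hT

theorem g_zero (κ q θ x : ℝ) : g κ q 0 θ x = |Yv κ θ x| ^ q := by
  unfold g
  rw [zero_mul, add_zero, ← sq_abs, ← Real.rpow_natCast, ← Real.rpow_mul (abs_nonneg _)]
  congr 1
  push_cast
  ring

theorem G_zero (κ q θ : ℝ) : G κ q 0 θ = MR κ q θ := by
  unfold G MR
  exact integral_congr_ae (Eventually.of_forall fun x => g_zero κ q θ x)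

theorem MC_eq (h2 : S_Cfm) (κ q : ℝ) (z : ℂ) : MC κ q z = G κ q (Real.sinh z.im ^ 2) z.re := by
  rw [h2]
  unfold G
  refine integral_congr_ae (Eventually.of_forall fun x => ?_)
  show (_ : ℝ) ^ (q / 2) = (_ : ℝ) ^ (q / 2)
  congr 1
  rw [← yz κ z.re x, Real.cosh_sq]
  ring

/-- convexity in `T` -/
theorem g_conv {κ q T T₀ θ x : ℝ} (hq : 2 < q) (hT : 0 ≤ T) (hTT : T ≤ T₀) (hT₀ : 0 < T₀) :
    g κ q T θ x ≤ g κ q 0 θ x + T / T₀ * (g κ q T₀ θ x - g κ q 0 θ x) := by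
  have hconv := convexOn_rpow (show (1 : ℝ) ≤ q / 2 by linarith)
  have hA : Yv κ θ x ^ 2 + 0 * (1 + κ ^ 2 * x ^ 2) ∈ Set.Ici (0 : ℝ) := base_nonneg le_rfl
  have hB : Yv κ θ x ^ 2 + T₀ * (1 + κ ^ 2 * x ^ 2) ∈ Set.Ici (0 : ℝ) := base_nonneg hT₀.le
  have hb : 0 ≤ T / T₀ := by positivity
  have ha : 0 ≤ 1 - T / T₀ := by
    have : T / T₀ ≤ 1 := (div_le_one hT₀).2 hTT
    linarith
  have h3 := hconv.2 hA hB ha hb (by ring)
  simp only [smul_eq_mul] at h3
  have e : (1 - T / T₀) * (Yv κ θ x ^ 2 + 0 * (1 + κ ^ 2 * x ^ 2))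
      + T / T₀ * (Yv κ θ x ^ 2 + T₀ * (1 + κ ^ 2 * x ^ 2))
      = Yv κ θ x ^ 2 + T * (1 + κ ^ 2 * x ^ 2) := by
    field_simp
    ring
  rw [e] at h3
  unfold g
  linarith

theorem G_conv (h1 : S_Int) {κ q T T₀ θ : ℝ} (hq : 2 < q) (hT : 0 ≤ T) (hTT : T ≤ T₀)
    (hT₀ : 0 < T₀) : G κ q T θ ≤ G κ q 0 θ + T / T₀ * (G κ q T₀ θ - G κ q 0 θ) := by
  have hq0 : 0 ≤ q := by linarith
  have i0 := g_int h1 κ hq0 le_rfl θ
  have i1 := g_int h1 κ hq0 hT₀.le θ
  have e : G κ q 0 θ + T / T₀ * (G κ q T₀ θ - G κ q 0 θ)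
      = ∫ x, (g κ q 0 θ x + T / T₀ * (g κ q T₀ θ x - g κ q 0 θ x)) ∂gam := by
    have a1 : ∫ x, (g κ q 0 θ x + T / T₀ * (g κ q T₀ θ x - g κ q 0 θ x)) ∂gam
        = (∫ x, g κ q 0 θ x ∂gam) + ∫ x, T / T₀ * (g κ q T₀ θ x - g κ q 0 θ x) ∂gam :=
      integral_add i0 ((i1.sub i0).const_mul _)
    have a2 : ∫ x, (g κ q T₀ θ x - g κ q 0 θ x) ∂gam
        = (∫ x, g κ q T₀ θ x ∂gam) - ∫ x, g κ q 0 θ x ∂gam := integral_sub i1 i0
    rw [a1, integral_const_mul, a2]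
    rfl
  rw [e]
  exact integral_mono (g_int h1 κ hq0 hT θ) (i0.add ((i1.sub i0).const_mul _))
    fun x => g_conv hq hT hTT hT₀

/-- the derivative at `T = 0` -/
theorem G_der (h1 : S_Int) {κ q : ℝ} (hq : 2 < q) (θ : ℝ) :
    Tendsto (fun T : ℝ => (G κ q T θ - G κ q 0 θ) / T) (𝓝[>] 0)
      (𝓝 (q / 2 * (MR κ q θ + VS κ q θ))) := by
  have hq0 : 0 ≤ q := by linarith
  have key : Tendsto (fun T : ℝ => ∫ x, (g κ q T θ x - g κ q 0 θ x) / T ∂gam) (𝓝[>] 0)
      (𝓝 (∫ x, q / 2 * (Yv κ θ x ^ 2) ^ (q / 2 - 1) * (1 + κ ^ 2 * x ^ 2) ∂gam)) := by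
    refine tendsto_integral_filter_of_dominated_convergence (fun x => g κ q 1 θ x) ?_ ?_
      (g_int h1 κ hq0 zero_le_one θ) ?_
    · filter_upwards [self_mem_nhdsWithin] with T hT
      exact (((g_int h1 κ hq0 (le_of_lt hT) θ).sub (g_int h1 κ hq0 le_rfl θ)).div_const
        T).aestronglyMeasurable
    · filter_upwards [Ioo_mem_nhdsGT (show (0 : ℝ) < 1 by norm_num)] with T hT
      refine Eventually.of_forall fun x => ?_
      have h3 := g_conv (κ := κ) (θ := θ) (x := x) hq hT.1.le hT.2.le one_pos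
      rw [div_one] at h3
      have h4 : g κ q 0 θ x ≤ g κ q T θ x := by
        unfold g
        refine Real.rpow_le_rpow (base_nonneg le_rfl) ?_ (by linarith)
        have : 0 ≤ T * (1 + κ ^ 2 * x ^ 2) := mul_nonneg hT.1.le (by positivity)
        linarith
      rw [Real.norm_eq_abs, abs_of_nonneg (div_nonneg (by linarith) hT.1.le), div_le_iff₀ hT.1]
      have h5 : 0 ≤ g κ q 0 θ x := g_nonneg le_rfl
      nlinarith [hT.1]
    · refine Eventually.of_forall fun x => ?_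
      have hd : HasDerivAt (fun T : ℝ => g κ q T θ x)
          (q / 2 * (Yv κ θ x ^ 2) ^ (q / 2 - 1) * (1 + κ ^ 2 * x ^ 2)) 0 := by
        have h := (((hasDerivAt_id (0 : ℝ)).mul_const (1 + κ ^ 2 * x ^ 2)).const_add
          (Yv κ θ x ^ 2)).rpow_const (p := q / 2) (Or.inr (by linarith))
        refine h.congr_deriv ?_
        show 1 * (1 + κ ^ 2 * x ^ 2) * (q / 2) * (Yv κ θ x ^ 2 + 0 * (1 + κ ^ 2 * x ^ 2)) ^ (q / 2 - 1)
          = _
        rw [zero_mul, add_zero]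
        ring
      have h2 := hd.tendsto_slope_zero
      have h3 := h2.mono_left (nhdsWithin_mono (0 : ℝ) (fun t (ht : 0 < t) => ht.ne' :
        Set.Ioi (0 : ℝ) ⊆ {0}ᶜ))
      refine h3.congr' ?_
      filter_upwards with T
      rw [zero_add, smul_eq_mul, div_eq_inv_mul]
  have e1 : ∫ x, q / 2 * (Yv κ θ x ^ 2) ^ (q / 2 - 1) * (1 + κ ^ 2 * x ^ 2) ∂gam
      = q / 2 * (MR κ q θ + VS κ q θ) := by
    have p1 : ∀ x, (Yv κ θ x ^ 2) ^ (q / 2 - 1) = |Yv κ θ x| ^ (q - 2) := fun x => by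
      rw [← sq_abs, ← Real.rpow_natCast, ← Real.rpow_mul (abs_nonneg _)]
      congr 1
      push_cast
      ring
    have p2 : ∀ x, |Yv κ θ x| ^ (q - 2) * Yv κ θ x ^ 2 = |Yv κ θ x| ^ q := fun x => by
      by_cases h : Yv κ θ x = 0
      · rw [h, abs_zero, Real.zero_rpow (by linarith : q ≠ 0)]
        ring
      · rw [← sq_abs, ← Real.rpow_natCast, ← Real.rpow_add (abs_pos.2 h)]
        congr 1
        push_cast
        ring
    have i1 : Integrable (fun x => |Yv κ θ x| ^ q) gam := by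
      have := g_int h1 κ hq0 le_rfl θ
      exact this.congr (Eventually.of_forall fun x => g_zero κ q θ x)
    have i2 : Integrable (fun x => |Yv κ θ x| ^ (q - 2) * Zv κ θ x ^ 2) gam := by
      refine (h1 ((1 + |κ|) ^ q) q hq0).1 _ ?_ fun x => ?_
      · refine Continuous.mul ?_ (by unfold Zv; fun_prop)
        exact (by unfold Yv; fun_prop : Continuous fun x => |Yv κ θ x|).rpow_const
          fun x => Or.inr (by linarith)
      · have b0 : 0 < (1 + |κ|) * (1 + |x|) := by positivity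
        have b1 : |Yv κ θ x| ^ (q - 2) ≤ ((1 + |κ|) * (1 + |x|)) ^ (q - 2) :=
          Real.rpow_le_rpow (abs_nonneg _) (yv_le κ θ x) (by linarith)
        have b2 : Zv κ θ x ^ 2 ≤ ((1 + |κ|) * (1 + |x|)) ^ 2 := by
          have : Zv κ θ x = Yv κ (θ + Real.pi / 2) x := by
            unfold Zv Yv
            rw [Real.cos_add_pi_div_two, Real.sin_add_pi_div_two]
          rw [this, ← sq_abs]
          exact pow_le_pow_left₀ (abs_nonneg _) (yv_le κ _ x) 2
        rw [abs_of_nonneg (mul_nonneg (Real.rpow_nonneg (abs_nonneg _) _) (sq_nonneg _))]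
        refine (mul_le_mul b1 b2 (sq_nonneg _) (Real.rpow_nonneg b0.le _)).trans (le_of_eq ?_)
        rw [← Real.rpow_natCast, ← Real.rpow_add b0, ← Real.mul_rpow (by positivity) (by positivity)]
        congr 1
        push_cast
        ring
    have e2 : (fun x => q / 2 * (Yv κ θ x ^ 2) ^ (q / 2 - 1) * (1 + κ ^ 2 * x ^ 2))
        = fun x => q / 2 * (|Yv κ θ x| ^ q + |Yv κ θ x| ^ (q - 2) * Zv κ θ x ^ 2) := by
      funext x
      rw [p1, ← yz κ θ x, ← p2]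
      ring
    rw [e2, integral_const_mul, integral_add i1 i2]
    rfl
  rw [e1] at key
  refine key.congr' ?_
  filter_upwards [self_mem_nhdsWithin] with T hT
  have a2 : ∫ x, (g κ q T θ x - g κ q 0 θ x) ∂gam
      = (∫ x, g κ q T θ x ∂gam) - ∫ x, g κ q 0 θ x ∂gam :=
    integral_sub (g_int h1 κ hq0 (le_of_lt hT) θ) (g_int h1 κ hq0 le_rfl θ)
  rw [integral_div, a2]
  rfl

end Clo

open Clo in
theorem wClo (h1 : S_Int) (h2 : S_Max) (h3 : S_Cfm) : S_Clo := by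
  intro q hq C x y ε hε
  have hq0 : 0 ≤ q := by linarith
  have hq1 : 0 < q - 1 := by linarith
  set κ := kap q
  set S := C.σ ^ q with hS
  have hS0 : 0 < S := Real.rpow_pos_of_pos C.σ_pos _
  have hatt : MR κ q C.α = S := C.att
  have hVS : (q - 1) * VS κ q C.α ≤ S := by
    have := h2 q κ C.α hq fun θ => (C.max θ).trans (le_of_eq C.att.symm)
    rwa [hatt] at this
  have hlim : q / 2 * (MR κ q C.α + VS κ q C.α) ≤ q * bq q * S := by
    have e : q * bq q * S = q / 2 * (S + S / (q - 1)) := by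
      unfold bq
      field_simp
      ring
    rw [e, hatt]
    have : VS κ q C.α ≤ S / (q - 1) := by
      rw [le_div_iff₀ hq1]
      linarith
    have hq2 : 0 ≤ q / 2 := by linarith
    exact mul_le_mul_of_nonneg_left (by linarith) hq2
  -- choice of T₀
  set e' := ε * S / (2 * (y ^ 2 + 1)) with he'
  have he0 : 0 < e' := by positivity
  have hD := G_der h1 (κ := κ) hq C.α
  have hev : ∀ᶠ T in 𝓝[>] (0 : ℝ), (G κ q T C.α - G κ q 0 C.α) / T < q * bq q * S + e' :=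
    hD.eventually_lt_const (by linarith)
  obtain ⟨T₀, hT₀, hT0⟩ := (hev.and self_mem_nhdsWithin).exists
  have hT0' : 0 < T₀ := hT0
  -- the limits
  have hs : Tendsto (fun N : ℕ => 1 / Real.sqrt (N : ℝ)) atTop (𝓝 0) :=
    tendsto_const_nhds.div_atTop (Real.tendsto_sqrt_atTop.comp tendsto_natCast_atTop_atTop)
  have hs' : Tendsto (fun N : ℕ => 1 / Real.sqrt (N : ℝ)) atTop (𝓝[≠] 0) := by
    refine tendsto_nhdsWithin_iff.2 ⟨hs, ?_⟩
    filter_upwards [eventually_ge_atTop 1] with N hN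
    have : (0 : ℝ) < N := by exact_mod_cast hN
    have := Real.sqrt_pos.2 this
    exact (by positivity : (1 / Real.sqrt (N : ℝ)) ≠ 0)
  have hsh : Tendsto (fun N : ℕ => (N : ℝ) * Real.sinh (y / Real.sqrt N) ^ 2) atTop (𝓝 (y ^ 2)) := by
    have hd : HasDerivAt (fun s : ℝ => Real.sinh (y * s)) y 0 := by
      have h := (((hasDerivAt_id (0 : ℝ)).const_mul y)).sinh
      simpa using h
    have h4 := (hd.tendsto_slope_zero.comp hs').pow 2
    refine h4.congr' ?_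
    filter_upwards [eventually_ge_atTop 1] with N hN
    have hN0 : (0 : ℝ) < N := by exact_mod_cast hN
    have hsq := Real.sqrt_pos.2 hN0
    simp only [Function.comp, zero_add, mul_zero, Real.sinh_zero, sub_zero, smul_eq_mul]
    rw [mul_pow, one_div, inv_inv, Real.sq_sqrt hN0.le]
    rw [div_eq_mul_inv y]
  have hTN : Tendsto (fun N : ℕ => Real.sinh (y / Real.sqrt N) ^ 2) atTop (𝓝 0) := by
    have hc : Continuous fun s : ℝ => Real.sinh (y * s) ^ 2 := by fun_prop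
    have h4 := (hc.tendsto 0).comp hs
    simp only [mul_zero, Real.sinh_zero] at h4
    rw [zero_pow two_ne_zero] at h4
    refine h4.congr fun N => ?_
    simp only [Function.comp]
    rw [mul_one_div]
  have hθ : Tendsto (fun N : ℕ => C.α + x / Real.sqrt N) atTop (𝓝 C.α) := by
    have h4 := (hs.const_mul x).const_add C.α
    rw [mul_zero, add_zero] at h4
    refine h4.congr fun N => ?_
    rw [mul_one_div]
  have hF : Tendsto (fun N : ℕ => G κ q T₀ (C.α + x / Real.sqrt N)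
      - G κ q 0 (C.α + x / Real.sqrt N)) atTop (𝓝 (G κ q T₀ C.α - G κ q 0 C.α)) := by
    have hc : Continuous fun θ => G κ q T₀ θ - G κ q 0 θ :=
      (G_cont h1 κ hq0 hT0'.le).sub (G_cont h1 κ hq0 le_rfl)
    exact (hc.tendsto C.α).comp hθ
  have hprod := hsh.mul (hF.div_const T₀)
  have hlt : y ^ 2 * ((G κ q T₀ C.α - G κ q 0 C.α) / T₀) < S * (q * bq q * y ^ 2 + ε) := by
    have a1 : y ^ 2 * ((G κ q T₀ C.α - G κ q 0 C.α) / T₀) ≤ y ^ 2 * (q * bq q * S + e') :=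
      mul_le_mul_of_nonneg_left hT₀.le (sq_nonneg y)
    have a2 : y ^ 2 * e' < S * ε := by
      have : y ^ 2 * e' = S * ε * (y ^ 2 / (2 * (y ^ 2 + 1))) := by
        rw [he']
        field_simp
      rw [this]
      have b1 : y ^ 2 / (2 * (y ^ 2 + 1)) < 1 := by
        rw [div_lt_one (by positivity)]
        nlinarith [sq_nonneg y]
      have b2 : 0 < S * ε := by positivity
      nlinarith
    nlinarith
  have hev2 := hprod.eventually_lt_const hlt
  have hev3 := hTN.eventually_le_const hT0'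
  obtain ⟨N₁, hN₁⟩ := (hev2.and hev3).exists_forall_of_atTop
  refine ⟨max N₁ 1, le_max_right _ _, fun N hN => ?_⟩
  have hN1 : 1 ≤ N := (le_max_right _ _).trans hN
  have hN0 : (0 : ℝ) < N := by exact_mod_cast hN1
  obtain ⟨c1, c2⟩ := hN₁ N ((le_max_left _ _).trans hN)
  set z : ℂ := (C.α : ℂ) + ((x : ℂ) + (y : ℂ) * Complex.I) / ((Real.sqrt N : ℝ) : ℂ) with hz
  have him : z.im = y / Real.sqrt N := by
    rw [hz, Complex.add_im, Complex.ofReal_im, zero_add, Complex.div_ofReal_im]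
    simp
  have hre : z.re = C.α + x / Real.sqrt N := by
    rw [hz, Complex.add_re, Complex.ofReal_re, Complex.div_ofReal_re]
    simp
  rw [MC_eq h3, him, hre]
  set T := Real.sinh (y / Real.sqrt N) ^ 2 with hT
  have hT' : 0 ≤ T := sq_nonneg _
  have d1 := G_conv h1 (κ := κ) (θ := C.α + x / Real.sqrt N) hq hT' c2 hT0'
  have d2 : G κ q 0 (C.α + x / Real.sqrt N) ≤ S := by
    rw [G_zero]
    exact C.max _
  set F := G κ q T₀ (C.α + x / Real.sqrt N) - G κ q 0 (C.α + x / Real.sqrt N) with hFd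
  have d3 : (N : ℝ) * T * (F / T₀) < S * (q * bq q * y ^ 2 + ε) := c1
  have d4 : T / T₀ * F ≤ S * ((q * bq q * y ^ 2 + ε) / N) := by
    have : S * ((q * bq q * y ^ 2 + ε) / N) = (S * (q * bq q * y ^ 2 + ε)) / N := by ring
    rw [this, le_div_iff₀ hN0]
    have : T / T₀ * F * N = (N : ℝ) * T * (F / T₀) := by ring
    rw [this]
    exact d3.le
  have : S * (1 + (q * bq q * y ^ 2 + ε) / N) = S + S * ((q * bq q * y ^ 2 + ε) / N) := by ring
  rw [this]
  linarith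

end Pool.Agent.Lib.MP_537232_an.NM
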