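import Pool.Agent.Lib.MP_537232_an.NM.SpecC

set_option autoImplicit false

/-!
# MP_537232_an, NM/Cnd (helper68)
-/

namespace Pool.Agent.Lib.MP_537232_an.NM

open MeasureTheory ProbabilityTheory Finset Filter Topology

namespace Cnd

variable {X : Type} [MeasurableSpace X] {I : Type} [Fintype I] [MeasurableSpace I]
  [MeasurableSingletonClass I] {μ : Measure X} [IsProbabilityMeasure μ] {s : X → I}

theorem split {E : Type} [NormedAddCommGroup E] [NormedSpace ℝ E] (hs : Measurable s) (f : X → E)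
    (hf : ∀ i, IntegrableOn f (s ⁻¹' {i}) μ) :
    ∫ x, f x ∂μ = ∑ i, ∫ x in s ⁻¹' {i}, f x ∂μ := by
  rw [← integral_iUnion_fintype (fun i => hs (measurableSet_singleton i)) ?_ hf]
  · have : (⋃ i, s ⁻¹' {i}) = Set.univ := by
      ext x
      simp
    rw [this, setIntegral_univ]
  · intro i j hij
    refine Set.disjoint_left.2 fun x hx hx' => hij ?_
    exact (Set.mem_singleton_iff.1 hx).symm.trans (Set.mem_singleton_iff.1 hx')

theorem cell {E : Type} [NormedAddCommGroup E] [NormedSpace ℝ E] {A : Set X} {F : X → E} {r : ℝ}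
    (hr : 1 ≤ r) (hF : Integrable F μ) (hF2 : Integrable (fun x => ‖F x‖ ^ r) μ) :
    μ.real A * ‖(μ.real A)⁻¹ • ∫ x in A, F x ∂μ‖ ^ r ≤ ∫ x in A, ‖F x‖ ^ r ∂μ := by
  by_cases h0 : μ.real A = 0
  · rw [h0, zero_mul]
    exact integral_nonneg fun x => Real.rpow_nonneg (norm_nonneg _) _
  have hpos : 0 < μ.real A := lt_of_le_of_ne measureReal_nonneg (Ne.symm h0)
  have hA0 : μ A ≠ 0 := fun h => h0 (by rw [Measure.real, h, ENNReal.toReal_zero])
  have h1 : (⨍ x in A, ‖F x‖ ∂μ) ^ r ≤ ⨍ x in A, ‖F x‖ ^ r ∂μ := by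
    refine (convexOn_rpow hr).map_set_average_le (f := fun x => ‖F x‖) ?_ isClosed_Ici hA0
      (measure_ne_top _ _) (Eventually.of_forall fun x => norm_nonneg _) hF.norm.integrableOn ?_
    · exact (Real.continuous_rpow_const (by linarith)).continuousOn
    · exact hF2.integrableOn
  rw [setAverage_eq, setAverage_eq, smul_eq_mul, smul_eq_mul] at h1
  have h2 : ‖(μ.real A)⁻¹ • ∫ x in A, F x ∂μ‖ ≤ (μ.real A)⁻¹ * ∫ x in A, ‖F x‖ ∂μ := by
    rw [norm_smul, Real.norm_of_nonneg (inv_nonneg.2 hpos.le)]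
    exact mul_le_mul_of_nonneg_left (norm_integral_le_integral_norm _) (inv_nonneg.2 hpos.le)
  have h3 : ‖(μ.real A)⁻¹ • ∫ x in A, F x ∂μ‖ ^ r ≤ (μ.real A)⁻¹ * ∫ x in A, ‖F x‖ ^ r ∂μ :=
    (Real.rpow_le_rpow (norm_nonneg _) h2 (by linarith)).trans h1
  calc μ.real A * ‖(μ.real A)⁻¹ • ∫ x in A, F x ∂μ‖ ^ r
      ≤ μ.real A * ((μ.real A)⁻¹ * ∫ x in A, ‖F x‖ ^ r ∂μ) :=
        mul_le_mul_of_nonneg_left h3 hpos.le
    _ = _ := by rw [← mul_assoc, mul_inv_cancel₀ h0, one_mul]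

theorem part1 {E : Type} [NormedAddCommGroup E] [NormedSpace ℝ E] (hs : Measurable s) {F : X → E}
    {r : ℝ} (hr : 1 ≤ r) (hF : Integrable F μ) (hF2 : Integrable (fun x => ‖F x‖ ^ r) μ) :
    ∑ i, μ.real (s ⁻¹' {i}) * ‖cnd μ s F i‖ ^ r ≤ ∫ x, ‖F x‖ ^ r ∂μ := by
  rw [split hs _ fun i => hF2.integrableOn]
  exact Finset.sum_le_sum fun i _ => cell hr hF hF2

end Cnd

open Cnd in
theorem wCnd : S_Cnd := by
  intro X _ I _ _ _ μ _ s hs
  refine ⟨fun r F hr hF hF2 => part1 hs hr hF hF2, fun r F hr hF hF2 => ?_, fun F c hF => ?_⟩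
  · exact part1 (E := ℝ) hs hr hF hF2
  · have hcell : ∀ i, Set.EqOn (fun x => F x * c (s x)) (fun x => F x * c i) (s ⁻¹' {i}) := by
      intro i x hx
      have h1 : s x = i := hx
      simp only [h1]
    have hm : ∀ i, MeasurableSet (s ⁻¹' {i}) := fun i => hs (measurableSet_singleton i)
    have hint : ∀ i, IntegrableOn (fun x => F x * c (s x)) (s ⁻¹' {i}) μ := fun i =>
      ((hF.mul_const (c i)).integrableOn).congr_fun (hcell i).symm (hm i)
    rw [split hs _ hint]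
    refine Finset.sum_congr rfl fun i _ => ?_
    rw [setIntegral_congr_fun (hm i) (hcell i), integral_mul_const, cnd, smul_eq_mul]
    by_cases h0 : μ.real (s ⁻¹' {i}) = 0
    · have hA0 : μ (s ⁻¹' {i}) = 0 := by
        rcases (ENNReal.toReal_eq_zero_iff _).1 h0 with h | h
        · exact h
        · exact absurd h (measure_ne_top _ _)
      rw [setIntegral_measure_zero _ hA0, h0]
      simp
    · field_simp

end Pool.Agent.Lib.MP_537232_an.NM
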