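import Pool.Agent.Lib.MP_537232_an.NM.SpecS

set_option autoImplicit false

/-!
# MP_537232_an, NM/Coh: small coherence (helper82)
-/

namespace Pool.Agent.Lib.MP_537232_an.NM

open MeasureTheory ProbabilityTheory Finset Filter Topology

theorem wCoh : S_Coh := by
  classical
  intro v Γ s μ δ h1 hμ hΓ hs J a hJ
  have e1 : ∑ t ∈ J, ∑ t' ∈ J, a t * a t' * Γ t t' - ∑ t ∈ J, a t ^ 2 =
      ∑ t ∈ J, ∑ t' ∈ J, (a t * a t' * Γ t t' - if t = t' then a t ^ 2 else 0) := by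
    rw [← sum_sub_distrib]
    refine sum_congr rfl fun t ht => ?_
    rw [sum_sub_distrib, sum_ite_eq, if_pos ht]
  have e2 : ∀ t t', |a t * a t' * Γ t t' - if t = t' then a t ^ 2 else 0| ≤ μ * (|a t| * |a t'|) := by
    intro t t'
    by_cases h : t = t'
    · subst h
      rw [if_pos rfl, h1, mul_one, ← sq, sub_self, abs_zero]
      positivity
    · rw [if_neg h, sub_zero, abs_mul, abs_mul, mul_comm]
      exact mul_le_mul_of_nonneg_right (hΓ t t' h) (by positivity)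
  have e3 : 0 ≤ ∑ t ∈ J, a t ^ 2 := sum_nonneg fun t _ => sq_nonneg _
  have e4 : ((J.card : ℕ) : ℝ) ≤ s := by exact_mod_cast hJ
  rw [e1]
  calc |∑ t ∈ J, ∑ t' ∈ J, (a t * a t' * Γ t t' - if t = t' then a t ^ 2 else 0)|
      ≤ ∑ t ∈ J, |∑ t' ∈ J, (a t * a t' * Γ t t' - if t = t' then a t ^ 2 else 0)| :=
        abs_sum_le_sum_abs _ _
    _ ≤ ∑ t ∈ J, ∑ t' ∈ J, μ * (|a t| * |a t'|) :=
        sum_le_sum fun t _ => (abs_sum_le_sum_abs _ _).trans (sum_le_sum fun t' _ => e2 t t')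
    _ = μ * (∑ t ∈ J, |a t|) ^ 2 := by
        rw [sq, sum_mul_sum, mul_sum]
        refine sum_congr rfl fun t _ => ?_
        rw [mul_sum]
    _ ≤ μ * (J.card * ∑ t ∈ J, a t ^ 2) := by
        refine mul_le_mul_of_nonneg_left ?_ hμ
        have h2 := sq_sum_le_card_mul_sum_sq (s := J) (f := fun t => |a t|)
        simp only [sq_abs] at h2
        exact h2
    _ ≤ μ * (s * ∑ t ∈ J, a t ^ 2) :=
        mul_le_mul_of_nonneg_left (mul_le_mul_of_nonneg_right e4 e3) hμ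
    _ = μ * s * ∑ t ∈ J, a t ^ 2 := by ring
    _ ≤ δ * ∑ t ∈ J, a t ^ 2 := mul_le_mul_of_nonneg_right hs e3

end Pool.Agent.Lib.MP_537232_an.NM
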