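import Pool.Agent.Lib.MP_537232_an.NM.SpecJ

set_option autoImplicit false

/-!
# ColM: `R` belongs to the ideal of `S_M` (operators from `V*` to `U_*`)
-/

open scoped ENNReal Topology
open Filter Finset

namespace Pool.Agent.Lib.MP_537232_an.NM

namespace ColM

/-- operators on `V*` given on the even blocks -/
lemma exists_even {v : ℕ → ℕ} {Z : Type} [NormedAddCommGroup Z] [NormedSpace ℝ Z] [CompleteSpace Z]
    (f : ∀ m, Fin (v (2 * m)) → Z) {C : ℝ} (hC : 0 ≤ C) (hf : ∀ m t, ‖f m t‖ ≤ C) :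
    ∃ A : YSp v →L[ℝ] Z, (∀ m t, A (eY v ⟨2 * m, t⟩) = f m t) ∧
      ∀ m t, A (eY v ⟨2 * m + 1, t⟩) = 0 := by
  have hex : ∀ n, ∃ ρ : Fin (v n) → Z,
      (∀ m (h : 2 * m = n) (t : Fin (v (2 * m))), ρ (h ▸ t) = f m t) ∧
      (∀ m, 2 * m + 1 = n → ρ = 0) ∧ ∀ t, ‖ρ t‖ ≤ C := by
    intro n
    obtain ⟨m, hm | hm⟩ := Nat.even_or_odd' n
    · subst hm
      refine ⟨fun t => f m t, fun m' h' t => ?_, fun m' h' => ?_, fun t => hf m t⟩
      · have : m' = m := by omega
        subst this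
        rfl
      · omega
    · subst hm
      refine ⟨0, fun m' h' => ?_, fun m' h' => rfl, fun t => ?_⟩
      · omega
      · simpa using hC
  choose ρ hρ1 hρ2 hρ3 using hex
  obtain ⟨A, -, hA⟩ := Y_lift (v := v) (X := Z) (fun ν => ρ ν.1 ν.2) hC (fun ν => hρ3 ν.1 ν.2)
  refine ⟨A, fun m t => ?_, fun m t => ?_⟩
  · rw [hA]
    exact hρ1 (2 * m) m rfl t
  · rw [hA]
    change ρ (2 * m + 1) t = 0
    rw [hρ2 (2 * m + 1) m rfl]
    rfl

/-- coordinate functionals on `V*` -/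
lemma exists_dual (v : ℕ → ℕ) (ν : Ix v) : ∃ e : YSp v →L[ℝ] ℝ, e (eY v ν) = 1 ∧
    ∀ μ, μ ≠ ν → e (eY v μ) = 0 := by
  classical
  obtain ⟨e, -, he⟩ := Y_lift (v := v) (X := ℝ) (fun μ => if μ = ν then 1 else 0) zero_le_one
    (fun μ => by split_ifs <;> simp)
  refine ⟨e, ?_, fun μ hμ => ?_⟩
  · rw [he, if_pos rfl]
  · rw [he, if_neg hμ]

lemma rpow_aux {n : ℕ} (z : EuclideanSpace ℝ (Fin n)) (k : ℕ) (q : ℝ) :
    ((2 : ℝ) ^ k * ∑ j, z j ^ 2) ^ (q / 2) = (Real.sqrt (2 ^ k) * ‖z‖) ^ q := by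
  have h1 : ‖z‖ = Real.sqrt (∑ j, z j ^ 2) := by
    rw [EuclideanSpace.norm_eq]
    simp
  have h2 : 0 ≤ ∑ j, z j ^ 2 := Finset.sum_nonneg fun j _ => sq_nonneg _
  rw [h1, ← Real.sqrt_mul (by positivity), Real.sqrt_eq_rpow, ← Real.rpow_mul (by positivity)]
  congr 1
  ring

end ColM

open ColM in
theorem wColM (h1 : S_Fr) (h2 : S_Opc) : S_ColM := by
  intro q hq _ X J hJ hJn R hR M S hS b φ hb hbM hφ hA
  classical
  have hq0 : 0 < q := by linarith
  have hq1 : 1 < q := by linarith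
  -- `S ≠ 0`
  have hS1 : ∀ m (t : Fin (X.P.v (b m))), S (eY X.P.v ⟨b m, t⟩) =
      lp.single (qE q) (b m) (X.P.g (b m) t) := by
    intro m t
    rw [hS ⟨b m, t⟩, if_pos (hbM m)]
  have hS0 : S ≠ 0 := by
    intro h0
    have h3 := hS1 0 (φ 0 ⟨0, X.P.v_pos _⟩)
    rw [h0, zero_apply] at h3
    have h4 : ‖(lp.single (qE q) (b 0) (X.P.g (b 0) (φ 0 ⟨0, X.P.v_pos _⟩)) :
        lp (E X.P.u) (qE q))‖ = 1 := by
      rw [lp.norm_single (lt_of_lt_of_le zero_lt_one (Fact.out : 1 ≤ qE q)), X.P.norm_g]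
    rw [← h3, norm_zero] at h4
    exact zero_ne_one h4
  refine (isClosedIdeal_idealGen S).mem_of_approx fun ε hε => ?_
  obtain ⟨i, hi⟩ := exists_nat_one_div_lt hε
  choose B hBn hBa using hA
  -- the operators `B^l`
  have hBl : ∀ l, ∃ Bl : lp (E X.P.u) (qE q) →L[ℝ] lp (E X.P.u) (qE q),
      ∀ m (z : E X.P.u (b m)), Bl (lp.single (qE q) (b m) z) =
        J m fun ω => ∑ j, z j * B m l j ω := by
    intro l
    have h5 : ∀ m (ω : Fin (X.D m)) (z : E X.P.u (b m)),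
        inner ℝ ((WithLp.toLp 2 fun j => B m l j ω : E X.P.u (b m))) z = ∑ j, z j * B m l j ω := by
      intro m ω z
      rw [PiLp.inner_apply]
      refine Finset.sum_congr rfl fun j _ => ?_
      simp
    obtain ⟨Bl, hBl⟩ := h2 q hq1 X.P.u X.P.u_pos X.D b J
      (fun m ω => WithLp.toLp 2 fun j => B m l j ω) (Real.sqrt (2 ^ (l + 1))) hJ hb
      (Real.sqrt_nonneg _) (fun m z => by
        simp only [h5]
        exact (hBn m l z).trans (le_of_eq (rpow_aux _ _ q)))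
    refine ⟨Bl, fun m z => ?_⟩
    rw [hBl]
    simp only [h5]
  choose Bl hBl using hBl
  -- the coefficients
  have hc : ∀ m (t : Fin (X.P.v (2 * m))), ∃ c : Fin (X.L i) → ℝ, (∀ l, |c l| ≤ |X.Cc i|) ∧
      (m < i → c = 0) ∧ (i ≤ m → ∑ ω, |(X.st m).r t ω - ∑ l, c l * ∑ j,
        X.P.g (b m) (φ m t) j * B m l j ω| ^ q ≤ (1 / ((i : ℝ) + 1)) ^ q) := by
    intro m t
    by_cases him : i ≤ m
    · obtain ⟨c, hc, hc2⟩ := hBa m i him t
      exact ⟨c, fun l => (hc l).trans (le_abs_self _), fun h => absurd h (not_lt.2 him),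
        fun _ => hc2⟩
    · exact ⟨0, fun l => by simp, fun _ => rfl, fun h => absurd h him⟩
  choose c hc1 hc2 hc3 using hc
  -- the operators `A^l`
  have hAl : ∀ l : Fin (X.L i), ∃ A : YSp X.P.v →L[ℝ] YSp X.P.v,
      (∀ m t, A (eY X.P.v ⟨2 * m, t⟩) = c m t l • eY X.P.v ⟨b m, φ m t⟩) ∧
      ∀ m t, A (eY X.P.v ⟨2 * m + 1, t⟩) = 0 := by
    intro l
    refine exists_even (fun m t => c m t l • eY X.P.v ⟨b m, φ m t⟩) (abs_nonneg (X.Cc i))
      fun m t => ?_
    rw [norm_smul, norm_eY, mul_one, Real.norm_eq_abs]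
    exact hc1 m t l
  choose Al hAl1 hAl2 using hAl
  choose e he1 he2 using ColM.exists_dual X.P.v
  have hF : {ν : Ix X.P.v | ν.1 ∈ {n : ℕ | n < 2 * i}}.Finite := finite_fst (Set.finite_lt_nat _)
  set S1 : YSp X.P.v →L[ℝ] lp (E X.P.u) (qE q) :=
    ∑ l : Fin (X.L i), ((Bl l).comp S).comp (Al l) with hS1d
  set S2 : YSp X.P.v →L[ℝ] lp (E X.P.u) (qE q) :=
    ∑ ν ∈ hF.toFinset, (e ν).smulRight (R (eY X.P.v ν)) with hS2d
  have hS2 : ∀ μ, S2 (eY X.P.v μ) = if μ.1 < 2 * i then R (eY X.P.v μ) else 0 := by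
    intro μ
    rw [hS2d, _root_.sum_apply]
    have h6 : ∀ ν, ((e ν).smulRight (R (eY X.P.v ν))) (eY X.P.v μ) =
        if μ = ν then R (eY X.P.v ν) else 0 := by
      intro ν
      rw [ContinuousLinearMap.smulRight_apply]
      split_ifs with h
      · rw [h, he1, one_smul]
      · rw [he2 ν μ h, zero_smul]
    simp only [h6]
    rw [Finset.sum_ite_eq]
    simp
  refine ⟨S1 + S2, Submodule.add_mem _ ?_ ?_, ?_⟩
  · rw [hS1d]
    exact Submodule.sum_mem _ fun l _ => (isClosedIdeal_idealGen S).comp _ _ _ (mem_idealGen S)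
  · rw [hS2d]
    exact Submodule.sum_mem _ fun ν _ => h1 _ _ S hS0 _ _
  · refine (Y_norm_le _ (C := 1 / ((i : ℝ) + 1)) (by positivity) fun ν => ?_).trans hi.le
    have hpos : (0 : ℝ) ≤ 1 / ((i : ℝ) + 1) := by positivity
    obtain ⟨n, t⟩ := ν
    obtain ⟨m, hm | hm⟩ := Nat.even_or_odd' n
    · subst hm
      rw [_root_.sub_apply, _root_.add_apply, hS2]
      have h7 : S1 (eY X.P.v ⟨2 * m, t⟩) =
          J m fun ω => ∑ l : Fin (X.L i), c m t l * ∑ j, X.P.g (b m) (φ m t) j * B m l j ω := by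
        rw [hS1d, _root_.sum_apply]
        have h8 : ∀ l : Fin (X.L i), (((Bl l).comp S).comp (Al l)) (eY X.P.v ⟨2 * m, t⟩) =
            c m t l • J m fun ω => ∑ j, X.P.g (b m) (φ m t) j * B m l j ω := by
          intro l
          rw [ContinuousLinearMap.comp_apply, ContinuousLinearMap.comp_apply, hAl1, map_smul,
            map_smul, hS1, hBl]
        simp only [h8]
        rw [← Finset.sum_congr rfl fun l _ => (map_smul (J m) _ _), ← map_sum]
        congr 1
        funext ω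
        simp [Finset.sum_apply]
      by_cases him : i ≤ m
      · rw [if_neg (by simp only; omega), add_zero, h7, hR.1 m t, ← map_sub, hJn]
        have h9 := hc3 m t him
        have h11 : (1 / ((i : ℝ) + 1)) = ((1 / ((i : ℝ) + 1)) ^ q) ^ (1 / q) := by
          rw [← Real.rpow_mul hpos, mul_one_div_cancel hq0.ne', Real.rpow_one]
        rw [h11]
        refine Real.rpow_le_rpow (Finset.sum_nonneg fun ω _ => Real.rpow_nonneg (abs_nonneg _) _)
          ?_ (by positivity)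
        exact h9
      · rw [if_pos (by simp only; omega)]
        have h9 : c m t = 0 := hc2 m t (not_le.1 him)
        have h10 : S1 (eY X.P.v ⟨2 * m, t⟩) = 0 := by
          rw [h7]
          have : (fun ω : Fin (X.D m) => ∑ l : Fin (X.L i), c m t l *
              ∑ j, X.P.g (b m) (φ m t) j * B m l j ω) = 0 := by
            funext ω
            simp [h9]
          rw [this, map_zero]
        rw [h10, zero_add, sub_self, norm_zero]
        exact hpos
    · subst hm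
      rw [_root_.sub_apply, _root_.add_apply, hS2, hR.2 m t]
      have h7 : S1 (eY X.P.v ⟨2 * m + 1, t⟩) = 0 := by
        rw [hS1d, _root_.sum_apply]
        refine Finset.sum_eq_zero fun l _ => ?_
        rw [ContinuousLinearMap.comp_apply, hAl2, map_zero]
      rw [h7]
      simp only [ite_self, add_zero, sub_zero, norm_zero]
      exact hpos

end Pool.Agent.Lib.MP_537232_an.NM
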