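import Pool.Agent.Lib.MP_537232_an.NM.SpecJ

set_option autoImplicit false

/-!
# MP_537232_an, directory NM: proof of `DatE`
-/

namespace Pool.Agent.Lib.MP_537232_an.NM

theorem wDatE (h1 : S_Par) : S_DatE := by
  intro q hq
  refine ⟨?_, fun X m => ?_⟩
  · obtain ⟨P, c, Cc, L, hc, hst⟩ := h1 q hq
    exact ⟨⟨P, c, Cc, L, hc, fun m => Classical.choice (hst m)⟩⟩
  · have hv : 0 < X.P.v (2 * m) := X.P.v_pos _
    have hp := (X.st m).pair ⟨0, hv⟩
    have hc := X.c_pos
    rcases Nat.eq_zero_or_pos (X.D m) with h0 | h0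
    · exfalso
      have hE : IsEmpty (Fin (X.st m).D) := by
        have : (X.st m).D = 0 := h0
        rw [this]
        infer_instance
      rw [Finset.univ_eq_empty, Finset.sum_empty] at hp
      linarith
    · exact h0

end Pool.Agent.Lib.MP_537232_an.NM
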