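import Pool.Agent.Lib.MP_537232_an.NM.SpecC

set_option autoImplicit false

namespace Pool.Agent.Lib.MP_537232_an.NM

open MeasureTheory ProbabilityTheory Finset Filter Topology

namespace Dsc

theorem id_int : Integrable (fun x : ℝ => x) gam := by
  have h := (memLp_id_gaussianReal' (μ := 0) (v := 1) 1 (by simp)).integrable le_rfl
  exact h

theorem id_mem2 : MemLp (fun x : ℝ => x) 2 gam :=
  memLp_id_gaussianReal' (μ := 0) (v := 1) 2 (by simp)

theorem int_id : ∫ x, x ∂gam = 0 := integral_id_gaussianReal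

theorem int_sq : ∫ x, x ^ 2 ∂gam = 1 := by
  have h := variance_fun_id_gaussianReal (μ := 0) (v := 1)
  rw [variance_eq_integral measurable_id'.aemeasurable] at h
  have h0 : ∫ x, x ∂(gaussianReal 0 1) = 0 := integral_id_gaussianReal
  rw [h0] at h
  have h2 : ∫ x, x ^ 2 ∂gam = ∫ x, (x - 0) ^ 2 ∂(gaussianReal 0 1) := by
    simp only [sub_zero]; rfl
  rw [h2, h]
  simp

section cells

variable {K : ℕ} {s : ℝ → Fin K} (hs : Measurable s)

include hs

theorem cell_meas (i : Fin K) : MeasurableSet (s ⁻¹' {i}) := hs (measurableSet_singleton i)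

theorem int_cell (G : ℝ → ℝ) (hG : Integrable G gam) (Φ : Fin K → ℝ) :
    ∫ x, G x * Φ (s x) ∂gam = ∑ i, Φ i * ∫ x in s ⁻¹' {i}, G x ∂gam := by
  have h1 : ∀ x, G x * Φ (s x) = ∑ i, (s ⁻¹' {i}).indicator (fun x => Φ i * G x) x := by
    intro x
    rw [Finset.sum_eq_single (s x)]
    · rw [Set.indicator_of_mem (by simp : x ∈ s ⁻¹' {s x}), mul_comm]
    · intro b _ hb
      exact Set.indicator_of_notMem (by simpa using fun h => hb h.symm) _
    · intro h; exact absurd (Finset.mem_univ _) h
  simp_rw [h1]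
  rw [integral_finsetSum]
  · refine Finset.sum_congr rfl fun i _ => ?_
    rw [integral_indicator (cell_meas hs i), integral_const_mul]
  · intro i _
    exact (hG.const_mul _).indicator (cell_meas hs i)

theorem sum_p : ∑ i, gam.real (s ⁻¹' {i}) = 1 := by
  have h := int_cell hs (fun _ => 1) (integrable_const _) fun _ => 1
  simp only [mul_one, one_mul, integral_const, smul_eq_mul] at h
  rw [← probReal_univ (μ := gam), h]
  exact Finset.sum_congr rfl fun i _ => by simp

variable {c : Fin K → ℝ} {v : ℝ}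
  (hc : ∀ i, c i * gam.real (s ⁻¹' {i}) = ∫ x in s ⁻¹' {i}, x ∂gam)
  (hv : v = ∑ i, gam.real (s ⁻¹' {i}) * c i ^ 2)

include hc

theorem sum_pc : ∑ i, gam.real (s ⁻¹' {i}) * c i = 0 := by
  have h := int_cell hs (fun x => x) id_int fun _ => 1
  simp only [mul_one, one_mul] at h
  rw [int_id] at h
  rw [h]
  exact Finset.sum_congr rfl fun i _ => by rw [← hc i, mul_comm]

include hv

theorem int_xc : ∫ x, x * c (s x) ∂gam = v := by
  rw [int_cell hs (fun x => x) id_int c, hv]
  exact Finset.sum_congr rfl fun i _ => by rw [← hc i]; ring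

omit hc in
theorem int_cc : ∫ x, c (s x) ^ 2 ∂gam = v := by
  have h := int_cell hs (fun _ => 1) (integrable_const _) fun i => c i ^ 2
  simp only [one_mul] at h
  rw [h, hv]
  refine Finset.sum_congr rfl fun i _ => ?_
  simp only [integral_const, smul_eq_mul, mul_one]
  rw [mul_comm]
  simp

omit hc hv in
theorem cs_mem2 : MemLp (fun x => c (s x)) 2 gam := by
  have hm : Measurable fun x => c (s x) := (measurable_of_finite c).comp hs
  refine MemLp.of_bound hm.aestronglyMeasurable (∑ i, |c i|) (Eventually.of_forall fun x => ?_)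
  rw [Real.norm_eq_abs]
  exact Finset.single_le_sum (f := fun i => |c i|) (fun i _ => abs_nonneg _) (Finset.mem_univ (s x))

omit hc hv in
theorem cs_int : Integrable (fun x => c (s x)) gam := (cs_mem2 hs).integrable (by norm_num)

omit hc hv in
theorem h_mem2 : MemLp (fun x => x - c (s x)) 2 gam := id_mem2.sub (cs_mem2 hs)

omit hc hv in
theorem h_int : Integrable (fun x => x - c (s x)) gam := id_int.sub (cs_int hs)

omit hv in
theorem int_h : ∫ x, (x - c (s x)) ∂gam = 0 := by
  rw [integral_sub id_int (cs_int hs), int_id]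
  have h := int_cell hs (fun _ => 1) (integrable_const _) c
  simp only [one_mul] at h
  rw [h, zero_sub, neg_eq_zero, ← sum_pc hs hc]
  refine Finset.sum_congr rfl fun i _ => ?_
  simp only [integral_const, smul_eq_mul, mul_one]
  rw [mul_comm]
  simp

theorem int_h2 : ∫ x, (x - c (s x)) ^ 2 ∂gam = 1 - v := by
  have h1 : ∀ x, (x - c (s x)) ^ 2 = x ^ 2 - (2 * (x * c (s x)) - c (s x) ^ 2) := fun x => by ring
  simp_rw [h1]
  have i1 : Integrable (fun x : ℝ => x ^ 2) gam := id_mem2.integrable_sq
  have i2 : Integrable (fun x => x * c (s x)) gam := by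
    have := id_mem2.integrable_mul (cs_mem2 (c := c) hs)
    exact this
  have i3 : Integrable (fun x => c (s x) ^ 2) gam := (cs_mem2 hs).integrable_sq
  have i4 : Integrable (fun x => 2 * (x * c (s x)) - c (s x) ^ 2) gam := (i2.const_mul 2).sub i3
  rw [integral_sub i1 i4, integral_sub (i2.const_mul 2) i3,
    integral_const_mul, int_sq, int_xc hs hc hv, int_cc hs hv]
  ring

end cells

section box

variable {K d : ℕ} {s : ℝ → Fin K} (hs : Measurable s) {S : (Fin d → ℝ) → (Fin d → Fin K)}
  (hS : ∀ x i, S x i = s (x i))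

include hs hS

theorem S_meas : Measurable S := by
  refine measurable_pi_iff.2 fun i => ?_
  have h : (fun x => S x i) = fun x => s (x i) := funext fun x => hS x i
  rw [h]
  exact hs.comp (measurable_pi_apply i)

theorem boxI (ω : Fin d → Fin K) (f : Fin d → ℝ → ℝ) :
    ∫ x in S ⁻¹' {ω}, ∏ l, f l (x l) ∂(gad d) = ∏ l, ∫ y in s ⁻¹' {ω l}, f l y ∂gam := by
  rw [← integral_indicator (S_meas hs hS (measurableSet_singleton ω))]
  have h1 : ∀ x : Fin d → ℝ, (S ⁻¹' {ω}).indicator (fun x => ∏ l, f l (x l)) x =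
      ∏ l, (s ⁻¹' {ω l}).indicator (f l) (x l) := by
    intro x
    by_cases hx : S x = ω
    · rw [Set.indicator_of_mem (by simpa using hx)]
      refine Finset.prod_congr rfl fun l _ => ?_
      rw [Set.indicator_of_mem]
      rw [Set.mem_preimage, Set.mem_singleton_iff, ← hS, hx]
    · rw [Set.indicator_of_notMem (by simpa using hx)]
      obtain ⟨l, hl⟩ : ∃ l, S x l ≠ ω l := by
        by_contra h
        push Not at h
        exact hx (funext h)
      refine (Finset.prod_eq_zero (Finset.mem_univ l) ?_).symm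
      refine Set.indicator_of_notMem ?_ _
      rw [Set.mem_preimage, Set.mem_singleton_iff, ← hS]
      exact hl
  simp_rw [h1]
  rw [gad, integral_fintype_prod_eq_prod fun l => (s ⁻¹' {ω l}).indicator (f l)]
  exact Finset.prod_congr rfl fun l _ => integral_indicator (cell_meas hs _)

theorem boxP (ω : Fin d → Fin K) :
    (gad d).real (S ⁻¹' {ω}) = ∏ l, gam.real (s ⁻¹' {ω l}) := by
  have h := boxI hs hS ω fun _ _ => 1
  simpa using h

theorem boxX {c : Fin K → ℝ} (hc : ∀ i, c i * gam.real (s ⁻¹' {i}) = ∫ x in s ⁻¹' {i}, x ∂gam)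
    (ω : Fin d → Fin K) (i : Fin d) :
    ∫ x in S ⁻¹' {ω}, x i ∂(gad d) = (gad d).real (S ⁻¹' {ω}) * c (ω i) := by
  have h := boxI hs hS ω fun l y => if l = i then y else 1
  have h1 : ∀ x : Fin d → ℝ, ∏ l, (if l = i then x l else 1) = x i := by
    intro x
    rw [Finset.prod_ite_eq' Finset.univ i, if_pos (Finset.mem_univ i)]
  simp_rw [h1] at h
  rw [h, boxP hs hS]
  have h2 : ∀ l, ∫ y in s ⁻¹' {ω l}, (if l = i then y else 1) ∂gam =
      gam.real (s ⁻¹' {ω l}) * if l = i then c (ω l) else 1 := by
    intro l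
    by_cases hl : l = i
    · subst hl
      simp only [if_true]
      rw [← hc, mul_comm]
    · simp only [if_neg hl]
      simp
  rw [Finset.prod_congr rfl fun l _ => h2 l, Finset.prod_mul_distrib,
    Finset.prod_ite_eq' Finset.univ i, if_pos (Finset.mem_univ i)]

theorem sumP (f : Fin d → Fin K → ℝ) :
    ∑ ω, (gad d).real (S ⁻¹' {ω}) * ∏ l, f l (ω l) = ∏ l, ∑ i, gam.real (s ⁻¹' {i}) * f l i := by
  rw [Finset.prod_univ_sum, Fintype.piFinset_univ]
  refine Finset.sum_congr rfl fun ω _ => ?_
  rw [boxP hs hS, Finset.prod_mul_distrib]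

end box

theorem two {d : ℕ} (h : ℝ → ℝ) (h0 : ∫ x, h x ∂gam = 0) (i j : Fin d) :
    ∫ x, h (x i) * h (x j) ∂(gad d) = if i = j then ∫ x, h x ^ 2 ∂gam else 0 := by
  have h1 : ∀ x : Fin d → ℝ, h (x i) * h (x j) =
      ∏ l, (fun y => (if l = i then h y else 1) * (if l = j then h y else 1)) (x l) := by
    intro x
    simp only
    rw [Finset.prod_mul_distrib, Finset.prod_ite_eq' Finset.univ i (fun l => h (x l)),
      if_pos (Finset.mem_univ i), Finset.prod_ite_eq' Finset.univ j (fun l => h (x l)),
      if_pos (Finset.mem_univ j)]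
  simp_rw [h1]
  rw [gad, integral_fintype_prod_eq_prod
    fun l y => (if l = i then h y else 1) * (if l = j then h y else 1)]
  by_cases hij : i = j
  · subst hij
    rw [if_pos rfl, Finset.prod_eq_single i]
    · simp only [if_true]
      exact integral_congr_ae (Eventually.of_forall fun x => (sq _).symm)
    · intro b _ hb
      simp only [if_neg hb, mul_one]
      simp
    · intro h; exact absurd (Finset.mem_univ _) h
  · rw [if_neg hij]
    refine Finset.prod_eq_zero (Finset.mem_univ i) ?_
    simp only [if_true, if_neg hij, mul_one]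
    exact h0

theorem comp_int {E : Type} [NormedAddCommGroup E] [NormedSpace ℝ E] {d : ℕ} {a : Fin d → ℝ}
    (hm : (gad d).map (fun x => ∑ i, a i * x i) = gam) (G : ℝ → E)
    (hG : AEStronglyMeasurable G gam) :
    ∫ x, G (∑ i, a i * x i) ∂(gad d) = ∫ y, G y ∂gam := by
  have h := integral_map (μ := gad d) (φ := fun x => ∑ i, a i * x i) (f := G)
    (by fun_prop : Measurable fun x : Fin d → ℝ => ∑ i, a i * x i).aemeasurable
    (by rw [hm]; exact hG)
  rw [hm] at h
  exact h.symm

theorem comp_intg {E : Type} [NormedAddCommGroup E] {d : ℕ} {a : Fin d → ℝ}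
    (hm : (gad d).map (fun x => ∑ i, a i * x i) = gam) (G : ℝ → E)
    (hG : Integrable G gam) : Integrable (fun x => G (∑ i, a i * x i)) (gad d) := by
  have h := (integrable_map_measure (μ := gad d) (f := fun x => ∑ i, a i * x i) (g := G)
    (by rw [hm]; exact hG.aestronglyMeasurable)
    (by fun_prop : Measurable fun x : Fin d → ℝ => ∑ i, a i * x i).aemeasurable).1
    (by rw [hm]; exact hG)
  exact h

theorem ev {d : ℕ} (i : Fin d) : MeasurePreserving (fun x : Fin d → ℝ => x i) (gad d) gam :=
  measurePreserving_eval _ i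

theorem x_int {d : ℕ} (i : Fin d) : Integrable (fun x : Fin d → ℝ => x i) (gad d) :=
  (ev i).integrable_comp_of_integrable id_int

theorem cs {X : Type} [MeasurableSpace X] {μ : Measure X} {f g : X → ℝ} (hf : MemLp f 2 μ)
    (hg : MemLp g 2 μ) :
    |∫ x, f x * g x ∂μ| ≤ Real.sqrt (∫ x, f x ^ 2 ∂μ) * Real.sqrt (∫ x, g x ^ 2 ∂μ) := by
  have h := integral_mul_norm_le_Lp_mul_Lq (μ := μ) (f := f) (g := g) (p := 2) (q := 2)
    Real.HolderConjugate.two_two (by simpa using hf) (by simpa using hg)
  have e1 : ∀ f : X → ℝ, (∫ x, ‖f x‖ ^ (2 : ℝ) ∂μ) ^ (1 / 2 : ℝ) = Real.sqrt (∫ x, f x ^ 2 ∂μ) := by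
    intro f
    rw [Real.sqrt_eq_rpow]
    congr 1
    refine integral_congr_ae (Eventually.of_forall fun x => ?_)
    simp only [Real.norm_eq_abs, Real.rpow_two, sq_abs]
  rw [e1, e1] at h
  refine le_trans ?_ h
  calc |∫ x, f x * g x ∂μ| ≤ ∫ x, |f x * g x| ∂μ := abs_integral_le_integral_abs
    _ = _ := by
      refine integral_congr_ae (Eventually.of_forall fun x => ?_)
      simp only [Real.norm_eq_abs, abs_mul]

end Dsc

open Dsc in
theorem wDsc (h1 : S_Int) (h2 : S_Cnd) (h3 : S_Gmd) : S_Dsc := by
  intro K s c v hs hc hv hv1 d S P hS hP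
  have hSm : Measurable S := S_meas hs hS
  obtain ⟨C1, C2, C3⟩ := h2 (Fin d → ℝ) (Fin d → Fin K) (gad d) S hSm
  have hPn : ∀ ω, 0 ≤ P ω := fun ω => by rw [hP]; exact measureReal_nonneg
  refine ⟨?_, ?_, ?_, ?_, ?_⟩
  · have h := sumP hs hS fun _ _ => 1
    simp only [Finset.prod_const_one, mul_one] at h
    rw [Finset.sum_congr rfl fun ω _ => hP ω, h]
    exact Finset.prod_eq_one fun l _ => sum_p hs
  · intro i j
    have h := sumP hs hS fun l k => (if l = i then c k else 1) * (if l = j then c k else 1)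
    have e1 : ∀ ω : Fin d → Fin K, ∏ l, ((if l = i then c (ω l) else 1) *
        (if l = j then c (ω l) else 1)) = c (ω i) * c (ω j) := by
      intro ω
      rw [Finset.prod_mul_distrib, Finset.prod_ite_eq' Finset.univ i (fun l => c (ω l)),
        if_pos (Finset.mem_univ i), Finset.prod_ite_eq' Finset.univ j (fun l => c (ω l)),
        if_pos (Finset.mem_univ j)]
    simp_rw [e1] at h
    rw [Finset.sum_congr rfl fun ω _ => by rw [hP ω], h]
    by_cases hij : i = j
    · subst hij
      rw [if_pos rfl, Finset.prod_eq_single i]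
      · simp only [if_true]
        rw [hv]
        exact Finset.sum_congr rfl fun k _ => by ring
      · intro b _ hb
        simp only [if_neg hb, mul_one]
        exact sum_p hs
      · intro h; exact absurd (Finset.mem_univ _) h
    · rw [if_neg hij]
      refine Finset.prod_eq_zero (Finset.mem_univ i) ?_
      simp only [if_true, if_neg hij, mul_one]
      exact sum_pc hs hc
  · intro r c₀ c₁ a hr ha
    have hm := h3 d a ha
    have hr0 : 0 ≤ r := by linarith
    set G : ℝ → ℂ := fun y => c₀ + c₁ * (y : ℂ) with hG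
    have hGi : Integrable G gam := (integrable_const c₀).add (id_int.ofReal.const_mul c₁)
    have hGc : Continuous G := by fun_prop
    have hGr : Integrable (fun y => ‖G y‖ ^ r) gam := by
      refine (h1 ((‖c₀‖ + ‖c₁‖) ^ r) r hr0).1 _
        (hGc.norm.rpow_const fun x => Or.inr hr0) fun x => ?_
      rw [abs_of_nonneg (Real.rpow_nonneg (norm_nonneg _) _),
        ← Real.mul_rpow (by positivity) (by positivity)]
      refine Real.rpow_le_rpow (norm_nonneg _) ?_ hr0
      calc ‖G x‖ ≤ ‖c₀‖ + ‖c₁ * (x : ℂ)‖ := norm_add_le _ _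
        _ = ‖c₀‖ + ‖c₁‖ * |x| := by rw [norm_mul, Complex.norm_real, Real.norm_eq_abs]
        _ ≤ (‖c₀‖ + ‖c₁‖) * (1 + |x|) := by
          have := mul_nonneg (norm_nonneg c₀) (abs_nonneg x)
          have := norm_nonneg c₁
          nlinarith
    have hC := C1 r (fun x => G (∑ i, a i * x i)) hr (comp_intg hm G hGi)
      (comp_intg hm (fun y => ‖G y‖ ^ r) hGr)
    rw [comp_int hm (fun y => ‖G y‖ ^ r) hGr.aestronglyMeasurable] at hC
    refine le_trans (le_of_eq ?_) hC
    refine Finset.sum_congr rfl fun ω _ => ?_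
    rw [hP]
    by_cases hω : (gad d).real (S ⁻¹' {ω}) = 0
    · rw [hω, zero_mul, zero_mul]
    · congr 2
      have e2 : ∫ x in S ⁻¹' {ω}, (∑ i, a i * x i) ∂(gad d) =
          (gad d).real (S ⁻¹' {ω}) * ∑ i, a i * c (ω i) := by
        rw [integral_finsetSum _ fun i _ => ((x_int i).const_mul _).integrableOn, Finset.mul_sum]
        refine Finset.sum_congr rfl fun i _ => ?_
        rw [integral_const_mul, boxX hs hS hc]
        ring
      have e3 : ∫ x in S ⁻¹' {ω}, G (∑ i, a i * x i) ∂(gad d) =
          ((gad d).real (S ⁻¹' {ω}) : ℂ) * G (∑ i, a i * c (ω i)) := by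
        have i1 : IntegrableOn (fun x : Fin d → ℝ => ∑ i, a i * x i) (S ⁻¹' {ω}) (gad d) :=
          (comp_intg hm _ id_int).integrableOn
        have i2 : Integrable (fun x : Fin d → ℝ => c₁ * ((∑ i, a i * x i : ℝ) : ℂ))
            ((gad d).restrict (S ⁻¹' {ω})) := i1.ofReal.const_mul c₁
        have i0 : Integrable (fun _ : Fin d → ℝ => c₀) ((gad d).restrict (S ⁻¹' {ω})) :=
          integrable_const _
        have e4 : ∫ x in S ⁻¹' {ω}, ((∑ i, a i * x i : ℝ) : ℂ) ∂(gad d) =
            (((gad d).real (S ⁻¹' {ω}) * ∑ i, a i * c (ω i) : ℝ) : ℂ) := by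
          rw [← e2]
          exact integral_ofReal
        simp only [hG]
        rw [integral_add i0 i2, integral_const_mul, e4]
        simp only [integral_const, measureReal_restrict_apply MeasurableSet.univ, Set.univ_inter,
          Complex.real_smul]
        push_cast
        ring
      have e5 : ((gad d).real (S ⁻¹' {ω}) : ℂ) ≠ 0 := by exact_mod_cast hω
      rw [cnd, e3, Complex.real_smul, Complex.ofReal_inv, inv_mul_cancel_left₀ e5]
  · intro r A m F g hr hm0 hFc hFb hg
    have hm := h3 d g hg
    have hr0 : 0 ≤ r := by linarith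
    have hA : 0 ≤ A := by
      have := hFb 0
      rw [abs_zero, add_zero, Real.one_rpow, mul_one] at this
      exact (abs_nonneg _).trans this
    have hFi : Integrable F gam := (h1 A m hm0).1 F hFc hFb
    have hFr : Integrable (fun y => |F y| ^ r) gam := by
      refine (h1 (A ^ r) (m * r) (by positivity)).1 _
        (hFc.abs.rpow_const fun x => Or.inr hr0) fun x => ?_
      rw [abs_of_nonneg (Real.rpow_nonneg (abs_nonneg _) _), Real.rpow_mul (by positivity),
        ← Real.mul_rpow hA (by positivity)]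
      exact Real.rpow_le_rpow (abs_nonneg _) (hFb x) hr0
    have hC := C2 r (fun x => F (∑ i, g i * x i)) hr (comp_intg hm F hFi)
      (comp_intg hm (fun y => |F y| ^ r) hFr)
    rw [comp_int hm (fun y => |F y| ^ r) hFr.aestronglyMeasurable] at hC
    refine le_trans (le_of_eq ?_) hC
    exact Finset.sum_congr rfl fun ω _ => by rw [hP]
  · intro A m u w F g hm0 hFc hFb hg
    have hm := h3 d g hg
    have hA : 0 ≤ A := by
      have := hFb 0
      rw [abs_zero, add_zero, Real.one_rpow, mul_one] at this
      exact (abs_nonneg _).trans this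
    have hFi : Integrable F gam := (h1 A m hm0).1 F hFc hFb
    have hF2 : Integrable (fun y => F y ^ 2) gam := by
      refine (h1 (A ^ 2) (m * 2) (by positivity)).1 _ (hFc.pow 2) fun x => ?_
      rw [abs_pow, Real.rpow_mul (by positivity), Real.rpow_two, ← mul_pow]
      exact pow_le_pow_left₀ (abs_nonneg _) (hFb x) 2
    have hFu : Integrable (fun y => F y * (u + w * y)) gam := by
      refine (h1 (A * (|u| + |w|)) (m + 1) (by positivity)).1 _ (by fun_prop) fun x => ?_
      rw [abs_mul, Real.rpow_add (by positivity), Real.rpow_one]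
      have e1 : |u + w * x| ≤ (|u| + |w|) * (1 + |x|) := by
        calc |u + w * x| ≤ |u| + |w * x| := abs_add_le _ _
          _ = |u| + |w| * |x| := by rw [abs_mul]
          _ ≤ _ := by
            have := mul_nonneg (abs_nonneg u) (abs_nonneg x)
            have := abs_nonneg w
            nlinarith
      calc |F x| * |u + w * x| ≤ (A * (1 + |x|) ^ m) * ((|u| + |w|) * (1 + |x|)) :=
            mul_le_mul (hFb x) e1 (abs_nonneg _) ((abs_nonneg _).trans (hFb x))
        _ = _ := by ring
    set h : ℝ → ℝ := fun y => y - c (s y) with hh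
    set E : (Fin d → ℝ) → ℝ := fun x => ∑ i, g i * h (x i) with hE
    have hhm : MemLp h 2 gam := h_mem2 hs
    have hxm : ∀ i : Fin d, MemLp (fun x : Fin d → ℝ => h (x i)) 2 (gad d) := fun i =>
      hhm.comp_measurePreserving (ev i)
    have hEm : MemLp E 2 (gad d) := memLp_finsetSum _ fun i _ => (hxm i).const_mul (g i)
    have hE2 : ∫ x, E x ^ 2 ∂(gad d) = 1 - v := by
      have e1 : ∀ x, E x ^ 2 = ∑ i, ∑ j, g i * g j * (h (x i) * h (x j)) := by
        intro x
        rw [hE, sq, Finset.sum_mul_sum]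
        exact Finset.sum_congr rfl fun i _ => Finset.sum_congr rfl fun j _ => by ring
      have e2 : ∀ i j : Fin d, Integrable (fun x : Fin d → ℝ => g i * g j * (h (x i) * h (x j)))
          (gad d) := fun i j => ((hxm i).integrable_mul (hxm j)).const_mul _
      simp_rw [e1]
      rw [integral_finsetSum _ fun i _ => integrable_finsetSum _ fun j _ => e2 i j]
      calc ∑ i, ∫ x, ∑ j, g i * g j * (h (x i) * h (x j)) ∂(gad d)
          = ∑ i, g i ^ 2 * (1 - v) := by
            refine Finset.sum_congr rfl fun i _ => ?_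
            rw [integral_finsetSum _ fun j _ => e2 i j, Finset.sum_eq_single i]
            · rw [integral_const_mul, two h (int_h hs hc), if_pos rfl, int_h2 hs hc hv]
              ring
            · intro j _ hj
              rw [integral_const_mul, two h (int_h hs hc), if_neg (Ne.symm hj), mul_zero]
            · intro h; exact absurd (Finset.mem_univ _) h
        _ = 1 - v := by rw [← Finset.sum_mul, hg, one_mul]
    have hFm : MemLp (fun x : Fin d → ℝ => F (∑ i, g i * x i)) 2 (gad d) := by
      refine (memLp_two_iff_integrable_sq (comp_intg hm F hFi).aestronglyMeasurable).2 ?_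
      exact comp_intg hm (fun y => F y ^ 2) hF2
    have hcs := cs hFm hEm
    rw [hE2, comp_int hm (fun y => F y ^ 2) hF2.aestronglyMeasurable] at hcs
    have hFE : Integrable (fun x : Fin d → ℝ => F (∑ i, g i * x i) * E x) (gad d) :=
      hFm.integrable_mul hEm
    have hC := C3 (fun x => F (∑ i, g i * x i)) (fun ω => u + w * ∑ i, g i * c (ω i))
      (comp_intg hm F hFi)
    rw [Finset.sum_congr rfl fun ω _ => by rw [hP ω], hC]
    have e3 : ∀ x : Fin d → ℝ, F (∑ i, g i * x i) * (u + w * ∑ i, g i * c (S x i)) =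
        F (∑ i, g i * x i) * (u + w * ∑ i, g i * x i) -
          w * (F (∑ i, g i * x i) * E x) := by
      intro x
      have e4 : E x = ∑ i, g i * x i - ∑ i, g i * c (S x i) := by
        rw [hE, ← Finset.sum_sub_distrib]
        exact Finset.sum_congr rfl fun i _ => by rw [hS, hh]; ring
      rw [e4]
      ring
    simp_rw [e3]
    rw [integral_sub (comp_intg hm (fun y => F y * (u + w * y)) hFu) (hFE.const_mul w),
      integral_const_mul,
      comp_int hm (fun y => F y * (u + w * y)) hFu.aestronglyMeasurable]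
    have e5 : w * ∫ x, F (∑ i, g i * x i) * E x ∂(gad d) ≤
        |w| * (Real.sqrt (∫ y, F y ^ 2 ∂gam) * Real.sqrt (1 - v)) := by
      refine (le_abs_self _).trans ?_
      rw [abs_mul]
      exact mul_le_mul_of_nonneg_left hcs (abs_nonneg _)
    rw [← mul_assoc] at e5
    linarith

end Pool.Agent.Lib.MP_537232_an.NM
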