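import Pool.Agent.Lib.MP_537232_an.NM.SpecJ

/-!
# MP_537232_an, NM/Dua: duality (helper82)
-/

open Finset Filter Topology

namespace Pool.Agent.Lib.MP_537232_an.NM

/-- **Dua.** Duality. -/
theorem wDua : S_Dua := by
  intro q hq u D A K hK hA y
  have hR : 0 ≤ (∑ ω, |y ω| ^ (q / (q - 1))) ^ ((q - 1) / q) := by
    apply Real.rpow_nonneg
    exact Finset.sum_nonneg fun ω _ => Real.rpow_nonneg (abs_nonneg _) _
  by_cases hw : ∑ ω, y ω • A ω = 0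
  · rw [hw, norm_zero]
    exact mul_nonneg hK hR
  have hq0 : 0 < q := by linarith
  have hq1 : 0 < q - 1 := by linarith
  have hpq : (q / (q - 1)).HolderConjugate q := by
    rw [Real.holderConjugate_iff]
    constructor
    · rw [lt_div_iff₀ hq1]
      linarith
    · field_simp
      ring
  have h1 := Real.inner_le_Lp_mul_Lq univ (fun ω => y ω)
    (fun ω => inner ℝ (A ω) (∑ ω, y ω • A ω)) hpq
  have h2 : ∑ ω, y ω * inner ℝ (A ω) (∑ ω, y ω • A ω) = ‖∑ ω, y ω • A ω‖ ^ 2 := by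
    rw [← real_inner_self_eq_norm_sq, sum_inner]
    refine Finset.sum_congr rfl fun ω _ => ?_
    rw [inner_smul_left]
    rfl
  have h3 : (∑ ω, |inner ℝ (A ω) (∑ ω, y ω • A ω)| ^ q) ^ (1 / q) ≤
      K * ‖∑ ω, y ω • A ω‖ := by
    have h4 := Real.rpow_le_rpow
      (Finset.sum_nonneg fun ω _ => Real.rpow_nonneg (abs_nonneg _) _)
      (hA (∑ ω, y ω • A ω)) (by positivity : (0 : ℝ) ≤ 1 / q)
    rw [one_div, Real.rpow_rpow_inv (mul_nonneg hK (norm_nonneg _)) hq0.ne'] at h4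
    rw [one_div]
    exact h4
  have h5 : (1 : ℝ) / (q / (q - 1)) = (q - 1) / q := by rw [one_div_div]
  rw [h2, h5] at h1
  have h6 : 0 < ‖∑ ω, y ω • A ω‖ := norm_pos_iff.2 hw
  have h7 : ‖∑ ω, y ω • A ω‖ ^ 2 ≤
      (∑ ω, |y ω| ^ (q / (q - 1))) ^ ((q - 1) / q) * (K * ‖∑ ω, y ω • A ω‖) :=
    h1.trans (mul_le_mul_of_nonneg_left h3 hR)
  have h8 : ‖∑ ω, y ω • A ω‖ * ‖∑ ω, y ω • A ω‖ ≤
      (K * (∑ ω, |y ω| ^ (q / (q - 1))) ^ ((q - 1) / q)) * ‖∑ ω, y ω • A ω‖ := by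
    calc ‖∑ ω, y ω • A ω‖ * ‖∑ ω, y ω • A ω‖ = ‖∑ ω, y ω • A ω‖ ^ 2 := by ring
      _ ≤ _ := h7
      _ = _ := by ring
  exact le_of_mul_le_mul_right h8 h6

end Pool.Agent.Lib.MP_537232_an.NM
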