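import Pool.Agent.Lib.MP_537232_an.NM.SpecD

/-!
# MP_537232_an, NM/Ee: the elementary tensors are bounded from `ℓ₂` to `ℓ_q` (task of helper81, by helper27)
-/

set_option autoImplicit false

namespace Pool.Agent.Lib.MP_537232_an.NM

open MeasureTheory ProbabilityTheory Finset Filter Topology

namespace Ee

lemma rpow_half {q : ℝ} {x : ℝ} (hx : 0 ≤ x) : (x ^ 2) ^ (q / 2) = x ^ q := by
  rw [← Real.rpow_natCast x 2, ← Real.rpow_mul hx]
  congr 1
  push_cast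
  ring

lemma one_le {q : ℝ} (hq : 2 < q) (C : Cst q) : 1 ≤ C.σ ^ q := by
  have h := C.max 0
  have e : MR (kap q) q 0 = 1 := by
    unfold MR Yv
    simp
  rw [e] at h
  exact h

/-- the norm of `c₀ + c₁ t` for real numbers -/
lemma norm_real (c₀ c₁ y : ℝ) : ‖((c₀ : ℝ) : ℂ) + ((c₁ : ℝ) : ℂ) * ((y : ℝ) : ℂ)‖ = |c₀ + c₁ * y| := by
  rw [← Complex.ofReal_mul, ← Complex.ofReal_add, Complex.norm_real, Real.norm_eq_abs]

lemma integral_bound {q : ℝ} (hq : 2 < q) (C : Cst q) (c₀ t : ℝ) (ht : 0 < t) :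
    ∫ x, |c₀ + kap q * t * x| ^ q ∂gam ≤ (C.σ ^ 2 * (c₀ ^ 2 + t ^ 2)) ^ (q / 2) := by
  have hq0 : 0 < q := by linarith
  set R : ℝ := Real.sqrt (c₀ ^ 2 + t ^ 2) with hR
  have hpos : 0 < c₀ ^ 2 + t ^ 2 := by positivity
  have hR0 : 0 < R := Real.sqrt_pos.mpr hpos
  have hR2 : R ^ 2 = c₀ ^ 2 + t ^ 2 := Real.sq_sqrt hpos.le
  set z : ℂ := ⟨c₀, t⟩ with hz
  have hz0 : z ≠ 0 := by
    intro h
    have h' := congrArg Complex.im h
    simp [hz] at h'
    exact ht.ne' h'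
  have hzn : ‖z‖ = R := by
    rw [Complex.norm_def, Complex.normSq_apply, hR]
    congr 1
    simp [hz]
    ring
  have hc : Real.cos z.arg = c₀ / R := by
    rw [Complex.cos_arg hz0, hzn]
  have hs : Real.sin z.arg = t / R := by
    rw [Complex.sin_arg, hzn]
  have e : ∀ x, |c₀ + kap q * t * x| ^ q = R ^ q * |Yv (kap q) z.arg x| ^ q := by
    intro x
    have e1 : c₀ + kap q * t * x = R * Yv (kap q) z.arg x := by
      unfold Yv
      rw [hc, hs]
      field_simp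
    rw [e1, abs_mul, abs_of_pos hR0, Real.mul_rpow hR0.le (abs_nonneg _)]
  simp_rw [e]
  rw [integral_const_mul]
  have h1 : ∫ x, |Yv (kap q) z.arg x| ^ q ∂gam ≤ C.σ ^ q := C.max z.arg
  calc R ^ q * ∫ x, |Yv (kap q) z.arg x| ^ q ∂gam ≤ R ^ q * C.σ ^ q := by gcongr
    _ = (C.σ * R) ^ q := by rw [Real.mul_rpow C.σ_pos.le hR0.le, mul_comm]
    _ = ((C.σ * R) ^ 2) ^ (q / 2) := by rw [rpow_half (mul_nonneg C.σ_pos.le hR0.le)]
    _ = (C.σ ^ 2 * (c₀ ^ 2 + t ^ 2)) ^ (q / 2) := by rw [mul_pow, hR2]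

variable {q : ℝ} {C : Cst q} {N r : ℕ} {Pi : ℝ} {d : ℕ} (S : SiteD q C N r Pi d)

lemma unit_of {d : ℕ} (a : Fin d → ℝ) (t : ℝ) (ht : 0 < t) (h : ∑ i, a i ^ 2 = t ^ 2) :
    ∑ i, (a i / t) ^ 2 = 1 := by
  simp_rw [div_pow]
  rw [← Finset.sum_div, h, div_self (by positivity)]

lemma lin_of {d : ℕ} (a b : Fin d → ℝ) (t : ℝ) (ht : 0 < t) :
    ∑ i, a i * b i = t * ∑ i, a i / t * b i := by
  rw [Finset.mul_sum]
  refine Finset.sum_congr rfl fun i _ => ?_
  field_simp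

lemma exists_t {d : ℕ} (a : Fin d → ℝ) : (∀ i, a i = 0) ∨ ∃ t, 0 < t ∧ ∑ i, a i ^ 2 = t ^ 2 := by
  have h0 : 0 ≤ ∑ i, a i ^ 2 := Finset.sum_nonneg fun i _ => sq_nonneg _
  rcases eq_or_lt_of_le h0 with h | h
  · left
    intro i
    have h1 := (Finset.sum_eq_zero_iff_of_nonneg fun i _ => sq_nonneg (a i)).mp h.symm i
      (Finset.mem_univ _)
    exact pow_eq_zero_iff (two_ne_zero) |>.mp h1
  · right
    exact ⟨Real.sqrt (∑ i, a i ^ 2), Real.sqrt_pos.mpr h, (Real.sq_sqrt h0).symm⟩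

/-- one site -/
lemma site (hq : 2 < q) (a : Option (Fin d) → ℝ) :
    ∑ ω, S.P ω * |∑ i, a i * (Option.elim i 1 fun e => kap q * S.ξ e ω)| ^ q ≤
      (C.σ ^ 2 * ∑ i, a i ^ 2) ^ (q / 2) := by
  have hq0 : 0 < q := by linarith
  simp_rw [Fintype.sum_option]
  simp only [Option.elim_none, Option.elim_some]
  rcases exists_t (fun e => a (some e)) with h | ⟨t, ht, h⟩
  · have e1 : ∀ ω, a none * 1 + ∑ e, a (some e) * (kap q * S.ξ e ω) = a none := by
      intro ω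
      rw [Finset.sum_eq_zero, add_zero, mul_one]
      intro e _
      have h' : a (some e) = 0 := h e
      rw [h', zero_mul]
    have e2 : ∑ e, a (some e) ^ 2 = 0 := by
      refine Finset.sum_eq_zero fun e _ => ?_
      have h' : a (some e) = 0 := h e
      rw [h']
      norm_num
    simp_rw [e1]
    rw [e2, add_zero, ← Finset.sum_mul, S.P_sum, one_mul, ← mul_pow,
      show (C.σ * a none) ^ 2 = (C.σ * |a none|) ^ 2 by rw [mul_pow, mul_pow, sq_abs],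
      rpow_half (mul_nonneg C.σ_pos.le (abs_nonneg _)), Real.mul_rpow C.σ_pos.le (abs_nonneg _)]
    exact le_mul_of_one_le_left (Real.rpow_nonneg (abs_nonneg _) _) (one_le hq C)
  · have h' : ∑ e, a (some e) ^ 2 = t ^ 2 := h
    rw [h']
    have hu := unit_of (fun e => a (some e)) t ht h
    have hd := S.dom ((a none : ℝ) : ℂ) ((kap q * t : ℝ) : ℂ) (fun e => a (some e) / t) hu
    have e1 : ∀ ω, a none * 1 + ∑ e, a (some e) * (kap q * S.ξ e ω) =
        a none + kap q * t * ∑ e, a (some e) / t * S.ξ e ω := by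
      intro ω
      rw [mul_one, mul_assoc, ← lin_of (fun e => a (some e)) (fun e => S.ξ e ω) t ht,
        Finset.mul_sum]
      congr 1
      refine Finset.sum_congr rfl fun e _ => ?_
      ring
    simp_rw [e1]
    simp_rw [norm_real] at hd
    exact hd.trans (integral_bound hq C (a none) t ht)

/-- site 0 -/
lemma site0 (hMom : S_Mom) (hq : 2 < q) (a : Fin d → ℝ) :
    ∑ ω, S.P ω * |∑ i, a i * (mq q ^ (-(1 / q)) * S.ξ i ω)| ^ q ≤
      (1 * ∑ i, a i ^ 2) ^ (q / 2) := by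
  have hq0 : 0 < q := by linarith
  have hmq : 0 < mq q := hMom.1 q hq0.le
  rcases exists_t a with h | ⟨t, ht, h⟩
  · have e1 : ∀ ω, ∑ i, a i * (mq q ^ (-(1 / q)) * S.ξ i ω) = 0 := by
      intro ω
      refine Finset.sum_eq_zero fun i _ => ?_
      rw [h i, zero_mul]
    simp_rw [e1]
    rw [abs_zero, Real.zero_rpow hq0.ne']
    simp only [mul_zero, Finset.sum_const_zero]
    positivity
  · rw [h, one_mul, rpow_half ht.le]
    have hu := unit_of a t ht h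
    have hd := S.dom ((0 : ℝ) : ℂ) ((t : ℝ) : ℂ) (fun i => a i / t) hu
    simp_rw [norm_real, zero_add] at hd
    have e0 : ∫ x, |t * x| ^ q ∂gam = t ^ q * mq q := by
      unfold mq
      rw [← integral_const_mul]
      congr 1
      funext x
      rw [abs_mul, abs_of_pos ht, Real.mul_rpow ht.le (abs_nonneg _)]
    rw [e0] at hd
    have e1 : ∀ ω, |∑ i, a i * (mq q ^ (-(1 / q)) * S.ξ i ω)| ^ q =
        (mq q)⁻¹ * |t * ∑ i, a i / t * S.ξ i ω| ^ q := by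
      intro ω
      rw [← lin_of a (fun i => S.ξ i ω) t ht]
      have e2 : ∑ i, a i * (mq q ^ (-(1 / q)) * S.ξ i ω) =
          mq q ^ (-(1 / q)) * ∑ i, a i * S.ξ i ω := by
        rw [Finset.mul_sum]
        refine Finset.sum_congr rfl fun i _ => ?_
        ring
      rw [e2, abs_mul, Real.mul_rpow (abs_nonneg _) (abs_nonneg _),
        abs_of_pos (Real.rpow_pos_of_pos hmq _), ← Real.rpow_mul hmq.le]
      congr 1
      rw [neg_mul, one_div, inv_mul_cancel₀ hq0.ne', Real.rpow_neg_one]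
    simp_rw [e1]
    have e3 : ∑ ω, S.P ω * ((mq q)⁻¹ * |t * ∑ i, a i / t * S.ξ i ω| ^ q) =
        (mq q)⁻¹ * ∑ ω, S.P ω * |t * ∑ i, a i / t * S.ξ i ω| ^ q := by
      rw [Finset.mul_sum]
      refine Finset.sum_congr rfl fun i _ => ?_
      ring
    rw [e3]
    calc (mq q)⁻¹ * ∑ ω, S.P ω * |t * ∑ i, a i / t * S.ξ i ω| ^ q ≤
        (mq q)⁻¹ * (t ^ q * mq q) := by gcongr
      _ = t ^ q := by field_simp

end Ee

open Ee in
/-- **Ee.** The elementary tensors are bounded from `ℓ₂` to `ℓ_q`. -/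
theorem wEe (h1 : S_Mom) (h2 : S_Ten) : S_Ee := by
  intro q hq C N r Pi d S a
  have hq0 : 0 < q := by linarith
  obtain ⟨hT1, hT2⟩ := h2 q hq.le
  have hN := hT2 (Fin S.K) (Option (Fin d)) S.P
    (fun i ω => Option.elim i 1 fun e => kap q * S.ξ e ω) (C.σ ^ 2) S.P_nonneg (sq_nonneg _)
    (site S hq) N
  have h := hT1 (Fin S.K) (Fin N → Fin S.K) (Fin d) (Fin N → Option (Fin d)) S.P
    (fun ω => ∏ j, S.P (ω j)) (fun i ω => mq q ^ (-(1 / q)) * S.ξ i ω)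
    (fun κ ω => ∏ j, Option.elim (κ j) 1 fun e => kap q * S.ξ e (ω j)) 1 ((C.σ ^ 2) ^ N)
    S.P_nonneg (fun ω => Finset.prod_nonneg fun j _ => S.P_nonneg _) zero_le_one
    (by positivity) (site0 S h1 hq) hN a
  have hσ : 0 < C.σ := C.σ_pos
  have hwt : ∀ ω : S.Om, 0 ≤ S.wt ω := fun ω =>
    mul_nonneg (S.P_nonneg _) (Finset.prod_nonneg fun j _ => S.P_nonneg _)
  have e1 : ∀ ω : S.Om, |∑ j, a j * S.ee j ω| ^ q =
      ((C.σ ^ N) ^ q)⁻¹ * (S.P ω.1 * (∏ j, S.P (ω.2 j)) * |∑ j : Fin d × (Fin N → Option (Fin d)),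
        a j * (mq q ^ (-(1 / q)) * S.ξ j.1 ω.1 *
        ∏ i, Option.elim (j.2 i) 1 fun e => kap q * S.ξ e (ω.2 i))| ^ q) := by
    intro ω
    have e2 : ∑ j, a j * S.ee j ω = (S.wt ω ^ (1 / q) * (C.σ ^ N)⁻¹) *
        ∑ j : Fin d × (Fin N → Option (Fin d)), a j * (mq q ^ (-(1 / q)) * S.ξ j.1 ω.1 *
        ∏ i, Option.elim (j.2 i) 1 fun e => kap q * S.ξ e (ω.2 i)) := by
      rw [Finset.mul_sum]
      refine Finset.sum_congr rfl fun j _ => ?_
      unfold SiteD.ee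
      ring
    have h3 : 0 ≤ S.wt ω ^ (1 / q) * (C.σ ^ N)⁻¹ :=
      mul_nonneg (Real.rpow_nonneg (hwt ω) _) (by positivity)
    rw [e2, abs_mul, Real.mul_rpow (abs_nonneg _) (abs_nonneg _), abs_of_nonneg h3,
      Real.mul_rpow (Real.rpow_nonneg (hwt ω) _) (by positivity), ← Real.rpow_mul (hwt ω),
      one_div, inv_mul_cancel₀ hq0.ne', Real.rpow_one, Real.inv_rpow (by positivity)]
    unfold SiteD.wt
    ring
  simp_rw [e1]
  rw [← Finset.mul_sum]
  have hsum : 0 ≤ ∑ j, a j ^ 2 := Finset.sum_nonneg fun _ _ => sq_nonneg _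
  calc ((C.σ ^ N) ^ q)⁻¹ * _ ≤ ((C.σ ^ N) ^ q)⁻¹ * (1 * (C.σ ^ 2) ^ N * ∑ j, a j ^ 2) ^ (q / 2) :=
        mul_le_mul_of_nonneg_left h (by positivity)
    _ = (∑ j, a j ^ 2) ^ (q / 2) := by
        rw [one_mul, Real.mul_rpow (by positivity) hsum, ← pow_mul, mul_comm 2 N, pow_mul,
          rpow_half (by positivity), ← mul_assoc, inv_mul_cancel₀ (by positivity), one_mul]

end Pool.Agent.Lib.MP_537232_an.NM
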