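import Pool.Agent.Lib.MP_537232_an.NM.SpecJ

set_option autoImplicit false

open scoped ENNReal Topology
open Filter Finset

namespace Pool.Agent.Lib.MP_537232_an.NM

namespace Emb

private theorem pos_inj {D : ℕ → ℕ} {m : ℕ} {ω ω' : Fin (D m)} (h : pos D m ω = pos D m ω') : ω = ω' := by
  have h1 := pos_injective (w := D) (ν := ⟨m, ω⟩) (μ := ⟨m, ω'⟩) h
  simpa using h1

private theorem es_add {n : ℕ} (i : Fin n) (a b : ℝ) :
    (EuclideanSpace.single i (a + b) : EuclideanSpace ℝ (Fin n)) =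
      EuclideanSpace.single i a + EuclideanSpace.single i b := by
  ext j
  by_cases h : j = i
  · subst h; simp
  · simp [h]

private theorem es_smul {n : ℕ} (i : Fin n) (c a : ℝ) :
    (EuclideanSpace.single i (c * a) : EuclideanSpace ℝ (Fin n)) = c • EuclideanSpace.single i a := by
  ext j
  by_cases h : j = i
  · subst h; simp
  · simp [h]

/-- the sum of the single vectors -/
private noncomputable def Jf {u : ℕ → ℕ} (hu : ∀ n, 0 < u n) (p : ℝ≥0∞) (D : ℕ → ℕ) (m : ℕ)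
    (y : Fin (D m) → ℝ) : lp (E u) p :=
  ∑ ω, lp.single p (pos D m ω)
    (EuclideanSpace.single ⟨0, hu (pos D m ω)⟩ (y ω) : E u (pos D m ω))

private theorem Jf_apply {u : ℕ → ℕ} (hu : ∀ n, 0 < u n) (p : ℝ≥0∞) (D : ℕ → ℕ) (m : ℕ)
    (y : Fin (D m) → ℝ) (b : ℕ) : Jf hu p D m y b =
      ∑ ω, if pos D m ω = b then EuclideanSpace.single ⟨0, hu b⟩ (y ω) else 0 := by
  unfold Jf
  rw [lp.coeFn_sum, Finset.sum_apply]
  refine Finset.sum_congr rfl fun ω _ => ?_
  by_cases h : pos D m ω = b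
  · subst h
    rw [if_pos rfl]
    exact lp.single_apply_self p _ _
  · rw [if_neg h]
    exact lp.single_apply_ne p _ _ (fun h' => h h'.symm)

private theorem Jf_pos {u : ℕ → ℕ} (hu : ∀ n, 0 < u n) (p : ℝ≥0∞) (D : ℕ → ℕ) (m : ℕ)
    (y : Fin (D m) → ℝ) (ω : Fin (D m)) : Jf hu p D m y (pos D m ω) =
      EuclideanSpace.single ⟨0, hu (pos D m ω)⟩ (y ω) := by
  rw [Jf_apply, Finset.sum_eq_single ω]
  · rw [if_pos rfl]
  · intro ω' _ hne
    rw [if_neg fun h => hne (pos_inj h)]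
  · intro h
    exact absurd (Finset.mem_univ _) h

private theorem Jf_norm {u : ℕ → ℕ} (hu : ∀ n, 0 < u n) (r : ℝ) (hr : 1 < r) (D : ℕ → ℕ) (m : ℕ)
    (y : Fin (D m) → ℝ) : ‖Jf hu (ENNReal.ofReal r) D m y‖ = (∑ ω, |y ω| ^ r) ^ (1 / r) := by
  classical
  have hr0 : 0 < r := by linarith
  have htr : (ENNReal.ofReal r).toReal = r := ENNReal.toReal_ofReal hr0.le
  set f : ∀ b, E u b := fun b => Jf hu (ENNReal.ofReal r) D m y b with hf
  have h1 := lp.norm_sum_single (p := ENNReal.ofReal r) (by rw [htr]; exact hr0) f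
    (univ.image fun ω : Fin (D m) => pos D m ω)
  rw [Finset.sum_image fun a _ b _ h => pos_inj h, Finset.sum_image fun a _ b _ h => pos_inj h, htr] at h1
  have h2 : ∑ ω : Fin (D m), lp.single (ENNReal.ofReal r) (pos D m ω) (f (pos D m ω)) =
      Jf hu (ENNReal.ofReal r) D m y := by
    conv_rhs => unfold Jf
    refine Finset.sum_congr rfl fun ω _ => ?_
    rw [hf]
    simp only []
    rw [Jf_pos]
  rw [h2] at h1
  have h3 : ∀ ω : Fin (D m), ‖f (pos D m ω)‖ ^ r = |y ω| ^ r := by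
    intro ω
    rw [hf]
    simp only []
    rw [Jf_pos, EuclideanSpace.norm_single, Real.norm_eq_abs]
  rw [Finset.sum_congr rfl fun ω _ => h3 ω] at h1
  rw [← h1, ← Real.rpow_mul (lp.norm_nonneg' _), mul_one_div_cancel hr0.ne', Real.rpow_one]

end Emb

open Emb in
theorem wEmb : S_Emb := by
  intro r hr _ u hu D
  refine ⟨fun m => ⟨⟨fun y => Jf hu (ENNReal.ofReal r) D m y, fun y z => ?_⟩, fun c y => ?_⟩, ?_, ?_, ?_⟩
  · unfold Jf
    rw [← Finset.sum_add_distrib]
    refine Finset.sum_congr rfl fun ω _ => ?_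
    rw [Pi.add_apply, es_add, lp.single_add]
  · unfold Jf
    simp only [RingHom.id_apply]
    rw [Finset.smul_sum]
    refine Finset.sum_congr rfl fun ω _ => ?_
    rw [Pi.smul_apply, smul_eq_mul, es_smul, lp.single_smul]
  · intro m y
    exact Jf_norm hu r hr D m y
  · intro m y ω
    have h := Jf_pos hu (ENNReal.ofReal r) D m y ω
    change (Jf hu (ENNReal.ofReal r) D m y (pos D m ω)) ⟨0, hu _⟩ = y ω
    rw [h]
    simp
  · intro m y b
    exact Jf_apply hu (ENNReal.ofReal r) D m y b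

end Pool.Agent.Lib.MP_537232_an.NM
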