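import Pool.Agent.Lib.MP_537232_an.NM.SpecD

/-!
# MP_537232_an, NM/Ex: expansion of the products (helper82)
-/

open Finset

namespace Pool.Agent.Lib.MP_537232_an.NM

namespace Ex

/-- The set of the `l` with `κ l ≠ none`. -/
def su {d N : ℕ} (κ : Fin N → Option (Fin d)) : Finset (Fin N) := univ.filter fun j => κ j ≠ none

theorem fiber {d N : ℕ} (h : Fin N → Fin d → ℝ) (A : Finset (Fin N)) :
    ∑ κ ∈ univ.filter (fun κ : Fin N → Option (Fin d) => su κ = A),
      ∏ l, (κ l).elim 1 (h l) = ∏ l ∈ A, ∑ e, h l e := by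
  classical
  let t : Fin N → Finset (Option (Fin d)) := fun l =>
    if l ∈ A then univ.image some else {none}
  have h1 : univ.filter (fun κ : Fin N → Option (Fin d) => su κ = A) = Fintype.piFinset t := by
    ext κ
    rw [mem_filter, Fintype.mem_piFinset]
    constructor
    · rintro ⟨-, hκ⟩ l
      show κ l ∈ if l ∈ A then univ.image some else {none}
      split_ifs with hl
      · rw [← hκ, su, mem_filter] at hl
        obtain ⟨e, he⟩ := Option.ne_none_iff_exists.1 hl.2
        exact mem_image.2 ⟨e, mem_univ _, he⟩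
      · rw [← hκ, su, mem_filter] at hl
        rw [mem_singleton]
        by_contra h'
        exact hl ⟨mem_univ _, h'⟩
    · intro hκ
      refine ⟨mem_univ _, ?_⟩
      ext l
      rw [su, mem_filter]
      have h2 : κ l ∈ if l ∈ A then univ.image some else {none} := hκ l
      split_ifs at h2 with hl
      · obtain ⟨e, -, he⟩ := mem_image.1 h2
        rw [← he]
        exact ⟨fun _ => hl, fun _ => ⟨mem_univ _, Option.some_ne_none e⟩⟩
      · rw [mem_singleton] at h2
        exact ⟨fun h' => absurd h2 h'.2, fun h' => absurd h' hl⟩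
  rw [h1, ← Finset.prod_univ_sum t (fun l o => o.elim 1 (h l))]
  rw [← Finset.prod_subset (Finset.subset_univ A)]
  · refine Finset.prod_congr rfl fun l hl => ?_
    show ∑ o ∈ (if l ∈ A then univ.image some else {none}), o.elim 1 (h l) = _
    rw [if_pos hl, Finset.sum_image (fun _ _ _ _ h' => Option.some_injective _ h')]
    rfl
  · intro l _ hl
    show ∑ o ∈ (if l ∈ A then univ.image some else {none}), o.elim 1 (h l) = _
    rw [if_neg hl, Finset.sum_singleton]
    rfl

theorem expand {d N : ℕ} (R : Finset ℕ) (w : ℕ → ℝ) (h : Fin N → Fin d → ℝ) :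
    ∑ κ : Fin N → Option (Fin d), (if nz κ ∈ R then w (nz κ) * ∏ l, (κ l).elim 1 (h l) else 0) =
      ∑ m ∈ R, w m * ∑ A ∈ powersetCard m (univ : Finset (Fin N)), ∏ l ∈ A, ∑ e, h l e := by
  classical
  have h1 : ∀ m : ℕ, w m * ∑ A ∈ powersetCard m (univ : Finset (Fin N)), ∏ l ∈ A, ∑ e, h l e =
      ∑ A : Finset (Fin N), if A.card = m then w m * ∏ l ∈ A, ∑ e, h l e else 0 := by
    intro m
    rw [← Finset.sum_filter, Finset.mul_sum]
    refine Finset.sum_congr ?_ fun _ _ => rfl
    ext A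
    rw [mem_powersetCard_univ, mem_filter]
    exact ⟨fun h' => ⟨mem_univ _, h'⟩, fun h' => h'.2⟩
  rw [Finset.sum_congr rfl fun m _ => h1 m, Finset.sum_comm]
  rw [← Finset.sum_fiberwise (s := (univ : Finset (Fin N → Option (Fin d)))) (g := su)]
  refine Finset.sum_congr rfl fun A _ => ?_
  have h2 : ∑ m ∈ R, (if A.card = m then w m * ∏ l ∈ A, ∑ e, h l e else 0) =
      if A.card ∈ R then w A.card * ∏ l ∈ A, ∑ e, h l e else 0 :=
    Finset.sum_ite_eq R A.card fun m => w m * ∏ l ∈ A, ∑ e, h l e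
  rw [h2, ← fiber h A, Finset.mul_sum]
  have h3 : ∀ κ ∈ univ.filter (fun κ : Fin N → Option (Fin d) => su κ = A), nz κ = A.card := by
    intro κ hκ
    rw [mem_filter] at hκ
    rw [← hκ.2]
    rfl
  rw [Finset.sum_congr rfl fun κ hκ => by rw [h3 κ hκ]]
  split_ifs
  · rfl
  · exact Finset.sum_const_zero

end Ex

open Ex in
/-- **Ex.** Expansion of the products. -/
theorem wEx : S_Ex := by
  intro d N R w h₀ h
  classical
  have h1 : ∑ j : Bx d N R, w (nz j.1.2) * (h₀ j.1.1 * ∏ l, (j.1.2 l).elim 1 (h l)) =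
      ∑ j ∈ univ.filter (fun j : Fin d × (Fin N → Option (Fin d)) => nz j.2 ∈ R),
        w (nz j.2) * (h₀ j.1 * ∏ l, (j.2 l).elim 1 (h l)) :=
    (Finset.sum_subtype (univ.filter fun j : Fin d × (Fin N → Option (Fin d)) => nz j.2 ∈ R)
      (fun j => by rw [mem_filter]; exact ⟨fun h' => h'.2, fun h' => ⟨mem_univ _, h'⟩⟩)
      fun j => w (nz j.2) * (h₀ j.1 * ∏ l, (j.2 l).elim 1 (h l))).symm
  rw [h1, Finset.sum_filter, Fintype.sum_prod_type, ← expand, Finset.sum_mul]
  refine Finset.sum_congr rfl fun i _ => ?_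
  rw [Finset.mul_sum]
  refine Finset.sum_congr rfl fun κ _ => ?_
  split_ifs
  · ring
  · ring

end Pool.Agent.Lib.MP_537232_an.NM
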