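import Pool.Agent.Lib.MP_537232_an.NM.SpecC

set_option autoImplicit false

/-!
# MP_537232_an, NM, Exf: a polynomial almost norming `Y` (helper25, task 11473)
-/

namespace Pool.Agent.Lib.MP_537232_an.NM

open MeasureTheory ProbabilityTheory Finset Filter Topology

namespace Exf

/-- continuous functions of polynomial growth -/
def PG (F : ℝ → ℝ) : Prop :=
  Continuous F ∧ ∃ A r : ℝ, 0 ≤ A ∧ 0 ≤ r ∧ ∀ x, |F x| ≤ A * (1 + |x|) ^ r

theorem one_le (x : ℝ) : 1 ≤ 1 + |x| := by linarith [abs_nonneg x]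

theorem PG.int (h1 : S_Int) {F : ℝ → ℝ} (h : PG F) : Integrable F gam := by
  obtain ⟨hc, A, r, -, hr, hb⟩ := h
  exact (h1 A r hr).1 F hc hb

theorem PG.const (c : ℝ) : PG fun _ => c :=
  ⟨continuous_const, |c|, 0, abs_nonneg c, le_rfl, fun x => by simp⟩

theorem PG.id : PG fun x => x :=
  ⟨continuous_id, 1, 1, zero_le_one, zero_le_one, fun x => by
    rw [Real.rpow_one]
    linarith [abs_nonneg x]⟩

theorem PG.add {F G : ℝ → ℝ} (hF : PG F) (hG : PG G) : PG fun x => F x + G x := by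
  obtain ⟨hc, A, r, hA, hr, hb⟩ := hF
  obtain ⟨hc', A', r', hA', hr', hb'⟩ := hG
  refine ⟨hc.add hc', A + A', max r r', by positivity, le_max_of_le_left hr, fun x => ?_⟩
  have h1 : (1 + |x|) ^ r ≤ (1 + |x|) ^ max r r' :=
    Real.rpow_le_rpow_of_exponent_le (one_le x) (le_max_left _ _)
  have h2 : (1 + |x|) ^ r' ≤ (1 + |x|) ^ max r r' :=
    Real.rpow_le_rpow_of_exponent_le (one_le x) (le_max_right _ _)
  calc |F x + G x| ≤ |F x| + |G x| := abs_add_le _ _
    _ ≤ A * (1 + |x|) ^ r + A' * (1 + |x|) ^ r' := add_le_add (hb x) (hb' x)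
    _ ≤ A * (1 + |x|) ^ max r r' + A' * (1 + |x|) ^ max r r' := by gcongr
    _ = _ := by ring

theorem PG.mul {F G : ℝ → ℝ} (hF : PG F) (hG : PG G) : PG fun x => F x * G x := by
  obtain ⟨hc, A, r, hA, hr, hb⟩ := hF
  obtain ⟨hc', A', r', hA', hr', hb'⟩ := hG
  refine ⟨hc.mul hc', A * A', r + r', by positivity, by positivity, fun x => ?_⟩
  have h0 : 0 < 1 + |x| := lt_of_lt_of_le one_pos (one_le x)
  rw [abs_mul, Real.rpow_add h0]
  calc |F x| * |G x| ≤ (A * (1 + |x|) ^ r) * (A' * (1 + |x|) ^ r') :=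
        mul_le_mul (hb x) (hb' x) (abs_nonneg _) (by positivity)
    _ = _ := by ring

theorem PG.sub {F G : ℝ → ℝ} (hF : PG F) (hG : PG G) : PG fun x => F x - G x := by
  have h := hF.add ((PG.const (-1)).mul hG)
  have e : (fun x => F x - G x) = fun x => F x + -1 * G x := by
    funext x
    ring
  rw [e]
  exact h

theorem PG.arp {F : ℝ → ℝ} (hF : PG F) {s : ℝ} (hs : 0 ≤ s) : PG fun x => |F x| ^ s := by
  obtain ⟨hc, A, r, hA, hr, hb⟩ := hF
  refine ⟨hc.abs.rpow_const fun x => Or.inr hs, A ^ s, r * s, by positivity, by positivity,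
    fun x => ?_⟩
  have h0 : 0 ≤ 1 + |x| := zero_le_one.trans (one_le x)
  rw [abs_of_nonneg (by positivity), Real.rpow_mul h0, ← Real.mul_rpow hA (by positivity)]
  exact Real.rpow_le_rpow (abs_nonneg _) (hb x) hs

theorem PG.sq {F : ℝ → ℝ} (hF : PG F) : PG fun x => F x ^ 2 := by
  have e : (fun x => F x ^ 2) = fun x => F x * F x := by
    funext x
    ring
  rw [e]
  exact hF.mul hF

theorem PG.poly (P : Polynomial ℝ) : PG fun x => P.eval x := by
  induction P using Polynomial.induction_on with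
  | C a =>
    simp only [Polynomial.eval_C]
    exact PG.const a
  | add p q hp hq =>
    simp only [Polynomial.eval_add]
    exact hp.add hq
  | monomial n a h =>
    have e : (fun x => (Polynomial.C a * Polynomial.X ^ (n + 1)).eval x) =
        fun x : ℝ => (Polynomial.C a * Polynomial.X ^ n).eval x * x := by
      funext x
      simp only [Polynomial.eval_mul, Polynomial.eval_C, Polynomial.eval_pow, Polynomial.eval_X]
      ring
    rw [e]
    exact h.mul PG.id

theorem PG.memLp (h1 : S_Int) {F : ℝ → ℝ} (h : PG F) {p : ℝ} (hp : 0 < p) :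
    MemLp F (ENNReal.ofReal p) gam := by
  rw [← integrable_norm_rpow_iff h.1.aestronglyMeasurable
    (ENNReal.ofReal_pos.2 hp).ne' ENNReal.ofReal_ne_top, ENNReal.toReal_ofReal hp.le]
  exact (h.arp hp.le).int h1

theorem PG.eLp (h1 : S_Int) {F : ℝ → ℝ} (h : PG F) {p : ℝ} (hp : 0 < p) :
    eLpNorm F (ENNReal.ofReal p) gam = ENNReal.ofReal ((∫ x, |F x| ^ p ∂gam) ^ p⁻¹) := by
  have := (h.memLp h1 hp).eLpNorm_eq_integral_rpow_norm (ENNReal.ofReal_pos.2 hp).ne'
    ENNReal.ofReal_ne_top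
  rw [ENNReal.toReal_ofReal hp.le] at this
  exact this

/-- the triangle inequality with the comparison of the norms -/
theorem tri (h1 : S_Int) {h P : ℝ → ℝ} (hh : PG h) (hP : PG P) {p ε : ℝ} (hp : 1 < p) (hp2 : p < 2)
    (hε : 0 ≤ ε) (hn : ∫ x, |h x| ^ p ∂gam = 1) (hd : ∫ x, (h x - P x) ^ 2 ∂gam ≤ ε ^ 2) :
    ∫ x, |P x| ^ p ∂gam ≤ (1 + ε) ^ p := by
  have hp0 : 0 < p := by linarith
  have hPh : PG fun x => P x - h x := hP.sub hh
  have e1 : eLpNorm h (ENNReal.ofReal p) gam = 1 := by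
    rw [hh.eLp h1 hp0, hn, Real.one_rpow, ENNReal.ofReal_one]
  have e2 : eLpNorm (fun x => P x - h x) (ENNReal.ofReal p) gam ≤ ENNReal.ofReal ε := by
    refine (eLpNorm_le_eLpNorm_of_exponent_le (ENNReal.ofReal_le_ofReal hp2.le)
      hPh.1.aestronglyMeasurable).trans ?_
    rw [hPh.eLp h1 two_pos]
    refine ENNReal.ofReal_le_ofReal ?_
    have e3 : ∫ x, |P x - h x| ^ (2 : ℝ) ∂gam ≤ ε ^ 2 := by
      refine le_trans (le_of_eq ?_) hd
      refine integral_congr_ae (Eventually.of_forall fun x => ?_)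
      show |P x - h x| ^ (2 : ℝ) = (h x - P x) ^ 2
      rw [Real.rpow_two, sq_abs]
      ring
    calc (∫ x, |P x - h x| ^ (2 : ℝ) ∂gam) ^ (2 : ℝ)⁻¹ ≤ (ε ^ 2) ^ (2 : ℝ)⁻¹ :=
          Real.rpow_le_rpow (integral_nonneg fun x => by positivity) e3 (by norm_num)
      _ = ε := by
          rw [← Real.rpow_two, ← Real.rpow_mul hε]
          norm_num
  have e4 : eLpNorm P (ENNReal.ofReal p) gam ≤ ENNReal.ofReal (1 + ε) := by
    have e5 : P = h + fun x => P x - h x := by
      funext x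
      simp
    rw [ENNReal.ofReal_add zero_le_one hε, ENNReal.ofReal_one, ← e1]
    calc eLpNorm P (ENNReal.ofReal p) gam = eLpNorm (h + fun x => P x - h x) (ENNReal.ofReal p) gam :=
          congrArg (fun F => eLpNorm F (ENNReal.ofReal p) gam) e5
      _ ≤ eLpNorm h (ENNReal.ofReal p) gam + eLpNorm (fun x => P x - h x) (ENNReal.ofReal p) gam :=
          eLpNorm_add_le hh.1.aestronglyMeasurable hPh.1.aestronglyMeasurable
            (ENNReal.one_le_ofReal.2 hp.le)
      _ ≤ _ := add_le_add le_rfl e2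
  rw [hP.eLp h1 hp0] at e4
  have e6 := (ENNReal.ofReal_le_ofReal_iff (by positivity)).1 e4
  have e7 : 0 ≤ ∫ x, |P x| ^ p ∂gam := integral_nonneg fun x => by positivity
  calc ∫ x, |P x| ^ p ∂gam = ((∫ x, |P x| ^ p ∂gam) ^ p⁻¹) ^ p := by
        rw [← Real.rpow_mul e7, inv_mul_cancel₀ hp0.ne', Real.rpow_one]
    _ ≤ (1 + ε) ^ p := Real.rpow_le_rpow (by positivity) e6 hp0.le

end Exf

open Exf in
theorem wExf (h1 : S_Int) (h2 : S_Pol) : S_Exf := by
  intro q hq C N hN
  have hσ := C.σ_pos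
  have hq1 : 0 < q - 1 := by linarith
  set κ := kap q with hκ
  have hYPG : PG fun x => Yv κ C.α x := by
    unfold Yv
    exact (PG.const _).add ((PG.const _).mul PG.id)
  set Y : ℝ → ℝ := fun x => Yv κ C.α x with hY
  have hMR : ∫ x, |Y x| ^ q ∂gam = C.σ ^ q := C.att
  set h : ℝ → ℝ := fun x => Y x * |Y x| ^ (q - 2) * (C.σ ^ (q - 1))⁻¹ with hh
  have hhPG : PG h := (hYPG.mul (hYPG.arp (by linarith))).mul (PG.const _)
  have habs : ∀ x, |Y x| * |Y x| ^ (q - 2) = |Y x| ^ (q - 1) := fun x => by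
    have := Real.rpow_add_one' (abs_nonneg (Y x)) (y := q - 2) (by linarith)
    rw [show q - 2 + 1 = q - 1 by ring] at this
    rw [this, mul_comm]
  have habs2 : ∀ x, |Y x| * |Y x| ^ (q - 1) = |Y x| ^ q := fun x => by
    have := Real.rpow_add_one' (abs_nonneg (Y x)) (y := q - 1) (by linarith)
    rw [show q - 1 + 1 = q by ring] at this
    rw [this, mul_comm]
  have hp1 : 1 < q / (q - 1) := by
    rw [lt_div_iff₀ hq1]
    linarith
  have hp2 : q / (q - 1) < 2 := by
    rw [div_lt_iff₀ hq1]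
    linarith
  have hn : ∫ x, |h x| ^ (q / (q - 1)) ∂gam = 1 := by
    have e : ∀ x, |h x| ^ (q / (q - 1)) = |Y x| ^ q * (C.σ ^ q)⁻¹ := by
      intro x
      have e1 : |h x| = (|Y x| / C.σ) ^ (q - 1) := by
        rw [hh]
        simp only
        rw [abs_mul, abs_mul, abs_of_nonneg (Real.rpow_nonneg (abs_nonneg (Y x)) _), habs,
          abs_of_pos (inv_pos.2 (Real.rpow_pos_of_pos hσ _)), Real.div_rpow (abs_nonneg _) hσ.le]
        rfl
      rw [e1, ← Real.rpow_mul (by positivity), mul_div_cancel₀ _ hq1.ne',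
        Real.div_rpow (abs_nonneg _) hσ.le]
      rfl
    simp_rw [e]
    rw [integral_mul_const, hMR]
    exact mul_inv_cancel₀ (Real.rpow_pos_of_pos hσ _).ne'
  have hpair : ∫ x, h x * Y x ∂gam = C.σ := by
    have e : ∀ x, h x * Y x = |Y x| ^ q * (C.σ ^ (q - 1))⁻¹ := by
      intro x
      have e1 : Y x * Y x = |Y x| * |Y x| := (abs_mul_abs_self _).symm
      rw [← habs2, ← habs, hh]
      simp only
      linear_combination (|Y x| ^ (q - 2) * (C.σ ^ (q - 1))⁻¹) * e1
    simp_rw [e]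
    rw [integral_mul_const, hMR, ← div_eq_mul_inv, ← Real.rpow_sub hσ,
      show q - (q - 1) = 1 by ring, Real.rpow_one]
  set M : ℝ := ∫ x, Y x ^ 2 ∂gam with hM
  have hM0 : 0 ≤ M := integral_nonneg fun x => sq_nonneg _
  have hNpos : (0 : ℝ) < N := by exact_mod_cast hN
  set ε : ℝ := C.σ / (2 * N) / ((1 + M) / 2 + C.σ) with hε
  have hεpos : 0 < ε := by positivity
  have hε1 : ε * ((1 + M) / 2 + C.σ) = C.σ / (2 * N) := div_mul_cancel₀ _ (by positivity)
  have hh2 : MemLp h 2 gam := by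
    have := hhPG.memLp h1 (p := 2) two_pos
    rwa [show ENNReal.ofReal 2 = 2 by norm_num] at this
  obtain ⟨P₀, hP₀⟩ := h2 h hh2 (ε ^ 2) (by positivity)
  have hPPG := PG.poly P₀
  have htri := tri h1 hhPG hPPG hp1 hp2 hεpos.le hn hP₀
  refine ⟨Polynomial.C (1 + ε)⁻¹ * P₀, ?_, ?_⟩
  · have e : ∀ x, |(Polynomial.C (1 + ε)⁻¹ * P₀).eval x| ^ (q / (q - 1)) =
        ((1 + ε) ^ (q / (q - 1)))⁻¹ * |P₀.eval x| ^ (q / (q - 1)) := by
      intro x
      rw [Polynomial.eval_mul, Polynomial.eval_C, abs_mul, abs_of_pos (by positivity),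
        Real.mul_rpow (by positivity) (abs_nonneg _), Real.inv_rpow (by positivity)]
    simp_rw [e]
    rw [integral_const_mul, inv_mul_le_iff₀ (by positivity), mul_one]
    exact htri
  · have e : ∀ x, (Polynomial.C (1 + ε)⁻¹ * P₀).eval x * Yv κ C.α x =
        (1 + ε)⁻¹ * (P₀.eval x * Y x) := by
      intro x
      rw [Polynomial.eval_mul, Polynomial.eval_C]
      ring
    simp_rw [e]
    rw [integral_const_mul]
    have i1 : Integrable (fun x => P₀.eval x * Y x) gam := (hPPG.mul hYPG).int h1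
    have i2 : Integrable (fun x => h x * Y x) gam := (hhPG.mul hYPG).int h1
    have i3 : Integrable (fun x => (h x - P₀.eval x) ^ 2) gam := ((hhPG.sub hPPG).sq).int h1
    have i4 : Integrable (fun x => Y x ^ 2) gam := hYPG.sq.int h1
    have k1 : ∫ x, h x * Y x ∂gam - ∫ x, P₀.eval x * Y x ∂gam ≤ ε * ((1 + M) / 2) := by
      rw [← integral_sub i2 i1]
      calc ∫ x, (h x * Y x - P₀.eval x * Y x) ∂gam ≤
            ∫ x, ((2 * ε)⁻¹ * (h x - P₀.eval x) ^ 2 + ε / 2 * Y x ^ 2) ∂gam := by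
            refine integral_mono (i2.sub i1) ((i3.const_mul _).add (i4.const_mul _)) fun x => ?_
            show h x * Y x - P₀.eval x * Y x ≤ (2 * ε)⁻¹ * (h x - P₀.eval x) ^ 2 + ε / 2 * Y x ^ 2
            have k2 : (2 * ε)⁻¹ * (h x - P₀.eval x) ^ 2 + ε / 2 * Y x ^ 2 -
                (h x * Y x - P₀.eval x * Y x) =
                (2 * ε)⁻¹ * ((h x - P₀.eval x) - ε * Y x) ^ 2 := by
              field_simp
              ring
            have k3 : 0 ≤ (2 * ε)⁻¹ * ((h x - P₀.eval x) - ε * Y x) ^ 2 := by positivity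
            linarith
        _ = (2 * ε)⁻¹ * ∫ x, (h x - P₀.eval x) ^ 2 ∂gam + ε / 2 * M := by
            rw [integral_add (i3.const_mul _) (i4.const_mul _), integral_const_mul,
              integral_const_mul]
        _ ≤ (2 * ε)⁻¹ * ε ^ 2 + ε / 2 * M := by gcongr
        _ = ε * ((1 + M) / 2) := by
            field_simp
    rw [hpair] at k1
    have k4 : C.σ - ε * ((1 + M) / 2) ≤ ∫ x, P₀.eval x * Y x ∂gam := by linarith
    rw [le_inv_mul_iff₀ (by positivity)]
    refine le_trans ?_ k4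
    have k5 : C.σ * (1 - 1 / (2 * N)) = C.σ - C.σ / (2 * N) := by ring
    rw [k5]
    have k6 : 0 ≤ C.σ / (2 * N) := by positivity
    nlinarith

end Pool.Agent.Lib.MP_537232_an.NM
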