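import Pool.Agent.Lib.MP_537232_an.NM.SpecG

set_option autoImplicit false

/-!
# MP_537232_an, NM/Fg: from flat vectors to all vectors (helper82)

If `∑_{J'} |W| ≤ B √|J'|` for all `J' ⊆ J` then `∑_J W² ≤ B² (1 + 1/2 + ... + 1/|J|)` (remove the smallest value).
-/

namespace Pool.Agent.Lib.MP_537232_an.NM

open Finset

namespace Fg

/-- harmonic numbers -/
noncomputable def Hs (m : ℕ) : ℝ := ∑ k ∈ range m, 1 / ((k : ℝ) + 1)

theorem Hs_nonneg (m : ℕ) : 0 ≤ Hs m := sum_nonneg fun k _ => by positivity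

theorem Hs_mono {m n : ℕ} (h : m ≤ n) : Hs m ≤ Hs n :=
  sum_le_sum_of_subset_of_nonneg (range_subset_range.2 h) fun k _ _ => by positivity

theorem Hs_le (s : ℕ) : Hs s ≤ (Nat.log 2 s : ℝ) + 2 := by
  have h1 : Hs s = ((harmonic s : ℚ) : ℝ) := by
    unfold Hs harmonic
    push_cast
    refine sum_congr rfl fun k _ => ?_
    rw [one_div]
  rw [h1]
  refine (harmonic_le_one_add_log s).trans ?_
  have h2 : Real.log s ≤ (Nat.log 2 s : ℝ) + 1 := by
    rcases Nat.eq_zero_or_pos s with h0 | h0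
    · subst h0
      simp only [Nat.cast_zero, Real.log_zero]
      positivity
    · have h3 : s < 2 ^ (Nat.log 2 s + 1) := Nat.lt_pow_succ_log_self one_lt_two s
      have h4 : (s : ℝ) ≤ 2 ^ (Nat.log 2 s + 1) := by exact_mod_cast h3.le
      have h5 : Real.log s ≤ ((Nat.log 2 s + 1 : ℕ) : ℝ) * Real.log 2 := by
        rw [← Real.log_pow]
        exact Real.log_le_log (by exact_mod_cast h0) h4
      have h6 : Real.log 2 ≤ 1 := by
        have := Real.log_two_lt_d9
        linarith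
      have h7 : ((Nat.log 2 s + 1 : ℕ) : ℝ) * Real.log 2 ≤ ((Nat.log 2 s + 1 : ℕ) : ℝ) * 1 :=
        mul_le_mul_of_nonneg_left h6 (Nat.cast_nonneg _)
      rw [mul_one] at h7
      push_cast at h7 h5
      linarith
  linarith

theorem sum_sq {v : ℕ} (W : Fin v → ℝ) (B : ℝ) : ∀ (n : ℕ) (J : Finset (Fin v)),
    J.card = n → (∀ J' ⊆ J, ∑ t ∈ J', |W t| ≤ B * Real.sqrt J'.card) →
      ∑ t ∈ J, W t ^ 2 ≤ B ^ 2 * Hs n := by
  intro n
  induction n with
  | zero =>
    intro J hJ _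
    rw [card_eq_zero] at hJ
    subst hJ
    simp [Hs]
  | succ n ih =>
    intro J hJ h
    have hne : J.Nonempty := card_pos.1 (by omega)
    obtain ⟨t₀, ht₀, hmin⟩ := exists_min_image J (fun t => |W t|) hne
    have h1 : ((n : ℝ) + 1) * |W t₀| ≤ B * Real.sqrt ((n : ℝ) + 1) := by
      have h2 := h J (Subset.refl J)
      have h3 : ∑ _t ∈ J, |W t₀| ≤ ∑ t ∈ J, |W t| := sum_le_sum fun t ht => hmin t ht
      rw [sum_const, hJ, nsmul_eq_mul] at h3
      rw [hJ] at h2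
      push_cast at h2 h3
      exact h3.trans h2
    have hn0 : (0 : ℝ) < (n : ℝ) + 1 := by positivity
    have h4 : W t₀ ^ 2 ≤ B ^ 2 * (1 / ((n : ℝ) + 1)) := by
      have h5 : (((n : ℝ) + 1) * |W t₀|) ^ 2 ≤ (B * Real.sqrt ((n : ℝ) + 1)) ^ 2 :=
        pow_le_pow_left₀ (by positivity) h1 2
      rw [mul_pow, mul_pow, sq_abs, Real.sq_sqrt hn0.le] at h5
      rw [mul_one_div, le_div_iff₀ hn0]
      have h6 : ((n : ℝ) + 1) * (W t₀ ^ 2 * ((n : ℝ) + 1)) ≤ ((n : ℝ) + 1) * B ^ 2 := by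
        nlinarith
      exact le_of_mul_le_mul_left h6 hn0
    have h7 := ih (J.erase t₀) (by rw [card_erase_of_mem ht₀, hJ]; rfl)
      (fun J' hJ' => h J' (hJ'.trans (erase_subset _ _)))
    rw [← add_sum_erase J (fun t => W t ^ 2) ht₀]
    have h8 : Hs (n + 1) = Hs n + 1 / ((n : ℝ) + 1) := by
      unfold Hs
      rw [sum_range_succ]
    rw [h8, mul_add]
    linarith

/-- the form with signs -/
theorem lin {v : ℕ} (W a : Fin v → ℝ) (B : ℝ) (hB : 0 ≤ B) (J : Finset (Fin v))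
    (h : ∀ J' ⊆ J, ∀ τ : Fin v → ℝ, (∀ t, τ t = 1 ∨ τ t = -1) →
      |∑ t ∈ J', τ t * W t| ≤ B * Real.sqrt J'.card) :
    |∑ t ∈ J, a t * W t| ≤ Real.sqrt (∑ t ∈ J, a t ^ 2) * (B * Real.sqrt (Hs J.card)) := by
  have h1 : ∀ J' ⊆ J, ∑ t ∈ J', |W t| ≤ B * Real.sqrt J'.card := by
    intro J' hJ'
    have h2 := h J' hJ' (fun t => if 0 ≤ W t then 1 else -1) (fun t => by
      by_cases h3 : 0 ≤ W t
      · exact Or.inl (if_pos h3)
      · exact Or.inr (if_neg h3))
    refine le_trans (le_of_eq ?_) ((le_abs_self _).trans h2)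
    refine sum_congr rfl fun t _ => ?_
    by_cases h3 : 0 ≤ W t
    · rw [if_pos h3, one_mul, abs_of_nonneg h3]
    · rw [if_neg h3, abs_of_neg (not_le.1 h3)]
      ring
  have h2 := sum_sq W B J.card J rfl h1
  have h3 := Finset.sum_mul_sq_le_sq_mul_sq J a W
  have h4 : 0 ≤ ∑ t ∈ J, a t ^ 2 := sum_nonneg fun t _ => sq_nonneg _
  rw [← Real.sqrt_sq_eq_abs]
  have h5 : (∑ t ∈ J, a t * W t) ^ 2 ≤ (∑ t ∈ J, a t ^ 2) * (B ^ 2 * Hs J.card) :=
    h3.trans (mul_le_mul_of_nonneg_left h2 h4)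
  refine (Real.sqrt_le_sqrt h5).trans (le_of_eq ?_)
  rw [Real.sqrt_mul h4, Real.sqrt_mul (sq_nonneg B), Real.sqrt_sq hB]

/-- two disjoint sets -/
theorem bil {v : ℕ} {Γ : Fin v → Fin v → ℝ} {s : ℕ} {δ : ℝ} (hδ : 0 ≤ δ) (hO : OD Γ s δ)
    (J₁ J₂ : Finset (Fin v)) (hd : Disjoint J₁ J₂) (hc : J₁.card + J₂.card ≤ s) (a c : Fin v → ℝ) :
    |∑ t ∈ J₁, ∑ t' ∈ J₂, a t * c t' * Γ t t'| ≤
      δ * Hs s * (Real.sqrt (∑ t ∈ J₁, a t ^ 2) * Real.sqrt (∑ t ∈ J₂, c t ^ 2)) := by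
  classical
  have e1 : ∑ t ∈ J₁, ∑ t' ∈ J₂, a t * c t' * Γ t t' =
      ∑ t' ∈ J₂, c t' * ∑ t ∈ J₁, a t * Γ t t' := by
    rw [sum_comm]
    refine sum_congr rfl fun t' _ => ?_
    rw [mul_sum]
    refine sum_congr rfl fun t _ => ?_
    ring
  have hH1 : Hs J₁.card ≤ Hs s := Hs_mono (by omega)
  have hH2 : Hs J₂.card ≤ Hs s := Hs_mono (by omega)
  have h1 := lin (fun t' => ∑ t ∈ J₁, a t * Γ t t') c
    (Real.sqrt (∑ t ∈ J₁, a t ^ 2) * (δ * Real.sqrt (Hs J₁.card))) (by positivity) J₂ (by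
      intro J₂' hJ₂' τ hτ
      have e2 : ∑ t' ∈ J₂', τ t' * ∑ t ∈ J₁, a t * Γ t t' =
          ∑ t ∈ J₁, a t * ∑ t' ∈ J₂', τ t' * Γ t t' := by
        simp only [mul_sum]
        rw [sum_comm]
        refine sum_congr rfl fun t _ => sum_congr rfl fun t' _ => ?_
        ring
      rw [e2]
      have h2 := lin (fun t => ∑ t' ∈ J₂', τ t' * Γ t t') a (δ * Real.sqrt J₂'.card)
        (by positivity) J₁ (by
          intro J₁' hJ₁' τ' hτ'
          have hd' : Disjoint J₁' J₂' := disjoint_of_subset_left hJ₁' (disjoint_of_subset_right hJ₂' hd)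
          have hc' : J₁'.card + J₂'.card ≤ s :=
            (add_le_add (card_le_card hJ₁') (card_le_card hJ₂')).trans hc
          have h3 := hO J₁' J₂' (fun t => if t ∈ J₁' then τ' t else τ t) hd' hc' (fun t => by
            by_cases ht : t ∈ J₁'
            · simp only [if_pos ht]
              exact hτ' t
            · simp only [if_neg ht]
              exact hτ t)
          have e3 : ∑ t ∈ J₁', τ' t * ∑ t' ∈ J₂', τ t' * Γ t t' =
              ∑ t ∈ J₁', ∑ t' ∈ J₂', (if t ∈ J₁' then τ' t else τ t) *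
                (if t' ∈ J₁' then τ' t' else τ t') * Γ t t' := by
            refine sum_congr rfl fun t ht => ?_
            rw [mul_sum]
            refine sum_congr rfl fun t' ht' => ?_
            rw [if_pos ht, if_neg (Finset.disjoint_right.1 hd' ht')]
            ring
          rw [e3]
          refine h3.trans (le_of_eq ?_)
          rw [Real.sqrt_mul (Nat.cast_nonneg _)]
          ring)
      refine h2.trans (le_of_eq ?_)
      ring)
  rw [e1]
  refine h1.trans ?_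
  have h5 : Real.sqrt (Hs J₁.card) * Real.sqrt (Hs J₂.card) ≤ Hs s := by
    have h6 : Real.sqrt (Hs J₁.card) ≤ Real.sqrt (Hs s) := Real.sqrt_le_sqrt hH1
    have h7 : Real.sqrt (Hs J₂.card) ≤ Real.sqrt (Hs s) := Real.sqrt_le_sqrt hH2
    refine (mul_le_mul h6 h7 (Real.sqrt_nonneg _) (Real.sqrt_nonneg _)).trans (le_of_eq ?_)
    exact Real.mul_self_sqrt (Hs_nonneg s)
  have h8 : 0 ≤ δ * (Real.sqrt (∑ t ∈ J₁, a t ^ 2) * Real.sqrt (∑ t ∈ J₂, c t ^ 2)) := by
    positivity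
  calc Real.sqrt (∑ t ∈ J₂, c t ^ 2) * (Real.sqrt (∑ t ∈ J₁, a t ^ 2) *
        (δ * Real.sqrt (Hs J₁.card)) * Real.sqrt (Hs J₂.card))
      = δ * (Real.sqrt (∑ t ∈ J₁, a t ^ 2) * Real.sqrt (∑ t ∈ J₂, c t ^ 2)) *
        (Real.sqrt (Hs J₁.card) * Real.sqrt (Hs J₂.card)) := by ring
    _ ≤ δ * (Real.sqrt (∑ t ∈ J₁, a t ^ 2) * Real.sqrt (∑ t ∈ J₂, c t ^ 2)) * Hs s :=
        mul_le_mul_of_nonneg_left h5 h8
    _ = _ := by ring

/-- a function which changes the sign if the sign `t` is changed -/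
theorem sum_flip {v : ℕ} (t : Fin v) (G : (Fin v → Bool) → ℝ)
    (h : ∀ χ, G (Function.update χ t (!χ t)) = -G χ) : ∑ χ, G χ = 0 := by
  classical
  have hinv : Function.Involutive (fun χ : Fin v → Bool => Function.update χ t (!χ t)) := by
    intro χ
    funext x
    by_cases hx : x = t
    · subst hx
      simp
    · simp [hx]
  let e : Equiv.Perm (Fin v → Bool) := hinv.toPerm
  have h1 : ∑ χ : Fin v → Bool, G (e χ) = ∑ χ, G χ := Equiv.sum_comp e G
  have h2 : ∑ χ : Fin v → Bool, G (e χ) = ∑ χ, -G χ := sum_congr rfl fun χ _ => h χ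
  rw [h2, sum_neg_distrib] at h1
  linarith

theorem sg_not (b : Bool) : sg (!b) = -sg b := by
  cases b <;> simp [sg]

theorem count {v : ℕ} (t t' : Fin v) : ∑ χ : Fin v → Bool, (1 + sg (χ t)) / 2 * ((1 - sg (χ t')) / 2) =
    if t = t' then 0 else 2 ^ v / 4 := by
  classical
  by_cases h : t = t'
  · subst h
    rw [if_pos rfl]
    refine sum_eq_zero fun χ _ => ?_
    unfold sg
    split <;> norm_num
  · rw [if_neg h]
    have e1 : ∀ s : Fin v, ∑ χ : Fin v → Bool, sg (χ s) = 0 := fun s =>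
      sum_flip s _ fun χ => by rw [Function.update_self, sg_not]
    have e2 : ∑ χ : Fin v → Bool, sg (χ t) * sg (χ t') = 0 := by
      refine sum_flip t _ fun χ => ?_
      rw [Function.update_self, Function.update_of_ne (fun h' => h h'.symm), sg_not]
      ring
    have e3 : ∀ χ : Fin v → Bool, (1 + sg (χ t)) / 2 * ((1 - sg (χ t')) / 2) =
        1 / 4 + sg (χ t) / 4 - sg (χ t') / 4 - (sg (χ t) * sg (χ t')) / 4 := fun χ => by ring
    rw [sum_congr rfl fun χ _ => e3 χ, sum_sub_distrib, sum_sub_distrib, sum_add_distrib,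
      ← sum_div, ← sum_div, ← sum_div, ← sum_div, e1, e1, e2]
    simp

end Fg

theorem wFg : S_Fg := by
  classical
  intro v Γ s δ h1 hδ hO J a hJ
  have e1 : ∑ t ∈ J, ∑ t' ∈ J, a t * a t' * Γ t t' - ∑ t ∈ J, a t ^ 2 =
      ∑ t ∈ J, ∑ t' ∈ J, (if t = t' then 0 else 1) * (a t * a t' * Γ t t') := by
    rw [← sum_sub_distrib]
    refine sum_congr rfl fun t ht => ?_
    have e2 : ∀ t' ∈ J, (if t = t' then (0 : ℝ) else 1) * (a t * a t' * Γ t t') =
        a t * a t' * Γ t t' - if t = t' then a t ^ 2 else 0 := by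
      intro t' _
      by_cases h : t = t'
      · subst h
        rw [if_pos rfl, if_pos rfl, h1]
        ring
      · rw [if_neg h, if_neg h]
        ring
    rw [sum_congr rfl e2, sum_sub_distrib, sum_ite_eq, if_pos ht]
  have e3 : ∑ χ : Fin v → Bool, ∑ t ∈ J.filter (fun t => χ t = true),
        ∑ t' ∈ J.filter (fun t => χ t = false), a t * a t' * Γ t t' =
      2 ^ v / 4 * ∑ t ∈ J, ∑ t' ∈ J, (if t = t' then (0 : ℝ) else 1) * (a t * a t' * Γ t t') := by
    have e4 : ∀ χ : Fin v → Bool, ∑ t ∈ J.filter (fun t => χ t = true),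
        ∑ t' ∈ J.filter (fun t => χ t = false), a t * a t' * Γ t t' =
        ∑ t ∈ J, ∑ t' ∈ J, (1 + sg (χ t)) / 2 * ((1 - sg (χ t')) / 2) * (a t * a t' * Γ t t') := by
      intro χ
      rw [sum_filter]
      refine sum_congr rfl fun t _ => ?_
      cases ht : χ t
      · simp only [Bool.false_eq_true, if_false]
        symm
        refine sum_eq_zero fun t' _ => ?_
        simp [sg]
      · simp only [if_true]
        rw [sum_filter]
        refine sum_congr rfl fun t' _ => ?_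
        cases ht' : χ t' <;> simp [sg]
    rw [sum_congr rfl fun χ _ => e4 χ, sum_comm, mul_sum]
    refine sum_congr rfl fun t _ => ?_
    rw [sum_comm, mul_sum]
    refine sum_congr rfl fun t' _ => ?_
    rw [← sum_mul, Fg.count]
    split <;> ring
  have hA : 0 ≤ ∑ t ∈ J, a t ^ 2 := sum_nonneg fun t _ => sq_nonneg _
  have e5 : ∀ χ : Fin v → Bool, |∑ t ∈ J.filter (fun t => χ t = true),
        ∑ t' ∈ J.filter (fun t => χ t = false), a t * a t' * Γ t t'| ≤
      δ * Fg.Hs s * ((∑ t ∈ J, a t ^ 2) / 2) := by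
    intro χ
    have hd : Disjoint (J.filter fun t => χ t = true) (J.filter fun t => χ t = false) := by
      rw [Finset.disjoint_left]
      intro t ht ht'
      rw [mem_filter] at ht ht'
      rw [ht.2] at ht'
      exact Bool.noConfusion ht'.2
    have hun : (J.filter fun t => χ t = true) ∪ (J.filter fun t => χ t = false) = J := by
      ext t
      simp only [mem_union, mem_filter]
      constructor
      · rintro (h | h) <;> exact h.1
      · intro h
        cases hχ : χ t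
        · exact Or.inr ⟨h, rfl⟩
        · exact Or.inl ⟨h, rfl⟩
    have hcard : (J.filter fun t => χ t = true).card + (J.filter fun t => χ t = false).card ≤ s := by
      rw [← card_union_of_disjoint hd, hun]
      exact hJ
    have hsum : ∑ t ∈ J.filter (fun t => χ t = true), a t ^ 2 +
        ∑ t ∈ J.filter (fun t => χ t = false), a t ^ 2 = ∑ t ∈ J, a t ^ 2 := by
      rw [← sum_union hd, hun]
    have h2 := Fg.bil hδ hO _ _ hd hcard a a
    refine h2.trans (mul_le_mul_of_nonneg_left ?_ (mul_nonneg hδ (Fg.Hs_nonneg s)))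
    have h3 : 0 ≤ ∑ t ∈ J.filter (fun t => χ t = true), a t ^ 2 := sum_nonneg fun t _ => sq_nonneg _
    have h4 : 0 ≤ ∑ t ∈ J.filter (fun t => χ t = false), a t ^ 2 :=
      sum_nonneg fun t _ => sq_nonneg _
    nlinarith [Real.sq_sqrt h3, Real.sq_sqrt h4,
      sq_nonneg (Real.sqrt (∑ t ∈ J.filter (fun t => χ t = true), a t ^ 2) -
        Real.sqrt (∑ t ∈ J.filter (fun t => χ t = false), a t ^ 2))]
  show |∑ t ∈ J, ∑ t' ∈ J, a t * a t' * Γ t t' - ∑ t ∈ J, a t ^ 2| ≤ _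
  rw [e1]
  have h2v : (0 : ℝ) < 2 ^ v := by positivity
  have e6 : |2 ^ v / 4 * ∑ t ∈ J, ∑ t' ∈ J,
      (if t = t' then (0 : ℝ) else 1) * (a t * a t' * Γ t t')| ≤
      2 ^ v * (δ * Fg.Hs s * ((∑ t ∈ J, a t ^ 2) / 2)) := by
    rw [← e3]
    refine (abs_sum_le_sum_abs _ _).trans ((sum_le_sum fun χ _ => e5 χ).trans (le_of_eq ?_))
    rw [sum_const, card_univ, Fintype.card_fun, Fintype.card_bool, Fintype.card_fin, nsmul_eq_mul]
    push_cast
    rfl
  rw [abs_mul, abs_of_pos (by positivity : (0 : ℝ) < 2 ^ v / 4)] at e6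
  have e7 : |∑ t ∈ J, ∑ t' ∈ J, (if t = t' then (0 : ℝ) else 1) * (a t * a t' * Γ t t')| ≤
      2 * (δ * Fg.Hs s * ∑ t ∈ J, a t ^ 2) := by
    have h3 : (2 : ℝ) ^ v / 4 *
        |∑ t ∈ J, ∑ t' ∈ J, (if t = t' then (0 : ℝ) else 1) * (a t * a t' * Γ t t')| ≤
        2 ^ v / 4 * (2 * (δ * Fg.Hs s * ∑ t ∈ J, a t ^ 2)) := by
      refine e6.trans (le_of_eq ?_)
      ring
    exact le_of_mul_le_mul_left h3 (by positivity)
  refine e7.trans ?_
  have h4 := Fg.Hs_le s
  have h5 : 0 ≤ δ * ∑ t ∈ J, a t ^ 2 := mul_nonneg hδ hA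
  have h6 : (0 : ℝ) ≤ (Nat.log 2 s : ℝ) := Nat.cast_nonneg _
  nlinarith [mul_le_mul_of_nonneg_left h4 h5, mul_nonneg h5 h6]

end Pool.Agent.Lib.MP_537232_an.NM
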