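import Pool.Agent.Lib.MP_537232_an.NM.SpecS

set_option autoImplicit false

namespace Pool.Agent.Lib.MP_537232_an.NM

open MeasureTheory ProbabilityTheory Finset Filter Topology

namespace Fil

/-- the value of the polynomial with coefficients `a` at `x` -/
private def ev {p : ℕ} (a : Fin 3 → ZMod p) (x : ZMod p) : ZMod p := a 2 * x ^ 2 + a 1 * x + a 0

private theorem count {p : ℕ} [Fact p.Prime] (a b : Fin 3 → ZMod p) (h : a ≠ b) :
    (univ.filter fun x : ZMod p => ev a x = ev b x).card ≤ 2 := by
  classical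
  set P : Polynomial (ZMod p) := Polynomial.C (a 2 - b 2) * Polynomial.X ^ 2 +
    Polynomial.C (a 1 - b 1) * Polynomial.X + Polynomial.C (a 0 - b 0) with hP
  have hP0 : P ≠ 0 := by
    intro h0
    apply h
    have h2 : P.coeff 2 = a 2 - b 2 := by
      rw [hP, Polynomial.coeff_add, Polynomial.coeff_add, Polynomial.coeff_C_mul,
        Polynomial.coeff_C_mul, Polynomial.coeff_X_pow, Polynomial.coeff_X, Polynomial.coeff_C]
      norm_num
    have h1 : P.coeff 1 = a 1 - b 1 := by
      rw [hP, Polynomial.coeff_add, Polynomial.coeff_add, Polynomial.coeff_C_mul,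
        Polynomial.coeff_C_mul, Polynomial.coeff_X_pow, Polynomial.coeff_X, Polynomial.coeff_C]
      norm_num
    have h00 : P.coeff 0 = a 0 - b 0 := by
      rw [hP, Polynomial.coeff_add, Polynomial.coeff_add, Polynomial.coeff_C_mul,
        Polynomial.coeff_C_mul, Polynomial.coeff_X_pow, Polynomial.coeff_X, Polynomial.coeff_C]
      norm_num
    rw [h0, Polynomial.coeff_zero] at h2 h1 h00
    funext i
    fin_cases i
    · exact (sub_eq_zero.1 h00.symm)
    · exact (sub_eq_zero.1 h1.symm)
    · exact (sub_eq_zero.1 h2.symm)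
  have hdeg : P.natDegree ≤ 2 := Polynomial.natDegree_quadratic_le
  have hsub : (univ.filter fun x : ZMod p => ev a x = ev b x) ⊆ P.roots.toFinset := by
    intro x hx
    rw [Finset.mem_filter] at hx
    rw [Multiset.mem_toFinset, Polynomial.mem_roots hP0, Polynomial.IsRoot.def]
    have hx2 : a 2 * x ^ 2 + a 1 * x + a 0 = b 2 * x ^ 2 + b 1 * x + b 0 := hx.2
    simp only [hP, Polynomial.eval_add, Polynomial.eval_mul, Polynomial.eval_C,
      Polynomial.eval_pow, Polynomial.eval_X]
    linear_combination hx2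
  calc (univ.filter fun x : ZMod p => ev a x = ev b x).card ≤ P.roots.toFinset.card :=
        Finset.card_le_card hsub
    _ ≤ Multiset.card P.roots := Multiset.toFinset_card_le _
    _ ≤ P.natDegree := Polynomial.card_roots' P
    _ ≤ 2 := hdeg

/-- the vectors -/
private noncomputable def vec {p : ℕ} (a : Fin 3 → ZMod p) (z : ZMod p × ZMod p) : ℝ := by
  classical
  exact if z.2 = ev a z.1 then (Real.sqrt p)⁻¹ else 0

private theorem inn {p : ℕ} [Fact p.Prime] (a b : Fin 3 → ZMod p) :
    ∑ z : ZMod p × ZMod p, vec a z * vec b z =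
      ((univ.filter fun x : ZMod p => ev a x = ev b x).card : ℝ) / p := by
  classical
  have hp : (0 : ℝ) < p := by exact_mod_cast (Fact.out : p.Prime).pos
  have hs : (Real.sqrt p)⁻¹ * (Real.sqrt p)⁻¹ = 1 / p := by
    rw [← mul_inv, Real.mul_self_sqrt hp.le, one_div]
  rw [Fintype.sum_prod_type]
  have h1 : ∀ x : ZMod p, ∑ y : ZMod p, vec a (x, y) * vec b (x, y) =
      if ev a x = ev b x then 1 / (p : ℝ) else 0 := by
    intro x
    rw [Finset.sum_eq_single (ev a x)]
    · by_cases h : ev a x = ev b x
      · rw [if_pos h]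
        simp only [vec]
        rw [if_pos trivial, if_pos h, hs]
      · rw [if_neg h]
        simp only [vec]
        rw [if_pos trivial, if_neg h, mul_zero]
    · intro y _ hy
      simp only [vec]
      rw [if_neg hy, zero_mul]
    · intro h
      exact absurd (Finset.mem_univ _) h
  rw [Finset.sum_congr rfl fun x _ => h1 x, ← Finset.sum_filter, Finset.sum_const, nsmul_eq_mul]
  ring

end Fil

open Fil in
theorem wFil : S_Fil := by
  classical
  intro n
  obtain ⟨p, hn, hp⟩ := Nat.exists_infinite_primes n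
  haveI : Fact p.Prime := ⟨hp⟩
  have hp0 : (0 : ℝ) < p := by exact_mod_cast hp.pos
  refine ⟨p, hn, hp.one_lt.le, ?_⟩
  have e3 : Fin (p ^ 3) ≃ (Fin 3 → ZMod p) := Fintype.equivOfCardEq (by simp [ZMod.card])
  have e2 : Fin (p ^ 2) ≃ ZMod p × ZMod p := Fintype.equivOfCardEq (by simp [ZMod.card, sq])
  have key : ∀ c c', ∑ i, vec (e3 c) (e2 i) * vec (e3 c') (e2 i) =
      ((univ.filter fun x : ZMod p => ev (e3 c) x = ev (e3 c') x).card : ℝ) / p := by
    intro c c'
    rw [← inn (e3 c) (e3 c')]
    exact Equiv.sum_comp e2 (fun z => vec (e3 c) z * vec (e3 c') z)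
  refine ⟨fun c i => vec (e3 c) (e2 i), fun c => ?_, fun c c' h => ?_⟩
  · have h1 := key c c
    simp only [Finset.filter_true, Finset.card_univ, ZMod.card] at h1
    rw [div_self hp0.ne'] at h1
    rw [← h1]
    exact Finset.sum_congr rfl fun i _ => by ring
  · simp only []
    rw [key c c', abs_of_nonneg (by positivity)]
    apply div_le_div_of_nonneg_right _ hp0.le
    exact_mod_cast count (e3 c) (e3 c') (fun hh => h (e3.injective hh))

end Pool.Agent.Lib.MP_537232_an.NM
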