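import Pool.Agent.Lib.MP_537232_an.NM.SpecG

set_option autoImplicit false

/-!
# MP_537232_an, NM/Flt: one pair of flat vectors (helper82)
-/

namespace Pool.Agent.Lib.MP_537232_an.NM

open Finset

namespace Flt

/-- the signs of `ε` on `J'`, the signs of `ε₀` elsewhere -/
def mix {v d : ℕ} (J' : Finset (Fin v)) (ε₀ ε : Fin v → Fin d → Bool) : Fin v → Fin d → Bool :=
  fun t => if t ∈ J' then ε t else ε₀ t

theorem mix_in {v d : ℕ} {J' : Finset (Fin v)} (ε₀ ε : Fin v → Fin d → Bool) {t : Fin v}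
    (h : t ∈ J') : mix J' ε₀ ε t = ε t := if_pos h

theorem mix_out {v d : ℕ} {J' : Finset (Fin v)} (ε₀ ε : Fin v → Fin d → Bool) {t : Fin v}
    (h : t ∉ J') : mix J' ε₀ ε t = ε₀ t := if_neg h

/-- counting by fibres -/
theorem count {v d : ℕ} (J' : Finset (Fin v)) (S : Finset (Fin v → Fin d → Bool)) (c : ℝ)
    (h : ∀ ε₀, ((univ.filter fun ε => mix J' ε₀ ε ∈ S).card : ℝ) ≤ c) : (S.card : ℝ) ≤ c := by
  classical
  have hinv : Function.Involutive
      (fun p : (Fin v → Fin d → Bool) × (Fin v → Fin d → Bool) => (mix J' p.1 p.2, mix J' p.2 p.1)) := by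
    intro p
    refine Prod.ext ?_ ?_
    · funext t
      by_cases ht : t ∈ J'
      · show mix J' (mix J' p.1 p.2) (mix J' p.2 p.1) t = p.1 t
        rw [mix_in _ _ ht, mix_in _ _ ht]
      · show mix J' (mix J' p.1 p.2) (mix J' p.2 p.1) t = p.1 t
        rw [mix_out _ _ ht, mix_out _ _ ht]
    · funext t
      by_cases ht : t ∈ J'
      · show mix J' (mix J' p.2 p.1) (mix J' p.1 p.2) t = p.2 t
        rw [mix_in _ _ ht, mix_in _ _ ht]
      · show mix J' (mix J' p.2 p.1) (mix J' p.1 p.2) t = p.2 t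
        rw [mix_out _ _ ht, mix_out _ _ ht]
  let e := hinv.toPerm
  have h1 : ∑ p : (Fin v → Fin d → Bool) × (Fin v → Fin d → Bool),
      (if mix J' p.1 p.2 ∈ S then (1 : ℝ) else 0) =
      ∑ p : (Fin v → Fin d → Bool) × (Fin v → Fin d → Bool), (if p.1 ∈ S then (1 : ℝ) else 0) :=
    Equiv.sum_comp e (fun p => if p.1 ∈ S then (1 : ℝ) else 0)
  have h2 : ∑ p : (Fin v → Fin d → Bool) × (Fin v → Fin d → Bool), (if p.1 ∈ S then (1 : ℝ) else 0) =
      (Fintype.card (Fin v → Fin d → Bool) : ℝ) * S.card := by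
    rw [Fintype.sum_prod_type, sum_comm]
    show ∑ _y : (Fin v → Fin d → Bool), ∑ x : (Fin v → Fin d → Bool),
      (if x ∈ S then (1 : ℝ) else 0) = _
    rw [sum_const, card_univ, nsmul_eq_mul]
    congr 1
    rw [sum_ite_mem, univ_inter, sum_const, nsmul_eq_mul, mul_one]
  have h3 : ∑ p : (Fin v → Fin d → Bool) × (Fin v → Fin d → Bool),
      (if mix J' p.1 p.2 ∈ S then (1 : ℝ) else 0) ≤
      (Fintype.card (Fin v → Fin d → Bool) : ℝ) * c := by
    rw [Fintype.sum_prod_type]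
    refine (sum_le_sum fun ε₀ _ => ?_).trans
      (le_of_eq (by rw [sum_const, card_univ, nsmul_eq_mul]) : ∑ _ε₀ : (Fin v → Fin d → Bool), c ≤ _)
    have h4 := h ε₀
    rw [← sum_filter, sum_const, nsmul_eq_mul, mul_one]
    exact h4
  rw [h1, h2] at h3
  have hpos : (0 : ℝ) < (Fintype.card (Fin v → Fin d → Bool) : ℝ) := by
    exact_mod_cast Fintype.card_pos
  exact le_of_mul_le_mul_left h3 hpos

theorem sg_sq (b : Bool) : sg b * sg b = 1 := by
  unfold sg
  split <;> norm_num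

/-- the Bessel inequality -/
theorem bessel {v n s : ℕ} {Γ : Fin v → Fin v → ℝ} {y : Fin v → Fin n → ℝ} {β : ℝ}
    (hy : ∀ t t', Γ t t' = ∑ i, y t i * y t' i) (hU : UB Γ s β) (hβ : 0 < β)
    (J' : Finset (Fin v)) (hJ' : J'.card ≤ s) (z : Fin n → ℝ) :
    ∑ t ∈ J', (∑ i, z i * y t i) ^ 2 ≤ β * ∑ i, z i ^ 2 := by
  have hA0 : 0 ≤ ∑ t ∈ J', (∑ i, z i * y t i) ^ 2 := sum_nonneg fun t _ => sq_nonneg _
  have hz0 : 0 ≤ ∑ i, z i ^ 2 := sum_nonneg fun i _ => sq_nonneg _
  have e1 : ∑ t ∈ J', (∑ i, z i * y t i) ^ 2 =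
      ∑ i, z i * ∑ t ∈ J', (∑ j, z j * y t j) * y t i := by
    simp only [mul_sum (s := J')]
    rw [sum_comm]
    refine sum_congr rfl fun t _ => ?_
    rw [sq, mul_sum]
    refine sum_congr rfl fun i _ => ?_
    ring
  have e2 : ∑ i, (∑ t ∈ J', (∑ j, z j * y t j) * y t i) ^ 2 =
      ∑ t ∈ J', ∑ t' ∈ J', (∑ j, z j * y t j) * (∑ j, z j * y t' j) * Γ t t' := by
    have e3 : ∀ i, (∑ t ∈ J', (∑ j, z j * y t j) * y t i) ^ 2 =
        ∑ t ∈ J', ∑ t' ∈ J', (∑ j, z j * y t j) * (∑ j, z j * y t' j) * (y t i * y t' i) := by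
      intro i
      rw [sq, sum_mul_sum]
      refine sum_congr rfl fun t _ => sum_congr rfl fun t' _ => ?_
      ring
    rw [sum_congr rfl fun i _ => e3 i, sum_comm]
    refine sum_congr rfl fun t _ => ?_
    rw [sum_comm]
    refine sum_congr rfl fun t' _ => ?_
    rw [hy t t', ← mul_sum]
  have h1 := Finset.sum_mul_sq_le_sq_mul_sq univ z
    (fun i => ∑ t ∈ J', (∑ j, z j * y t j) * y t i)
  rw [← e1, e2] at h1
  have h2 := hU J' (fun t => ∑ j, z j * y t j) hJ'
  have h3 : (∑ t ∈ J', (∑ i, z i * y t i) ^ 2) ^ 2 ≤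
      (β * ∑ i, z i ^ 2) * ∑ t ∈ J', (∑ i, z i * y t i) ^ 2 := by
    refine h1.trans ?_
    have h4 := mul_le_mul_of_nonneg_left h2 hz0
    refine h4.trans (le_of_eq ?_)
    ring
  rcases hA0.eq_or_lt with h5 | h5
  · rw [← h5]
    positivity
  · rw [sq] at h3
    exact le_of_mul_le_mul_right h3 h5

end Flt

theorem wFlt (h1 : S_Hoe) : S_Flt := by
  classical
  intro v d s Γ β δ J J' τ hd hG hU hβ hδ hdis hcard hJ1 hτ
  obtain ⟨n, y, hy, -⟩ := hG
  have hd0 : (0 : ℝ) < d := by exact_mod_cast hd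
  have hJ0 : (0 : ℝ) < J.card := by exact_mod_cast hJ1
  have hτ2 : ∀ t, τ t ^ 2 = 1 := by
    intro t
    rcases hτ t with h | h <;> rw [h] <;> norm_num
  let S : Finset (Fin v → Fin d → Bool) := univ.filter fun ε =>
      ∑ t ∈ J, ∑ t' ∈ J, τ t * τ t' * (Γ t t' * Ge ε t t') ≤ (1 + 2 * δ) * J.card ∧
      δ * Real.sqrt (J.card * J'.card) < |∑ t ∈ J, ∑ t' ∈ J', τ t * τ t' * (Γ t t' * Ge ε t t')|
  have hS : ({ε : Fin v → Fin d → Bool |
      ∑ t ∈ J, ∑ t' ∈ J, τ t * τ t' * (Γ t t' * Ge ε t t') ≤ (1 + 2 * δ) * J.card ∧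
      δ * Real.sqrt (J.card * J'.card) < |∑ t ∈ J, ∑ t' ∈ J', τ t * τ t' * (Γ t t' * Ge ε t t')|} :
      Set _).ncard = S.card := by
    rw [← Set.ncard_coe_finset S]
    congr 1
    ext ε
    simp [S]
  rw [hS]
  refine Flt.count J' S _ fun ε₀ => ?_
  by_cases hc : ∑ t ∈ J, ∑ t' ∈ J, τ t * τ t' * (Γ t t' * Ge ε₀ t t') ≤ (1 + 2 * δ) * J.card
  swap
  · -- the first condition does not hold
    have h2 : (univ.filter fun ε => Flt.mix J' ε₀ ε ∈ S) = ∅ := by
      rw [filter_eq_empty_iff]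
      intro ε _ hε
      have h3 := (mem_filter.1 hε).2.1
      refine hc ((le_of_eq ?_).trans h3)
      refine sum_congr rfl fun t ht => sum_congr rfl fun t' ht' => ?_
      have h4 : Ge ε₀ t t' = Ge (Flt.mix J' ε₀ ε) t t' := by
        unfold Ge
        rw [Flt.mix_out _ _ (Finset.disjoint_left.1 hdis ht),
          Flt.mix_out _ _ (Finset.disjoint_left.1 hdis ht')]
      rw [h4]
    rw [h2, card_empty, Nat.cast_zero]
    positivity
  · -- the linear form
    obtain ⟨w, hw⟩ : ∃ w : Fin v × Fin d → ℝ, ∀ p, w p = if p.1 ∈ J' then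
        τ p.1 / d * ∑ t ∈ J, τ t * sg (ε₀ t p.2) * Γ t p.1 else 0 := ⟨_, fun p => rfl⟩
    obtain ⟨V, hV⟩ : ∃ V : ℝ, V = β / d * ((1 + 2 * δ) * J.card) := ⟨_, rfl⟩
    have hV0 : 0 < V := by
      rw [hV]
      positivity
    -- the sum of squares
    have hsum : ∑ p, w p ^ 2 ≤ V := by
      let z : Fin d → Fin n → ℝ := fun i j => ∑ t ∈ J, τ t * sg (ε₀ t i) * y t j
      have hin : ∀ (i : Fin d) (t' : Fin v), ∑ t ∈ J, τ t * sg (ε₀ t i) * Γ t t' =
          ∑ j, z i j * y t' j := by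
        intro i t'
        show _ = ∑ j, (∑ t ∈ J, τ t * sg (ε₀ t i) * y t j) * y t' j
        simp only [sum_mul]
        rw [sum_comm]
        refine sum_congr rfl fun t _ => ?_
        rw [hy t t', mul_sum]
        refine sum_congr rfl fun j _ => ?_
        ring
      have e1 : ∑ p, w p ^ 2 = ∑ i, ∑ t' ∈ J', (1 / (d : ℝ)) ^ 2 * (∑ j, z i j * y t' j) ^ 2 := by
        rw [Fintype.sum_prod_type, sum_comm]
        refine sum_congr rfl fun i _ => ?_
        rw [← sum_filter_add_sum_filter_not univ (fun t' => t' ∈ J')]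
        have h2 : ∑ x ∈ univ.filter (fun t' => t' ∉ J'), w (x, i) ^ 2 = 0 := by
          refine sum_eq_zero fun t' ht' => ?_
          rw [hw, if_neg (mem_filter.1 ht').2]
          norm_num
        rw [h2, add_zero, filter_mem_eq_inter, univ_inter]
        refine sum_congr rfl fun t' ht' => ?_
        rw [hw, if_pos ht']
        show (τ t' / d * ∑ t ∈ J, τ t * sg (ε₀ t i) * Γ t t') ^ 2 = _
        rw [hin i t', mul_pow, div_pow, hτ2, div_pow, one_pow]
      have e2 : ∑ i, ∑ j, z i j ^ 2 =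
          d * ∑ t ∈ J, ∑ t' ∈ J, τ t * τ t' * (Γ t t' * Ge ε₀ t t') := by
        have e3 : ∀ i j, z i j ^ 2 = ∑ t ∈ J, ∑ t' ∈ J,
            τ t * τ t' * (sg (ε₀ t i) * sg (ε₀ t' i)) * (y t j * y t' j) := by
          intro i j
          show (∑ t ∈ J, τ t * sg (ε₀ t i) * y t j) ^ 2 = _
          rw [sq, sum_mul_sum]
          refine sum_congr rfl fun t _ => sum_congr rfl fun t' _ => ?_
          ring
        have e4 : ∀ i, ∑ j, z i j ^ 2 = ∑ t ∈ J, ∑ t' ∈ J,
            τ t * τ t' * (sg (ε₀ t i) * sg (ε₀ t' i)) * Γ t t' := by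
          intro i
          rw [sum_congr rfl fun j _ => e3 i j, sum_comm]
          refine sum_congr rfl fun t _ => ?_
          rw [sum_comm]
          refine sum_congr rfl fun t' _ => ?_
          rw [hy t t', mul_sum]
        rw [sum_congr rfl fun i _ => e4 i, sum_comm, mul_sum]
        refine sum_congr rfl fun t _ => ?_
        rw [sum_comm, mul_sum]
        refine sum_congr rfl fun t' _ => ?_
        unfold Ge
        rw [← sum_mul, ← mul_sum]
        field_simp
      calc ∑ p, w p ^ 2 = ∑ i, ∑ t' ∈ J', (1 / (d : ℝ)) ^ 2 * (∑ j, z i j * y t' j) ^ 2 := e1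
        _ = ∑ i, (1 / (d : ℝ)) ^ 2 * ∑ t' ∈ J', (∑ j, z i j * y t' j) ^ 2 := by
            simp only [mul_sum]
        _ ≤ ∑ i, (1 / (d : ℝ)) ^ 2 * (β * ∑ j, z i j ^ 2) := by
            refine sum_le_sum fun i _ => mul_le_mul_of_nonneg_left ?_ (by positivity)
            exact Flt.bessel hy hU hβ J' (by omega) (z i)
        _ = (1 / (d : ℝ)) ^ 2 * β * ∑ i, ∑ j, z i j ^ 2 := by
            rw [mul_sum]
            refine sum_congr rfl fun i _ => ?_
            ring
        _ = β / d * ∑ t ∈ J, ∑ t' ∈ J, τ t * τ t' * (Γ t t' * Ge ε₀ t t') := by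
            rw [e2]
            field_simp
        _ ≤ V := by
            rw [hV]
            exact mul_le_mul_of_nonneg_left hc (by positivity)
    -- Hoeffding
    have hH := h1 (Fin v × Fin d) w (δ * Real.sqrt (J.card * J'.card)) V (by positivity) hV0 hsum
    have hexp : (δ * Real.sqrt (J.card * J'.card)) ^ 2 / (2 * V) =
        δ ^ 2 * J'.card * d / (2 * β * (1 + 2 * δ)) := by
      rw [hV, mul_pow, Real.sq_sqrt (by positivity)]
      field_simp
    rw [hexp, Fintype.card_prod, Fintype.card_fin, Fintype.card_fin] at hH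
    refine le_trans ?_ hH
    rw [Nat.cast_le, ← Set.ncard_coe_finset]
    refine Set.ncard_le_ncard_of_injOn (fun ε p => ε p.1 p.2) ?_ ?_ (Set.toFinite _)
    · intro ε hε
      rw [Finset.mem_coe, mem_filter] at hε
      have h3 := (mem_filter.1 hε.2).2.2
      show δ * Real.sqrt (J.card * J'.card) < |∑ p : Fin v × Fin d, w p * sg (ε p.1 p.2)|
      refine h3.trans_le (le_of_eq ?_)
      congr 1
      rw [Fintype.sum_prod_type, ← sum_filter_add_sum_filter_not univ (fun t' => t' ∈ J')]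
      have h4 : ∑ x ∈ univ.filter (fun t' => t' ∉ J'), ∑ i, w (x, i) * sg (ε x i) = 0 := by
        refine sum_eq_zero fun t' ht' => sum_eq_zero fun i _ => ?_
        rw [hw, if_neg (mem_filter.1 ht').2, zero_mul]
      rw [h4, add_zero, filter_mem_eq_inter, univ_inter, sum_comm]
      refine sum_congr rfl fun t' ht' => ?_
      have h5 : ∀ i, w (t', i) * sg (ε t' i) =
          ∑ t ∈ J, τ t * τ t' * (Γ t t' * (sg (ε₀ t i) * sg (ε t' i) / d)) := by
        intro i
        rw [hw, if_pos ht']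
        show τ t' / d * (∑ t ∈ J, τ t * sg (ε₀ t i) * Γ t t') * sg (ε t' i) = _
        rw [mul_sum, sum_mul]
        refine sum_congr rfl fun t _ => ?_
        ring
      show _ = ∑ i, w (t', i) * sg (ε t' i)
      rw [sum_congr rfl fun i _ => h5 i, sum_comm]
      refine sum_congr rfl fun t ht => ?_
      unfold Ge
      rw [Flt.mix_in _ _ ht', Flt.mix_out _ _ (Finset.disjoint_left.1 hdis ht), sum_div, mul_sum,
        mul_sum]
    · intro ε _ ε' _ h
      funext t i
      exact congrFun h (t, i)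

end Pool.Agent.Lib.MP_537232_an.NM
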