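import Pool.Agent.Lib.MP_537232_an.NM.SpecJ

set_option autoImplicit false

/-!
# MP_537232_an, directory NM: proof of `Fr`
-/

namespace Pool.Agent.Lib.MP_537232_an.NM

theorem wFr : S_Fr := by
  intro X Y _ _ _ _ T hT φ y
  obtain ⟨x₀, hx₀⟩ : ∃ x₀, T x₀ ≠ 0 := by
    by_contra h
    push Not at h
    exact hT (ContinuousLinearMap.ext h)
  have hn : ‖T x₀‖ ≠ 0 := norm_ne_zero_iff.2 hx₀
  obtain ⟨g, _, hg⟩ := exists_dual_vector ℝ (T x₀) hn
  set A : Y →L[ℝ] Y := ((‖T x₀‖)⁻¹ • g).smulRight y with hA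
  set B : X →L[ℝ] X := φ.smulRight x₀ with hB
  have h := (isClosedIdeal_idealGen T).comp A T B (mem_idealGen T)
  have h2 : (A.comp T).comp B = φ.smulRight y := by
    ext x
    have hg' : g (T x₀) = ‖T x₀‖ := by simpa using hg
    have hA2 : A (T x₀) = y := by
      change ((‖T x₀‖)⁻¹ * g (T x₀)) • y = y
      rw [hg', inv_mul_cancel₀ hn, one_smul]
    change A (T (φ x • x₀)) = φ x • y
    rw [map_smul, map_smul, hA2]
  rw [← h2]
  exact h

end Pool.Agent.Lib.MP_537232_an.NM
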