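import Pool.Agent.Lib.MP_537232_an.NM.SpecJ

set_option autoImplicit false

open scoped ENNReal Topology
open Filter Finset

namespace Pool.Agent.Lib.MP_537232_an.NM

theorem wFun : S_Fun := by
  classical
  intro r hr _ u hu D x
  have hr0 : 0 < r := by linarith
  have htr : (ENNReal.ofReal r).toReal = r := ENNReal.toReal_ofReal hr0.le
  have hle : ∀ b, |fc hu x b| ^ r ≤ ‖x b‖ ^ r := by
    intro b
    refine Real.rpow_le_rpow (abs_nonneg _) ?_ hr0.le
    have h := PiLp.norm_apply_le (x b) ⟨0, hu b⟩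
    rw [Real.norm_eq_abs] at h
    exact h
  have h1 : ∀ s : Finset ℕ, ∑ m ∈ s, ∑ ω : Fin (D m), |fc hu x (pos D m ω)| ^ r ≤ ‖x‖ ^ r := by
    intro s
    rw [Finset.sum_sigma' s (fun m => (univ : Finset (Fin (D m))))
      (fun m ω => |fc hu x (pos D m ω)| ^ r)]
    have h2 : ∑ a ∈ s.sigma fun m => (univ : Finset (Fin (D m))), |fc hu x (pos D a.1 a.2)| ^ r =
        ∑ b ∈ (s.sigma fun m => (univ : Finset (Fin (D m)))).image (fun a => pos D a.1 a.2),
          |fc hu x b| ^ r := by
      rw [Finset.sum_image fun a _ b _ h => pos_injective h]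
    rw [h2]
    refine (Finset.sum_le_sum fun b _ => hle b).trans ?_
    have h3 := lp.sum_rpow_le_norm_rpow (p := ENNReal.ofReal r) (by rw [htr]; exact hr0) x
      ((s.sigma fun m => (univ : Finset (Fin (D m)))).image (fun a => pos D a.1 a.2))
    rw [htr] at h3
    exact h3
  refine ⟨h1, ?_, ?_⟩
  · have hs : Summable (fun m => ∑ ω : Fin (D m), |fc hu x (pos D m ω)| ^ r) :=
      summable_of_sum_le (fun m => Finset.sum_nonneg fun ω _ => Real.rpow_nonneg (abs_nonneg _) _) h1
    exact hs.tendsto_atTop_zero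
  · intro m f
    have hc : (r / (r - 1)).HolderConjugate r := (Real.HolderConjugate.conjExponent hr).symm
    have e1 : 1 / (r / (r - 1)) = (r - 1) / r := one_div_div _ _
    have hh : ∀ f : Fin (D m) → ℝ, ∑ ω, f ω * fc hu x (pos D m ω) ≤
        (∑ ω, |f ω| ^ (r / (r - 1))) ^ ((r - 1) / r) *
          (∑ ω : Fin (D m), |fc hu x (pos D m ω)| ^ r) ^ (1 / r) := by
      intro f
      have h := Real.inner_le_Lp_mul_Lq (univ : Finset (Fin (D m))) f
        (fun ω => fc hu x (pos D m ω)) hc
      rw [e1] at h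
      exact h
    rw [abs_le]
    constructor
    · have h := hh (fun ω => - f ω)
      simp only [abs_neg, neg_mul, Finset.sum_neg_distrib] at h
      linarith
    · exact hh f

end Pool.Agent.Lib.MP_537232_an.NM
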