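import Pool.Agent.Lib.MP_537232_an.NM.SpecS

set_option autoImplicit false

/-!
# MP_537232_an, NM/Fw (helper68)
-/

namespace Pool.Agent.Lib.MP_537232_an.NM

open MeasureTheory ProbabilityTheory Finset Filter Topology

namespace Fw

/-- the inner product of `EuclideanSpace ℝ (Fin D)` -/
theorem inner_eq {D : ℕ} (x y : EuclideanSpace ℝ (Fin D)) :
    inner ℝ x y = ∑ ω, x ω * y ω := by
  rw [PiLp.inner_apply]
  exact Finset.sum_congr rfl fun ω _ => by
    simp [mul_comm]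

theorem norm_sq_eq {D : ℕ} (x : EuclideanSpace ℝ (Fin D)) : ‖x‖ ^ 2 = ∑ ω, x ω ^ 2 := by
  rw [← real_inner_self_eq_norm_sq, inner_eq]
  exact Finset.sum_congr rfl fun ω _ => by ring

/-- Hoelder -/
theorem hoelder {D : ℕ} {p : ℝ} (hp : 1 < p) (hp2 : p < 2) (P : Fin D → ℝ) (hP : ∀ ω, 0 ≤ P ω)
    (hP1 : ∑ ω, P ω = 1) (x : Fin D → ℝ) :
    (∑ ω, |P ω ^ (1 / p - 1 / 2) * x ω| ^ p) ^ (2 / p) ≤ ∑ ω, x ω ^ 2 := by
  have hp0 : 0 < p := by linarith
  have hx0 : 0 ≤ ∑ ω, x ω ^ 2 := Finset.sum_nonneg fun ω _ => sq_nonneg _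
  -- the inequality of Hoelder with the exponents `2 / (2 - p)`, `2 / p`
  have hconj : (2 / (2 - p)).HolderConjugate (2 / p) := by
    rw [Real.holderConjugate_iff]
    constructor
    · rw [lt_div_iff₀ (by linarith)]
      linarith
    · rw [inv_div, inv_div]
      ring
  have h1 := Real.inner_le_Lp_mul_Lq_of_nonneg Finset.univ hconj
    (f := fun ω => P ω ^ (1 - p / 2)) (g := fun ω => |x ω| ^ p)
    (fun ω _ => Real.rpow_nonneg (hP ω) _) (fun ω _ => Real.rpow_nonneg (abs_nonneg _) _)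
  have h2 : ∀ ω, (P ω ^ (1 - p / 2)) ^ (2 / (2 - p)) = P ω := by
    intro ω
    rw [← Real.rpow_mul (hP ω)]
    have : (1 - p / 2) * (2 / (2 - p)) = 1 := by
      have : (2 - p) ≠ 0 := by linarith
      field_simp
    rw [this, Real.rpow_one]
  have h3 : ∀ ω, (|x ω| ^ p) ^ (2 / p) = x ω ^ 2 := by
    intro ω
    rw [← Real.rpow_mul (abs_nonneg _), mul_div_cancel₀ _ hp0.ne', Real.rpow_two, sq_abs]
  have h4 : ∀ ω, |P ω ^ (1 / p - 1 / 2) * x ω| ^ p = P ω ^ (1 - p / 2) * |x ω| ^ p := by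
    intro ω
    rw [abs_mul, Real.mul_rpow (abs_nonneg _) (abs_nonneg _),
      abs_of_nonneg (Real.rpow_nonneg (hP ω) _), ← Real.rpow_mul (hP ω)]
    congr 2
    field_simp
  rw [Finset.sum_congr rfl fun ω _ => h2 ω, Finset.sum_congr rfl fun ω _ => h3 ω, hP1,
    Real.one_rpow, one_mul] at h1
  rw [Finset.sum_congr rfl fun ω _ => h4 ω]
  have h5 : 0 ≤ ∑ ω, P ω ^ (1 - p / 2) * |x ω| ^ p :=
    Finset.sum_nonneg fun ω _ => mul_nonneg (Real.rpow_nonneg (hP ω) _)
      (Real.rpow_nonneg (abs_nonneg _) _)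
  have h6 := Real.rpow_le_rpow h5 h1 (by positivity : 0 ≤ 2 / p)
  have e : p / 2 * (2 / p) = 1 := by field_simp
  rwa [← Real.rpow_mul hx0, one_div_div, e, Real.rpow_one] at h6

/-- the bounds for the coefficients with respect to an orthonormal basis -/
theorem coefs {D n R : ℕ} (F : Submodule ℝ (EuclideanSpace ℝ (Fin D)))
    (hF : Module.finrank ℝ F ≤ R) (lam : Fin n → EuclideanSpace ℝ (Fin D)) (b : ℝ)
    (hb : ∀ x : EuclideanSpace ℝ (Fin D), ∑ s, inner ℝ (lam s) x ^ 2 ≤ b ^ 2 * ‖x‖ ^ 2) :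
    ∃ M : Fin n → ℝ, (∀ s, 0 ≤ M s) ∧ (∀ s, M s ≤ b ^ 2) ∧ ∑ s, M s ≤ R * b ^ 2 ∧
      ∀ s, ∀ y ∈ F, inner ℝ (lam s) y ^ 2 ≤ M s * ‖y‖ ^ 2 := by
  classical
  let e := stdOrthonormalBasis ℝ F
  have hon : ∀ i j, inner ℝ ((e i : F) : EuclideanSpace ℝ (Fin D)) ((e j : F) : EuclideanSpace ℝ (Fin D)) =
      if i = j then (1 : ℝ) else 0 := by
    intro i j
    exact (orthonormal_iff_ite.1 e.orthonormal) i j
  let c : Fin n → Fin (Module.finrank ℝ F) → ℝ := fun s k => inner ℝ (lam s) ((e k : F) : EuclideanSpace ℝ (Fin D))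
  have hnorm : ∀ a : Fin (Module.finrank ℝ F) → ℝ,
      ‖∑ k, a k • ((e k : F) : EuclideanSpace ℝ (Fin D))‖ ^ 2 = ∑ k, a k ^ 2 := by
    intro a
    rw [← real_inner_self_eq_norm_sq, sum_inner]
    refine Finset.sum_congr rfl fun k _ => ?_
    rw [real_inner_smul_left, inner_sum, Finset.sum_eq_single k]
    · rw [real_inner_smul_right, hon, if_pos rfl]
      ring
    · intro j _ hj
      rw [real_inner_smul_right, hon, if_neg (Ne.symm hj), mul_zero]
    · intro h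
      exact absurd (Finset.mem_univ k) h
  have hin : ∀ s (a : Fin (Module.finrank ℝ F) → ℝ),
      inner ℝ (lam s) (∑ k, a k • ((e k : F) : EuclideanSpace ℝ (Fin D))) = ∑ k, a k * c s k := by
    intro s a
    rw [inner_sum]
    exact Finset.sum_congr rfl fun k _ => by rw [real_inner_smul_right]
  have hM0 : ∀ s, 0 ≤ ∑ k, c s k ^ 2 := fun s => Finset.sum_nonneg fun k _ => sq_nonneg _
  refine ⟨fun s => ∑ k, c s k ^ 2, hM0, ?_, ?_, ?_⟩
  · intro s
    have h1 := hb (∑ k, c s k • ((e k : F) : EuclideanSpace ℝ (Fin D)))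
    rw [hnorm] at h1
    have h2 := (Finset.single_le_sum (f := fun s' => inner ℝ (lam s')
      (∑ k, c s k • ((e k : F) : EuclideanSpace ℝ (Fin D))) ^ 2) (fun _ _ => sq_nonneg _)
      (Finset.mem_univ s)).trans h1
    simp only [hin] at h2
    have h3 : ∑ k, c s k * c s k = ∑ k, c s k ^ 2 := Finset.sum_congr rfl fun k _ => by ring
    rw [h3] at h2
    by_contra hcon
    push Not at hcon
    have h4 : 0 < ∑ k, c s k ^ 2 := lt_of_le_of_lt (sq_nonneg b) hcon
    nlinarith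
  · rw [Finset.sum_comm]
    have h1 : ∀ k, ∑ s, c s k ^ 2 ≤ b ^ 2 := by
      intro k
      have h2 := hb ((e k : F) : EuclideanSpace ℝ (Fin D))
      have h3 : ‖((e k : F) : EuclideanSpace ℝ (Fin D))‖ ^ 2 = 1 := by
        rw [← real_inner_self_eq_norm_sq, hon, if_pos rfl]
      rw [h3, mul_one] at h2
      exact h2
    refine (Finset.sum_le_sum fun k _ => h1 k).trans ?_
    rw [Finset.sum_const, Finset.card_univ, Fintype.card_fin, nsmul_eq_mul]
    exact mul_le_mul_of_nonneg_right (by exact_mod_cast hF) (sq_nonneg _)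
  · intro s y hy
    have h1 : y = ∑ k, (inner ℝ (e k) (⟨y, hy⟩ : F) : ℝ) • ((e k : F) : EuclideanSpace ℝ (Fin D)) := by
      have h2 := e.sum_repr' (⟨y, hy⟩ : F)
      have h3 := congrArg (Subtype.val) h2
      rw [Submodule.coe_sum] at h3
      exact h3.symm
    rw [h1, hnorm, hin]
    have h2 := Finset.sum_mul_sq_le_sq_mul_sq Finset.univ
      (fun k => (inner ℝ (e k) (⟨y, hy⟩ : F) : ℝ)) (fun k => c s k)
    rw [mul_comm] at h2
    exact h2

end Fw

open Fw in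
theorem wFw : S_Fw := by
  classical
  intro p hp hp2 v D R m P h e V2 μ hP hP1 hspan hV2 hμ hV0 hμ0 hnum1 hnum2
  intro b n Λ hb0 hbm hΛ J hJ
  have hp0 : 0 < p := by linarith
  have hexp : 0 ≤ 1 / p - 1 / 2 := by
    have : 1 / 2 ≤ 1 / p := one_div_le_one_div_of_le hp0 hp2.le
    linarith
  have hb2 : b ^ 2 ≤ (m : ℝ) ^ 2 := pow_le_pow_left₀ hb0 hbm 2
  -- the vectors
  let ve : Fin R → EuclideanSpace ℝ (Fin D) := fun i => WithLp.toLp 2 fun ω => P ω ^ (1 / 2 : ℝ) * e i ω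
  let y : Fin v → EuclideanSpace ℝ (Fin D) := fun t => WithLp.toLp 2 fun ω => P ω ^ (1 / 2 : ℝ) * h t ω
  let lam : Fin n → EuclideanSpace ℝ (Fin D) := fun s =>
    WithLp.toLp 2 fun ω => Λ s ω * P ω ^ (1 / p - 1 / 2)
  let F : Submodule ℝ (EuclideanSpace ℝ (Fin D)) := Submodule.span ℝ (Set.range ve)
  have hF : Module.finrank ℝ F ≤ R := by
    have := finrank_range_le_card (R := ℝ) ve
    rw [Fintype.card_fin] at this
    exact this
  have hyF : ∀ t, y t ∈ F := by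
    intro t
    obtain ⟨c, hc⟩ := hspan t
    have h1 : y t = ∑ i, c i • ve i := by
      ext ω
      rw [WithLp.ofLp_sum, Finset.sum_apply]
      change P ω ^ (1 / 2 : ℝ) * h t ω = ∑ i, c i * (P ω ^ (1 / 2 : ℝ) * e i ω)
      rw [hc ω, Finset.mul_sum]
      exact Finset.sum_congr rfl fun i _ => by ring
    rw [h1]
    exact Submodule.sum_mem _ fun i _ => Submodule.smul_mem _ _ (Submodule.subset_span ⟨i, rfl⟩)
  have hlam : ∀ x : EuclideanSpace ℝ (Fin D), ∑ s, inner ℝ (lam s) x ^ 2 ≤ b ^ 2 * ‖x‖ ^ 2 := by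
    intro x
    have h1 := hΛ fun ω => P ω ^ (1 / p - 1 / 2) * x ω
    have h2 : ∀ s, inner ℝ (lam s) x = ∑ ω, Λ s ω * (P ω ^ (1 / p - 1 / 2) * x ω) := by
      intro s
      rw [inner_eq]
      exact Finset.sum_congr rfl fun ω _ => by
        change Λ s ω * P ω ^ (1 / p - 1 / 2) * x ω = _
        ring
    rw [Finset.sum_congr rfl fun s _ => by rw [h2 s]]
    refine h1.trans (mul_le_mul_of_nonneg_left ?_ (sq_nonneg _))
    rw [norm_sq_eq]
    exact hoelder hp hp2 P hP hP1 _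
  obtain ⟨M, hM0, hMb, hMsum, hM⟩ := coefs F hF lam b hlam
  have hly : ∀ s t, inner ℝ (lam s) (y t) = ∑ ω, Λ s ω * (P ω ^ (1 / p) * h t ω) := by
    intro s t
    rw [inner_eq]
    refine Finset.sum_congr rfl fun ω _ => ?_
    change Λ s ω * P ω ^ (1 / p - 1 / 2) * (P ω ^ (1 / 2 : ℝ) * h t ω) = _
    have h1 : P ω ^ (1 / p) = P ω ^ (1 / p - 1 / 2) * P ω ^ (1 / 2 : ℝ) := by
      rw [← Real.rpow_add_of_nonneg (hP ω) hexp (by norm_num)]
      congr 1
      ring
    rw [h1]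
    ring
  have hyy : ∀ t t', inner ℝ (y t) (y t') = ∑ ω, P ω * (h t ω * h t' ω) := by
    intro t t'
    rw [inner_eq]
    refine Finset.sum_congr rfl fun ω _ => ?_
    change P ω ^ (1 / 2 : ℝ) * h t ω * (P ω ^ (1 / 2 : ℝ) * h t' ω) = _
    have h1 : P ω ^ (1 / 2 : ℝ) * P ω ^ (1 / 2 : ℝ) = P ω := by
      rw [← Real.rpow_add_of_nonneg (hP ω) (by norm_num) (by norm_num)]
      norm_num
    calc P ω ^ (1 / 2 : ℝ) * h t ω * (P ω ^ (1 / 2 : ℝ) * h t' ω)
        = (P ω ^ (1 / 2 : ℝ) * P ω ^ (1 / 2 : ℝ)) * (h t ω * h t' ω) := by ring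
      _ = _ := by rw [h1]
  have hm1 : (0 : ℝ) < (m : ℝ) + 1 := by positivity
  -- the sets
  let Js : Fin n → Finset (Fin v) := fun s =>
    J.filter fun t => 1 / ((m : ℝ) + 1) ≤ |inner ℝ (lam s) (y t)|
  have hJs : ∀ s, ((Js s).card : ℝ) ≤ 2 * ((m : ℝ) + 1) ^ 2 * V2 * M s := by
    intro s
    set N : ℝ := ((Js s).card : ℝ) with hN
    have hN0 : 0 ≤ N := Nat.cast_nonneg _
    let τ : Fin v → ℝ := fun t => if 0 ≤ inner ℝ (lam s) (y t) then 1 else -1
    have hτ : ∀ t, τ t * inner ℝ (lam s) (y t) = |inner ℝ (lam s) (y t)| := by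
      intro t
      change (if 0 ≤ inner ℝ (lam s) (y t) then (1 : ℝ) else -1) * _ = _
      split_ifs with h0
      · rw [one_mul, abs_of_nonneg h0]
      · rw [neg_one_mul, abs_of_neg (not_le.1 h0)]
    have hτ1 : ∀ t, |τ t| = 1 := by
      intro t
      change |(if 0 ≤ inner ℝ (lam s) (y t) then (1 : ℝ) else -1)| = 1
      split_ifs <;> simp
    set Y : EuclideanSpace ℝ (Fin D) := ∑ t ∈ Js s, τ t • y t with hY
    have hYF : Y ∈ F := Submodule.sum_mem _ fun t _ => Submodule.smul_mem _ _ (hyF t)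
    have h1 : N / ((m : ℝ) + 1) ≤ inner ℝ (lam s) Y := by
      rw [hY, inner_sum]
      have h2 : ∑ t ∈ Js s, (1 / ((m : ℝ) + 1)) ≤ ∑ t ∈ Js s, inner ℝ (lam s) (τ t • y t) := by
        refine Finset.sum_le_sum fun t ht => ?_
        rw [real_inner_smul_right, hτ]
        exact (Finset.mem_filter.1 ht).2
      rw [Finset.sum_const, nsmul_eq_mul] at h2
      refine le_trans (le_of_eq ?_) h2
      rw [hN]
      ring
    have h2 : ‖Y‖ ^ 2 ≤ N * (V2 + N * μ) := by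
      rw [← real_inner_self_eq_norm_sq, hY, sum_inner]
      have h3 : ∀ t ∈ Js s, inner ℝ (τ t • y t) (∑ t' ∈ Js s, τ t' • y t') ≤ V2 + N * μ := by
        intro t ht
        rw [inner_sum]
        have h4 : ∀ t' ∈ Js s, inner ℝ (τ t • y t) (τ t' • y t') ≤
            (if t' = t then V2 else 0) + μ := by
          intro t' _
          rw [real_inner_smul_left, real_inner_smul_right, hyy]
          split_ifs with h0
          · subst h0
            have h5 : τ t' * (τ t' * ∑ ω, P ω * (h t' ω * h t' ω)) =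
                ∑ ω, P ω * h t' ω ^ 2 := by
              have h6 : τ t' * τ t' = 1 := by
                rw [← abs_mul_abs_self, hτ1, one_mul]
              rw [← mul_assoc, h6, one_mul]
              exact Finset.sum_congr rfl fun ω _ => by ring
            rw [h5]
            linarith [hV2 t']
          · have h5 : |τ t * (τ t' * ∑ ω, P ω * (h t ω * h t' ω))| ≤ μ := by
              rw [abs_mul, abs_mul, hτ1, hτ1, one_mul, one_mul]
              exact hμ t t' (Ne.symm h0)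
            linarith [(abs_le.1 h5).2]
        refine (Finset.sum_le_sum h4).trans ?_
        rw [Finset.sum_add_distrib, Finset.sum_const, nsmul_eq_mul, Finset.sum_ite_eq', if_pos ht]
      refine (Finset.sum_le_sum h3).trans (le_of_eq ?_)
      rw [Finset.sum_const, nsmul_eq_mul]
    have h3 : (N / ((m : ℝ) + 1)) ^ 2 ≤ M s * (N * (V2 + N * μ)) :=
      (pow_le_pow_left₀ (by positivity) h1 2).trans ((hM s Y hYF).trans
        (mul_le_mul_of_nonneg_left h2 (hM0 s)))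
    have h4 : M s * μ ≤ 1 / (2 * ((m : ℝ) + 1) ^ 2) := by
      rw [le_div_iff₀ (by positivity)]
      have h5 : M s ≤ (m : ℝ) ^ 2 := (hMb s).trans hb2
      calc M s * μ * (2 * ((m : ℝ) + 1) ^ 2) ≤ (m : ℝ) ^ 2 * μ * (2 * ((m : ℝ) + 1) ^ 2) :=
            mul_le_mul_of_nonneg_right (mul_le_mul_of_nonneg_right h5 hμ0) (by positivity)
        _ = 2 * (m : ℝ) ^ 2 * μ * ((m : ℝ) + 1) ^ 2 := by ring
        _ ≤ 1 := hnum1
    rcases hN0.eq_or_lt with h0 | hpos
    · rw [← h0]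
      have := hM0 s
      positivity
    · have h5 : N ^ 2 / ((m : ℝ) + 1) ^ 2 ≤ M s * V2 * N + N ^ 2 * (1 / (2 * ((m : ℝ) + 1) ^ 2)) := by
        have h6 : N ^ 2 * (M s * μ) ≤ N ^ 2 * (1 / (2 * ((m : ℝ) + 1) ^ 2)) :=
          mul_le_mul_of_nonneg_left h4 (by positivity)
        rw [div_pow] at h3
        nlinarith
      have h6 : N ^ 2 / ((m : ℝ) + 1) ^ 2 = 2 * (N ^ 2 * (1 / (2 * ((m : ℝ) + 1) ^ 2))) := by
        field_simp
      have h7 : N ^ 2 * (1 / (2 * ((m : ℝ) + 1) ^ 2)) ≤ M s * V2 * N := by linarith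
      rw [mul_one_div, div_le_iff₀ (by positivity)] at h7
      nlinarith
  have hJsub : J ⊆ Finset.univ.biUnion Js := by
    intro t ht
    obtain ⟨s, hs⟩ := hJ t ht
    rw [Finset.mem_biUnion]
    refine ⟨s, Finset.mem_univ s, Finset.mem_filter.2 ⟨ht, ?_⟩⟩
    rw [hly]
    exact hs
  have hcard : (J.card : ℝ) ≤ ∑ s, ((Js s).card : ℝ) := by
    have h1 := (Finset.card_le_card hJsub).trans Finset.card_biUnion_le
    exact_mod_cast h1
  have h1 : (J.card : ℝ) ≤ 2 * ((m : ℝ) + 1) ^ 2 * V2 * (R * (m : ℝ) ^ 2) := by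
    refine hcard.trans ((Finset.sum_le_sum fun s _ => hJs s).trans ?_)
    rw [← Finset.mul_sum]
    refine mul_le_mul_of_nonneg_left ?_ (by positivity)
    exact hMsum.trans (mul_le_mul_of_nonneg_left hb2 (Nat.cast_nonneg _))
  calc ((m : ℝ) + 1) * J.card ≤ ((m : ℝ) + 1) * (2 * ((m : ℝ) + 1) ^ 2 * V2 * (R * (m : ℝ) ^ 2)) :=
        mul_le_mul_of_nonneg_left h1 hm1.le
    _ = 2 * ((m : ℝ) + 1) ^ 3 * V2 * (m : ℝ) ^ 2 * R := by ring
    _ ≤ v := hnum2

end Pool.Agent.Lib.MP_537232_an.NM
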