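import Pool.Agent.Lib.MP_537232_an.NM.SpecC

set_option autoImplicit false

/-!
# MP_537232_an, directory NM: proof of `Gmd`
-/

namespace Pool.Agent.Lib.MP_537232_an.NM

open MeasureTheory ProbabilityTheory Finset

theorem wGmd : S_Gmd := by
  intro d a ha
  have hm : Measurable fun x : Fin d → ℝ => ∑ i, a i * x i := by fun_prop
  haveI : IsProbabilityMeasure ((gad d).map (fun x => ∑ i, a i * x i)) :=
    Measure.isProbabilityMeasure_map hm.aemeasurable
  refine Measure.ext_of_charFun ?_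
  funext t
  have hgc : ∀ s : ℝ, ∫ x : ℝ, Complex.exp (s * x * Complex.I) ∂gam = Complex.exp (-(s : ℂ) ^ 2 / 2) := by
    intro s
    have h := charFun_gaussianReal (μ := 0) (v := 1) s
    rw [charFun_apply_real] at h
    unfold gam
    rw [h]
    congr 1
    push_cast
    ring
  rw [charFun_apply_real, charFun_apply_real, hgc, integral_map hm.aemeasurable (by fun_prop)]
  have h1 : ∀ x : Fin d → ℝ, Complex.exp (t * ((∑ i, a i * x i : ℝ) : ℂ) * Complex.I) =
      ∏ i, Complex.exp (((t * a i : ℝ) : ℂ) * (x i : ℂ) * Complex.I) := by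
    intro x
    rw [← Complex.exp_sum]
    congr 1
    push_cast
    rw [Finset.mul_sum, Finset.sum_mul]
    refine Finset.sum_congr rfl fun i _ => ?_
    ring
  simp_rw [h1]
  unfold gad
  rw [integral_fintype_prod_eq_prod (μ := fun _ => gam)
    (f := fun i (y : ℝ) => Complex.exp (((t * a i : ℝ) : ℂ) * (y : ℂ) * Complex.I))]
  simp_rw [hgc]
  rw [← Complex.exp_sum]
  congr 1
  have h2 : (∑ i, -(((t * a i : ℝ) : ℂ)) ^ 2 / 2) = -(t : ℂ) ^ 2 / 2 * ((∑ i, a i ^ 2 : ℝ) : ℂ) := by
    push_cast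
    rw [Finset.mul_sum]
    refine Finset.sum_congr rfl fun i _ => ?_
    ring
  rw [h2, ha]
  push_cast
  ring

end Pool.Agent.Lib.MP_537232_an.NM
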