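import Pool.Agent.Lib.MP_537232_an.NM.SpecG

set_option autoImplicit false

/-!
# MP_537232_an, NM/Grm: products of Gram matrices (helper82)
-/

namespace Pool.Agent.Lib.MP_537232_an.NM

open MeasureTheory ProbabilityTheory Finset Filter Topology

theorem wGrm : S_Grm := by
  refine ⟨?_, ?_, ?_⟩
  · rintro v Γ Γ' ⟨n, y, hy, hy1⟩ ⟨m, z, hz, hz1⟩
    refine ⟨n * m, fun t k => y t (finProdFinEquiv.symm k).1 * z t (finProdFinEquiv.symm k).2,
      fun t t' => ?_, fun t => ?_⟩
    · show Γ t t' * Γ' t t' = _
      rw [← finProdFinEquiv.sum_comp, Fintype.sum_prod_type, hy, hz, Finset.sum_mul_sum]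
      refine Finset.sum_congr rfl fun i _ => Finset.sum_congr rfl fun j _ => ?_
      simp only [Equiv.symm_apply_apply]
      ring
    · simp only [hy1, hz1, mul_one]
  · intro v d ε hd
    have hd0 : (0 : ℝ) < d := by exact_mod_cast hd
    refine ⟨d, fun t i => sg (ε t i) / Real.sqrt d, fun t t' => ?_, fun t => ?_⟩
    · unfold Ge
      rw [Finset.sum_div]
      refine Finset.sum_congr rfl fun i _ => ?_
      rw [div_mul_div_comm, Real.mul_self_sqrt hd0.le]
    · unfold Ge
      have h1 : ∀ i : Fin d, sg (ε t i) * sg (ε t i) = 1 := by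
        intro i
        unfold sg
        split <;> norm_num
      rw [Finset.sum_congr rfl fun i _ => h1 i, Finset.sum_const, Finset.card_univ,
        Fintype.card_fin, nsmul_eq_mul, mul_one, div_self hd0.ne']
  · intro v
    exact ⟨1, fun _ _ => 1, fun t t' => by simp, fun t => rfl⟩

end Pool.Agent.Lib.MP_537232_an.NM
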