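import Pool.Agent.Lib.MP_537232_an.NM.SpecE

set_option autoImplicit false

/-!
# MP_537232_an, directory NM: Hahn-Banach in `ℓ_q^Ω` (`S_Hb`)
-/

namespace Pool.Agent.Lib.MP_537232_an.NM

open MeasureTheory ProbabilityTheory Finset Filter Topology

namespace Hb

private lemma norm_lp {Ω : Type} [Fintype Ω] {q : ℝ} (hq : 1 < q)
    [Fact (1 ≤ ENNReal.ofReal q)] (y : Ω → ℝ) :
    ‖(WithLp.toLp (ENNReal.ofReal q) y : PiLp (ENNReal.ofReal q) (fun _ : Ω => ℝ))‖ =
      (∑ ω, |y ω| ^ q) ^ (1 / q) := by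
  have hpr : (ENNReal.ofReal q).toReal = q := ENNReal.toReal_ofReal (by linarith)
  rw [PiLp.norm_eq_sum (by rw [hpr]; linarith), hpr]
  rfl

private lemma sep {F : Type*} [NormedAddCommGroup F] [NormedSpace ℝ F] (f : F →L[ℝ] ℝ) (x₀ : F)
    (u η : ℝ) (hη : 0 < η) (h : ∀ y ∈ Metric.ball x₀ η, f y < u) : η * ‖f‖ ≤ u - f x₀ := by
  by_contra hcon
  push Not at hcon
  have h1 : (u - f x₀) / η < ‖f‖ := by
    rw [div_lt_iff₀ hη]
    linarith
  obtain ⟨y, hy1, hy2⟩ := f.exists_lt_apply_of_lt_opNorm h1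
  rw [div_lt_iff₀ hη, Real.norm_eq_abs] at hy2
  have key : ∀ z : F, ‖z‖ < 1 → η * f z < u - f x₀ := by
    intro z hz
    have h2 := h (x₀ + η • z) (by
      rw [Metric.mem_ball, dist_eq_norm, add_sub_cancel_left, norm_smul, Real.norm_of_nonneg hη.le]
      nlinarith)
    rw [map_add, map_smul, smul_eq_mul] at h2
    linarith
  rcases le_total 0 (f y) with h3 | h3
  · rw [abs_of_nonneg h3] at hy2
    have := key y hy1
    linarith
  · rw [abs_of_nonpos h3] at hy2
    have := key (-y) (by rwa [norm_neg])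
    rw [map_neg] at this
    linarith

end Hb

open Hb in
theorem wHb : S_Hb := by
  intro q hq Ω _ L x₀ x K η hK hη h
  classical
  haveI : Fact (1 ≤ ENNReal.ofReal q) := ⟨ENNReal.one_le_ofReal.2 hq.le⟩
  let T : (Fin L → ℝ) →ₗ[ℝ] PiLp (ENNReal.ofReal q) (fun _ : Ω => ℝ) :=
    Fintype.linearCombination ℝ (fun l => WithLp.toLp (ENNReal.ofReal q) (x l))
  have hT : ∀ c, T c = ∑ l, c l • WithLp.toLp (ENNReal.ofReal q) (x l) := fun c =>
    Fintype.linearCombination_apply ℝ _ c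
  have hT' : ∀ c, T c = WithLp.toLp (ENNReal.ofReal q) (fun ω => ∑ l, c l * x l ω) := by
    intro c
    rw [hT]
    ext ω
    simp [WithLp.ofLp_sum, Finset.sum_apply]
  let S : Set (Fin L → ℝ) := {c | ∀ l, |c l| ≤ K}
  have hS : Convex ℝ S := by
    intro a ha b hb s t hs ht hst l
    have h1 : |s * a l + t * b l| ≤ s * |a l| + t * |b l| := by
      refine (abs_add_le _ _).trans ?_
      rw [abs_mul, abs_mul, abs_of_nonneg hs, abs_of_nonneg ht]
    have h2 : s * |a l| ≤ s * K := mul_le_mul_of_nonneg_left (ha l) hs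
    have h3 : t * |b l| ≤ t * K := mul_le_mul_of_nonneg_left (hb l) ht
    have h4 : s * K + t * K = K := by rw [← add_mul, hst, one_mul]
    show |s * a l + t * b l| ≤ K
    linarith
  have hdisj : Disjoint (Metric.ball (WithLp.toLp (ENNReal.ofReal q) x₀) η) (T '' S) := by
    rw [Set.disjoint_left]
    rintro _ hy ⟨c, hc, rfl⟩
    rw [Metric.mem_ball, dist_comm, dist_eq_norm, hT', ← WithLp.toLp_sub, norm_lp hq] at hy
    have h1 := h c hc
    have h2 : η < (∑ ω, |x₀ ω - ∑ l, c l * x l ω| ^ q) ^ (1 / q) := by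
      have h3 := Real.rpow_lt_rpow (by positivity) h1 (z := 1 / q) (by positivity)
      rwa [← Real.rpow_mul hη.le, mul_one_div_cancel (by linarith), Real.rpow_one] at h3
    exact absurd hy (not_lt.2 h2.le)
  obtain ⟨f, u, hf1, hf2⟩ := geometric_hahn_banach_open (convex_ball _ _) Metric.isOpen_ball
    (hS.linear_image T) hdisj
  have hsep := sep f _ u η hη hf1
  have hf0 : 0 < ‖f‖ := by
    rw [norm_pos_iff]
    rintro rfl
    have h1 := hf1 _ (Metric.mem_ball_self hη)
    have h2 := hf2 (T 0) ⟨0, fun l => by simpa using hK, rfl⟩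
    simp at h1 h2
    linarith
  let φ : Ω → ℝ := fun ω => -f (WithLp.toLp (ENNReal.ofReal q) (Pi.single ω 1)) / ‖f‖
  have hφ : ∀ y : Ω → ℝ, ∑ ω, φ ω * y ω = -f (WithLp.toLp (ENNReal.ofReal q) y) / ‖f‖ := by
    intro y
    have e1 : WithLp.toLp (ENNReal.ofReal q) y =
        ∑ ω, y ω • WithLp.toLp (ENNReal.ofReal q) (Pi.single ω (1 : ℝ) : Ω → ℝ) := by
      ext ω
      simp [WithLp.ofLp_sum, Finset.sum_apply, Pi.single_apply]
    rw [e1, map_sum, neg_div, Finset.sum_div, ← Finset.sum_neg_distrib]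
    refine Finset.sum_congr rfl fun ω _ => ?_
    rw [map_smul, smul_eq_mul]
    show -f _ / ‖f‖ * y ω = _
    ring
  refine ⟨φ, ?_, ?_⟩
  · intro X B hB hX
    obtain ⟨w, hw1, hw2⟩ := Complex.exists_norm_eq_mul_self (∑ ω, (φ ω : ℂ) * X ω)
    have e1 : ‖∑ ω, (φ ω : ℂ) * X ω‖ = ∑ ω, φ ω * (w * X ω).re := by
      have e2 := congrArg Complex.re hw2
      rw [Complex.ofReal_re] at e2
      rw [e2, Finset.mul_sum, Complex.re_sum]
      refine Finset.sum_congr rfl fun ω _ => ?_
      rw [← Complex.re_ofReal_mul]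
      congr 1
      ring
    rw [e1, hφ, div_le_iff₀ hf0]
    have e3 : ‖WithLp.toLp (ENNReal.ofReal q) (fun ω => (w * X ω).re)‖ ≤ B := by
      rw [norm_lp hq]
      have e4 : ∑ ω, |(w * X ω).re| ^ q ≤ B ^ q := by
        refine le_trans (Finset.sum_le_sum fun ω _ => ?_) hX
        refine Real.rpow_le_rpow (abs_nonneg _) ?_ (by linarith)
        refine (Complex.abs_re_le_norm _).trans ?_
        rw [norm_mul, hw1, one_mul]
      have e5 := Real.rpow_le_rpow (Finset.sum_nonneg fun ω _ => by positivity) e4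
        (z := 1 / q) (by positivity)
      rwa [← Real.rpow_mul hB, mul_one_div_cancel (by linarith), Real.rpow_one] at e5
    calc -f (WithLp.toLp (ENNReal.ofReal q) fun ω => (w * X ω).re)
        ≤ ‖f (WithLp.toLp (ENNReal.ofReal q) fun ω => (w * X ω).re)‖ := neg_le_abs _
      _ ≤ ‖f‖ * ‖WithLp.toLp (ENNReal.ofReal q) (fun ω => (w * X ω).re)‖ := f.le_opNorm _
      _ ≤ ‖f‖ * B := mul_le_mul_of_nonneg_left e3 hf0.le
      _ = B * ‖f‖ := mul_comm _ _
  · rw [hφ]
    simp only [hφ]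
    have h1 := hf2 (T fun l => -K * SignType.sign (f (WithLp.toLp (ENNReal.ofReal q) (x l))))
      ⟨_, fun l => ?_, rfl⟩
    · rw [hT, map_sum] at h1
      have e1 : ∀ l, f ((-K * (SignType.sign (f (WithLp.toLp (ENNReal.ofReal q) (x l))) : ℝ)) •
          WithLp.toLp (ENNReal.ofReal q) (x l)) =
          -(K * |f (WithLp.toLp (ENNReal.ofReal q) (x l))|) := by
        intro l
        rw [map_smul, smul_eq_mul, mul_assoc, sign_mul_self]
        ring
      simp only [e1] at h1
      rw [Finset.sum_neg_distrib, ← Finset.mul_sum] at h1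
      rw [le_div_iff₀ hf0, add_mul]
      have e2 : K * (∑ l, |-f (WithLp.toLp (ENNReal.ofReal q) (x l)) / ‖f‖|) * ‖f‖ =
          K * ∑ l, |f (WithLp.toLp (ENNReal.ofReal q) (x l))| := by
        rw [mul_assoc, Finset.sum_mul]
        congr 1
        refine Finset.sum_congr rfl fun l _ => ?_
        rw [abs_div, abs_neg, abs_of_pos hf0]
        field_simp
      rw [e2]
      linarith
    · have h5 : |(SignType.sign (f (WithLp.toLp (ENNReal.ofReal q) (x l))) : ℝ)| ≤ 1 := by
        rcases SignType.sign (f (WithLp.toLp (ENNReal.ofReal q) (x l))) with _ | _ | _ <;> simp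
      show |-K * (SignType.sign (f (WithLp.toLp (ENNReal.ofReal q) (x l))) : ℝ)| ≤ K
      rw [abs_mul, abs_neg, abs_of_nonneg hK]
      nlinarith

end Pool.Agent.Lib.MP_537232_an.NM
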