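import Pool.Agent.Lib.MP_537232_an.NM.SpecG

set_option autoImplicit false

/-!
# MP_537232_an, NM, Hoe: Hoeffding's inequality, counting form
-/

namespace Pool.Agent.Lib.MP_537232_an.NM

open MeasureTheory ProbabilityTheory Finset Filter Topology

namespace Hoe

theorem mgf (ι : Type) [Fintype ι] [DecidableEq ι] (a : ι → ℝ) (x : ℝ) :
    ∑ ε : ι → Bool, Real.exp (x * ∑ i, a i * sg (ε i)) ≤
      2 ^ (Fintype.card ι) * Real.exp (x ^ 2 * (∑ i, a i ^ 2) / 2) := by
  classical
  have h1 : ∀ ε : ι → Bool, Real.exp (x * ∑ i, a i * sg (ε i)) =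
      ∏ i, Real.exp (x * (a i * sg (ε i))) := by
    intro ε
    rw [Finset.mul_sum, Real.exp_sum]
  have h2 : ∑ ε : ι → Bool, ∏ i, Real.exp (x * (a i * sg (ε i))) =
      ∏ i : ι, ∑ b : Bool, Real.exp (x * (a i * sg b)) := by
    rw [Finset.prod_univ_sum (fun _ : ι => (univ : Finset Bool))
      (fun i b => Real.exp (x * (a i * sg b))), Fintype.piFinset_univ]
  simp only [h1]
  rw [h2]
  have h3 : ∀ i ∈ (univ : Finset ι), ∑ b : Bool, Real.exp (x * (a i * sg b)) ≤
      2 * Real.exp (x ^ 2 * a i ^ 2 / 2) := by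
    intro i _
    rw [Fintype.sum_bool]
    have h4 : Real.exp (x * (a i * sg true)) + Real.exp (x * (a i * sg false)) =
        2 * Real.cosh (x * a i) := by
      rw [Real.cosh_eq]
      simp only [sg]
      simp
      ring
    rw [h4]
    have h5 := Real.cosh_le_exp_half_sq (x * a i)
    rw [mul_pow] at h5
    linarith
  refine (Finset.prod_le_prod (fun i _ => Finset.sum_nonneg fun b _ => (Real.exp_pos _).le)
    h3).trans (le_of_eq ?_)
  rw [Finset.prod_mul_distrib, Finset.prod_const, Finset.card_univ, ← Real.exp_sum]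
  congr 2
  rw [Finset.mul_sum, Finset.sum_div]

theorem one (ι : Type) [Fintype ι] (a : ι → ℝ) (lam V : ℝ) (hl : 0 ≤ lam) (hV : 0 < V)
    (ha : ∑ i, a i ^ 2 ≤ V) :
    ((({ε : ι → Bool | lam < ∑ i, a i * sg (ε i)} : Set (ι → Bool)).ncard : ℕ) : ℝ) ≤
      2 ^ (Fintype.card ι) * Real.exp (-(lam ^ 2 / (2 * V))) := by
  classical
  set F := (univ : Finset (ι → Bool)).filter fun ε => lam < ∑ i, a i * sg (ε i) with hF
  have hset : {ε : ι → Bool | lam < ∑ i, a i * sg (ε i)} = (F : Set (ι → Bool)) := by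
    ext ε
    simp [hF]
  rw [hset, Set.ncard_coe_finset]
  have hx : 0 ≤ lam / V := div_nonneg hl hV.le
  have h1 : (F.card : ℝ) * Real.exp (lam / V * lam) ≤
      ∑ ε : ι → Bool, Real.exp (lam / V * ∑ i, a i * sg (ε i)) := by
    calc (F.card : ℝ) * Real.exp (lam / V * lam) = ∑ _ε ∈ F, Real.exp (lam / V * lam) := by
          rw [Finset.sum_const, nsmul_eq_mul]
      _ ≤ ∑ ε ∈ F, Real.exp (lam / V * ∑ i, a i * sg (ε i)) := by
          refine Finset.sum_le_sum fun ε hε => Real.exp_le_exp.2 ?_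
          exact mul_le_mul_of_nonneg_left (Finset.mem_filter.1 hε).2.le hx
      _ ≤ _ := Finset.sum_le_sum_of_subset_of_nonneg (Finset.subset_univ _)
          fun ε _ _ => (Real.exp_pos _).le
  have h2 := h1.trans (mgf ι a (lam / V))
  have h3 : Real.exp ((lam / V) ^ 2 * (∑ i, a i ^ 2) / 2) ≤ Real.exp ((lam / V) ^ 2 * V / 2) := by
    apply Real.exp_le_exp.2
    have := mul_le_mul_of_nonneg_left ha (sq_nonneg (lam / V))
    linarith
  have h4 : (F.card : ℝ) * Real.exp (lam / V * lam) ≤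
      2 ^ (Fintype.card ι) * Real.exp ((lam / V) ^ 2 * V / 2) :=
    h2.trans (mul_le_mul_of_nonneg_left h3 (by positivity))
  have h5 : Real.exp (-(lam ^ 2 / (2 * V))) * Real.exp (lam / V * lam) =
      Real.exp ((lam / V) ^ 2 * V / 2) := by
    rw [← Real.exp_add]
    congr 1
    field_simp
    ring
  rw [← h5, ← mul_assoc] at h4
  exact le_of_mul_le_mul_right h4 (Real.exp_pos _)

end Hoe

theorem wHoe : S_Hoe := by
  intro ι _ a lam V hl hV ha
  have h1 := Hoe.one ι a lam V hl hV ha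
  have h2 := Hoe.one ι (fun i => -a i) lam V hl hV (by simpa using ha)
  have hsub : {ε : ι → Bool | lam < |∑ i, a i * sg (ε i)|} ⊆
      {ε : ι → Bool | lam < ∑ i, a i * sg (ε i)} ∪ {ε : ι → Bool | lam < ∑ i, -a i * sg (ε i)} := by
    intro ε hε
    have hε' : lam < |∑ i, a i * sg (ε i)| := hε
    rcases lt_abs.1 hε' with h | h
    · exact Or.inl h
    · refine Or.inr ?_
      have h3 : ∑ i, -a i * sg (ε i) = -∑ i, a i * sg (ε i) := by
        rw [← Finset.sum_neg_distrib]
        exact Finset.sum_congr rfl fun i _ => by ring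
      show lam < ∑ i, -a i * sg (ε i)
      rw [h3]
      exact h
  have h4 := (Set.ncard_le_ncard hsub (Set.toFinite _)).trans (Set.ncard_union_le _ _)
  have h5 : (({ε : ι → Bool | lam < |∑ i, a i * sg (ε i)|}.ncard : ℕ) : ℝ) ≤
      (({ε : ι → Bool | lam < ∑ i, a i * sg (ε i)}.ncard : ℕ) : ℝ) +
        (({ε : ι → Bool | lam < ∑ i, -a i * sg (ε i)}.ncard : ℕ) : ℝ) := by
    exact_mod_cast h4
  linarith

end Pool.Agent.Lib.MP_537232_an.NM
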