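import Pool.Agent.Lib.MP_537232_an.NM.SpecD

set_option autoImplicit false

/-!
# MP_537232_an, directory NM, Hr: Hilbert space bounds and rank
-/

namespace Pool.Agent.Lib.MP_537232_an.NM

open MeasureTheory ProbabilityTheory Finset Filter Topology

namespace Hr

private theorem prodsum {α β : Type} [Fintype α] [Fintype β] {N : ℕ} (a : α → ℝ)
    (b : Fin N → β → ℝ) :
    ∑ ω : α × (Fin N → β), a ω.1 * ∏ j, b j (ω.2 j) = (∑ k, a k) * ∏ j, ∑ k, b j k := by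
  classical
  rw [Fintype.sum_prod_type, Finset.prod_univ_sum, Finset.sum_mul_sum, Fintype.piFinset_univ]

variable {q : ℝ} {C : Cst q} {N r : ℕ} {Pi : ℝ} {d : ℕ} (S : SiteD q C N r Pi d)

private theorem wtn (ω : S.Om) : 0 ≤ S.wt ω :=
  mul_nonneg (S.P_nonneg _) (Finset.prod_nonneg fun _ _ => S.P_nonneg _)

private theorem wts : ∑ ω, S.wt ω = 1 := by
  have h := prodsum (α := Fin S.K) (β := Fin S.K) (N := N) S.P fun _ => S.P
  simp only [S.P_sum, Finset.prod_const_one, mul_one] at h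
  exact h

private theorem linlin (g g' : Fin d → ℝ) :
    ∑ ω, S.P ω * (S.lin g ω * S.lin g' ω) = S.v * gg g g' := by
  have h1 : ∀ ω, S.P ω * (S.lin g ω * S.lin g' ω) =
      ∑ i, ∑ j, g i * g' j * (S.P ω * (S.ξ i ω * S.ξ j ω)) := by
    intro ω
    rw [SiteD.lin, SiteD.lin, Finset.sum_mul_sum, Finset.mul_sum]
    refine Finset.sum_congr rfl fun i _ => ?_
    rw [Finset.mul_sum]
    exact Finset.sum_congr rfl fun j _ => by ring
  rw [Finset.sum_congr rfl fun ω _ => h1 ω, Finset.sum_comm]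
  have h2 : ∀ i, ∑ ω, ∑ j, g i * g' j * (S.P ω * (S.ξ i ω * S.ξ j ω)) = S.v * (g i * g' i) := by
    intro i
    rw [Finset.sum_comm]
    have h3 : ∀ j, ∑ ω, g i * g' j * (S.P ω * (S.ξ i ω * S.ξ j ω)) =
        if i = j then S.v * (g i * g' j) else 0 := by
      intro j
      rw [← Finset.mul_sum, S.cov]
      split <;> ring
    rw [Finset.sum_congr rfl fun j _ => h3 j, Finset.sum_ite_eq]
    simp
  rw [Finset.sum_congr rfl fun i _ => h2 i, gg, Finset.mul_sum]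

private theorem fpfp (g g' : Fin d → ℝ) (h : ∑ i, g i ^ 2 = 1) (h' : ∑ i, g' i ^ 2 = 1) :
    |∑ ω, S.P ω * (S.fp g ω * S.fp g' ω)| ≤ Pi := by
  have h1 := S.fp_2 g h
  have h2 := S.fp_2 g' h'
  have h3 : |∑ ω, S.P ω * (S.fp g ω * S.fp g' ω)| ≤
      ∑ ω, (S.P ω * S.fp g ω ^ 2 + S.P ω * S.fp g' ω ^ 2) / 2 := by
    refine (Finset.abs_sum_le_sum_abs _ _).trans (Finset.sum_le_sum fun ω _ => ?_)
    rw [abs_mul, abs_of_nonneg (S.P_nonneg ω), abs_mul]
    have h4 := S.P_nonneg ω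
    have h5 : |S.fp g ω| * |S.fp g' ω| ≤ (S.fp g ω ^ 2 + S.fp g' ω ^ 2) / 2 := by
      rw [← sq_abs (S.fp g ω), ← sq_abs (S.fp g' ω)]
      nlinarith [sq_nonneg (|S.fp g ω| - |S.fp g' ω|)]
    calc S.P ω * (|S.fp g ω| * |S.fp g' ω|) ≤ S.P ω * ((S.fp g ω ^ 2 + S.fp g' ω ^ 2) / 2) :=
          mul_le_mul_of_nonneg_left h5 h4
      _ = _ := by ring
  rw [← Finset.sum_div, Finset.sum_add_distrib] at h3
  linarith

private theorem hh (h1 : S_Mom) (hq : 2 < q) (G G' : ℕ → Fin d → ℝ) (hG : UG G) (hG' : UG G') :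
    |∑ ω, S.wt ω * (S.hrow G ω * S.hrow G' ω)| ≤
    mq (q / (q - 1)) ^ (-(2 * ((q - 1) / q))) * |gg (G 0) (G' 0)| * Pi ^ N := by
  have hm : 0 < mq (q / (q - 1)) := h1.1 _ (div_nonneg (by linarith) (by linarith))
  have hsq : mq (q / (q - 1)) ^ (-(2 * ((q - 1) / q))) =
      mq (q / (q - 1)) ^ (-((q - 1) / q)) * mq (q / (q - 1)) ^ (-((q - 1) / q)) := by
    rw [← Real.rpow_add hm]
    congr 1
    ring
  have h2 : ∑ ω, S.wt ω * (S.hrow G ω * S.hrow G' ω) =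
      (mq (q / (q - 1)) ^ (-(2 * ((q - 1) / q))) * (S.v * gg (G 0) (G' 0))) *
        ∏ j : Fin N, ∑ k, S.P k * (S.fp (G (j + 1)) k * S.fp (G' (j + 1)) k) := by
    rw [← linlin S, Finset.mul_sum, ← prodsum]
    refine Finset.sum_congr rfl fun ω _ => ?_
    rw [SiteD.wt, SiteD.hrow, SiteD.hrow, Finset.prod_mul_distrib, Finset.prod_mul_distrib, hsq]
    ring
  rw [h2, abs_mul, abs_mul, abs_mul, abs_of_nonneg (Real.rpow_nonneg hm.le _),
    Finset.abs_prod]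
  have h3 : ∏ j : Fin N, |∑ k, S.P k * (S.fp (G (j + 1)) k * S.fp (G' (j + 1)) k)| ≤ Pi ^ N := by
    refine (Finset.prod_le_prod (fun _ _ => abs_nonneg _) fun j _ =>
      fpfp S _ _ (hG _) (hG' _)).trans ?_
    simp
  have h4 : |S.v| * |gg (G 0) (G' 0)| ≤ |gg (G 0) (G' 0)| := by
    have h5 : |S.v| ≤ 1 := abs_le.2 ⟨by linarith [S.v_low], S.v_up⟩
    exact mul_le_of_le_one_left (abs_nonneg _) h5
  have h6 : 0 ≤ mq (q / (q - 1)) ^ (-(2 * ((q - 1) / q))) := Real.rpow_nonneg hm.le _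
  exact mul_le_mul (mul_le_mul_of_nonneg_left h4 h6) h3
    (Finset.prod_nonneg fun _ _ => abs_nonneg _) (mul_nonneg h6 (abs_nonneg _))

private theorem rk : ∃ e : Fin (d * (1 + d) ^ (r * N)) → S.Om → ℝ, ∀ G : ℕ → Fin d → ℝ, UG G →
    ∃ c : Fin (d * (1 + d) ^ (r * N)) → ℝ, ∀ ω, S.hrow G ω = ∑ i, c i * e i ω := by
  classical
  have hcard : Fintype.card (Fin d × (Fin N → (Fin r → Option (Fin d)))) =
      d * (1 + d) ^ (r * N) := by
    rw [Fintype.card_prod, Fintype.card_fin, Fintype.card_fun, Fintype.card_fun,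
      Fintype.card_option, Fintype.card_fin, Fintype.card_fin, Fintype.card_fin, ← pow_mul,
      add_comm d 1]
  let φ := Fintype.equivFinOfCardEq hcard
  refine ⟨fun i ω => S.ξ (φ.symm i).1 ω.1 * ∏ j, S.mon ((φ.symm i).2 j) (ω.2 j), ?_⟩
  intro G hG
  have h1 : ∀ j : Fin N, ∃ c : (Fin r → Option (Fin d)) → ℝ,
      ∀ ω, S.fp (G (j + 1)) ω = ∑ τ, c τ * S.mon τ ω := fun j => S.rank _ (hG _)
  choose c hc using h1
  refine ⟨fun i => mq (q / (q - 1)) ^ (-((q - 1) / q)) * G 0 (φ.symm i).1 *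
    ∏ j, c j ((φ.symm i).2 j), ?_⟩
  intro ω
  have h2 : S.hrow G ω = ∑ i : Fin d × (Fin N → (Fin r → Option (Fin d))),
      (mq (q / (q - 1)) ^ (-((q - 1) / q)) * G 0 i.1 * S.ξ i.1 ω.1) *
        ∏ j, (c j (i.2 j) * S.mon (i.2 j) (ω.2 j)) := by
    rw [prodsum (fun k => mq (q / (q - 1)) ^ (-((q - 1) / q)) * G 0 k * S.ξ k ω.1)
      fun j τ => c j τ * S.mon τ (ω.2 j)]
    rw [SiteD.hrow, SiteD.lin, Finset.mul_sum]
    congr 1
    · exact Finset.sum_congr rfl fun i _ => by ring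
    · exact Finset.prod_congr rfl fun j _ => hc j _
  rw [h2, ← Equiv.sum_comp φ.symm]
  refine Finset.sum_congr rfl fun i _ => ?_
  rw [Finset.prod_mul_distrib]
  ring

end Hr

open Hr in
theorem wHr (h1 : S_Mom) : S_Hr := by
  intro q hq C N r Pi d S
  exact ⟨wts S, wtn S, hh S h1 hq, rk S⟩

end Pool.Agent.Lib.MP_537232_an.NM
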