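import Pool.Agent.Lib.MP_537232_an.NM.SpecJ

/-!
# MP_537232_an, NM/Jc: the ideals which contain `I` but not `R` (task of helper81, by helper77)
-/

set_option autoImplicit false

open scoped ENNReal Topology
open Filter Finset

namespace Pool.Agent.Lib.MP_537232_an.NM

namespace Jc

/-- The vectors on which a bounded family of seminorms tends to zero form a closed subspace. -/
theorem mk {Z β : Type} [NormedAddCommGroup Z] [NormedSpace ℝ Z] (N : β → ℕ → Z → ℝ) (C : β → ℝ)
    (hC : ∀ B, 0 ≤ C B) (h0 : ∀ B m T, 0 ≤ N B m T) (hz : ∀ B m, N B m 0 = 0)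
    (ha : ∀ B m T T', N B m (T + T') ≤ N B m T + N B m T')
    (hs : ∀ B m (c : ℝ) T, N B m (c • T) ≤ |c| * N B m T) (hb : ∀ B m T, N B m T ≤ C B * ‖T‖) :
    ∃ K : Submodule ℝ Z, IsClosed (K : Set Z) ∧
      ∀ T, T ∈ K ↔ ∀ B, Tendsto (fun m => N B m T) atTop (𝓝 0) := by
  refine ⟨{ carrier := {T | ∀ B, Tendsto (fun m => N B m T) atTop (𝓝 0)}
            add_mem' := ?_
            zero_mem' := ?_
            smul_mem' := ?_ }, ?_, fun T => Iff.rfl⟩
  · intro T T' hT hT' B
    refine squeeze_zero (fun m => h0 B m _) (fun m => ha B m T T') ?_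
    have := (hT B).add (hT' B)
    rwa [add_zero] at this
  · intro B
    simp only [hz]
    exact tendsto_const_nhds
  · intro c T hT B
    refine squeeze_zero (fun m => h0 B m _) (fun m => hs B m c T) ?_
    have := (hT B).const_mul |c|
    rwa [mul_zero] at this
  · apply isClosed_of_closure_subset
    intro T hT B
    rw [Metric.tendsto_atTop]
    intro ε hε
    have hC' : 0 < C B + 1 := by linarith [hC B]
    obtain ⟨T', hT', hd⟩ := Metric.mem_closure_iff.1 hT (ε / 2 / (C B + 1)) (by positivity)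
    obtain ⟨M, hM⟩ := Metric.tendsto_atTop.1 (hT' B) (ε / 2) (half_pos hε)
    refine ⟨M, fun m hm => ?_⟩
    have h1 := hM m hm
    rw [Real.dist_eq, sub_zero, abs_of_nonneg (h0 B m _)] at h1 ⊢
    have h2 : N B m T ≤ N B m T' + N B m (T - T') := by
      have := ha B m T' (T - T')
      rwa [add_sub_cancel] at this
    have h3 := hb B m (T - T')
    rw [dist_eq_norm] at hd
    have h4 : C B * ‖T - T'‖ ≤ (C B + 1) * ‖T - T'‖ := by
      have := norm_nonneg (T - T')
      nlinarith
    have h5 : (C B + 1) * ‖T - T'‖ < ε / 2 := by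
      rw [mul_comm]
      exact (lt_div_iff₀ hC').1 hd
    linarith

/-- averages -/
theorem avg {n : ℕ} (hn : 0 < n) {f : Fin n → ℝ} {c : ℝ} (h : ∀ t, f t ≤ c) : (∑ t, f t) / n ≤ c := by
  have hn' : (0 : ℝ) < n := Nat.cast_pos.2 hn
  rw [div_le_iff₀ hn']
  calc ∑ t, f t ≤ ∑ _t : Fin n, c := Finset.sum_le_sum fun t _ => h t
    _ = c * n := by rw [Finset.sum_const, Finset.card_univ, Fintype.card_fin, nsmul_eq_mul, mul_comm]

theorem avg_add {n : ℕ} {f g h : Fin n → ℝ} (H : ∀ t, f t ≤ g t + h t) :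
    (∑ t, f t) / n ≤ (∑ t, g t) / n + (∑ t, h t) / n := by
  rw [← add_div, ← Finset.sum_add_distrib]
  gcongr with t
  exact H t

theorem avg_mul {n : ℕ} {f g : Fin n → ℝ} {c : ℝ} (H : ∀ t, f t ≤ c * g t) :
    (∑ t, f t) / n ≤ c * ((∑ t, g t) / n) := by
  rw [← mul_div_assoc, Finset.mul_sum]
  gcongr with t
  exact H t

end Jc

open Jc in
/-- **Jc.** The ideals which contain `I` but not `R`. -/
theorem wJc : S_Jc := by
  intro X Y _ _ _ _ n hn
  constructor
  · intro F hF
    obtain ⟨K, hK, hmem⟩ := mk (Z := X →L[ℝ] Y) (β := X →L[ℝ] X)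
      (fun B m T => (∑ t, ‖T (B (F m t))‖) / n m) (fun B => ‖B‖) (fun B => norm_nonneg B)
      (fun B m T => div_nonneg (Finset.sum_nonneg fun t _ => norm_nonneg _) (Nat.cast_nonneg _))
      (fun B m => by simp) (fun B m T T' => avg_add fun t => norm_add_le _ _)
      (fun B m c T => avg_mul fun t => by
        rw [ContinuousLinearMap.smul_apply, norm_smul, Real.norm_eq_abs])
      (fun B m T => avg (hn m) fun t => by
        calc ‖T (B (F m t))‖ ≤ ‖T‖ * ‖B (F m t)‖ := T.le_opNorm _
          _ ≤ ‖T‖ * (‖B‖ * ‖F m t‖) := by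
              gcongr
              exact B.le_opNorm _
          _ ≤ ‖T‖ * (‖B‖ * 1) := by
              gcongr
              exact hF m t
          _ = ‖B‖ * ‖T‖ := by ring)
    refine ⟨K, ⟨hK, fun A S B' hS => ?_⟩, hmem⟩
    rw [hmem] at hS ⊢
    intro B
    refine squeeze_zero
      (fun m => div_nonneg (Finset.sum_nonneg fun t _ => norm_nonneg _) (Nat.cast_nonneg _))
      (fun m => avg_mul (c := ‖A‖) (g := fun t => ‖S ((B'.comp B) (F m t))‖) fun t => ?_) ?_
    · exact A.le_opNorm _
    · have := (hS (B'.comp B)).const_mul ‖A‖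
      rwa [mul_zero] at this
  · intro F hF
    obtain ⟨K, hK, hmem⟩ := mk (Z := X →L[ℝ] Y) (β := Y →L[ℝ] Y)
      (fun B m T => (∑ t, ‖(F m t).comp (B.comp T)‖) / n m) (fun B => ‖B‖) (fun B => norm_nonneg B)
      (fun B m T => div_nonneg (Finset.sum_nonneg fun t _ => norm_nonneg _) (Nat.cast_nonneg _))
      (fun B m => by simp) (fun B m T T' => avg_add fun t => by
        rw [ContinuousLinearMap.comp_add, ContinuousLinearMap.comp_add]
        exact norm_add_le _ _)
      (fun B m c T => avg_mul fun t => by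
        rw [ContinuousLinearMap.comp_smul, ContinuousLinearMap.comp_smul, norm_smul,
          Real.norm_eq_abs])
      (fun B m T => avg (hn m) fun t => by
        calc ‖(F m t).comp (B.comp T)‖ ≤ ‖F m t‖ * ‖B.comp T‖ :=
              ContinuousLinearMap.opNorm_comp_le _ _
          _ ≤ 1 * (‖B‖ * ‖T‖) := by
              gcongr
              · exact hF m t
              · exact ContinuousLinearMap.opNorm_comp_le _ _
          _ = ‖B‖ * ‖T‖ := one_mul _)
    refine ⟨K, ⟨hK, fun A S B' hS => ?_⟩, hmem⟩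
    rw [hmem] at hS ⊢
    intro B
    refine squeeze_zero
      (fun m => div_nonneg (Finset.sum_nonneg fun t _ => norm_nonneg _) (Nat.cast_nonneg _))
      (fun m => avg_mul (c := ‖B'‖) (g := fun t => ‖(F m t).comp ((B.comp A).comp S)‖)
        fun t => ?_) ?_
    · have e1 : (F m t).comp (B.comp ((A.comp S).comp B')) =
          ((F m t).comp ((B.comp A).comp S)).comp B' := rfl
      rw [e1, mul_comm]
      exact ContinuousLinearMap.opNorm_comp_le _ _
    · have := (hS (B.comp A)).const_mul ‖B'‖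
      rwa [mul_zero] at this

end Pool.Agent.Lib.MP_537232_an.NM
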