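import Pool.Agent.Lib.MP_537232_an.NM.SpecS

set_option autoImplicit false

/-!
# MP_537232_an, NM/Lw (helper68)
-/

namespace Pool.Agent.Lib.MP_537232_an.NM

open MeasureTheory ProbabilityTheory Finset Filter Topology

namespace Lw

theorem elim_mul {β : Type} (o : Option β) (f g : β → ℝ) :
    o.elim 1 f * o.elim 1 g = o.elim 1 fun e => f e * g e := by
  cases o
  · simp
  · rfl

/-- the inner product of two vectors of the block -/
theorem gv_sum (h1 : S_Ex) (h2 : S_Wwt) {α s : ℝ} {d N : ℕ} (R : Finset ℕ)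
    (G G' : ℕ → Fin d → ℝ) : ∑ j : Bx d N R, gv α s R G j * gv α s R G' j =
      gg (G 0) (G' 0) * ∑ m ∈ R, ww α s N m / vp α s N R *
        ∑ A ∈ powersetCard m (univ : Finset (Fin N)), ∏ l ∈ A, gg (G (l + 1)) (G' (l + 1)) := by
  have hvp : 0 ≤ vp α s N R :=
    Finset.sum_nonneg fun m _ => mul_nonneg (Nat.cast_nonneg _) (h2.1 α s N m).1
  have h3 := h1 d N R (fun m => ww α s N m / vp α s N R) (fun i => G 0 i * G' 0 i)
    (fun l e => G (l + 1) e * G' (l + 1) e)
  unfold gg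
  rw [← h3]
  refine Finset.sum_congr rfl fun j _ => ?_
  unfold gv tv
  have h4 : Real.sqrt (ww α s N (nz j.1.2) / vp α s N R) *
      Real.sqrt (ww α s N (nz j.1.2) / vp α s N R) = ww α s N (nz j.1.2) / vp α s N R :=
    Real.mul_self_sqrt (div_nonneg (h2.1 α s N _).1 hvp)
  have h5 : (∏ l : Fin N, (j.1.2 l).elim 1 (G (l + 1))) * (∏ l : Fin N, (j.1.2 l).elim 1 (G' (l + 1))) =
      ∏ l : Fin N, (j.1.2 l).elim 1 fun e => G (l + 1) e * G' (l + 1) e := by
    rw [← Finset.prod_mul_distrib]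
    exact Finset.prod_congr rfl fun l _ => elim_mul _ _ _
  rw [← h5]
  calc Real.sqrt (ww α s N (nz j.1.2) / vp α s N R) *
        (G 0 j.1.1 * ∏ l : Fin N, (j.1.2 l).elim 1 (G (l + 1))) *
        (Real.sqrt (ww α s N (nz j.1.2) / vp α s N R) *
        (G' 0 j.1.1 * ∏ l : Fin N, (j.1.2 l).elim 1 (G' (l + 1))))
      = (Real.sqrt (ww α s N (nz j.1.2) / vp α s N R) *
        Real.sqrt (ww α s N (nz j.1.2) / vp α s N R)) * (G 0 j.1.1 * G' 0 j.1.1 *
        ((∏ l : Fin N, (j.1.2 l).elim 1 (G (l + 1))) *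
          (∏ l : Fin N, (j.1.2 l).elim 1 (G' (l + 1))))) := by ring
    _ = _ := by rw [h4]

theorem sg_sq (b : Bool) : sg b * sg b = 1 := by
  unfold sg
  split_ifs <;> norm_num

theorem gg_Gs (v d : ℕ) (ε : ℕ → Fin v → Fin d → Bool) (t t' : Fin v) (j : ℕ) :
    gg (Gs ε t j) (Gs ε t' j) = Ge (ε j) t t' := by
  unfold gg Gs Ge
  rw [Finset.sum_div]
  refine Finset.sum_congr rfl fun i _ => ?_
  rw [div_mul_div_comm, Real.mul_self_sqrt (Nat.cast_nonneg _)]

theorem Ge_le {v d : ℕ} (ε : Fin v → Fin d → Bool) (t t' : Fin v) (hd : 1 ≤ d) :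
    |Ge ε t t'| ≤ 1 := by
  have hd0 : (0 : ℝ) < d := by exact_mod_cast hd
  unfold Ge
  rw [abs_div, abs_of_pos hd0, div_le_one hd0]
  refine (Finset.abs_sum_le_sum_abs _ _).trans ?_
  have h1 : ∀ i ∈ (univ : Finset (Fin d)), |sg (ε t i) * sg (ε t' i)| ≤ 1 := by
    intro i _
    unfold sg
    split_ifs <;> simp
  refine (Finset.sum_le_sum h1).trans ?_
  rw [Finset.sum_const, Finset.card_univ, Fintype.card_fin, nsmul_eq_mul, mul_one]

end Lw

open Lw in
theorem wLw (h1 : S_Ex) (h2 : S_Wwt) : S_Lw := by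
  refine ⟨?_, ?_, ?_⟩
  · intro v d ε t hd j
    have hd0 : (0 : ℝ) < d := by exact_mod_cast hd
    have h3 := gg_Gs v d ε t t j
    have h4 : gg (Gs ε t j) (Gs ε t j) = ∑ i, Gs ε t j i ^ 2 :=
      Finset.sum_congr rfl fun i _ => by ring
    rw [← h4, h3]
    unfold Ge
    rw [Finset.sum_congr rfl fun i _ => sg_sq (ε j t i), Finset.sum_const, Finset.card_univ,
      Fintype.card_fin, nsmul_eq_mul, mul_one, div_self hd0.ne']
  · intro v d ε t t' j _
    exact gg_Gs v d ε t t' j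
  · intro q _ C N v d ε t t' hN hd
    have hvp := (h2.2.2 C.α N C.α_pos C.α_lt hN).1
    rw [gv_sum h1 h2, abs_mul, gg_Gs]
    refine mul_le_of_le_one_right (abs_nonneg _) ?_
    refine (Finset.abs_sum_le_sum_abs _ _).trans ?_
    have h3 : ∀ m ∈ Rlo C.α N, |ww C.α (-1) N m / vp C.α (-1) N (Rlo C.α N) *
        ∑ A ∈ powersetCard m (univ : Finset (Fin N)), ∏ l ∈ A,
          gg (Gs ε t (l + 1)) (Gs ε t' (l + 1))| ≤
        (N.choose m : ℝ) * ww C.α (-1) N m / vp C.α (-1) N (Rlo C.α N) := by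
      intro m _
      have hw : 0 ≤ ww C.α (-1) N m / vp C.α (-1) N (Rlo C.α N) :=
        div_nonneg (h2.1 _ _ _ _).1 hvp.le
      rw [abs_mul, abs_of_nonneg hw]
      have h4 : |∑ A ∈ powersetCard m (univ : Finset (Fin N)), ∏ l ∈ A,
          gg (Gs ε t (l + 1)) (Gs ε t' (l + 1))| ≤ (N.choose m : ℝ) := by
        refine (Finset.abs_sum_le_sum_abs _ _).trans ?_
        have h5 : ∀ A ∈ powersetCard m (univ : Finset (Fin N)), |∏ l ∈ A,
            gg (Gs ε t (l + 1)) (Gs ε t' (l + 1))| ≤ 1 := by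
          intro A _
          rw [Finset.abs_prod]
          refine Finset.prod_le_one (fun _ _ => abs_nonneg _) fun l _ => ?_
          rw [gg_Gs]
          exact Ge_le _ _ _ hd
        refine (Finset.sum_le_sum h5).trans ?_
        rw [Finset.sum_const, Finset.card_powersetCard, Finset.card_univ, Fintype.card_fin,
          nsmul_eq_mul, mul_one]
      calc ww C.α (-1) N m / vp C.α (-1) N (Rlo C.α N) *
            |∑ A ∈ powersetCard m (univ : Finset (Fin N)), ∏ l ∈ A,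
              gg (Gs ε t (l + 1)) (Gs ε t' (l + 1))|
          ≤ ww C.α (-1) N m / vp C.α (-1) N (Rlo C.α N) * (N.choose m : ℝ) :=
            mul_le_mul_of_nonneg_left h4 hw
        _ = _ := by ring
    refine (Finset.sum_le_sum h3).trans (le_of_eq ?_)
    rw [← Finset.sum_div]
    exact div_self hvp.ne'

end Pool.Agent.Lib.MP_537232_an.NM
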