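import Pool.Agent.Lib.MP_537232_an.NM.SpecA

set_option autoImplicit false

namespace Pool.Agent.Lib.MP_537232_an.NM

open MeasureTheory ProbabilityTheory Finset Filter Topology

namespace Max

theorem lin_int (h1 : S_Int) {q : ℝ} (hq : 0 ≤ q) (a b : ℝ) :
    Integrable (fun x : ℝ => |a + b * x| ^ q) gam := by
  refine (h1 ((|a| + |b|) ^ q) q hq).1 _ ?_ fun x => ?_
  · exact (continuous_abs.comp (continuous_const.add (continuous_const.mul continuous_id))).rpow_const
      fun x => Or.inr hq
  · rw [abs_of_nonneg (Real.rpow_nonneg (abs_nonneg _) q),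
      ← Real.mul_rpow (by positivity) (by positivity)]
    refine Real.rpow_le_rpow (abs_nonneg _) ?_ hq
    have e1 : |a + b * x| ≤ |a| + |b| * |x| := by
      rw [← abs_mul]
      exact abs_add_le _ _
    have e2 : 0 ≤ |a| * |x| := mul_nonneg (abs_nonneg a) (abs_nonneg x)
    have e3 := abs_nonneg b
    nlinarith

theorem rot (κ α s x : ℝ) : Yv κ α x + s * Zv κ α x
    = Real.sqrt (1 + s ^ 2) * Yv κ (α + Real.arctan s) x := by
  have hs : 0 < Real.sqrt (1 + s ^ 2) := Real.sqrt_pos.2 (by positivity)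
  have h2 : Real.sqrt (1 + s ^ 2) ≠ 0 := hs.ne'
  unfold Yv Zv
  rw [Real.cos_add, Real.sin_add, Real.cos_arctan, Real.sin_arctan]
  field_simp
  ring

theorem rot_int (q κ α s : ℝ) : ∫ x, |Yv κ α x + s * Zv κ α x| ^ q ∂gam
    = (1 + s ^ 2) ^ (q / 2) * MR κ q (α + Real.arctan s) := by
  unfold MR
  rw [← integral_const_mul]
  refine integral_congr_ae (Eventually.of_forall fun x => ?_)
  show |Yv κ α x + s * Zv κ α x| ^ q = (1 + s ^ 2) ^ (q / 2) * |Yv κ (α + Real.arctan s) x| ^ q
  rw [rot, abs_mul, abs_of_nonneg (Real.sqrt_nonneg _),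
    Real.mul_rpow (Real.sqrt_nonneg _) (abs_nonneg _), Real.sqrt_eq_rpow,
    ← Real.rpow_mul (by positivity)]
  congr 2
  ring

theorem lim (q M : ℝ) : Tendsto (fun s : ℝ => 2 * M * ((1 + s ^ 2) ^ (q / 2) - 1) / s ^ 2)
    (𝓝[≠] 0) (𝓝 (q * M)) := by
  have hd : HasDerivAt (fun t : ℝ => (1 + t) ^ (q / 2)) (q / 2) 0 := by
    have h := ((hasDerivAt_id (0 : ℝ)).const_add 1).rpow_const (p := q / 2)
      (Or.inl (by simp))
    simpa using h
  have h1 := hd.tendsto_slope_zero
  have h2 : Tendsto (fun s : ℝ => s ^ 2) (𝓝[≠] 0) (𝓝[≠] 0) := by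
    refine tendsto_nhdsWithin_iff.2 ⟨?_, ?_⟩
    · have : Tendsto (fun s : ℝ => s ^ 2) (𝓝 0) (𝓝 0) := by
        have := (continuous_pow 2 : Continuous fun s : ℝ => s ^ 2).tendsto 0
        simpa using this
      exact this.mono_left nhdsWithin_le_nhds
    · filter_upwards [self_mem_nhdsWithin] with s hs
      exact pow_ne_zero 2 hs
  have h3 := (h1.comp h2).const_mul (2 * M)
  have e : 2 * M * (q / 2) = q * M := by ring
  rw [e] at h3
  refine h3.congr' ?_
  filter_upwards [self_mem_nhdsWithin] with s hs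
  have hs' : s ≠ 0 := hs
  simp only [Function.comp, smul_eq_mul, zero_add, add_zero, Real.one_rpow]
  field_simp

end Max

open Max in
theorem wMax (h1 : S_Int) (h2 : S_Sd) : S_Max := by
  intro q κ α hq hmax
  have hq0 : 0 ≤ q := by linarith
  have hS := h2 q hq (Real.cos α) (κ * Real.sin α) (-Real.sin α) (κ * Real.cos α)
  have e1 : ∫ x, |Real.cos α + κ * Real.sin α * x| ^ (q - 2) *
      (-Real.sin α + κ * Real.cos α * x) ^ 2 ∂gam = VS κ q α := rfl
  rw [e1] at hS
  have hL := lim q (MR κ q α)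
  have hle : q * (q - 1) * VS κ q α ≤ q * MR κ q α := by
    refine le_of_tendsto_of_tendsto hS hL ?_
    filter_upwards [self_mem_nhdsWithin] with s hs
    have hs' : s ≠ 0 := hs
    have hs2 : 0 < s ^ 2 := by positivity
    refine div_le_div_of_nonneg_right ?_ hs2.le
    have i1 : Integrable (fun x : ℝ => |Real.cos α + κ * Real.sin α * x
        + s * (-Real.sin α + κ * Real.cos α * x)| ^ q) gam := by
      have := lin_int h1 hq0 (Real.cos α + s * -Real.sin α) (κ * Real.sin α + s * (κ * Real.cos α))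
      refine this.congr (Eventually.of_forall fun x => ?_)
      show |_| ^ q = |_| ^ q
      congr 2
      ring
    have i2 : Integrable (fun x : ℝ => |Real.cos α + κ * Real.sin α * x
        - s * (-Real.sin α + κ * Real.cos α * x)| ^ q) gam := by
      have := lin_int h1 hq0 (Real.cos α - s * -Real.sin α) (κ * Real.sin α - s * (κ * Real.cos α))
      refine this.congr (Eventually.of_forall fun x => ?_)
      show |_| ^ q = |_| ^ q
      congr 2
      ring
    have i3 : Integrable (fun x : ℝ => 2 * |Real.cos α + κ * Real.sin α * x| ^ q) gam :=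
      (lin_int h1 hq0 _ _).const_mul 2
    have i12 : ∫ x, (|Real.cos α + κ * Real.sin α * x + s * (-Real.sin α + κ * Real.cos α * x)| ^ q
        + |Real.cos α + κ * Real.sin α * x - s * (-Real.sin α + κ * Real.cos α * x)| ^ q
        - 2 * |Real.cos α + κ * Real.sin α * x| ^ q) ∂gam
        = (∫ x, |Real.cos α + κ * Real.sin α * x + s * (-Real.sin α + κ * Real.cos α * x)| ^ q ∂gam)
        + (∫ x, |Real.cos α + κ * Real.sin α * x - s * (-Real.sin α + κ * Real.cos α * x)| ^ q ∂gam)
        - ∫ x, 2 * |Real.cos α + κ * Real.sin α * x| ^ q ∂gam := by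
      rw [← integral_add i1 i2]
      exact integral_sub (i1.add i2) i3
    rw [i12, integral_const_mul]
    have j1 : ∫ x, |Real.cos α + κ * Real.sin α * x + s * (-Real.sin α + κ * Real.cos α * x)| ^ q ∂gam
        = (1 + s ^ 2) ^ (q / 2) * MR κ q (α + Real.arctan s) := rot_int q κ α s
    have j2 : ∫ x, |Real.cos α + κ * Real.sin α * x - s * (-Real.sin α + κ * Real.cos α * x)| ^ q ∂gam
        = (1 + s ^ 2) ^ (q / 2) * MR κ q (α + Real.arctan (-s)) := by
      rw [← neg_sq s, ← rot_int q κ α (-s)]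
      refine integral_congr_ae (Eventually.of_forall fun x => ?_)
      show |_| ^ q = |_| ^ q
      congr 2
      unfold Yv Zv
      ring
    have j3 : ∫ x, |Real.cos α + κ * Real.sin α * x| ^ q ∂gam = MR κ q α := rfl
    rw [j1, j2, j3]
    have hp : 0 ≤ (1 + s ^ 2) ^ (q / 2) := Real.rpow_nonneg (by positivity) _
    have k1 := mul_le_mul_of_nonneg_left (hmax (α + Real.arctan s)) hp
    have k2 := mul_le_mul_of_nonneg_left (hmax (α + Real.arctan (-s))) hp
    linarith
  have hqp : 0 < q := by linarith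
  have : q * ((q - 1) * VS κ q α) ≤ q * MR κ q α := by linarith
  exact le_of_mul_le_mul_left this hqp

end Pool.Agent.Lib.MP_537232_an.NM
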