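import Pool.Agent.Lib.MP_537232_an.NM.SpecD

set_option autoImplicit false

/-!
# MP_537232_an, directory NM, Mod: the rows form a model
-/

namespace Pool.Agent.Lib.MP_537232_an.NM

open MeasureTheory ProbabilityTheory Finset Filter Topology

namespace ModAux

private theorem prodsum {α β : Type} [Fintype α] [Fintype β] {N : ℕ} (a : α → ℝ)
    (b : Fin N → β → ℝ) :
    ∑ ω : α × (Fin N → β), a ω.1 * ∏ j, b j (ω.2 j) = (∑ k, a k) * ∏ j, ∑ k, b j k := by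
  classical
  rw [Fintype.sum_prod_type, Finset.prod_univ_sum, Finset.sum_mul_sum, Fintype.piFinset_univ]

private theorem nz_le {d N : ℕ} (κ : Fin N → Option (Fin d)) : nz κ ∈ range (N + 1) := by
  rw [mem_range]
  have h : nz κ ≤ N := by
    have h1 := card_filter_le (univ : Finset (Fin N)) (fun j => κ j ≠ none)
    rw [card_univ, Fintype.card_fin] at h1
    exact h1
  omega

/-- the sum over `Bx d N (range (N + 1))` is the sum over all `j` -/
private theorem sum_Bx {d N : ℕ} (f : Fin d × (Fin N → Option (Fin d)) → ℝ) :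
    ∑ j : Bx d N (range (N + 1)), f j.1 = ∑ j, f j :=
  Fintype.sum_equiv (Equiv.subtypeUnivEquiv
    (p := fun j : Fin d × (Fin N → Option (Fin d)) => nz j.2 ∈ range (N + 1))
    fun j => nz_le j.2) _ _ fun _ => rfl

private theorem elim_mul {d N : ℕ} (κ : Fin N → Option (Fin d)) (f g : Fin N → Fin d → ℝ) :
    (∏ l, (κ l).elim 1 (f l)) * (∏ l, (κ l).elim 1 (g l)) =
      ∏ l, (κ l).elim 1 (fun e => f l e * g l e) := by
  rw [← prod_mul_distrib]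
  refine prod_congr rfl fun l _ => ?_
  cases κ l with
  | none => exact mul_one 1
  | some e => rfl

private theorem elim_sq {d N : ℕ} (κ : Fin N → Option (Fin d)) (f : Fin N → Fin d → ℝ) :
    (∏ l, (κ l).elim 1 (f l)) ^ 2 = ∏ l, (κ l).elim 1 (fun e => f l e ^ 2) := by
  rw [pow_two, elim_mul]
  simp only [pow_two]

variable {q : ℝ} {C : Cst q} {N r : ℕ} {Pi : ℝ} {d : ℕ} (S : SiteD q C N r Pi d)

private theorem wtn (ω : S.Om) : 0 ≤ S.wt ω :=
  mul_nonneg (S.P_nonneg _) (Finset.prod_nonneg fun _ _ => S.P_nonneg _)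

/-- the combinations of the components as combinations of the elementary tensors -/
private theorem comb (hEx : S_Ex) (G : ℕ → Fin d → ℝ) (a : ℕ → ℝ) (ω : S.Om) :
    ∑ m ∈ range (N + 1), a m * S.xrow G m ω =
      ∑ j : Fin d × (Fin N → Option (Fin d)), (a (nz j.2) * tv G j) * S.ee j ω := by
  have h1 := hEx d N (range (N + 1)) a (fun i => G 0 i * S.ξ i ω.1)
    (fun l e => G (l + 1) e * (kap q * S.ξ e (ω.2 l)))
  rw [sum_Bx (fun j => a (nz j.2) * (G 0 j.1 * S.ξ j.1 ω.1 * ∏ l, (j.2 l).elim 1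
    (fun e => G (l + 1) e * (kap q * S.ξ e (ω.2 l)))))] at h1
  have h2 : ∀ l : Fin N, ∑ e, G (l + 1) e * (kap q * S.ξ e (ω.2 l)) =
      kap q * S.lin (G (l + 1)) (ω.2 l) := by
    intro l
    unfold SiteD.lin
    rw [mul_sum]
    exact sum_congr rfl fun e _ => by ring
  simp only [h2] at h1
  have h3 : ∀ j : Fin d × (Fin N → Option (Fin d)), (a (nz j.2) * tv G j) * S.ee j ω =
      (S.wt ω ^ (1 / q) * mq q ^ (-(1 / q)) * (C.σ ^ N)⁻¹) *
      (a (nz j.2) * (G 0 j.1 * S.ξ j.1 ω.1 * ∏ l, (j.2 l).elim 1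
        (fun e => G (l + 1) e * (kap q * S.ξ e (ω.2 l))))) := by
    intro j
    unfold SiteD.ee tv
    rw [← elim_mul j.2 (fun l => G (l + 1)) (fun l e => kap q * S.ξ e (ω.2 l))]
    ring
  rw [sum_congr rfl fun j _ => h3 j, ← mul_sum, h1]
  have h4 : ∀ m, a m * S.xrow G m ω = (S.wt ω ^ (1 / q) * mq q ^ (-(1 / q)) * (C.σ ^ N)⁻¹) *
      ((∑ i, G 0 i * S.ξ i ω.1) * (a m * ∑ A ∈ powersetCard m (univ : Finset (Fin N)),
        ∏ l ∈ A, kap q * S.lin (G (l + 1)) (ω.2 l))) := by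
    intro m
    unfold SiteD.xrow
    show _ = (S.wt ω ^ (1 / q) * mq q ^ (-(1 / q)) * (C.σ ^ N)⁻¹) *
      (S.lin (G 0) ω.1 * (a m * ∑ A ∈ powersetCard m (univ : Finset (Fin N)),
        ∏ l ∈ A, kap q * S.lin (G (l + 1)) (ω.2 l)))
    ring
  rw [sum_congr rfl fun m _ => h4 m, ← mul_sum, ← mul_sum]

private theorem coeff_sq (hEx : S_Ex) (G : ℕ → Fin d → ℝ) (hG : UG G) (a : ℕ → ℝ) :
    ∑ j : Fin d × (Fin N → Option (Fin d)), (a (nz j.2) * tv G j) ^ 2 =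
      ∑ m ∈ range (N + 1), (N.choose m : ℝ) * a m ^ 2 := by
  have h1 := hEx d N (range (N + 1)) (fun m => a m ^ 2) (fun i => G 0 i ^ 2)
    (fun l e => G (l + 1) e ^ 2)
  rw [sum_Bx (fun j => a (nz j.2) ^ 2 * (G 0 j.1 ^ 2 * ∏ l, (j.2 l).elim 1
    (fun e => G (l + 1) e ^ 2)))] at h1
  have h2 : ∀ j : Fin d × (Fin N → Option (Fin d)), (a (nz j.2) * tv G j) ^ 2 =
      a (nz j.2) ^ 2 * (G 0 j.1 ^ 2 * ∏ l, (j.2 l).elim 1 (fun e => G (l + 1) e ^ 2)) := by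
    intro j
    unfold tv
    rw [mul_pow, mul_pow, elim_sq j.2 (fun l => G (l + 1))]
  rw [sum_congr rfl fun j _ => h2 j, h1, hG 0, one_mul]
  refine sum_congr rfl fun m _ => ?_
  have h3 : ∀ l : Fin N, ∑ e, G (l + 1) e ^ 2 = 1 := fun l => hG _
  simp only [h3, prod_const_one, sum_const, card_powersetCard, card_univ, Fintype.card_fin,
    nsmul_eq_mul, mul_one]
  ring

/-- the complex generating function -/
private theorem xc_eq (G : ℕ → Fin d → ℝ) (z : ℂ) (ω : S.Om) :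
    Xc N (S.xrow G) z ω =
      ((S.wt ω ^ (1 / q) * mq q ^ (-(1 / q)) * S.lin (G 0) ω.1 * (C.σ ^ N)⁻¹ : ℝ) : ℂ) *
      ∏ l : Fin N, (Complex.sin z * ((kap q * S.lin (G (l + 1)) (ω.2 l) : ℝ) : ℂ) +
        Complex.cos z) := by
  rw [prod_add, sum_powerset, card_univ, Fintype.card_fin, mul_sum]
  unfold Xc
  refine sum_congr rfl fun m _ => ?_
  unfold SiteD.xrow
  have h1 : ∀ t ∈ powersetCard m (univ : Finset (Fin N)),
      (∏ l ∈ t, Complex.sin z * ((kap q * S.lin (G (l + 1)) (ω.2 l) : ℝ) : ℂ)) *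
        ∏ l ∈ univ \ t, Complex.cos z = Complex.cos z ^ (N - m) * Complex.sin z ^ m *
        ((∏ l ∈ t, kap q * S.lin (G (l + 1)) (ω.2 l) : ℝ) : ℂ) := by
    intro t ht
    have h2 := mem_powersetCard.1 ht
    rw [prod_mul_distrib, prod_const, prod_const, h2.2, card_univ_sdiff, Fintype.card_fin, h2.2]
    push_cast
    ring
  rw [sum_congr rfl h1, ← mul_sum]
  push_cast
  ring

private theorem norm_xc (hMom : S_Mom) (hq : 2 < q) (G : ℕ → Fin d → ℝ) (z : ℂ) (ω : S.Om) :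
    ‖Xc N (S.xrow G) z ω‖ ^ q = (S.P ω.1 * |S.lin (G 0) ω.1| ^ q * (mq q)⁻¹) *
      ∏ l : Fin N, (S.P (ω.2 l) * ‖Complex.cos z + ((kap q : ℝ) : ℂ) * Complex.sin z *
        ((S.lin (G (l + 1)) (ω.2 l) : ℝ) : ℂ)‖ ^ q * (C.σ ^ q)⁻¹) := by
  have hq0 : q ≠ 0 := by linarith
  have hmq : 0 < mq q := hMom.1 q (by linarith)
  have hσ : 0 < C.σ := C.σ_pos
  rw [xc_eq, norm_mul, norm_prod, Real.mul_rpow (norm_nonneg _) (prod_nonneg fun _ _ =>
    norm_nonneg _), ← Real.finsetProd_rpow _ _ (fun _ _ => norm_nonneg _)]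
  have h1 : ‖((S.wt ω ^ (1 / q) * mq q ^ (-(1 / q)) * S.lin (G 0) ω.1 * (C.σ ^ N)⁻¹ : ℝ) : ℂ)‖ ^ q =
      S.wt ω * (mq q)⁻¹ * |S.lin (G 0) ω.1| ^ q * ((C.σ ^ q)⁻¹) ^ N := by
    rw [Complex.norm_real, Real.norm_eq_abs, abs_mul, abs_mul, abs_mul,
      abs_of_nonneg (Real.rpow_nonneg (wtn S ω) _), abs_of_nonneg (Real.rpow_nonneg hmq.le _),
      abs_of_nonneg (inv_nonneg.2 (pow_nonneg hσ.le N)),
      Real.mul_rpow (mul_nonneg (mul_nonneg (Real.rpow_nonneg (wtn S ω) _)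
        (Real.rpow_nonneg hmq.le _)) (abs_nonneg _)) (inv_nonneg.2 (pow_nonneg hσ.le N)),
      Real.mul_rpow (mul_nonneg (Real.rpow_nonneg (wtn S ω) _)
        (Real.rpow_nonneg hmq.le _)) (abs_nonneg _),
      Real.mul_rpow (Real.rpow_nonneg (wtn S ω) _) (Real.rpow_nonneg hmq.le _),
      ← Real.rpow_mul (wtn S ω), ← Real.rpow_mul hmq.le]
    have h2 : 1 / q * q = 1 := by field_simp
    have h3 : -(1 / q) * q = -1 := by field_simp
    rw [h2, h3, Real.rpow_one, Real.rpow_neg_one]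
    congr 1
    rw [Real.inv_rpow (pow_nonneg hσ.le N), inv_pow]
    congr 1
    rw [← Real.rpow_natCast, ← Real.rpow_natCast, ← Real.rpow_mul hσ.le, ← Real.rpow_mul hσ.le,
      mul_comm]
  rw [h1]
  unfold SiteD.wt
  have h4 : ∀ l : Fin N, ‖Complex.sin z * ((kap q * S.lin (G (l + 1)) (ω.2 l) : ℝ) : ℂ) +
      Complex.cos z‖ = ‖Complex.cos z + ((kap q : ℝ) : ℂ) * Complex.sin z *
        ((S.lin (G (l + 1)) (ω.2 l) : ℝ) : ℂ)‖ := by
    intro l
    congr 1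
    push_cast
    ring
  simp only [h4]
  rw [prod_mul_distrib, prod_mul_distrib, prod_const, card_univ, Fintype.card_fin]
  ring

end ModAux

open ModAux in
theorem pMod (hMom : S_Mom) (hEe : S_Ee) (hEx : S_Ex) : S_Mod := by
  intro q hq C N r Pi d S G hG
  have hmq : 0 < mq q := hMom.1 q (by linarith)
  have hσ : 0 < C.σ := C.σ_pos
  have hσq : 0 < C.σ ^ q := Real.rpow_pos_of_pos hσ q
  refine ⟨fun z => ?_, fun a => ?_⟩
  · rw [sum_congr rfl fun ω _ => norm_xc S hMom hq G z ω]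
    have h0 := prodsum (N := N) (fun k : Fin S.K => S.P k * |S.lin (G 0) k| ^ q * (mq q)⁻¹)
      (fun l (k : Fin S.K) => S.P k * ‖Complex.cos z + ((kap q : ℝ) : ℂ) * Complex.sin z *
        ((S.lin (G (l + 1)) k : ℝ) : ℂ)‖ ^ q * (C.σ ^ q)⁻¹)
    have h0' : ∑ ω : S.Om, (S.P ω.1 * |S.lin (G 0) ω.1| ^ q * (mq q)⁻¹) *
      ∏ l : Fin N, (S.P (ω.2 l) * ‖Complex.cos z + ((kap q : ℝ) : ℂ) * Complex.sin z *
        ((S.lin (G (l + 1)) (ω.2 l) : ℝ) : ℂ)‖ ^ q * (C.σ ^ q)⁻¹) = _ := h0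
    rw [h0']
    have h1 : ∑ k : Fin S.K, S.P k * |S.lin (G 0) k| ^ q * (mq q)⁻¹ ≤ 1 := by
      rw [← sum_mul, ← div_eq_mul_inv, div_le_one hmq]
      have h2 := S.dom 0 1 (G 0) (hG 0)
      simp only [zero_add, one_mul] at h2
      have h3 : ∀ x : ℝ, ‖(x : ℂ)‖ = |x| := fun x => by
        rw [Complex.norm_real, Real.norm_eq_abs]
      simp only [h3] at h2
      exact h2
    have h1' : 0 ≤ ∑ k : Fin S.K, S.P k * |S.lin (G 0) k| ^ q * (mq q)⁻¹ :=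
      sum_nonneg fun k _ => mul_nonneg (mul_nonneg (S.P_nonneg k)
        (Real.rpow_nonneg (abs_nonneg _) _)) (inv_nonneg.2 hmq.le)
    have h4 : ∀ l : Fin N, ∑ k : Fin S.K, S.P k * ‖Complex.cos z + ((kap q : ℝ) : ℂ) *
        Complex.sin z * ((S.lin (G (l + 1)) k : ℝ) : ℂ)‖ ^ q * (C.σ ^ q)⁻¹ ≤
        MC (kap q) q z / C.σ ^ q := by
      intro l
      rw [← sum_mul, ← div_eq_mul_inv]
      exact div_le_div_of_nonneg_right (S.dom (Complex.cos z)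
        (((kap q : ℝ) : ℂ) * Complex.sin z) (G (l + 1)) (hG _)) hσq.le
    have h4' : ∀ l : Fin N, 0 ≤ ∑ k : Fin S.K, S.P k * ‖Complex.cos z + ((kap q : ℝ) : ℂ) *
        Complex.sin z * ((S.lin (G (l + 1)) k : ℝ) : ℂ)‖ ^ q * (C.σ ^ q)⁻¹ := fun l =>
      sum_nonneg fun k _ => mul_nonneg (mul_nonneg (S.P_nonneg k)
        (Real.rpow_nonneg (norm_nonneg _) _)) (inv_nonneg.2 hσq.le)
    have h5 : ∏ l : Fin N, ∑ k : Fin S.K, S.P k * ‖Complex.cos z + ((kap q : ℝ) : ℂ) *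
        Complex.sin z * ((S.lin (G (l + 1)) k : ℝ) : ℂ)‖ ^ q * (C.σ ^ q)⁻¹ ≤
        (MC (kap q) q z / C.σ ^ q) ^ N := by
      refine (prod_le_prod (fun l _ => h4' l) fun l _ => h4 l).trans ?_
      rw [prod_const, card_univ, Fintype.card_fin]
    have h6 : 0 ≤ ∏ l : Fin N, ∑ k : Fin S.K, S.P k * ‖Complex.cos z + ((kap q : ℝ) : ℂ) *
        Complex.sin z * ((S.lin (G (l + 1)) k : ℝ) : ℂ)‖ ^ q * (C.σ ^ q)⁻¹ :=
      prod_nonneg fun l _ => h4' l
    calc _ ≤ 1 * (MC (kap q) q z / C.σ ^ q) ^ N := mul_le_mul h1 h5 h6 zero_le_one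
      _ = _ := one_mul _
  · have h1 := hEe q hq C N r Pi d S (fun j => a (nz j.2) * tv G j)
    rw [coeff_sq hEx G hG a] at h1
    simp only [comb S hEx G a]
    exact h1

end Pool.Agent.Lib.MP_537232_an.NM
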