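import Pool.Agent.Lib.MP_537232_an.NM.SpecA

set_option autoImplicit false

/-!
# MP_537232_an, NM, Mom: Gaussian moments
-/

namespace Pool.Agent.Lib.MP_537232_an.NM

open MeasureTheory ProbabilityTheory Finset Filter Topology

namespace Mom

theorem mq_eq (r : ℝ) (hr : 0 ≤ r) :
    mq r = (Real.sqrt (2 * Real.pi))⁻¹ * ((1 / 2 : ℝ) ^ (-(r + 1) / 2) * Real.Gamma ((r + 1) / 2)) := by
  unfold mq gam
  rw [integral_gaussianReal_eq_integral_smul (one_ne_zero)]
  obtain ⟨f, hf⟩ : ∃ f : ℝ → ℝ, f = fun y : ℝ =>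
      (Real.sqrt (2 * Real.pi))⁻¹ * (y ^ r * Real.exp (-(1 / 2) * y ^ (2 : ℝ))) := ⟨_, rfl⟩
  have h1 : ∀ x : ℝ, gaussianPDFReal 0 1 x • |x| ^ r = f |x| := by
    intro x
    rw [hf]
    simp only [gaussianPDFReal, smul_eq_mul, NNReal.coe_one, mul_one, sub_zero]
    have h2 : |x| ^ (2 : ℝ) = x ^ 2 := by
      rw [Real.rpow_two, sq_abs]
    rw [h2]
    have h3 : -x ^ 2 / 2 = -(1 / 2) * x ^ 2 := by ring
    rw [h3]
    ring
  simp only [h1]
  rw [integral_comp_abs, hf]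
  rw [integral_const_mul, integral_rpow_mul_exp_neg_mul_rpow (by norm_num) (by linarith) (by norm_num)]
  ring

end Mom

theorem wMom : S_Mom := by
  have hrec : ∀ q : ℝ, 2 ≤ q → mq q = (q - 1) * mq (q - 2) := by
    intro q hq
    rw [Mom.mq_eq q (by linarith), Mom.mq_eq (q - 2) (by linarith)]
    have h1 : (q + 1) / 2 = (q - 2 + 1) / 2 + 1 := by ring
    have h2 : (q - 2 + 1) / 2 ≠ 0 := by
      have : 0 < (q - 2 + 1) / 2 := by linarith
      exact this.ne'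
    have h3 : (1 / 2 : ℝ) ^ (-(q + 1) / 2) = (1 / 2 : ℝ) ^ (-(q - 2 + 1) / 2) * 2 := by
      have h4 : -(q + 1) / 2 = -(q - 2 + 1) / 2 + (-1) := by ring
      rw [h4, Real.rpow_add (by norm_num), Real.rpow_neg_one]
      norm_num
    rw [h1, Real.Gamma_add_one h2, h3]
    ring
  refine ⟨fun r hr => ?_, ?_, fun q hq => hrec q hq.le⟩
  · rw [Mom.mq_eq r hr]
    have h1 : 0 < Real.Gamma ((r + 1) / 2) := Real.Gamma_pos_of_pos (by linarith)
    have h2 : 0 < (1 / 2 : ℝ) ^ (-(r + 1) / 2) := Real.rpow_pos_of_pos (by norm_num) _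
    have h3 : 0 < Real.sqrt (2 * Real.pi) := Real.sqrt_pos.2 (by positivity)
    positivity
  · rw [hrec 2 le_rfl]
    have : mq (2 - 2) = 1 := by
      unfold mq
      simp
    rw [this]
    norm_num

end Pool.Agent.Lib.MP_537232_an.NM
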