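import Pool.Agent.Lib.MP_537232_an.NM.SpecJ

set_option autoImplicit false

/-!
# MP_537232_an, directory NM: proof of `Mul`
-/

namespace Pool.Agent.Lib.MP_537232_an.NM

private theorem cz_le (c z : ℝ) (hc : |c| ≤ 1) : |c * z| ≤ |z| := by
  rw [abs_mul]
  calc |c| * |z| ≤ 1 * |z| := mul_le_mul_of_nonneg_right hc (abs_nonneg _)
    _ = |z| := one_mul _

theorem wMul : S_Mul := by
  intro v
  refine ⟨fun c hc z => ?_, fun c hc z => ?_⟩
  · obtain ⟨z', hz'⟩ := W_exists v (f := fun ν => c ν * z.1 ν.1 ν.2) (C := ‖z.1‖) (fun ν =>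
      (cz_le _ _ (hc ν)).trans (W_coord_le v z.1 ν))
    refine ⟨⟨z', (mem_V_iff v).2 fun ε hε => ?_⟩, hz'⟩
    refine ((mem_V_iff v).1 z.2 ε hε).subset ?_
    intro ν hν
    simp only [Set.mem_ofPred_eq, hz'] at hν ⊢
    exact hν.trans (cz_le _ _ (hc ν))
  · obtain ⟨z', hz'⟩ := W_exists v (f := fun ν => c ν * z ν.1 ν.2) (C := ‖z‖) (fun ν =>
      (cz_le _ _ (hc ν)).trans (W_coord_le v z ν))
    exact ⟨z', hz'⟩

end Pool.Agent.Lib.MP_537232_an.NM
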