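import Pool.Agent.Lib.MP_537232_an.NM.SpecS

set_option autoImplicit false

/-!
# MP_537232_an, directory NM: proof of `Nu`
-/

namespace Pool.Agent.Lib.MP_537232_an.NM

theorem wNu : S_Nu := by
  intro N k r Bq X
  refine ⟨⌈|X|⌉₊ * 2 ^ (r * N) + Bq * 2 ^ N + 2, by omega, fun d hd => ?_⟩
  have hd1 : 1 ≤ d := by omega
  have hpos : 0 < d := by omega
  refine ⟨?_, ?_⟩
  · have h1 : ⌈|X|⌉₊ * (d * (1 + d) ^ (r * N)) ≤ d ^ (r * N + k + 3) := by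
      have ha : (1 + d) ^ (r * N) ≤ (2 * d) ^ (r * N) := Nat.pow_le_pow_left (by omega) _
      have hb : ⌈|X|⌉₊ * 2 ^ (r * N) ≤ d := by
        have : ⌈|X|⌉₊ * 2 ^ (r * N) ≤ ⌈|X|⌉₊ * 2 ^ (r * N) + Bq * 2 ^ N + 2 := by omega
        exact this.trans hd
      calc ⌈|X|⌉₊ * (d * (1 + d) ^ (r * N)) ≤ ⌈|X|⌉₊ * (d * (2 * d) ^ (r * N)) := by gcongr
        _ = (⌈|X|⌉₊ * 2 ^ (r * N)) * d ^ (r * N + 1) := by rw [mul_pow]; ring
        _ ≤ d * d ^ (r * N + 1) := by gcongr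
        _ = d ^ (r * N + 2) := by ring
        _ ≤ d ^ (r * N + k + 3) := Nat.pow_le_pow_right hpos (by omega)
    have h2 : X ≤ (⌈|X|⌉₊ : ℝ) := (le_abs_self X).trans (Nat.le_ceil _)
    calc X * ((d * (1 + d) ^ (r * N) : ℕ) : ℝ)
        ≤ (⌈|X|⌉₊ : ℝ) * ((d * (1 + d) ^ (r * N) : ℕ) : ℝ) :=
          mul_le_mul_of_nonneg_right h2 (Nat.cast_nonneg _)
      _ = ((⌈|X|⌉₊ * (d * (1 + d) ^ (r * N)) : ℕ) : ℝ) := by push_cast; ring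
      _ ≤ ((d ^ (r * N + k + 3) : ℕ) : ℝ) := by exact_mod_cast h1
  · have hb : Bq * 2 ^ N < d := by
      have : Bq * 2 ^ N < ⌈|X|⌉₊ * 2 ^ (r * N) + Bq * 2 ^ N + 2 := by omega
      exact lt_of_lt_of_le this hd
    calc Bq * (2 ^ N * d ^ (k + 1)) = (Bq * 2 ^ N) * d ^ (k + 1) := by ring
      _ < d * d ^ (k + 1) := Nat.mul_lt_mul_of_pos_right hb (pow_pos hpos _)
      _ = d ^ (k + 2) := by ring
      _ ≤ d ^ (r * N + k + 3) := Nat.pow_le_pow_right hpos (by omega)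

end Pool.Agent.Lib.MP_537232_an.NM
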