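import Pool.Agent.Lib.MP_537232_an.NM.SpecG

set_option autoImplicit false

/-!
# MP_537232_an, NM/Num: numerical facts (helper82)
-/

namespace Pool.Agent.Lib.MP_537232_an.NM

open Finset Filter

namespace Num

theorem sqrt_le_one_add {r : ℝ} (hr : 0 ≤ r) : Real.sqrt r ≤ 1 + r := by
  rw [Real.sqrt_le_left (by linarith)]
  nlinarith

theorem dl_le (β L d : ℝ) (h : 0 ≤ 6 * β * L / d) : dl β L d ≤ 1 + 6 * β * L / d := by
  unfold dl
  exact max_le (sqrt_le_one_add h) (by linarith)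

theorem part1 (β L d : ℝ) (hβ : 0 < β) (hL : 0 < L) (hd : 0 < d) : 0 < dl β L d ∧
    2 * β * (1 + 2 * dl β L d) * L ≤ dl β L d ^ 2 * d := by
  obtain ⟨r, hr⟩ : ∃ r : ℝ, r = 6 * β * L / d := ⟨_, rfl⟩
  have hr0 : 0 < r := by
    rw [hr]
    positivity
  have hdl : dl β L d = max (Real.sqrt r) r := by
    rw [hr]
    rfl
  have hrd : 2 * β * L = r * d / 3 := by
    rw [hr]
    field_simp
    ring
  have hpos : 0 < dl β L d := by
    rw [hdl]
    exact lt_max_of_lt_right hr0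
  refine ⟨hpos, ?_⟩
  have key : r / 3 * (1 + 2 * dl β L d) ≤ dl β L d ^ 2 := by
    rcases le_or_gt 1 r with h1 | h1
    · have h2 : Real.sqrt r ≤ r := by
        rw [Real.sqrt_le_left hr0.le]
        nlinarith
      rw [hdl, max_eq_right h2]
      nlinarith
    · have h2 : r ≤ Real.sqrt r := by
        apply Real.le_sqrt_of_sq_le
        nlinarith
      have h3 : Real.sqrt r ≤ 1 := by
        rw [Real.sqrt_le_left zero_le_one]
        linarith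
      rw [hdl, max_eq_left h2, Real.sq_sqrt hr0.le]
      nlinarith
  calc 2 * β * (1 + 2 * dl β L d) * L = (2 * β * L) * (1 + 2 * dl β L d) := by ring
    _ = (r / 3 * (1 + 2 * dl β L d)) * d := by
        rw [hrd]
        ring
    _ ≤ dl β L d ^ 2 * d := mul_le_mul_of_nonneg_right key hd.le

theorem bt_nonneg {M L d s : ℝ} (hM : 0 ≤ M) (hs : 0 ≤ s) : ∀ i, 0 ≤ bt M L d s i
  | 0 => hs
  | i + 1 => by
    show 0 ≤ 1 + M * dl (bt M L d s i) L d
    have h1 : 0 ≤ dl (bt M L d s i) L d := le_max_of_le_left (Real.sqrt_nonneg _)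
    positivity

theorem bt_le {M L d s : ℝ} (hM : 1 ≤ M) (hL : 0 ≤ L) (hd : 0 < d) (hs : 0 ≤ s)
    (hX : 6 * L * M / d ≤ 1 / 2) : ∀ i, bt M L d s i ≤ 4 * M + s * (6 * L * M / d) ^ i
  | 0 => by
    show s ≤ 4 * M + s * (6 * L * M / d) ^ 0
    rw [pow_zero]
    linarith
  | i + 1 => by
    have ih := bt_le hM hL hd hs hX i
    have h0 := bt_nonneg (L := L) (d := d) (by linarith : (0 : ℝ) ≤ M) hs i
    have hX0 : 0 ≤ 6 * L * M / d := by positivity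
    show 1 + M * dl (bt M L d s i) L d ≤ _
    have h1 := dl_le (bt M L d s i) L d (by positivity)
    have h2 : M * dl (bt M L d s i) L d ≤ M + (6 * L * M / d) * bt M L d s i := by
      refine (mul_le_mul_of_nonneg_left h1 (by linarith)).trans (le_of_eq ?_)
      ring
    have h3 : (6 * L * M / d) * bt M L d s i ≤
        (6 * L * M / d) * (4 * M + s * (6 * L * M / d) ^ i) := mul_le_mul_of_nonneg_left ih hX0
    have h4 : (6 * L * M / d) * (4 * M + s * (6 * L * M / d) ^ i) =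
        (6 * L * M / d) * (4 * M) + s * (6 * L * M / d) ^ (i + 1) := by
      rw [pow_succ]
      ring
    have h5 : (6 * L * M / d) * (4 * M) ≤ 1 / 2 * (4 * M) :=
      mul_le_mul_of_nonneg_right hX (by linarith)
    linarith

theorem ev (n : ℕ) (c : ℝ) (hc : 0 < c) : ∀ᶠ d : ℕ in atTop, (1 + Real.log d) ^ n ≤ c * d := by
  have h1 := (Real.isLittleO_pow_log_id_atTop (n := n)).def (div_pos hc (Real.exp_pos 1))
  have t : Tendsto (fun d : ℕ => Real.exp 1 * (d : ℝ)) atTop atTop :=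
    tendsto_natCast_atTop_atTop.const_mul_atTop (Real.exp_pos 1)
  filter_upwards [t.eventually h1, eventually_ge_atTop 1] with d hd hd1
  have hd0 : (0 : ℝ) < d := by exact_mod_cast hd1
  have h2 : Real.log (Real.exp 1 * d) = 1 + Real.log d := by
    rw [Real.log_mul (Real.exp_pos 1).ne' hd0.ne', Real.log_exp]
  rw [h2] at hd
  refine (le_abs_self _).trans ?_
  rw [Real.norm_eq_abs, Real.norm_eq_abs] at hd
  refine hd.trans (le_of_eq ?_)
  show c / Real.exp 1 * |Real.exp 1 * (d : ℝ)| = c * d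
  have h3 := Real.exp_pos 1
  rw [abs_of_pos (by positivity)]
  field_simp

/-- the constant for `L` -/
theorem L_up (N Ci d : ℕ) (hd1 : 1 ≤ d) : ∃ x : ℝ,
    x = Real.log (16 * ((2 : ℝ) ^ (N + 1) + 1) * ((d : ℝ) ^ Ci) ^ 2) ∧ 0 ≤ x ∧
      x ≤ (Real.log (16 * ((2 : ℝ) ^ (N + 1) + 1)) + 2 * Ci) * (1 + Real.log d) := by
  refine ⟨_, rfl, ?_, ?_⟩
  · refine Real.log_nonneg ?_
    have hdr1 : (1 : ℝ) ≤ d := by exact_mod_cast hd1
    have e1 : (1 : ℝ) ≤ ((d : ℝ) ^ Ci) ^ 2 := one_le_pow₀ (one_le_pow₀ hdr1)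
    have e2 : (0 : ℝ) < 2 ^ (N + 1) := by positivity
    nlinarith
  · have hdr : (0 : ℝ) < d := by exact_mod_cast hd1
    have hdr1 : (1 : ℝ) ≤ d := by exact_mod_cast hd1
    have hlogd : 0 ≤ Real.log d := Real.log_nonneg hdr1
    have hlog16 : 0 ≤ Real.log (16 * ((2 : ℝ) ^ (N + 1) + 1)) := by
      refine Real.log_nonneg ?_
      have : (0 : ℝ) < 2 ^ (N + 1) := by positivity
      linarith
    have hCi0 : (0 : ℝ) ≤ Ci := Nat.cast_nonneg _
    have e1 : Real.log (16 * ((2 : ℝ) ^ (N + 1) + 1) * ((d : ℝ) ^ Ci) ^ 2) =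
        Real.log (16 * ((2 : ℝ) ^ (N + 1) + 1)) + 2 * Ci * Real.log d := by
      rw [Real.log_mul (by positivity) (by positivity), Real.log_pow, Real.log_pow]
      push_cast
      ring
    rw [e1]
    have e2 : 0 ≤ Real.log (16 * ((2 : ℝ) ^ (N + 1) + 1)) * Real.log d := mul_nonneg hlog16 hlogd
    linarith

/-- the constant for `M` -/
theorem M_up (Cs k d : ℕ) (hCs : 1 ≤ Cs) (hd1 : 1 ≤ d) :
    8 * (Nat.log 2 (Cs * d ^ (k + 1)) : ℝ) + 20 ≤
      (20 + 8 / Real.log 2 * (Real.log Cs + (k + 1))) * (1 + Real.log d) := by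
  have hl2 : 0 < Real.log 2 := Real.log_pos one_lt_two
  have hCs0 : (0 : ℝ) < Cs := by exact_mod_cast hCs
  have hCs1 : (1 : ℝ) ≤ Cs := by exact_mod_cast hCs
  have hlogCs : 0 ≤ Real.log Cs := Real.log_nonneg hCs1
  have hdr : (0 : ℝ) < d := by exact_mod_cast hd1
  have hdr1 : (1 : ℝ) ≤ d := by exact_mod_cast hd1
  have hlogd : 0 ≤ Real.log d := Real.log_nonneg hdr1
  have e0 : 0 < Cs * d ^ (k + 1) := Nat.mul_pos hCs (pow_pos hd1 _)
  have e1 : 2 ^ Nat.log 2 (Cs * d ^ (k + 1)) ≤ Cs * d ^ (k + 1) :=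
    Nat.pow_log_le_self 2 e0.ne'
  have e2 : (Nat.log 2 (Cs * d ^ (k + 1)) : ℝ) * Real.log 2 ≤
      Real.log Cs + (k + 1) * Real.log d := by
    rw [← Real.log_pow]
    have e3 : ((2 : ℝ) ^ Nat.log 2 (Cs * d ^ (k + 1))) ≤ Cs * (d : ℝ) ^ (k + 1) := by
      exact_mod_cast e1
    refine (Real.log_le_log (by positivity) e3).trans (le_of_eq ?_)
    rw [Real.log_mul (by positivity) (by positivity), Real.log_pow]
    push_cast
    ring
  have e3 : (Nat.log 2 (Cs * d ^ (k + 1)) : ℝ) ≤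
      (Real.log Cs + (k + 1) * Real.log d) / Real.log 2 := by
    rw [le_div_iff₀ hl2]
    exact e2
  have e4 : (Real.log Cs + (k + 1) * Real.log d) ≤
      (Real.log Cs + (k + 1)) * (1 + Real.log d) := by
    have e5 : 0 ≤ Real.log Cs * Real.log d := mul_nonneg hlogCs hlogd
    have e6 : (0 : ℝ) ≤ k := Nat.cast_nonneg _
    linarith
  have e5 : 8 * (Nat.log 2 (Cs * d ^ (k + 1)) : ℝ) ≤
      8 / Real.log 2 * (Real.log Cs + (k + 1)) * (1 + Real.log d) := by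
    calc 8 * (Nat.log 2 (Cs * d ^ (k + 1)) : ℝ)
        ≤ 8 * ((Real.log Cs + (k + 1) * Real.log d) / Real.log 2) := by linarith
      _ = 8 / Real.log 2 * (Real.log Cs + (k + 1) * Real.log d) := by ring
      _ ≤ 8 / Real.log 2 * ((Real.log Cs + (k + 1)) * (1 + Real.log d)) :=
          mul_le_mul_of_nonneg_left e4 (by positivity)
      _ = _ := by ring
  linarith

/-- the final inequality -/
theorem fin {A B l L M d b : ℝ} {k : ℕ} (hA1 : 1 ≤ A) (hB1 : 1 ≤ B) (hl1 : 1 ≤ l) (hd : 0 < d)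
    (hM : 1 ≤ M) (hL : 0 ≤ L) (hMup : M ≤ A * l) (hLup : L ≤ A * l) (hb0 : 0 ≤ b)
    (hbup : b ≤ B * l ^ (2 * k + 2)) (h1 : 6 * A ^ 3 * B * l ^ (2 * k + 5) / d ≤ 1 / 4) :
    M * dl b L d ≤ 1 / 2 := by
  have hM0 : 0 ≤ M := by linarith
  obtain ⟨r, hr⟩ : ∃ r : ℝ, r = 6 * b * L / d := ⟨_, rfl⟩
  have hr0 : 0 ≤ r := by
    rw [hr]
    positivity
  have hMr : M ^ 2 * r ≤ 1 / 4 := by
    have e1 : M ^ 2 ≤ A ^ 2 * l ^ 2 := by
      rw [← mul_pow]
      exact pow_le_pow_left₀ hM0 hMup 2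
    have e2 : b * L ≤ (B * l ^ (2 * k + 2)) * (A * l) :=
      mul_le_mul hbup hLup hL (by positivity)
    have e3 : M ^ 2 * (b * L) ≤ (A ^ 2 * l ^ 2) * ((B * l ^ (2 * k + 2)) * (A * l)) :=
      mul_le_mul e1 e2 (by positivity) (by positivity)
    have e4 : 6 * (M ^ 2 * (b * L)) ≤ 6 * A ^ 3 * B * l ^ (2 * k + 5) := by
      refine (mul_le_mul_of_nonneg_left e3 (by norm_num)).trans (le_of_eq ?_)
      have e5 : l ^ (2 * k + 5) = l ^ 2 * (l ^ (2 * k + 2) * l) := by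
        rw [← pow_succ, ← pow_add]
        congr 1
        ring
      rw [e5]
      ring
    have e5 : M ^ 2 * r = 6 * (M ^ 2 * (b * L)) / d := by
      rw [hr]
      ring
    rw [e5]
    exact (div_le_div_of_nonneg_right e4 hd.le).trans h1
  have hdl : dl b L d = max (Real.sqrt r) r := by
    rw [hr]
    rfl
  rw [hdl]
  rcases le_total (Real.sqrt r) r with h3 | h3
  · rw [max_eq_right h3]
    have e1 : M * r ≤ M ^ 2 * r := by
      refine mul_le_mul_of_nonneg_right ?_ hr0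
      exact le_self_pow₀ hM two_ne_zero
    linarith
  · rw [max_eq_left h3]
    have e1 : (M * Real.sqrt r) ^ 2 ≤ (1 / 2) ^ 2 := by
      rw [mul_pow, Real.sq_sqrt hr0]
      norm_num
      linarith
    exact le_of_sq_le_sq e1 (by norm_num)

theorem hX {A B l L M d : ℝ} {k : ℕ} (hA1 : 1 ≤ A) (hB1 : 1 ≤ B) (hl1 : 1 ≤ l) (hd : 0 < d)
    (hLM : L * M ≤ (A * l) * (A * l)) (h1 : 6 * A ^ 3 * B * l ^ (2 * k + 5) / d ≤ 1 / 4) :
    6 * L * M / d ≤ 1 / 2 := by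
  have e1 : 6 * L * M ≤ 6 * A ^ 3 * B * l ^ (2 * k + 5) := by
    have e3 : l ^ 2 ≤ l ^ (2 * k + 5) := pow_le_pow_right₀ hl1 (by omega)
    have e5 : A ^ 2 ≤ A ^ 3 := pow_le_pow_right₀ hA1 (by norm_num)
    have e4 : A ^ 2 ≤ A ^ 3 * B := by
      have e6 : A ^ 3 * 1 ≤ A ^ 3 * B := mul_le_mul_of_nonneg_left hB1 (by positivity)
      linarith
    have e6 : A ^ 2 * l ^ 2 ≤ A ^ 3 * B * l ^ (2 * k + 5) :=
      mul_le_mul e4 e3 (by positivity) (by positivity)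
    have e7 : (A * l) * (A * l) = A ^ 2 * l ^ 2 := by ring
    rw [e7] at hLM
    linarith
  have e2 : 6 * L * M / d ≤ 6 * A ^ 3 * B * l ^ (2 * k + 5) / d :=
    div_le_div_of_nonneg_right e1 hd.le
  linarith

theorem b_up {A l L M d : ℝ} {k : ℕ} {Cs : ℝ} (hCs : 0 < Cs) (hA1 : 1 ≤ A) (hl1 : 1 ≤ l)
    (hd : 0 < d) (hM : 1 ≤ M) (hL : 0 ≤ L) (hMup : M ≤ A * l) (hLM : L * M ≤ (A * l) * (A * l))
    (hX : 6 * L * M / d ≤ 1 / 2) :
    bt M L d (Cs * d ^ (k + 1)) (k + 1) ≤ (4 * A + Cs * (6 * A * A) ^ (k + 1)) * l ^ (2 * k + 2) := by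
  have hM0 : 0 ≤ M := by linarith
  have e1 := Num.bt_le hM hL hd (by positivity : 0 ≤ Cs * d ^ (k + 1)) hX (k + 1)
  have e2 : (Cs * d ^ (k + 1)) * (6 * L * M / d) ^ (k + 1) = Cs * (6 * L * M) ^ (k + 1) := by
    rw [div_pow]
    field_simp
  rw [e2] at e1
  have e3 : (6 * L * M) ^ (k + 1) ≤ (6 * A * A) ^ (k + 1) * l ^ (2 * k + 2) := by
    have e4 : 6 * L * M ≤ 6 * A * A * l ^ 2 := by
      have e5 : 6 * L * M = 6 * (L * M) := by ring
      have e6 : 6 * A * A * l ^ 2 = 6 * ((A * l) * (A * l)) := by ring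
      rw [e5, e6]
      exact mul_le_mul_of_nonneg_left hLM (by norm_num)
    have e5 : (6 * L * M) ^ (k + 1) ≤ (6 * A * A * l ^ 2) ^ (k + 1) :=
      pow_le_pow_left₀ (by positivity) e4 _
    refine e5.trans (le_of_eq ?_)
    rw [mul_pow, ← pow_mul]
    congr 2
  have e4 : l ≤ l ^ (2 * k + 2) := le_self_pow₀ hl1 (by omega)
  have e5 : 4 * M ≤ 4 * A * l ^ (2 * k + 2) := by
    have e6 : A * l ≤ A * l ^ (2 * k + 2) := mul_le_mul_of_nonneg_left e4 (by linarith)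
    linarith
  have e6 : Cs * (6 * L * M) ^ (k + 1) ≤
      Cs * ((6 * A * A) ^ (k + 1) * l ^ (2 * k + 2)) := mul_le_mul_of_nonneg_left e3 hCs.le
  calc bt M L d (Cs * d ^ (k + 1)) (k + 1) ≤ 4 * M + Cs * (6 * L * M) ^ (k + 1) := e1
    _ ≤ 4 * A * l ^ (2 * k + 2) + Cs * ((6 * A * A) ^ (k + 1) * l ^ (2 * k + 2)) :=
        add_le_add e5 e6
    _ = (4 * A + Cs * (6 * A * A) ^ (k + 1)) * l ^ (2 * k + 2) := by ring

theorem dl2 {A l L d μ : ℝ} (hA1 : 1 ≤ A) (hd : 0 < d) (hμ : 0 < μ) (hLup : L ≤ A * l)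
    (h2 : l ≤ min μ (μ ^ 2) / (12 * A) * d) : dl 2 L d ≤ μ := by
  have hA0 : 0 < A := by linarith
  have e1 : 6 * 2 * L / d ≤ min μ (μ ^ 2) := by
    rw [div_le_iff₀ hd]
    have e2 : 12 * (A * l) ≤ 12 * (A * (min μ (μ ^ 2) / (12 * A) * d)) := by
      have := mul_le_mul_of_nonneg_left h2 hA0.le
      linarith
    have e3 : 12 * (A * (min μ (μ ^ 2) / (12 * A) * d)) = min μ (μ ^ 2) * d := by
      field_simp
    linarith
  unfold dl
  refine max_le ?_ (e1.trans (min_le_left _ _))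
  rw [Real.sqrt_le_left hμ.le]
  exact e1.trans (min_le_right _ _)

end Num

theorem wNum : S_Num := by
  refine ⟨fun β L d hβ hL hd => Num.part1 β L d hβ hL hd, ?_⟩
  intro N k Cs Ci μ hCs hμ
  have hl2 : 0 < Real.log 2 := Real.log_pos one_lt_two
  have hCs0 : (0 : ℝ) < Cs := by exact_mod_cast hCs
  have hCs1 : (1 : ℝ) ≤ Cs := by exact_mod_cast hCs
  -- the constants
  have hlog16 : 0 ≤ Real.log (16 * ((2 : ℝ) ^ (N + 1) + 1)) := by
    refine Real.log_nonneg ?_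
    have : (0 : ℝ) < 2 ^ (N + 1) := by positivity
    linarith
  have hlogCs : 0 ≤ Real.log Cs := Real.log_nonneg hCs1
  have hCi0 : (0 : ℝ) ≤ Ci := Nat.cast_nonneg _
  obtain ⟨A₁, hA₁⟩ : ∃ A₁ : ℝ, A₁ = Real.log (16 * ((2 : ℝ) ^ (N + 1) + 1)) + 2 * Ci := ⟨_, rfl⟩
  obtain ⟨A₂, hA₂⟩ : ∃ A₂ : ℝ, A₂ = 20 + 8 / Real.log 2 * (Real.log Cs + (k + 1)) := ⟨_, rfl⟩
  have hA₁0 : 0 ≤ A₁ := by
    rw [hA₁]
    linarith
  have hA₂0 : 1 ≤ A₂ := by
    have : 0 ≤ 8 / Real.log 2 * (Real.log Cs + (k + 1)) := by positivity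
    rw [hA₂]
    linarith
  obtain ⟨A, hA⟩ : ∃ A : ℝ, A = A₁ + A₂ := ⟨_, rfl⟩
  have hA1 : 1 ≤ A := by linarith
  obtain ⟨B, hB⟩ : ∃ B : ℝ, B = 4 * A + Cs * (6 * A * A) ^ (k + 1) := ⟨_, rfl⟩
  have hB1 : 1 ≤ B := by
    have : 0 ≤ (Cs : ℝ) * (6 * A * A) ^ (k + 1) := by positivity
    rw [hB]
    linarith
  have hK : 0 < 6 * A ^ 3 * B := by positivity
  have ev1 := Num.ev (2 * k + 5) (1 / 4 / (6 * A ^ 3 * B)) (by positivity)
  have ev2 := Num.ev 1 (min μ (μ ^ 2) / (12 * A)) (by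
    have : 0 < min μ (μ ^ 2) := lt_min hμ (by positivity)
    positivity)
  obtain ⟨d₀, hd₀⟩ := Filter.eventually_atTop.1 (ev1.and ev2)
  refine ⟨max d₀ 1, le_max_right _ _, ?_⟩
  intro d hd L M hL hM
  have hd1 : 1 ≤ d := (le_max_right _ _).trans hd
  obtain ⟨h1, h2⟩ := hd₀ d ((le_max_left _ _).trans hd)
  have hdr : (0 : ℝ) < d := by exact_mod_cast hd1
  have hdr1 : (1 : ℝ) ≤ d := by exact_mod_cast hd1
  have hLb : 0 ≤ L ∧ L ≤ A₁ * (1 + Real.log d) := by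
    obtain ⟨x, hx, hx0, hx1⟩ := Num.L_up N Ci d hd1
    rw [hL, ← hx, hA₁]
    exact ⟨hx0, hx1⟩
  have hMb : M ≤ A₂ * (1 + Real.log d) := by
    rw [hM, hA₂]
    exact Num.M_up Cs k d hCs hd1
  have hMlow : 1 ≤ M := by
    rw [hM]
    have : (0 : ℝ) ≤ (Nat.log 2 (Cs * d ^ (k + 1)) : ℝ) := Nat.cast_nonneg _
    linarith
  obtain ⟨l, hl⟩ : ∃ l : ℝ, l = 1 + Real.log d := ⟨_, rfl⟩
  rw [← hl] at h1 h2 hLb hMb
  have hlogd : 0 ≤ Real.log d := Real.log_nonneg hdr1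
  have hl1 : 1 ≤ l := by
    rw [hl]
    linarith
  have hl0 : 0 ≤ l := by linarith
  have hLup : L ≤ A * l :=
    hLb.2.trans (mul_le_mul_of_nonneg_right (by linarith) hl0)
  have hMup : M ≤ A * l := hMb.trans (mul_le_mul_of_nonneg_right (by linarith) hl0)
  have hM0 : 0 ≤ M := by linarith
  have hLM : L * M ≤ (A * l) * (A * l) := mul_le_mul hLup hMup hM0 (by positivity)
  have h1' : 6 * A ^ 3 * B * l ^ (2 * k + 5) / d ≤ 1 / 4 := by
    rw [div_le_iff₀ hdr]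
    have e1 := mul_le_mul_of_nonneg_left h1 hK.le
    refine e1.trans (le_of_eq ?_)
    field_simp
  have hX := Num.hX hA1 hB1 hl1 hdr hLM h1'
  have hcast : ((Cs * d ^ (k + 1) : ℕ) : ℝ) = (Cs : ℝ) * (d : ℝ) ^ (k + 1) := by
    push_cast
    rfl
  refine ⟨?_, ?_⟩
  · rw [hcast]
    refine Num.fin hA1 hB1 hl1 hdr hMlow hLb.1 hMup hLup
      (Num.bt_nonneg hM0 (by positivity) _) ?_ h1'
    rw [hB]
    exact Num.b_up hCs0 hA1 hl1 hdr hMlow hLb.1 hMup hLM hX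
  · rw [pow_one] at h2
    exact Num.dl2 hA1 hdr hμ hLup h2

end Pool.Agent.Lib.MP_537232_an.NM
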