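import Pool.Agent.Lib.MP_537232_an.NM.SpecG

set_option autoImplicit false

namespace Pool.Agent.Lib.MP_537232_an.NM

open Finset

namespace Odd

theorem sum_eta {v : ℕ} (t t' : Fin v) (h : t ≠ t') :
    ∑ η : Fin v → Bool, (if η t = true then (1 : ℝ) else 0) * (if η t' = false then 1 else 0) =
      2 ^ v / 4 := by
  have h1 : ∀ η : Fin v → Bool,
      (if η t = true then (1 : ℝ) else 0) * (if η t' = false then 1 else 0) =
      ∏ l, ((if l = t then (if η l = true then (1 : ℝ) else 0) else 1) *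
        (if l = t' then (if η l = false then (1 : ℝ) else 0) else 1)) := by
    intro η
    rw [Finset.prod_mul_distrib,
      Finset.prod_ite_eq' Finset.univ t (fun l => if η l = true then (1 : ℝ) else 0),
      if_pos (Finset.mem_univ t),
      Finset.prod_ite_eq' Finset.univ t' (fun l => if η l = false then (1 : ℝ) else 0),
      if_pos (Finset.mem_univ t')]
  rw [Finset.sum_congr rfl fun η _ => h1 η]
  have h2 := Finset.prod_univ_sum (fun _ : Fin v => (Finset.univ : Finset Bool))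
    (fun l b => (if l = t then (if b = true then (1 : ℝ) else 0) else 1) *
        (if l = t' then (if b = false then (1 : ℝ) else 0) else 1))
  rw [Fintype.piFinset_univ] at h2
  rw [← h2]
  have h3 : ∀ l : Fin v, ∑ b : Bool, (if l = t then (if b = true then (1 : ℝ) else 0) else 1) *
        (if l = t' then (if b = false then (1 : ℝ) else 0) else 1) =
      2 * (if l = t then 1 / 2 else 1) * (if l = t' then 1 / 2 else 1) := by
    intro l
    rw [Fintype.sum_bool]
    by_cases e1 : l = t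
    · have e2 : l ≠ t' := fun e => h (e1 ▸ e)
      simp [e1, h]
    · by_cases e2 : l = t'
      · simp [e2, Ne.symm h]
      · simp [e1, e2]; norm_num
  rw [Finset.prod_congr rfl fun l _ => h3 l, Finset.prod_mul_distrib, Finset.prod_mul_distrib,
    Finset.prod_ite_eq' Finset.univ t (fun _ => (1 / 2 : ℝ)), if_pos (Finset.mem_univ t),
    Finset.prod_ite_eq' Finset.univ t' (fun _ => (1 / 2 : ℝ)), if_pos (Finset.mem_univ t'),
    Finset.prod_const, Finset.card_univ, Fintype.card_fin]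
  ring

theorem quad {v : ℕ} (f : Fin v → Fin v → ℝ) (J : Finset (Fin v)) (M : ℝ)
    (hM : ∀ η : Fin v → Bool, ∑ t ∈ J.filter (fun t => η t = true),
      ∑ t' ∈ J.filter (fun t => η t = false), f t t' ≤ M) :
    ∑ t ∈ J, ∑ t' ∈ J, f t t' ≤ 4 * M + ∑ t ∈ J, f t t := by
  have h1 : ∑ η : Fin v → Bool, ∑ t ∈ J.filter (fun t => η t = true),
      ∑ t' ∈ J.filter (fun t => η t = false), f t t' =
      2 ^ v / 4 * (∑ t ∈ J, ∑ t' ∈ J, f t t' - ∑ t ∈ J, f t t) := by
    have e1 : ∀ η : Fin v → Bool, ∑ t ∈ J.filter (fun t => η t = true),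
        ∑ t' ∈ J.filter (fun t => η t = false), f t t' = ∑ t ∈ J, ∑ t' ∈ J,
          f t t' * ((if η t = true then (1 : ℝ) else 0) * (if η t' = false then 1 else 0)) := by
      intro η
      rw [Finset.sum_filter]
      refine Finset.sum_congr rfl fun t _ => ?_
      by_cases ht : η t = true
      · rw [if_pos ht, Finset.sum_filter]
        refine Finset.sum_congr rfl fun t' _ => ?_
        by_cases ht' : η t' = false
        · simp [ht, ht']
        · simp [ht']
      · rw [if_neg ht]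
        simp [ht]
    rw [Finset.sum_congr rfl fun η _ => e1 η, Finset.sum_comm, ← Finset.sum_sub_distrib,
      Finset.mul_sum]
    refine Finset.sum_congr rfl fun t ht => ?_
    rw [Finset.sum_comm]
    have e2 : ∀ t' ∈ J, ∑ η : Fin v → Bool,
        f t t' * ((if η t = true then (1 : ℝ) else 0) * (if η t' = false then 1 else 0)) =
        2 ^ v / 4 * (f t t' - if t' = t then f t t' else 0) := by
      intro t' _
      rw [← Finset.mul_sum]
      by_cases htt : t' = t
      · subst htt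
        rw [if_pos rfl, sub_self, mul_zero, Finset.sum_eq_zero, mul_zero]
        intro η _
        cases η t' <;> simp
      · rw [if_neg htt, sub_zero, sum_eta t t' (Ne.symm htt), mul_comm]
    rw [Finset.sum_congr rfl e2, ← Finset.mul_sum, Finset.sum_sub_distrib,
      Finset.sum_ite_eq' J t (fun t' => f t t'), if_pos ht]
  have h2 : ∑ η : Fin v → Bool, ∑ t ∈ J.filter (fun t => η t = true),
      ∑ t' ∈ J.filter (fun t => η t = false), f t t' ≤ 2 ^ v * M := by
    refine (Finset.sum_le_sum fun η _ => hM η).trans (le_of_eq ?_)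
    simp [Fintype.card_bool]
  rw [h1] at h2
  have h3 : (0 : ℝ) < 2 ^ v := by positivity
  have h4 : (∑ t ∈ J, ∑ t' ∈ J, f t t' - ∑ t ∈ J, f t t) / 4 ≤ M := by
    have : 2 ^ v * ((∑ t ∈ J, ∑ t' ∈ J, f t t' - ∑ t ∈ J, f t t) / 4) ≤ 2 ^ v * M := by
      rw [← mul_div_assoc, mul_comm_div] at *
      linarith
    exact le_of_mul_le_mul_left this h3
  linarith

/-- The deterministic part. -/
theorem det {v : ℕ} (Γ : Fin v → Fin v → ℝ) (s : ℕ) (δ : ℝ) (hδ : 0 < δ)
    (hs : ∀ t t', Γ t t' = Γ t' t) (hd : ∀ t, Γ t t = 1)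
    (hyp : ∀ (J J' : Finset (Fin v)) (τ : Fin v → ℝ), Disjoint J J' → J.card + J'.card ≤ s →
      1 ≤ J.card → J.card ≤ J'.card → (∀ t, τ t = 1 ∨ τ t = -1) →
      ∑ t ∈ J, ∑ t' ∈ J, τ t * τ t' * Γ t t' ≤ (1 + 2 * δ) * J.card →
      |∑ t ∈ J, ∑ t' ∈ J', τ t * τ t' * Γ t t'| ≤ δ * Real.sqrt (J.card * J'.card)) :
    OD Γ s δ := by
  have key : ∀ (n : ℕ), (∀ (J : Finset (Fin v)) (τ : Fin v → ℝ), J.card < n → J.card ≤ s →
      (∀ t, τ t = 1 ∨ τ t = -1) →
      ∑ t ∈ J, ∑ t' ∈ J, τ t * τ t' * Γ t t' ≤ (1 + 2 * δ) * J.card) →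
      ∀ (J J' : Finset (Fin v)) (τ : Fin v → ℝ), Disjoint J J' → J.card + J'.card ≤ s →
      (J.card < n ∨ J'.card = 0) → (J'.card < n ∨ J.card = 0) → (∀ t, τ t = 1 ∨ τ t = -1) →
      |∑ t ∈ J, ∑ t' ∈ J', τ t * τ t' * Γ t t'| ≤ δ * Real.sqrt (J.card * J'.card) := by
    intro n hn J J' τ hJ hc h1 h2 hτ
    rcases Nat.eq_zero_or_pos J.card with h0 | h0
    · rw [Finset.card_eq_zero.1 h0]; simp
    rcases Nat.eq_zero_or_pos J'.card with h0' | h0'
    · rw [Finset.card_eq_zero.1 h0']; simp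
    rcases le_total J.card J'.card with h | h
    · exact hyp J J' τ hJ hc h0 h hτ (hn J τ (h1.resolve_right h0'.ne') (by omega) hτ)
    · have h3 := hyp J' J τ hJ.symm (by omega) h0' h hτ
        (hn J' τ (h2.resolve_right h0.ne') (by omega) hτ)
      rw [Finset.sum_comm, mul_comm (J.card : ℝ)]
      refine le_trans (le_of_eq ?_) h3
      congr 1
      refine Finset.sum_congr rfl fun t _ => Finset.sum_congr rfl fun t' _ => ?_
      rw [hs t' t, mul_comm (τ t')]
  have main : ∀ (n : ℕ) (J : Finset (Fin v)) (τ : Fin v → ℝ), J.card < n → J.card ≤ s →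
      (∀ t, τ t = 1 ∨ τ t = -1) →
      ∑ t ∈ J, ∑ t' ∈ J, τ t * τ t' * Γ t t' ≤ (1 + 2 * δ) * J.card := by
    intro n
    induction n with
    | zero => intro J τ h; omega
    | succ n ih =>
      intro J τ hJ hJs hτ
      have h1 := quad (fun t t' => τ t * τ t' * Γ t t') J (δ * J.card / 2) fun η => ?_
      · refine h1.trans ?_
        have h2 : ∑ t ∈ J, τ t * τ t * Γ t t = J.card := by
          rw [Finset.sum_congr rfl fun t _ => ?_, Finset.sum_const, nsmul_eq_mul, mul_one]
          rw [hd]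
          rcases hτ t with h | h <;> rw [h] <;> norm_num
        rw [h2]
        linarith
      · set J₁ := J.filter (fun t => η t = true) with hJ₁
        set J₂ := J.filter (fun t => η t = false) with hJ₂
        have hdis : Disjoint J₁ J₂ := by
          rw [Finset.disjoint_left]
          intro t h1 h2
          rw [hJ₁, Finset.mem_filter] at h1
          rw [hJ₂, Finset.mem_filter] at h2
          rw [h1.2] at h2
          exact absurd h2.2 (by decide)
        have hun : J₁ ∪ J₂ = J := by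
          ext t
          rw [Finset.mem_union, hJ₁, hJ₂, Finset.mem_filter, Finset.mem_filter]
          cases η t <;> simp
        have hcard : J₁.card + J₂.card = J.card := by
          rw [← Finset.card_union_of_disjoint hdis, hun]
        have h2 := key n ih J₁ J₂ τ hdis (by omega) (by omega) (by omega) hτ
        refine (le_abs_self _).trans (h2.trans ?_)
        rw [mul_div_assoc]
        refine mul_le_mul_of_nonneg_left ?_ hδ.le
        rw [← hcard, Real.sqrt_le_left (by positivity)]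
        push_cast
        nlinarith [sq_nonneg ((J₁.card : ℝ) - J₂.card)]
  intro J J' τ hJ hc hτ
  exact key (v + 1) (main (v + 1)) J J' τ hJ hc
    (Or.inl (Nat.lt_succ_of_le ((Finset.card_le_univ _).trans_eq (Fintype.card_fin v))))
    (Or.inl (Nat.lt_succ_of_le ((Finset.card_le_univ _).trans_eq (Fintype.card_fin v)))) hτ

/-- the signs of a pair of signed sets -/
noncomputable def tau {v : ℕ} (A B : Finset (Fin v × Bool)) (t : Fin v) : ℝ :=
  if t ∈ A.image Prod.fst then (if (t, true) ∈ A then 1 else -1) else if (t, true) ∈ B then 1 else -1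

theorem tau_pm {v : ℕ} (A B : Finset (Fin v × Bool)) (t : Fin v) :
    tau A B t = 1 ∨ tau A B t = -1 := by
  unfold tau
  split_ifs <;> simp

/-- the signed set of a set with signs -/
noncomputable def mk {v : ℕ} (J : Finset (Fin v)) (τ : Fin v → ℝ) : Finset (Fin v × Bool) :=
  J.image fun t => (t, decide (τ t = 1))

theorem mk_fst {v : ℕ} (J : Finset (Fin v)) (τ : Fin v → ℝ) : (mk J τ).image Prod.fst = J := by
  rw [mk, Finset.image_image]
  exact Finset.image_id'

theorem mk_card {v : ℕ} (J : Finset (Fin v)) (τ : Fin v → ℝ) : (mk J τ).card = J.card :=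
  Finset.card_image_of_injOn fun _ _ _ _ h => (Prod.ext_iff.1 h).1

theorem mem_mk {v : ℕ} (J : Finset (Fin v)) (τ : Fin v → ℝ) (t : Fin v) (ht : t ∈ J) :
    (t, true) ∈ mk J τ ↔ τ t = 1 := by
  rw [mk, Finset.mem_image]
  constructor
  · rintro ⟨u, _, hu⟩
    have h1 : u = t := (Prod.ext_iff.1 hu).1
    have h2 : decide (τ u = 1) = true := (Prod.ext_iff.1 hu).2
    rw [h1] at h2
    exact of_decide_eq_true h2
  · intro h
    exact ⟨t, ht, by rw [decide_eq_true h]⟩

theorem tau_mk1 {v : ℕ} (J J' : Finset (Fin v)) (τ : Fin v → ℝ) (hτ : ∀ t, τ t = 1 ∨ τ t = -1)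
    (t : Fin v) (ht : t ∈ J) : tau (mk J τ) (mk J' τ) t = τ t := by
  rw [tau, mk_fst, if_pos ht]
  rcases hτ t with h | h
  · rw [if_pos ((mem_mk J τ t ht).2 h), h]
  · rw [if_neg, h]
    rw [mem_mk J τ t ht, h]
    norm_num

theorem tau_mk2 {v : ℕ} (J J' : Finset (Fin v)) (hJ : Disjoint J J') (τ : Fin v → ℝ)
    (hτ : ∀ t, τ t = 1 ∨ τ t = -1)
    (t : Fin v) (ht : t ∈ J') : tau (mk J τ) (mk J' τ) t = τ t := by
  rw [tau, mk_fst, if_neg (Finset.disjoint_right.1 hJ ht)]
  rcases hτ t with h | h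
  · rw [if_pos ((mem_mk J' τ t ht).2 h), h]
  · rw [if_neg, h]
    rw [mem_mk J' τ t ht, h]
    norm_num

/-- the weight of a nonempty set -/
noncomputable def wt {v : ℕ} (y : ℝ) (A : Finset (Fin v × Bool)) : ℝ :=
  if A = ∅ then 0 else y ^ A.card

theorem sum_wt {v : ℕ} (y : ℝ) : ∑ A : Finset (Fin v × Bool), wt y A = (y + 1) ^ (2 * v) - 1 := by
  have h := Fintype.sum_pow_mul_eq_add_pow (Fin v × Bool) y 1
  simp only [one_pow, mul_one] at h
  have hc : Fintype.card (Fin v × Bool) = 2 * v := by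
    rw [Fintype.card_prod, Fintype.card_fin, Fintype.card_bool, mul_comm]
  rw [hc] at h
  rw [← h, eq_sub_iff_add_eq]
  have h2 : ∀ A : Finset (Fin v × Bool), wt y A = y ^ A.card - if A = ∅ then 1 else 0 := by
    intro A
    unfold wt
    by_cases hA : A = ∅
    · simp [hA]
    · simp [hA]
  rw [Finset.sum_congr rfl fun A _ => h2 A, Finset.sum_sub_distrib,
    Finset.sum_ite_eq' Finset.univ ∅ (fun _ => (1 : ℝ)), if_pos (Finset.mem_univ _)]
  ring

end Odd

open Pool.Agent.Lib.MP_537232_an.NM.Odd in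
theorem wOdd (h1 : S_Flt) : S_Odd := by
  intro v d s Γ β δ T hv hd hΓ hUB hβ hδ hT hlog
  have hv0 : (0 : ℝ) < v := by exact_mod_cast hv
  have hd0 : (0 : ℝ) < d := by exact_mod_cast hd
  have hT0 : (0 : ℝ) < T := by linarith
  have hβδ : 0 < 2 * β * (1 + 2 * δ) := by positivity
  set c : ℝ := δ ^ 2 * d / (2 * β * (1 + 2 * δ)) with hc
  have hcl : Real.log (16 * T * (v : ℝ) ^ 2) ≤ c := by
    rw [hc, le_div_iff₀ hβδ, mul_comm]; exact hlog
  have hc0 : 0 ≤ c := by positivity
  set y : ℝ := Real.exp (-(c / 2)) with hy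
  have hy0 : 0 < y := Real.exp_pos _
  have hy2 : y ^ 2 ≤ 1 / (16 * T * (v : ℝ) ^ 2) := by
    have e1 : y ^ 2 = Real.exp (-c) := by
      rw [hy, ← Real.exp_nat_mul]; congr 1; push_cast; ring
    rw [e1, one_div, ← Real.exp_log (by positivity : (0 : ℝ) < 16 * T * (v : ℝ) ^ 2),
      ← Real.exp_neg]
    exact Real.exp_le_exp.2 (by linarith)
  obtain ⟨n, z, hz, hz1⟩ := hΓ
  have hsym : ∀ (ε : Fin v → Fin d → Bool) t t', Γ t t' * Ge ε t t' = Γ t' t * Ge ε t' t := by
    intro ε t t'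
    rw [hz t t', hz t' t]
    congr 1
    · exact Finset.sum_congr rfl fun i _ => mul_comm _ _
    · unfold Ge
      congr 1
      exact Finset.sum_congr rfl fun i _ => mul_comm _ _
  have hdiag : ∀ (ε : Fin v → Fin d → Bool) t, Γ t t * Ge ε t t = 1 := by
    intro ε t
    rw [hz1, one_mul]
    unfold Ge
    have e1 : ∀ i, sg (ε t i) * sg (ε t i) = 1 := by
      intro i
      unfold sg
      split_ifs <;> norm_num
    rw [Finset.sum_congr rfl fun i _ => e1 i, Finset.sum_const, Finset.card_univ, Fintype.card_fin,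
      nsmul_eq_mul, mul_one, div_self hd0.ne']
  set E : Finset (Fin v × Bool) × Finset (Fin v × Bool) → Set (Fin v → Fin d → Bool) := fun A =>
    {ε | ((A.1.card = (A.1.image Prod.fst).card ∧ A.2.card = (A.2.image Prod.fst).card) ∧
      1 ≤ (A.1.image Prod.fst).card ∧ (A.1.image Prod.fst).card ≤ (A.2.image Prod.fst).card ∧
      Disjoint (A.1.image Prod.fst) (A.2.image Prod.fst) ∧
      (A.1.image Prod.fst).card + (A.2.image Prod.fst).card ≤ s) ∧
      ∑ t ∈ A.1.image Prod.fst, ∑ t' ∈ A.1.image Prod.fst,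
        tau A.1 A.2 t * tau A.1 A.2 t' * (Γ t t' * Ge ε t t') ≤
          (1 + 2 * δ) * (A.1.image Prod.fst).card ∧
      δ * Real.sqrt ((A.1.image Prod.fst).card * (A.2.image Prod.fst).card) <
        |∑ t ∈ A.1.image Prod.fst, ∑ t' ∈ A.2.image Prod.fst,
          tau A.1 A.2 t * tau A.1 A.2 t' * (Γ t t' * Ge ε t t')|} with hE
  have hsub : {ε : Fin v → Fin d → Bool | ¬ OD (fun t t' => Γ t t' * Ge ε t t') s δ} ⊆
      ⋃ A, E A := by
    intro ε hε
    rw [Set.mem_ofPred_eq] at hε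
    by_contra hcon
    rw [Set.mem_iUnion] at hcon
    push Not at hcon
    refine hε (det _ s δ hδ (hsym ε) (hdiag ε) ?_)
    intro J J' τ hJ hJs hJ1 hJJ hτ hq
    by_contra hlt
    push Not at hlt
    refine hcon (mk J τ, mk J' τ) ?_
    rw [hE]
    simp only [Set.mem_ofPred_eq, mk_fst, mk_card]
    refine ⟨⟨⟨trivial, trivial⟩, hJ1, hJJ, hJ, hJs⟩, ?_, ?_⟩
    · rw [Finset.sum_congr rfl fun t ht => Finset.sum_congr rfl fun t' ht' => by
        rw [tau_mk1 J J' τ hτ t ht, tau_mk1 J J' τ hτ t' ht']]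
      exact hq
    · rw [Finset.sum_congr rfl fun t ht => Finset.sum_congr rfl fun t' ht' => by
        rw [tau_mk1 J J' τ hτ t ht, tau_mk2 J J' hJ τ hτ t' ht']]
      exact hlt
  have hEn : ∀ A, ((E A).ncard : ℝ) ≤ 2 * 2 ^ (v * d) * (wt y A.1 * wt y A.2) := by
    intro A
    have hw : ∀ B : Finset (Fin v × Bool), 0 ≤ wt y B := fun B => by
      unfold wt; split_ifs <;> positivity
    by_cases hA : ((A.1.card = (A.1.image Prod.fst).card ∧ A.2.card = (A.2.image Prod.fst).card) ∧
      1 ≤ (A.1.image Prod.fst).card ∧ (A.1.image Prod.fst).card ≤ (A.2.image Prod.fst).card ∧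
      Disjoint (A.1.image Prod.fst) (A.2.image Prod.fst) ∧
      (A.1.image Prod.fst).card + (A.2.image Prod.fst).card ≤ s)
    · obtain ⟨⟨hA1, hA2⟩, h1c, h12, hdis, hcs⟩ := hA
      have hF := h1 v d s Γ β δ (A.1.image Prod.fst) (A.2.image Prod.fst) (tau A.1 A.2) hd
        ⟨n, z, hz, hz1⟩ hUB hβ hδ hdis hcs h1c (tau_pm _ _)
      have hle : (E A).ncard ≤ ({ε : Fin v → Fin d → Bool |
          ∑ t ∈ A.1.image Prod.fst, ∑ t' ∈ A.1.image Prod.fst,
            tau A.1 A.2 t * tau A.1 A.2 t' * (Γ t t' * Ge ε t t') ≤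
              (1 + 2 * δ) * (A.1.image Prod.fst).card ∧
          δ * Real.sqrt ((A.1.image Prod.fst).card * (A.2.image Prod.fst).card) <
            |∑ t ∈ A.1.image Prod.fst, ∑ t' ∈ A.2.image Prod.fst,
              tau A.1 A.2 t * tau A.1 A.2 t' * (Γ t t' * Ge ε t t')|}).ncard :=
        Set.ncard_le_ncard (fun ε hε => hε.2) (Set.toFinite _)
      have hle' : ((E A).ncard : ℝ) ≤ _ := (Nat.cast_le.2 hle).trans hF
      refine hle'.trans ?_
      refine mul_le_mul_of_nonneg_left ?_ (by positivity)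
      have n1 : A.1 ≠ ∅ := by
        intro h
        rw [h] at h1c
        simp at h1c
      have n2 : A.2 ≠ ∅ := by
        intro h
        rw [h] at h12
        simp at h12
        exact n1 h12
      unfold wt
      rw [if_neg n1, if_neg n2, ← pow_add, hy, ← Real.exp_nat_mul]
      refine Real.exp_le_exp.2 ?_
      have e1 : δ ^ 2 * ((A.2.image Prod.fst).card : ℝ) * d / (2 * β * (1 + 2 * δ)) =
          ((A.2.image Prod.fst).card : ℝ) * c := by rw [hc]; ring
      rw [e1, ← hA2]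
      have e2 : (A.1.card : ℝ) ≤ A.2.card := by
        rw [hA1, hA2]; exact_mod_cast h12
      push_cast
      nlinarith
    · have e0 : E A = ∅ := by
        rw [hE]
        ext ε
        simp only [Set.mem_ofPred_eq, Set.mem_empty_iff_false, iff_false]
        exact fun h => hA h.1
      rw [e0, Set.ncard_empty, Nat.cast_zero]
      have := hw A.1
      have := hw A.2
      positivity
  have hsum : (({ε : Fin v → Fin d → Bool | ¬ OD (fun t t' => Γ t t' * Ge ε t t') s δ}.ncard : ℕ)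
      : ℝ) ≤ 2 * 2 ^ (v * d) * ((y + 1) ^ (2 * v) - 1) ^ 2 := by
    have e1 : ({ε : Fin v → Fin d → Bool | ¬ OD (fun t t' => Γ t t' * Ge ε t t') s δ}).ncard ≤
        ∑ A, (E A).ncard :=
      (Set.ncard_le_ncard hsub (Set.toFinite _)).trans (Set.ncard_iUnion_le_of_fintype E)
    have e2 : (({ε : Fin v → Fin d → Bool | ¬ OD (fun t t' => Γ t t' * Ge ε t t') s δ}.ncard : ℕ)
        : ℝ) ≤ ∑ A, ((E A).ncard : ℝ) := by exact_mod_cast e1
    refine e2.trans ((Finset.sum_le_sum fun A _ => hEn A).trans (le_of_eq ?_))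
    rw [← Finset.mul_sum, Fintype.sum_prod_type]
    simp only
    rw [← Finset.sum_mul_sum, sum_wt, sq]
  set u : ℝ := 2 * v * y with hu
  have hu0 : 0 < u := by positivity
  have hu2 : u ^ 2 ≤ 1 / (4 * T) := by
    have e1 : u ^ 2 = 4 * (v : ℝ) ^ 2 * y ^ 2 := by rw [hu]; ring
    rw [e1]
    calc 4 * (v : ℝ) ^ 2 * y ^ 2 ≤ 4 * (v : ℝ) ^ 2 * (1 / (16 * T * (v : ℝ) ^ 2)) :=
          mul_le_mul_of_nonneg_left hy2 (by positivity)
      _ = 1 / (4 * T) := by field_simp; ring
  have hu12 : u ≤ 1 / 2 := by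
    have e1 : 1 / (4 * T) ≤ 1 / 4 := by
      rw [div_le_div_iff₀ (by positivity) (by norm_num)]; linarith
    nlinarith
  have hbin : (y + 1) ^ (2 * v) - 1 ≤ 1.375 * u := by
    have e1 : (y + 1) ^ (2 * v) ≤ Real.exp u := by
      calc (y + 1) ^ (2 * v) ≤ Real.exp y ^ (2 * v) :=
            pow_le_pow_left₀ (by positivity) (Real.add_one_le_exp y) _
        _ = Real.exp u := by rw [← Real.exp_nat_mul]; congr 1; push_cast; rw [hu]
    have e2 := Real.exp_bound' hu0.le (by linarith : u ≤ 1) (n := 2) (by norm_num)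
    simp only [Finset.sum_range_succ, Finset.sum_range_zero, pow_zero, Nat.factorial] at e2
    norm_num at e2
    nlinarith
  have hbin0 : 0 ≤ (y + 1) ^ (2 * v) - 1 := by
    have := one_le_pow₀ (M₀ := ℝ) (a := y + 1) (n := 2 * v) (by linarith)
    linarith
  have hsq : ((y + 1) ^ (2 * v) - 1) ^ 2 ≤ (1.375 * u) ^ 2 := pow_le_pow_left₀ hbin0 hbin 2
  have h2p : (0 : ℝ) < 2 ^ (v * d) := by positivity
  have hfin : T * (2 * ((y + 1) ^ (2 * v) - 1) ^ 2) ≤ 1 := by
    have e1 : T * u ^ 2 ≤ 1 / 4 := by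
      calc T * u ^ 2 ≤ T * (1 / (4 * T)) := mul_le_mul_of_nonneg_left hu2 hT0.le
        _ = 1 / 4 := by field_simp
    nlinarith
  calc T * _ ≤ T * (2 * 2 ^ (v * d) * ((y + 1) ^ (2 * v) - 1) ^ 2) :=
        mul_le_mul_of_nonneg_left hsum hT0.le
    _ = 2 ^ (v * d) * (T * (2 * ((y + 1) ^ (2 * v) - 1) ^ 2)) := by ring
    _ ≤ 2 ^ (v * d) * 1 := mul_le_mul_of_nonneg_left hfin h2p.le
    _ = 2 ^ (v * d) := mul_one _

end Pool.Agent.Lib.MP_537232_an.NM
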