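import Pool.Agent.Lib.MP_537232_an.NM.SpecJ

set_option autoImplicit false

open scoped ENNReal Topology
open Filter Finset

namespace Pool.Agent.Lib.MP_537232_an.NM

theorem wOpc : S_Opc := by
  intro r hr _ u hu D b J A K hJ hb hK hA
  classical
  have hr0 : 0 < r := by linarith
  have hpr : (ENNReal.ofReal r).toReal = r := ENNReal.toReal_ofReal hr0.le
  have hp0 : 0 < (ENNReal.ofReal r).toReal := by rw [hpr]; exact hr0
  let ps : (Σ m, Fin (D m)) → ℕ := fun ν => pos D ν.1 ν.2
  have hps : Function.Injective ps := fun ν μ h => pos_injective h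
  let L : ∀ ν : (Σ m, Fin (D m)), lp (E u) (ENNReal.ofReal r) →ₗ[ℝ] E u (ps ν) := fun ν =>
    { toFun := fun x => (inner ℝ (A ν.1 ν.2) (x (b ν.1)) : ℝ) •
        EuclideanSpace.single (⟨0, hu _⟩ : Fin (u (ps ν))) (1 : ℝ)
      map_add' := fun x y => by
        rw [← add_smul, ← inner_add_right]
        rfl
      map_smul' := fun c x => by
        rw [RingHom.id_apply, smul_smul]
        congr 1
        exact inner_smul_right (𝕜 := ℝ) (A ν.1 ν.2) (x (b ν.1)) c }
  have hg : ∀ n, ∃ g : lp (E u) (ENNReal.ofReal r) →ₗ[ℝ] E u n,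
      (∀ ν (h : ps ν = n), h ▸ L ν = g) ∧ ((¬ ∃ ν, ps ν = n) → g = 0) := by
    intro n
    by_cases h : ∃ ν, ps ν = n
    · obtain ⟨ν, rfl⟩ := h
      refine ⟨L ν, fun ν' h' => ?_, fun h => absurd ⟨ν, rfl⟩ h⟩
      have := hps h'
      subst this
      rfl
    · exact ⟨0, fun m h' => absurd ⟨m, h'⟩ h, fun _ => rfl⟩
  choose g hg1 hg2 using hg
  have hgb : ∀ ν, g (ps ν) = L ν := fun ν => (hg1 (ps ν) ν rfl).symm
  have hLn : ∀ ν x, ‖L ν x‖ = |(inner ℝ (A ν.1 ν.2) (x (b ν.1)) : ℝ)| := by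
    intro ν x
    change ‖(inner ℝ (A ν.1 ν.2) (x (b ν.1)) : ℝ) •
        EuclideanSpace.single (⟨0, hu _⟩ : Fin (u (ps ν))) (1 : ℝ)‖ = _
    rw [norm_smul, PiLp.norm_single, norm_one, mul_one, Real.norm_eq_abs]
  have key : ∀ (x : lp (E u) (ENNReal.ofReal r)) (s : Finset ℕ),
      ∑ n ∈ s, ‖g n x‖ ^ (ENNReal.ofReal r).toReal ≤ (K * ‖x‖) ^ (ENNReal.ofReal r).toReal := by
    intro x s
    rw [hpr]
    set t := s.preimage ps hps.injOn with ht
    have e1 : ∑ ν ∈ t, ‖g (ps ν) x‖ ^ r = ∑ n ∈ s, ‖g n x‖ ^ r := by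
      refine Finset.sum_preimage ps s hps.injOn (fun n => ‖g n x‖ ^ r) ?_
      intro n _ hn
      rw [hg2 n (fun ⟨m, hm⟩ => hn ⟨m, hm⟩)]
      simp [Real.zero_rpow hr0.ne']
    have hsub : t ⊆ (t.image Sigma.fst).sigma (fun m => (univ : Finset (Fin (D m)))) := by
      intro ν hν
      rw [Finset.mem_sigma]
      exact ⟨Finset.mem_image_of_mem _ hν, Finset.mem_univ _⟩
    rw [← e1]
    calc ∑ ν ∈ t, ‖g (ps ν) x‖ ^ r = ∑ ν ∈ t, |(inner ℝ (A ν.1 ν.2) (x (b ν.1)) : ℝ)| ^ r := by
          refine Finset.sum_congr rfl fun ν _ => ?_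
          rw [hgb, hLn]
      _ ≤ ∑ ν ∈ (t.image Sigma.fst).sigma (fun m => (univ : Finset (Fin (D m)))),
            |(inner ℝ (A ν.1 ν.2) (x (b ν.1)) : ℝ)| ^ r :=
          Finset.sum_le_sum_of_subset_of_nonneg hsub
            fun ν _ _ => Real.rpow_nonneg (abs_nonneg _) _
      _ = ∑ m ∈ t.image Sigma.fst, ∑ ω : Fin (D m), |(inner ℝ (A m ω) (x (b m)) : ℝ)| ^ r := by
          rw [Finset.sum_sigma]
      _ ≤ ∑ m ∈ t.image Sigma.fst, (K * ‖x (b m)‖) ^ r :=
          Finset.sum_le_sum fun m _ => hA m (x (b m))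
      _ = K ^ r * ∑ m ∈ t.image Sigma.fst, ‖x (b m)‖ ^ r := by
          rw [Finset.mul_sum]
          exact Finset.sum_congr rfl fun m _ => Real.mul_rpow hK (norm_nonneg _)
      _ = K ^ r * ∑ n ∈ (t.image Sigma.fst).image b, ‖x n‖ ^ r := by
          rw [Finset.sum_image hb.injOn]
      _ ≤ K ^ r * ‖x‖ ^ r := by
          gcongr
          have := lp.sum_rpow_le_norm_rpow hp0 x ((t.image Sigma.fst).image b)
          rw [hpr] at this
          exact this
      _ = (K * ‖x‖) ^ r := (Real.mul_rpow hK (norm_nonneg _)).symm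
  have hmem : ∀ x : lp (E u) (ENNReal.ofReal r), Memℓp (fun n => g n x) (ENNReal.ofReal r) :=
    fun x => memℓp_gen' (key x)
  refine ⟨LinearMap.mkContinuous
    { toFun := fun x => (⟨fun n => g n x, hmem x⟩ : lp (E u) (ENNReal.ofReal r))
      map_add' := fun x y => by
        refine lp.ext (funext fun n => ?_)
        exact (g n).map_add x y
      map_smul' := fun c x => by
        refine lp.ext (funext fun n => ?_)
        exact (g n).map_smul c x } K (fun x => ?_), ?_⟩
  · exact lp.norm_le_of_forall_sum_le hp0 (by positivity) (key x)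
  · intro m z
    refine lp.ext (funext fun n => ?_)
    change g n (lp.single (ENNReal.ofReal r) (b m) z) = _
    rw [hJ]
    by_cases h : ∃ ν, ps ν = n
    · obtain ⟨⟨m', ω'⟩, rfl⟩ := h
      rw [hgb]
      change (inner ℝ (A m' ω') ((lp.single (ENNReal.ofReal r) (b m) z : lp (E u) (ENNReal.ofReal r)) (b m')) : ℝ) •
        EuclideanSpace.single (⟨0, hu _⟩ : Fin (u (pos D m' ω'))) (1 : ℝ) = _
      by_cases hm : m' = m
      · subst hm
        rw [lp.single_apply_self, Finset.sum_eq_single ω']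
        · rw [if_pos rfl]
          ext i
          simp
        · intro ω _ hω
          rw [if_neg]
          intro h
          apply hω
          have := @pos_injective D ⟨m', ω⟩ ⟨m', ω'⟩ h
          simpa using this
        · intro h
          exact absurd (Finset.mem_univ _) h
      · rw [lp.single_apply_ne _ _ _ (fun h => hm (hb h)), inner_zero_right, zero_smul]
        symm
        refine Finset.sum_eq_zero fun ω _ => ?_
        rw [if_neg]
        intro h
        have := @pos_injective D ⟨m, ω⟩ ⟨m', ω'⟩ h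
        exact hm (congrArg Sigma.fst this).symm
    · rw [hg2 n h]
      change (0 : E u n) = _
      symm
      refine Finset.sum_eq_zero fun ω _ => ?_
      rw [if_neg]
      intro h'
      exact h ⟨⟨m, ω⟩, h'⟩

end Pool.Agent.Lib.MP_537232_an.NM
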