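import Pool.Agent.Lib.MP_537232_an.NM.SpecA

set_option autoImplicit false

namespace Pool.Agent.Lib.MP_537232_an.NM

open MeasureTheory ProbabilityTheory Finset Filter Topology

namespace Pgl

theorem yv_cont (κ θ : ℝ) : Continuous fun x => Yv κ θ x := by
  unfold Yv; fun_prop

theorem zv_eq (κ θ x : ℝ) : Zv κ θ x = Yv κ (θ + Real.pi / 2) x := by
  unfold Zv Yv
  rw [Real.cos_add_pi_div_two, Real.sin_add_pi_div_two]

theorem yv_le (κ θ x : ℝ) : |Yv κ θ x| ≤ (1 + |κ|) * (1 + |x|) := by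
  have e1 : |Yv κ θ x| ≤ |Real.cos θ| + |κ * Real.sin θ * x| := abs_add_le _ _
  have e2 : |κ * Real.sin θ * x| ≤ |κ| * |x| := by
    rw [abs_mul, abs_mul]
    refine mul_le_mul_of_nonneg_right ?_ (abs_nonneg _)
    calc |κ| * |Real.sin θ| ≤ |κ| * 1 :=
          mul_le_mul_of_nonneg_left (Real.abs_sin_le_one θ) (abs_nonneg _)
      _ = |κ| := mul_one _
  have e3 := Real.abs_cos_le_one θ
  have e4 := abs_nonneg κ
  have e5 := abs_nonneg x
  nlinarith

theorem yv_int (h1 : S_Int) {q : ℝ} (hq : 0 ≤ q) (κ θ : ℝ) :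
    Integrable (fun x => |Yv κ θ x| ^ q) gam := by
  refine (h1 ((1 + |κ|) ^ q) q hq).1 _ ?_ fun x => ?_
  · exact (continuous_abs.comp (yv_cont κ θ)).rpow_const fun x => Or.inr hq
  · rw [abs_of_nonneg (Real.rpow_nonneg (abs_nonneg _) q),
      ← Real.mul_rpow (by positivity) (by positivity)]
    exact Real.rpow_le_rpow (abs_nonneg _) (yv_le κ θ x) hq

theorem sq_rpow (t q : ℝ) : (t ^ 2) ^ (q / 2) = |t| ^ q := by
  rw [← sq_abs, ← Real.rpow_natCast, ← Real.rpow_mul (abs_nonneg t)]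
  congr 1
  push_cast
  ring

/-- the bound for all angles -/
theorem main (h1 : S_Int) (h2 : S_Cfm) {q : ℝ} (hq : 2 < q) (C : Cst q) (z : ℂ) :
    MC (kap q) q z ≤ C.σ ^ q * Real.cosh (2 * z.im) ^ (q / 2) := by
  have hq0 : 0 ≤ q := by linarith
  set κ := kap q
  set c := Real.cosh z.im ^ 2
  set s := Real.sinh z.im ^ 2
  have hc : 0 < c := pow_pos (Real.cosh_pos _) 2
  have hs : 0 ≤ s := sq_nonneg _
  have hcs : 0 < c + s := by linarith
  have hch : Real.cosh (2 * z.im) = c + s := Real.cosh_two_mul _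
  have hconv := convexOn_rpow (show (1 : ℝ) ≤ q / 2 by linarith)
  have hpt : ∀ x, (c * Yv κ z.re x ^ 2 + s * Zv κ z.re x ^ 2) ^ (q / 2)
      ≤ (c + s) ^ (q / 2) * (c / (c + s) * |Yv κ z.re x| ^ q
        + s / (c + s) * |Yv κ (z.re + Real.pi / 2) x| ^ q) := by
    intro x
    rw [zv_eq]
    have hA : Yv κ z.re x ^ 2 ∈ Set.Ici (0 : ℝ) := Set.mem_Ici.2 (sq_nonneg _)
    have hB : Yv κ (z.re + Real.pi / 2) x ^ 2 ∈ Set.Ici (0 : ℝ) := Set.mem_Ici.2 (sq_nonneg _)
    have ha : 0 ≤ c / (c + s) := by positivity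
    have hb : 0 ≤ s / (c + s) := by positivity
    have hab : c / (c + s) + s / (c + s) = 1 := by rw [← add_div, div_self hcs.ne']
    have h3 := hconv.2 hA hB ha hb hab
    simp only [smul_eq_mul, sq_rpow] at h3
    have e : c * Yv κ z.re x ^ 2 + s * Yv κ (z.re + Real.pi / 2) x ^ 2
        = (c + s) * (c / (c + s) * Yv κ z.re x ^ 2
          + s / (c + s) * Yv κ (z.re + Real.pi / 2) x ^ 2) := by
      field_simp
    rw [e, Real.mul_rpow hcs.le (by positivity)]
    exact mul_le_mul_of_nonneg_left h3 (Real.rpow_nonneg hcs.le _)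
  have i1 := (yv_int h1 hq0 κ z.re).const_mul (c / (c + s))
  have i2 := (yv_int h1 hq0 κ (z.re + Real.pi / 2)).const_mul (s / (c + s))
  have i3 : Integrable (fun x => (c + s) ^ (q / 2) * (c / (c + s) * |Yv κ z.re x| ^ q
        + s / (c + s) * |Yv κ (z.re + Real.pi / 2) x| ^ q)) gam := (i1.add i2).const_mul _
  have h4 : MC κ q z ≤ ∫ x, (c + s) ^ (q / 2) * (c / (c + s) * |Yv κ z.re x| ^ q
        + s / (c + s) * |Yv κ (z.re + Real.pi / 2) x| ^ q) ∂gam := by
    rw [h2]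
    refine integral_mono_of_nonneg (Eventually.of_forall fun x => ?_) i3 (Eventually.of_forall hpt)
    exact Real.rpow_nonneg (by positivity) _
  refine h4.trans ?_
  rw [integral_const_mul, integral_add i1 i2, integral_const_mul, integral_const_mul, hch]
  have m1 : ∫ x, |Yv κ z.re x| ^ q ∂gam ≤ C.σ ^ q := C.max z.re
  have m2 : ∫ x, |Yv κ (z.re + Real.pi / 2) x| ^ q ∂gam ≤ C.σ ^ q := C.max _
  have h5 : c / (c + s) * (∫ x, |Yv κ z.re x| ^ q ∂gam)
      + s / (c + s) * (∫ x, |Yv κ (z.re + Real.pi / 2) x| ^ q ∂gam) ≤ C.σ ^ q := by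
    have a1 := mul_le_mul_of_nonneg_left m1 (div_nonneg hc.le hcs.le)
    have a2 := mul_le_mul_of_nonneg_left m2 (div_nonneg hs hcs.le)
    have a3 : c / (c + s) * C.σ ^ q + s / (c + s) * C.σ ^ q = C.σ ^ q := by
      field_simp
    linarith
  rw [mul_comm (C.σ ^ q)]
  exact mul_le_mul_of_nonneg_left h5 (Real.rpow_nonneg hcs.le _)

end Pgl

open Pgl in
theorem wPgl (h1 : S_Int) (h2 : S_Cfm) : S_Pgl := by
  intro q hq C N x y hN
  have hN0 : (0 : ℝ) < N := by exact_mod_cast hN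
  have hs : 0 < Real.sqrt N := Real.sqrt_pos.2 hN0
  set z : ℂ := (C.α : ℂ) + ((x : ℂ) + (y : ℂ) * Complex.I) / ((Real.sqrt N : ℝ) : ℂ) with hz
  have him : z.im = y / Real.sqrt N := by
    rw [hz, Complex.add_im, Complex.ofReal_im, zero_add, Complex.div_ofReal_im]
    simp
  have hσ : 0 < C.σ ^ q := Real.rpow_pos_of_pos C.σ_pos _
  have h3 := main h1 h2 hq C z
  have hM0 : 0 ≤ MC (kap q) q z := integral_nonneg fun x => Real.rpow_nonneg (norm_nonneg _) _
  have h4 : MC (kap q) q z / C.σ ^ q ≤ Real.cosh (2 * z.im) ^ (q / 2) := by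
    rw [div_le_iff₀ hσ, mul_comm]
    exact h3
  have h5 : Real.cosh (2 * z.im) ^ (q / 2) ≤ Real.exp (q * y ^ 2 / N) := by
    have e1 : Real.cosh (2 * z.im) ≤ Real.exp ((2 * z.im) ^ 2 / 2) := Real.cosh_le_exp_half_sq _
    have e2 := Real.rpow_le_rpow (Real.cosh_pos _).le e1 (show 0 ≤ q / 2 by linarith)
    refine e2.trans (le_of_eq ?_)
    rw [← Real.exp_mul]
    congr 1
    rw [him, mul_pow, div_pow, Real.sq_sqrt hN0.le]
    field_simp
  calc (MC (kap q) q z / C.σ ^ q) ^ N ≤ (Real.exp (q * y ^ 2 / N)) ^ N :=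
        pow_le_pow_left₀ (div_nonneg hM0 hσ.le) (h4.trans h5) N
    _ = Real.exp (q * y ^ 2) := by
        rw [← Real.exp_nat_mul]
        congr 1
        field_simp

end Pool.Agent.Lib.MP_537232_an.NM
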