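import Pool.Agent.Lib.MP_537232_an.NM.SpecE

set_option autoImplicit false

namespace Pool.Agent.Lib.MP_537232_an.NM

open MeasureTheory ProbabilityTheory Finset Filter Topology

namespace PhL

/-- the function on the strip -/
noncomputable def H (b B : ℝ) (ψ : ℂ → ℂ) (s : ℂ) : ℂ :=
  ψ (-Complex.exp s) * Complex.exp ((b : ℂ) * (-Complex.exp s) ^ 2) *
    Complex.exp ((((1 - b : ℝ) : ℂ) - (B : ℂ) * Complex.I) * Complex.exp (2 * s))

theorem re_sq (z : ℂ) (b : ℝ) : ((b : ℂ) * z ^ 2).re = b * (z.re ^ 2 - z.im ^ 2) := by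
  rw [Complex.re_ofReal_mul, pow_two, Complex.mul_re]
  ring

theorem exp_two (s : ℂ) : (Complex.exp (2 * s)).re = Real.exp (2 * s.re) * Real.cos (2 * s.im) ∧
    (Complex.exp (2 * s)).im = Real.exp (2 * s.re) * Real.sin (2 * s.im) := by
  have h1 : (2 * s).re = 2 * s.re := by simp
  have h2 : (2 * s).im = 2 * s.im := by simp
  rw [Complex.exp_re, Complex.exp_im, h1, h2]
  exact ⟨rfl, rfl⟩

theorem norm_third (b B : ℝ) (s : ℂ) :
    ‖Complex.exp ((((1 - b : ℝ) : ℂ) - (B : ℂ) * Complex.I) * Complex.exp (2 * s))‖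
      = Real.exp (Real.exp (2 * s.re) * ((1 - b) * Real.cos (2 * s.im) + B * Real.sin (2 * s.im))) := by
  rw [Complex.norm_exp]
  congr 1
  obtain ⟨h1, h2⟩ := exp_two s
  rw [Complex.mul_re, h1, h2]
  have h3 : (((1 - b : ℝ) : ℂ) - (B : ℂ) * Complex.I).re = 1 - b := by
    simp
  have h4 : (((1 - b : ℝ) : ℂ) - (B : ℂ) * Complex.I).im = -B := by
    simp
  rw [h3, h4]
  ring

theorem re_im (s : ℂ) : (-Complex.exp s).re = -(Real.exp s.re * Real.cos s.im) ∧
    (-Complex.exp s).im = -(Real.exp s.re * Real.sin s.im) := by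
  rw [Complex.neg_re, Complex.neg_im, Complex.exp_re, Complex.exp_im]
  exact ⟨rfl, rfl⟩

theorem exp_sq (x : ℝ) : Real.exp x ^ 2 = Real.exp (2 * x) := by
  rw [← Real.exp_nat_mul]; norm_num

/-- the general bound -/
theorem bound {b B : ℝ} {ψ : ℂ → ℂ} (hψ : ∀ z, ‖ψ z‖ ≤ Real.exp (b * z.im ^ 2)) (s : ℂ) :
    ‖H b B ψ s‖ ≤ Real.exp (Real.exp (2 * s.re) *
      (b * Real.cos s.im ^ 2 + (1 - b) * Real.cos (2 * s.im) + B * Real.sin (2 * s.im))) := by
  unfold H
  rw [norm_mul, norm_mul, norm_third, Complex.norm_exp, re_sq]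
  obtain ⟨h1, h2⟩ := re_im s
  have h3 := hψ (-Complex.exp s)
  have h4 : ‖ψ (-Complex.exp s)‖ * Real.exp (b * ((-Complex.exp s).re ^ 2 - (-Complex.exp s).im ^ 2))
      ≤ Real.exp (Real.exp (2 * s.re) * (b * Real.cos s.im ^ 2)) := by
    refine (mul_le_mul_of_nonneg_right h3 (Real.exp_pos _).le).trans (le_of_eq ?_)
    rw [← Real.exp_add]
    congr 1
    rw [h1, ← exp_sq]
    ring
  refine (mul_le_mul_of_nonneg_right h4 (Real.exp_pos _).le).trans (le_of_eq ?_)
  rw [← Real.exp_add]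
  congr 1
  ring

/-- the bound on the real axis -/
theorem bound0 {b B : ℝ} {ψ : ℂ → ℂ} (hr : ∀ x : ℝ, x < 0 → ‖ψ (x : ℂ)‖ ≤ Real.exp (-x ^ 2))
    (s : ℂ) (hs : s.im = 0) : ‖H b B ψ s‖ ≤ 1 := by
  unfold H
  rw [norm_mul, norm_mul, norm_third, Complex.norm_exp, re_sq]
  obtain ⟨h1, h2⟩ := re_im s
  have e1 : -Complex.exp s = ((-Real.exp s.re : ℝ) : ℂ) := by
    apply Complex.ext
    · rw [h1, Complex.ofReal_re, hs, Real.cos_zero, mul_one]
    · rw [h2, Complex.ofReal_im, hs, Real.sin_zero, mul_zero, neg_zero]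
  have h3 := hr (-Real.exp s.re) (by have := Real.exp_pos s.re; linarith)
  rw [← e1] at h3
  have hp := Real.exp_pos (b * ((-Complex.exp s).re ^ 2 - (-Complex.exp s).im ^ 2))
  have hp2 := Real.exp_pos (Real.exp (2 * s.re) * ((1 - b) * Real.cos (2 * s.im)
    + B * Real.sin (2 * s.im)))
  refine (mul_le_mul_of_nonneg_right (mul_le_mul_of_nonneg_right h3 hp.le) hp2.le).trans
    (le_of_eq ?_)
  rw [← Real.exp_add, ← Real.exp_add, h1, h2, hs]
  simp only [Real.cos_zero, Real.sin_zero, mul_zero, mul_one, neg_zero, add_zero, sub_zero]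
  rw [← exp_sq]
  rw [show -(-Real.exp s.re) ^ 2 + b * ((-Real.exp s.re) ^ 2 - 0 ^ 2)
    + Real.exp s.re ^ 2 * (1 - b) = 0 by ring, Real.exp_zero]

/-- the choice of the angle -/
theorem angle (b B : ℝ) (hb : b < 1) : ∃ β : ℝ, Real.pi / 4 < β ∧ β < Real.pi / 2 ∧
    b * Real.cos β ^ 2 + (1 - b) * Real.cos (2 * β) + B * Real.sin (2 * β) ≤ 0 := by
  have hc : Continuous fun β : ℝ =>
      b * Real.cos β ^ 2 + (1 - b) * Real.cos (2 * β) + B * Real.sin (2 * β) := by fun_prop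
  have h0 : (fun β : ℝ => b * Real.cos β ^ 2 + (1 - b) * Real.cos (2 * β)
      + B * Real.sin (2 * β)) (Real.pi / 2) < 0 := by
    have e : 2 * (Real.pi / 2) = Real.pi := by ring
    simp only [e, Real.cos_pi_div_two, Real.cos_pi, Real.sin_pi]
    linarith
  have h1 : ∀ᶠ β in 𝓝 (Real.pi / 2), b * Real.cos β ^ 2 + (1 - b) * Real.cos (2 * β)
      + B * Real.sin (2 * β) < 0 := hc.continuousAt.eventually_lt_const h0
  have h2 : ∀ᶠ β in 𝓝[<] (Real.pi / 2), b * Real.cos β ^ 2 + (1 - b) * Real.cos (2 * β)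
      + B * Real.sin (2 * β) < 0 := h1.filter_mono nhdsWithin_le_nhds
  have h3 : ∀ᶠ β in 𝓝[<] (Real.pi / 2), β ∈ Set.Ioo (Real.pi / 4) (Real.pi / 2) :=
    Ioo_mem_nhdsLT (by linarith [Real.pi_pos])
  obtain ⟨β, h4, h5⟩ := (h2.and h3).exists
  exact ⟨β, h5.1, h5.2, h4.le⟩

theorem strip {b B : ℝ} (hb0 : 0 < b) (hb : b < 1) (hB : 0 < B) {ψ : ℂ → ℂ}
    (hd : Differentiable ℂ ψ) (hψ : ∀ z, ‖ψ z‖ ≤ Real.exp (b * z.im ^ 2))
    (hr : ∀ x : ℝ, x < 0 → ‖ψ (x : ℂ)‖ ≤ Real.exp (-x ^ 2)) (s : ℂ) (hs : s.im = Real.pi / 4) :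
    ‖H b B ψ s‖ ≤ 1 := by
  obtain ⟨β, hβ1, hβ2, hβ⟩ := angle b B hb
  have hπ := Real.pi_pos
  have hβ0 : 0 < β := by linarith
  have hH : Differentiable ℂ (H b B ψ) := by
    unfold H
    refine ((hd.comp (Complex.differentiable_exp.neg)).mul ?_).mul ?_
    · exact (((Complex.differentiable_exp.neg).pow 2).const_mul _).cexp
    · exact (((differentiable_id.const_mul (2 : ℂ)).cexp).const_mul _).cexp
  refine PhragmenLindelof.horizontal_strip (a := 0) (b := β) (C := 1) hH.diffContOnCl ?_ ?_ ?_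
    (by rw [hs]; linarith) (by rw [hs]; exact hβ1.le)
  · refine ⟨2, ?_, b + (1 - b) + B, ?_⟩
    · rw [sub_zero, lt_div_iff₀ hβ0]
      linarith
    · refine Asymptotics.IsBigO.of_bound 1 (Eventually.of_forall fun z => ?_)
      refine (bound hψ z).trans ?_
      rw [one_mul, Real.norm_eq_abs, abs_of_pos (Real.exp_pos _)]
      apply Real.exp_le_exp.2
      have c1 : Real.cos z.im ^ 2 ≤ 1 := Real.cos_sq_le_one _
      have c2 := Real.cos_le_one (2 * z.im)
      have c3 := Real.sin_le_one (2 * z.im)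
      have c4 : b * Real.cos z.im ^ 2 + (1 - b) * Real.cos (2 * z.im) + B * Real.sin (2 * z.im)
          ≤ b + (1 - b) + B := by
        have d1 : b * Real.cos z.im ^ 2 ≤ b * 1 := mul_le_mul_of_nonneg_left c1 hb0.le
        have d2 : (1 - b) * Real.cos (2 * z.im) ≤ (1 - b) * 1 :=
          mul_le_mul_of_nonneg_left c2 (by linarith)
        have d3 : B * Real.sin (2 * z.im) ≤ B * 1 := mul_le_mul_of_nonneg_left c3 hB.le
        linarith
      have c5 : Real.exp (2 * z.re) ≤ Real.exp (2 * |z.re|) :=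
        Real.exp_le_exp.2 (by linarith [le_abs_self z.re])
      calc Real.exp (2 * z.re) * (b * Real.cos z.im ^ 2 + (1 - b) * Real.cos (2 * z.im)
            + B * Real.sin (2 * z.im))
          ≤ Real.exp (2 * z.re) * (b + (1 - b) + B) :=
            mul_le_mul_of_nonneg_left c4 (Real.exp_pos _).le
        _ ≤ Real.exp (2 * |z.re|) * (b + (1 - b) + B) :=
            mul_le_mul_of_nonneg_right c5 (by linarith)
        _ = (b + (1 - b) + B) * Real.exp (2 * |z.re|) := mul_comm _ _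
  · intro z hz
    exact bound0 hr z hz
  · intro z hz
    refine (bound hψ z).trans ?_
    rw [hz]
    apply Real.exp_le_one_iff.2
    exact mul_nonpos_of_nonneg_of_nonpos (Real.exp_pos _).le hβ

end PhL

open PhL in
theorem wPhL : S_PhL := by
  intro b hb0 hb ψ hd hψ hr
  -- zeros on the diagonal
  have key : ∀ σ : ℝ, ψ (-Complex.exp ((σ : ℂ) + ((Real.pi / 4 : ℝ) : ℂ) * Complex.I)) = 0 := by
    intro σ
    set s : ℂ := (σ : ℂ) + ((Real.pi / 4 : ℝ) : ℂ) * Complex.I with hs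
    have hre : s.re = σ := by rw [hs]; simp
    have him : s.im = Real.pi / 4 := by rw [hs]; simp
    set A : ℝ := ‖ψ (-Complex.exp s)‖ * Real.exp (b * ((-Complex.exp s).re ^ 2
      - (-Complex.exp s).im ^ 2)) with hA
    have hle : ∀ B : ℝ, 0 < B → A * Real.exp (Real.exp (2 * σ) * B) ≤ 1 := by
      intro B hB
      have h := strip hb0 hb hB hd hψ hr s him
      unfold H at h
      rw [norm_mul, norm_mul, norm_third, Complex.norm_exp, re_sq, him, hre] at h
      have e1 : 2 * (Real.pi / 4) = Real.pi / 2 := by ring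
      rw [e1, Real.cos_pi_div_two, Real.sin_pi_div_two, mul_zero, zero_add, mul_one] at h
      exact h
    have hA0 : 0 ≤ A := by positivity
    have hA1 : A = 0 := by
      by_contra hne
      have hA2 : 0 < A := lt_of_le_of_ne hA0 (Ne.symm hne)
      have hE := Real.exp_pos (2 * σ)
      have h := hle (1 / (Real.exp (2 * σ) * A)) (by positivity)
      have e2 : Real.exp (2 * σ) * (1 / (Real.exp (2 * σ) * A)) = 1 / A := by
        field_simp
      rw [e2] at h
      have h2 := Real.add_one_le_exp (1 / A)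
      have h3 : A * (1 / A + 1) ≤ A * Real.exp (1 / A) := mul_le_mul_of_nonneg_left h2 hA0
      have h4 : A * (1 / A + 1) = 1 + A := by field_simp
      linarith
    rcases mul_eq_zero.1 hA1 with h | h
    · exact norm_eq_zero.1 h
    · exact absurd h (Real.exp_pos _).ne'
  -- limit
  have h1 : Tendsto (fun σ : ℝ => -Complex.exp ((σ : ℂ) + ((Real.pi / 4 : ℝ) : ℂ) * Complex.I))
      atBot (𝓝 0) := by
    rw [tendsto_zero_iff_norm_tendsto_zero]
    have e : (fun σ : ℝ => ‖-Complex.exp ((σ : ℂ) + ((Real.pi / 4 : ℝ) : ℂ) * Complex.I)‖)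
        = fun σ : ℝ => Real.exp σ := by
      funext σ
      rw [norm_neg, Complex.norm_exp]
      simp
    rw [e]
    exact Real.tendsto_exp_atBot
  have h2 := (hd.continuous.tendsto 0).comp h1
  have h3 : (ψ ∘ fun σ : ℝ => -Complex.exp ((σ : ℂ) + ((Real.pi / 4 : ℝ) : ℂ) * Complex.I))
      = fun _ => 0 := by
    funext σ
    exact key σ
  rw [h3] at h2
  exact (tendsto_nhds_unique h2 tendsto_const_nhds)

end Pool.Agent.Lib.MP_537232_an.NM
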