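import Pool.Agent.Lib.MP_537232_an.NM.SpecA

set_option autoImplicit false

/-!
# MP_537232_an, NM/Plo (helper82)
-/

namespace Pool.Agent.Lib.MP_537232_an.NM

open MeasureTheory ProbabilityTheory Finset Filter Topology

theorem wPlo (h1 : S_Clo) : S_Plo := by
  intro q hq C x y ε hε
  obtain ⟨N₀, hN₀, h⟩ := h1 q hq C x y ε hε
  refine ⟨N₀, hN₀, fun N hN => ?_⟩
  have hNpos : (0 : ℝ) < N := by
    have : 1 ≤ N := hN₀.trans hN
    exact_mod_cast this
  have hσ : (0 : ℝ) < C.σ ^ q := Real.rpow_pos_of_pos C.σ_pos q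
  have h2 := h N hN
  have h3 : 0 ≤ MC (kap q) q ((C.α : ℂ) + ((x : ℂ) + (y : ℂ) * Complex.I) /
      ((Real.sqrt N : ℝ) : ℂ)) := by
    unfold MC
    exact integral_nonneg fun x => Real.rpow_nonneg (norm_nonneg _) _
  have h4 : MC (kap q) q ((C.α : ℂ) + ((x : ℂ) + (y : ℂ) * Complex.I) /
      ((Real.sqrt N : ℝ) : ℂ)) / C.σ ^ q ≤ Real.exp ((q * bq q * y ^ 2 + ε) / N) := by
    rw [div_le_iff₀ hσ]
    refine h2.trans ?_
    rw [mul_comm]
    refine mul_le_mul_of_nonneg_right ?_ hσ.le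
    have h5 := Real.add_one_le_exp ((q * bq q * y ^ 2 + ε) / N)
    linarith
  refine (pow_le_pow_left₀ (div_nonneg h3 hσ.le) h4 N).trans ?_
  rw [← Real.exp_nat_mul, mul_div_cancel₀ _ hNpos.ne']

end Pool.Agent.Lib.MP_537232_an.NM
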