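import Pool.Agent.Lib.MP_537232_an.NM.SpecC

set_option autoImplicit false

/-!
# MP_537232_an, NM/Pol (helper68)
-/

namespace Pool.Agent.Lib.MP_537232_an.NM

open MeasureTheory ProbabilityTheory Finset Filter Topology

namespace Pol

theorem expL2 (t : ℝ) : MemLp (fun x : ℝ => Real.exp |t * x|) 2 gam := by
  have hc : Continuous fun x : ℝ => Real.exp |t * x| :=
    Real.continuous_exp.comp (continuous_const.mul continuous_id).abs
  rw [memLp_two_iff_integrable_sq hc.aestronglyMeasurable]
  have h1 : Integrable (fun x : ℝ => Real.exp (2 * t * x) + Real.exp (-(2 * t) * x)) gam :=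
    (integrable_exp_mul_gaussianReal _).add (integrable_exp_mul_gaussianReal _)
  refine h1.mono' (hc.pow 2).aestronglyMeasurable (Eventually.of_forall fun x => ?_)
  rw [Real.norm_of_nonneg (by positivity), ← Real.exp_nat_mul]
  rcases abs_cases (t * x) with ⟨h, _⟩ | ⟨h, _⟩
  · rw [h]
    have : ((2 : ℕ) : ℝ) * (t * x) = 2 * t * x := by push_cast; ring
    rw [this]
    linarith [Real.exp_pos (-(2 * t) * x)]
  · rw [h]
    have : ((2 : ℕ) : ℝ) * (-(t * x)) = -(2 * t) * x := by push_cast; ring
    rw [this]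
    linarith [Real.exp_pos (2 * t * x)]

theorem powL2 (n : ℕ) : MemLp (fun x : ℝ => x ^ n) 2 gam := by
  refine (expL2 1).of_le_mul (c := (Nat.factorial n : ℝ)) (by fun_prop)
    (Eventually.of_forall fun x => ?_)
  rw [Real.norm_eq_abs, abs_pow, Real.norm_of_nonneg (Real.exp_pos _).le, one_mul]
  have h1 := Real.pow_div_factorial_le_exp |x| (abs_nonneg x) n
  rw [div_le_iff₀ (by positivity)] at h1
  linarith

theorem polyL2 (P : Polynomial ℝ) : MemLp (fun x : ℝ => P.eval x) 2 gam := by
  have h1 : (fun x : ℝ => P.eval x) = fun x => ∑ i ∈ range (P.natDegree + 1), P.coeff i * x ^ i := by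
    funext x
    exact Polynomial.eval_eq_sum_range x
  rw [h1]
  exact memLp_finset_sum _ fun i _ => (powL2 i).const_mul _

/-- products with functions in `L₂` are integrable -/
theorem int_mul {h g : ℝ → ℝ} (hh : MemLp h 2 gam) (hg : MemLp g 2 gam) :
    Integrable (fun x => h x * g x) gam := hh.integrable_mul hg

theorem fourier {h : ℝ → ℝ} (hh : MemLp h 2 gam) (h0 : ∀ n : ℕ, ∫ x, h x * x ^ n ∂gam = 0)
    (t : ℝ) : ∫ x, (h x : ℂ) * Complex.exp ((t : ℂ) * x * Complex.I) ∂gam = 0 := by
  let F : ℕ → ℝ → ℂ := fun N x => ∑ k ∈ range N,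
    (h x : ℂ) * (((t : ℂ) * x * Complex.I) ^ k / (Nat.factorial k : ℂ))
  have hterm : ∀ (k : ℕ) (x : ℝ), (h x : ℂ) * (((t : ℂ) * x * Complex.I) ^ k / (Nat.factorial k : ℂ)) =
      (((t : ℂ) * Complex.I) ^ k / (Nat.factorial k : ℂ)) * ((h x * x ^ k : ℝ) : ℂ) := by
    intro k x
    push_cast
    ring
  have hterm' : ∀ k : ℕ, Integrable (fun x : ℝ => (((t : ℂ) * Complex.I) ^ k / (Nat.factorial k : ℂ)) *
      ((h x * x ^ k : ℝ) : ℂ)) gam := fun k => ((int_mul hh (powL2 k)).ofReal).const_mul _
  have hF0 : ∀ N, ∫ x, F N x ∂gam = 0 := by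
    intro N
    have h1 : F N = fun x => ∑ k ∈ range N, (((t : ℂ) * Complex.I) ^ k / (Nat.factorial k : ℂ)) *
        ((h x * x ^ k : ℝ) : ℂ) := by
      funext x
      exact Finset.sum_congr rfl fun k _ => hterm k x
    rw [h1, integral_finset_sum _ fun k _ => hterm' k]
    refine Finset.sum_eq_zero fun k _ => ?_
    rw [integral_const_mul, integral_complex_ofReal, h0 k]
    simp
  have hlim : Tendsto (fun N => ∫ x, F N x ∂gam) atTop
      (𝓝 (∫ x, (h x : ℂ) * Complex.exp ((t : ℂ) * x * Complex.I) ∂gam)) := by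
    refine tendsto_integral_of_dominated_convergence (fun x => |h x| * Real.exp |t * x|)
      (fun N => ?_) ?_ (fun N => Eventually.of_forall fun x => ?_)
      (Eventually.of_forall fun x => ?_)
    · have h1 : F N = fun x => ∑ k ∈ range N, (((t : ℂ) * Complex.I) ^ k / (Nat.factorial k : ℂ)) *
          ((h x * x ^ k : ℝ) : ℂ) := by
        funext x
        exact Finset.sum_congr rfl fun k _ => hterm k x
      rw [h1]
      exact (integrable_finset_sum _ fun k _ => hterm' k).aestronglyMeasurable
    · exact (hh.abs).integrable_mul (expL2 t)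
    · change ‖∑ k ∈ range N, (h x : ℂ) * (((t : ℂ) * x * Complex.I) ^ k /
        (Nat.factorial k : ℂ))‖ ≤ _
      rw [← Finset.mul_sum, norm_mul, Complex.norm_real, Real.norm_eq_abs]
      refine mul_le_mul_of_nonneg_left ?_ (abs_nonneg _)
      refine (norm_sum_le _ _).trans ?_
      have h1 : ∀ k ∈ range N, ‖((t : ℂ) * x * Complex.I) ^ k / (Nat.factorial k : ℂ)‖ =
          |t * x| ^ k / (Nat.factorial k : ℝ) := by
        intro k _
        rw [norm_div, norm_pow, norm_mul, Complex.norm_I, mul_one, ← Complex.ofReal_mul,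
          Complex.norm_real, Real.norm_eq_abs, Complex.norm_natCast]
      rw [Finset.sum_congr rfl h1]
      exact Real.sum_le_exp_of_nonneg (abs_nonneg _) N
    · change Tendsto (fun N => ∑ k ∈ range N, (h x : ℂ) * (((t : ℂ) * x * Complex.I) ^ k /
        (Nat.factorial k : ℂ))) atTop _
      have h1 : HasSum (fun k : ℕ => ((t : ℂ) * x * Complex.I) ^ k / (Nat.factorial k : ℂ))
          (Complex.exp ((t : ℂ) * x * Complex.I)) := by
        have h2 := NormedSpace.expSeries_div_hasSum_exp (𝔸 := ℂ) ((t : ℂ) * x * Complex.I)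
        rw [Complex.exp_eq_exp_ℂ]
        exact h2
      exact (h1.mul_left (h x : ℂ)).tendsto_sum_nat
  have h2 : Tendsto (fun N => ∫ x, F N x ∂gam) atTop (𝓝 0) := by
    simp only [hF0]
    exact tendsto_const_nhds
  exact tendsto_nhds_unique hlim h2

theorem vanish {h : ℝ → ℝ} (hm : Measurable h) (hh : MemLp h 2 gam)
    (h0 : ∀ n : ℕ, ∫ x, h x * x ^ n ∂gam = 0) : h =ᵐ[gam] 0 := by
  have hint : Integrable h gam := hh.integrable (by norm_num)
  have hm' : Measurable fun x => ENNReal.ofReal (-h x) := hm.neg.ennreal_ofReal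
  haveI : IsFiniteMeasure (gam.withDensity fun x => ENNReal.ofReal (h x)) :=
    isFiniteMeasure_withDensity_ofReal hint.2
  haveI : IsFiniteMeasure (gam.withDensity fun x => ENNReal.ofReal (-h x)) :=
    isFiniteMeasure_withDensity_ofReal hint.neg.2
  have hchar : charFun (gam.withDensity fun x => ENNReal.ofReal (h x)) =
      charFun (gam.withDensity fun x => ENNReal.ofReal (-h x)) := by
    funext t
    rw [charFun_apply_real, charFun_apply_real,
      integral_withDensity_eq_integral_toReal_smul hm.ennreal_ofReal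
        (Eventually.of_forall fun x => ENNReal.ofReal_lt_top),
      integral_withDensity_eq_integral_toReal_smul hm'
        (Eventually.of_forall fun x => ENNReal.ofReal_lt_top), ← sub_eq_zero, ← integral_sub,
      ← fourier hh h0 t]
    · refine integral_congr_ae (Eventually.of_forall fun x => ?_)
      change (ENNReal.ofReal (h x)).toReal • Complex.exp ((t : ℂ) * x * Complex.I) -
        (ENNReal.ofReal (-h x)).toReal • Complex.exp ((t : ℂ) * x * Complex.I) = _
      rw [← sub_smul, ENNReal.toReal_ofReal', ENNReal.toReal_ofReal', Complex.real_smul]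
      congr 2
      rcases le_total 0 (h x) with h1 | h1
      · rw [max_eq_left h1, max_eq_right (by linarith), sub_zero]
      · rw [max_eq_right h1, max_eq_left (by linarith)]
        ring
    · refine hint.mono ?_ (Eventually.of_forall fun x => ?_)
      · exact (hm.ennreal_ofReal.ennreal_toReal.aestronglyMeasurable).smul
          (by fun_prop)
      · rw [norm_smul]
        have : ‖Complex.exp ((t : ℂ) * x * Complex.I)‖ = 1 := by
          rw [← Complex.ofReal_mul]
          exact Complex.norm_exp_ofReal_mul_I _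
        rw [this, mul_one, ENNReal.toReal_ofReal', Real.norm_eq_abs, Real.norm_eq_abs,
          abs_of_nonneg (le_max_right _ _)]
        exact max_le (le_abs_self _) (abs_nonneg _)
    · refine hint.mono ?_ (Eventually.of_forall fun x => ?_)
      · exact (hm'.ennreal_toReal.aestronglyMeasurable).smul
          (by fun_prop)
      · rw [norm_smul]
        have : ‖Complex.exp ((t : ℂ) * x * Complex.I)‖ = 1 := by
          rw [← Complex.ofReal_mul]
          exact Complex.norm_exp_ofReal_mul_I _
        rw [this, mul_one, ENNReal.toReal_ofReal', Real.norm_eq_abs, Real.norm_eq_abs,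
          abs_of_nonneg (le_max_right _ _)]
        exact max_le (neg_le_abs _) (abs_nonneg _)
  have hmeas := Measure.ext_of_charFun hchar
  rw [withDensity_eq_iff_of_sigmaFinite hm.ennreal_ofReal.aemeasurable
    hm'.aemeasurable] at hmeas
  filter_upwards [hmeas] with x hx
  rw [Pi.zero_apply]
  rcases lt_trichotomy (h x) 0 with h1 | h1 | h1
  · rw [ENNReal.ofReal_of_nonpos h1.le] at hx
    have h2 := ENNReal.ofReal_eq_zero.1 hx.symm
    linarith
  · exact h1
  · rw [ENNReal.ofReal_of_nonpos (p := -h x) (by linarith)] at hx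
    have h2 := ENNReal.ofReal_eq_zero.1 hx
    linarith

/-- the class of a polynomial -/
noncomputable def T : Polynomial ℝ →ₗ[ℝ] Lp ℝ 2 gam where
  toFun P := (polyL2 P).toLp _
  map_add' P Q := by
    rw [← MemLp.toLp_add]
    congr 1
    funext x
    exact Polynomial.eval_add
  map_smul' c P := by
    rw [RingHom.id_apply, ← MemLp.toLp_const_smul]
    congr 1
    funext x
    exact Polynomial.eval_smul _ _ _

theorem T_coe (P : Polynomial ℝ) : T P =ᵐ[gam] fun x => P.eval x :=
  (polyL2 P).coeFn_toLp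

theorem inner_eq (u w : Lp ℝ 2 gam) : inner ℝ u w = ∫ x, w x * u x ∂gam := by
  rw [L2.inner_def]
  rfl

theorem orth : (LinearMap.range T)ᗮ = ⊥ := by
  rw [Submodule.eq_bot_iff]
  intro u hu
  have h1 : ∀ n : ℕ, ∫ x, u x * x ^ n ∂gam = 0 := by
    intro n
    have h2 := (Submodule.mem_orthogonal _ _).1 hu (T (Polynomial.X ^ n)) ⟨_, rfl⟩
    rw [inner_eq] at h2
    rw [← h2]
    refine integral_congr_ae ?_
    filter_upwards [T_coe (Polynomial.X ^ n)] with x hx
    rw [hx, Polynomial.eval_pow, Polynomial.eval_X]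
  have h2 := vanish (Lp.stronglyMeasurable u).measurable (Lp.memLp u) h1
  exact (Lp.eq_zero_iff_ae_eq_zero).2 h2

end Pol

open Pol in
theorem wPol : S_Pol := by
  intro f hf ε hε
  have htop : (LinearMap.range T).topologicalClosure = ⊤ :=
    (Submodule.topologicalClosure_eq_top_iff).2 orth
  have hmem : hf.toLp f ∈ closure ((LinearMap.range T : Submodule ℝ (Lp ℝ 2 gam)) : Set (Lp ℝ 2 gam)) := by
    rw [← Submodule.topologicalClosure_coe, htop]
    exact Submodule.mem_top
  obtain ⟨s, ⟨P, rfl⟩, hs⟩ := Metric.mem_closure_iff.1 hmem (Real.sqrt ε) (Real.sqrt_pos.2 hε)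
  refine ⟨P, ?_⟩
  rw [dist_eq_norm] at hs
  have h1 : ‖hf.toLp f - T P‖ ^ 2 = ∫ x, (f x - P.eval x) ^ 2 ∂gam := by
    rw [← real_inner_self_eq_norm_sq, inner_eq]
    refine integral_congr_ae ?_
    filter_upwards [Lp.coeFn_sub (hf.toLp f) (T P), hf.coeFn_toLp, T_coe P] with x h1 h2 h3
    rw [h1, Pi.sub_apply, h2, h3]
    ring
  rw [← h1]
  have h2 : ‖hf.toLp f - T P‖ ^ 2 ≤ Real.sqrt ε ^ 2 := pow_le_pow_left₀ (norm_nonneg _) hs.le 2
  rwa [Real.sq_sqrt hε.le] at h2

end Pool.Agent.Lib.MP_537232_an.NM
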