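import Pool.Agent.Lib.MP_537232_an.NM.SpecS

set_option autoImplicit false

/-!
# MP_537232_an, NM/Pre: the main step (helper59)
-/

namespace Pool.Agent.Lib.MP_537232_an.NM

open MeasureTheory ProbabilityTheory Finset Filter Topology

namespace Pre

theorem OB_mono {v : ℕ} {Γ : Fin v → Fin v → ℝ} {s s' : ℕ} {δ : ℝ} (h : OB Γ s δ) (hs : s' ≤ s) :
    OB Γ s' δ := fun J a hJ => h J a (hJ.trans hs)

/-- The approximation property of the rows. -/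
theorem apx (h4 : S_Mod) (h8 : S_Blk) {q : ℝ} (hq : 2 < q) (C : Cst q) {L : ℕ → ℕ} {N₀ : ℕ → ℕ}
    {K : ℕ → ℝ} (hA : ∀ i : ℕ, ∀ N : ℕ, N₀ i ≤ N →
      ∀ (Ω : Type) [Fintype Ω] (x : ℕ → Ω → ℝ), Model q C N x → ∀ (s : ℝ) (R : Finset ℕ),
      (s = -1 ∧ R = Rlo C.α N ∨ s = 1 ∧ R = Rhi C.α N) → ∃ c : Fin (L i) → ℝ,
        (∀ l, |c l| ≤ K i) ∧
        ∑ ω, |Xs N (range (N + 1)) x C.α ω - ∑ l, c l * Xs N R x (th C.α (s * qp l) N) ω| ^ q ≤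
          (1 / ((i : ℝ) + 1)) ^ q)
    {N r : ℕ} {Pi : ℝ} {d m v D : ℕ} (S : SiteD q C N r Pi d) (e : Fin D ≃ S.Om)
    (hN : ∀ i ≤ m, N₀ i ≤ N) (G : Fin v → ℕ → Fin d → ℝ) (hG : ∀ t, UG (G t)) (s : ℝ)
    (R : Finset ℕ) (hs : s = -1 ∧ R = Rlo C.α N ∨ s = 1 ∧ R = Rhi C.α N)
    (hR : R ⊆ range (N + 1)) (hv : 0 < vp C.α s N R) :
    ApxI q K L m (fun t ω => S.row (G t) (e ω)) (fun t (j : Bx d N R) => gv C.α s R (G t) j) := by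
  obtain ⟨-, -, hb3, hb4⟩ := h8 q hq C N r Pi d S s R hR hv
  refine ⟨fun l j ω => S.bm s R l j (e ω), ?_, ?_⟩
  · intro l a
    rw [e.sum_comp (fun ω => |∑ j, a j * S.bm s R l j ω| ^ q)]
    exact hb3 l a
  · intro i hi t
    obtain ⟨c, hc1, hc2⟩ := hA i N (hN i hi) S.Om (S.xrow (G t)) (h4 q hq C N r Pi d S (G t) (hG t))
      s R hs
    refine ⟨c, hc1, ?_⟩
    simp only [hb4]
    rw [e.sum_comp (fun ω => |S.row (G t) ω -
      ∑ l : Fin (L i), c l * Xs N R (S.xrow (G t)) (th C.α (s * qp l) N) ω| ^ q)]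
    exact hc2

end Pre

open Pre in
theorem wPre (h1 : S_Mom) (h2 : S_Sit) (h3 : S_Apl) (h4 : S_Mod) (h5 : S_Rw) (h6 : S_Hr)
    (h7 : S_Wwt) (h8 : S_Blk) (h9 : S_Cbx) (h10 : S_Sgn) (h11 : S_Fw) (h12 : S_Lw) (h13 : S_Hg)
    (h14 : S_Nu) : S_Pre := by
  intro q hq C
  have hq0 : 0 < q := by linarith
  have hq1 : 0 < q - 1 := by linarith
  have hApl := fun i : ℕ => h3 q hq C (1 / ((i : ℝ) + 1)) (by positivity)
  choose L N₀ K hK1 hK using hApl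
  refine ⟨K, L, fun m K₀ A B => ?_⟩
  -- the number of sites
  obtain ⟨N, hN2, hNi⟩ : ∃ N : ℕ, 2 ≤ N ∧ ∀ i ≤ m, N₀ i ≤ N := by
    refine ⟨2 + ∑ i ∈ range (m + 1), N₀ i, by omega, fun i hi => ?_⟩
    have := Finset.single_le_sum (f := N₀) (s := range (m + 1)) (fun _ _ => Nat.zero_le _)
      (Finset.mem_range.2 (Nat.lt_succ_of_le hi))
    omega
  have hN1 : 1 ≤ N := by omega
  obtain ⟨hvlo, hvhi, hRlo, hRhi, hkN⟩ := h7.2.2 C.α N C.α_pos C.α_lt hN1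
  obtain ⟨r, Pi, hPi, hS⟩ := h2 q hq C N hN1
  have hp1 : 1 < q / (q - 1) := by
    rw [lt_div_iff₀ hq1]
    linarith
  have hp2 : q / (q - 1) < 2 := by
    rw [div_lt_iff₀ hq1]
    linarith
  have hmq : 0 < mq (q / (q - 1)) := h1.1 _ (by linarith)
  -- constants
  obtain ⟨V2, hV2⟩ : ∃ V2 : ℝ, V2 = mq (q / (q - 1)) ^ (-(2 * ((q - 1) / q))) * Pi ^ N := ⟨_, rfl⟩
  have hV2p : 0 < V2 := by
    rw [hV2]
    positivity
  obtain ⟨μ, hμ0, hμ1, hμ2⟩ : ∃ μ : ℝ, 0 < μ ∧ μ * K₀ ≤ 1 / 2 ∧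
      2 * (m : ℝ) ^ 2 * (V2 * μ) * ((m : ℝ) + 1) ^ 2 ≤ 1 := by
    obtain ⟨Z, hZ⟩ : ∃ Z : ℝ, Z = 2 * (m : ℝ) ^ 2 * V2 * ((m : ℝ) + 1) ^ 2 := ⟨_, rfl⟩
    have hZ0 : 0 ≤ Z := by
      rw [hZ]
      positivity
    have hK0 : (0 : ℝ) ≤ K₀ := Nat.cast_nonneg _
    have hden : 0 < 2 * (K₀ : ℝ) + Z + 1 := by positivity
    refine ⟨1 / (2 * (K₀ : ℝ) + Z + 1), by positivity, ?_, ?_⟩
    · rw [div_mul_eq_mul_div, one_mul, div_le_div_iff₀ hden two_pos]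
      nlinarith
    · have : 2 * (m : ℝ) ^ 2 * (V2 * (1 / (2 * (K₀ : ℝ) + Z + 1))) * ((m : ℝ) + 1) ^ 2 =
          Z / (2 * (K₀ : ℝ) + Z + 1) := by
        rw [hZ]
        ring
      rw [this, div_le_one hden]
      linarith
  obtain ⟨k, hk⟩ : ∃ k : ℕ, k = kk C.α N := ⟨_, rfl⟩
  obtain ⟨X, hX⟩ : ∃ X : ℝ, X = 2 * ((m : ℝ) + 1) ^ 3 * V2 * (m : ℝ) ^ 2 := ⟨_, rfl⟩
  obtain ⟨d₁, hd₁, hsgn⟩ := h10 N k ((B + 1) * 2 ^ N) (r * N + k + 3) μ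
    (Nat.mul_pos (Nat.succ_pos _) (pow_pos two_pos _)) hμ0
  obtain ⟨d₂, hd₂, hnu⟩ := h14 N k r (B + 1) X
  obtain ⟨d, hd1, hd2, hdA⟩ : ∃ d : ℕ, d₁ ≤ d ∧ d₂ ≤ d ∧ A ≤ d :=
    ⟨max d₁ (max d₂ A), le_max_left _ _, (le_max_left _ _).trans (le_max_right _ _),
      (le_max_right _ _).trans (le_max_right _ _)⟩
  have hdpos : 1 ≤ d := hd₁.trans hd1
  obtain ⟨ε, hε1, hε2⟩ := hsgn d hd1
  obtain ⟨hnu1, hnu2⟩ := hnu d hd2
  obtain ⟨S⟩ := hS d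
  obtain ⟨hc1, hc2⟩ := h9 C.α d N hdpos
  rw [← hk] at hc2
  have hUG : ∀ t, UG (Gs ε t) := fun t => h12.1 _ _ ε t hdpos
  have hgg : ∀ t t' j, gg (Gs ε t j) (Gs ε t' j) = Ge (ε j) t t' := fun t t' j =>
    h12.2.1 _ _ ε t t' j hdpos
  have hBc : (B + 1) * Fintype.card (Bx d N (Rlo C.α N)) < d ^ (r * N + k + 3) :=
    lt_of_le_of_lt (Nat.mul_le_mul_left _ hc2) hnu2
  obtain ⟨D, e⟩ : ∃ D : ℕ, Nonempty (Fin D ≃ S.Om) := ⟨_, ⟨(Fintype.equivFin S.Om).symm⟩⟩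
  obtain ⟨e⟩ := e
  obtain ⟨hr1, hr2, hr3, E, hr4⟩ := h6 q hq C N r Pi d S
  have hblk1 := h8 q hq C N r Pi d S (-1) (Rlo C.α N) hRlo hvlo
  have hblk2 := h8 q hq C N r Pi d S 1 (Rhi C.α N) hRhi hvhi
  refine ⟨d ^ (r * N + k + 3), D, Bx d N (Rlo C.α N), Bx d N (Rhi C.α N), inferInstance,
    inferInstance, fun t j => gv C.α (-1) (Rlo C.α N) (Gs ε t) j,
    fun t j => gv C.α 1 (Rhi C.α N) (Gs ε t) j, fun t ω => S.row (Gs ε t) (e ω),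
    fun t ω => S.frow (Gs ε t) (e ω), ?_, ?_, ?_, ?_, ?_, ?_, ?_, ?_, ?_, ?_, ?_, ?_, ?_⟩
  · exact hdA.trans hc1
  · exact lt_of_le_of_lt (Nat.mul_le_mul_right _ (Nat.le_succ _)) hBc
  · refine lt_of_le_of_lt ?_ hBc
    calc Fintype.card (Bx d N (Rlo C.α N)) = 1 * Fintype.card (Bx d N (Rlo C.α N)) :=
          (one_mul _).symm
      _ ≤ _ := Nat.mul_le_mul_right _ (Nat.succ_le_succ (Nat.zero_le _))
  · intro t
    exact hblk1.2.1 _ (hUG t)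
  · intro t t' htt
    refine le_trans (mul_le_mul_of_nonneg_right ?_ (Nat.cast_nonneg _)) hμ1
    exact (h12.2.2 q hq C N _ d ε t t' hN1 hdpos).trans (hε1 t t' htt)
  · intro t
    exact hblk2.2.1 _ (hUG t)
  · refine OB_mono (s := (B + 1) * 2 ^ N * d ^ (k + 1)) ?_ ?_
    · refine h13 q hq C N _ d _ ε hN1 hdpos ?_
      rw [← hk]
      exact hε2
    · calc B * Fintype.card (Bx d N (Rlo C.α N)) ≤ (B + 1) * (2 ^ N * d ^ (k + 1)) :=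
            Nat.mul_le_mul (Nat.le_succ _) hc2
        _ = _ := by ring
  · intro t
    rw [e.sum_comp (fun ω => |S.row (Gs ε t) ω| ^ q)]
    exact (h5 q hq C N r Pi d S _ hN2 (hUG t)).1
  · intro t
    rw [e.sum_comp (fun ω => |S.frow (Gs ε t) ω| ^ (q / (q - 1)))]
    exact (h5 q hq C N r Pi d S _ hN2 (hUG t)).2.1
  · intro t
    rw [e.sum_comp (fun ω => S.frow (Gs ε t) ω * S.row (Gs ε t) ω)]
    exact (h5 q hq C N r Pi d S _ hN2 (hUG t)).2.2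
  · exact apx h4 h8 hq C hK S e hNi (fun t => Gs ε t) hUG (-1) _ (Or.inl ⟨rfl, rfl⟩) hRlo hvlo
  · exact apx h4 h8 hq C hK S e hNi (fun t => Gs ε t) hUG 1 _ (Or.inr ⟨rfl, rfl⟩) hRhi hvhi
  · have hfew := h11 (q / (q - 1)) hp1 hp2 (d ^ (r * N + k + 3)) D (d * (1 + d) ^ (r * N)) m
      (fun ω => S.wt (e ω)) (fun t ω => S.hrow (Gs ε t) (e ω)) (fun i ω => E i (e ω)) V2 (V2 * μ)
      (fun ω => hr2 _) (by
        rw [e.sum_comp (fun ω => S.wt ω)]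
        exact hr1) (fun t => by
        obtain ⟨c, hc⟩ := hr4 (Gs ε t) (hUG t)
        exact ⟨c, fun ω => hc _⟩) (fun t => by
        rw [e.sum_comp (fun ω => S.wt ω * S.hrow (Gs ε t) ω ^ 2)]
        have h := hr3 (Gs ε t) (Gs ε t) (hUG t) (hUG t)
        have hg1 : gg (Gs ε t 0) (Gs ε t 0) = 1 := by
          rw [← hUG t 0]
          unfold gg
          exact Finset.sum_congr rfl fun i _ => (sq _).symm
        rw [hg1, abs_one, mul_one, ← hV2] at h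
        refine le_trans (le_of_eq ?_) ((le_abs_self _).trans h)
        refine Finset.sum_congr rfl fun ω _ => ?_
        rw [sq]) (fun t t' htt => by
        rw [e.sum_comp (fun ω => S.wt ω * (S.hrow (Gs ε t) ω * S.hrow (Gs ε t') ω))]
        refine (hr3 (Gs ε t) (Gs ε t') (hUG t) (hUG t')).trans ?_
        rw [hgg]
        calc mq (q / (q - 1)) ^ (-(2 * ((q - 1) / q))) * |Ge (ε 0) t t'| * Pi ^ N
            = V2 * |Ge (ε 0) t t'| := by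
              rw [hV2]
              ring
          _ ≤ V2 * μ := mul_le_mul_of_nonneg_left (hε1 t t' htt) hV2p.le) hV2p.le
      (mul_pos hV2p hμ0).le hμ2 (by
        rw [← hX]
        exact hnu1)
    have h1p : 1 / (q / (q - 1)) = (q - 1) / q := one_div_div q (q - 1)
    rw [h1p] at hfew
    exact hfew

end Pool.Agent.Lib.MP_537232_an.NM
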