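import Pool.Agent.Lib.MP_537232_an.NM.SpecC

set_option autoImplicit false

namespace Pool.Agent.Lib.MP_537232_an.NM

open MeasureTheory ProbabilityTheory Finset

namespace Rnk

/-- `f` is a combination of monomials of degree at most `r` -/
private def Q (d r : ℕ) (f : (Fin d → ℝ) → ℝ) : Prop :=
  ∃ c : (Fin r → Option (Fin d)) → ℝ, ∀ x : Fin d → ℝ, f x = ∑ τ, c τ * ∏ l, (τ l).elim 1 x

private theorem Q.zero (d r : ℕ) : Q d r (fun _ => 0) := ⟨fun _ => 0, fun x => by simp⟩

private theorem Q.add {d r : ℕ} {f g : (Fin d → ℝ) → ℝ} (hf : Q d r f) (hg : Q d r g) :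
    Q d r (fun x => f x + g x) := by
  obtain ⟨c, hc⟩ := hf
  obtain ⟨c', hc'⟩ := hg
  refine ⟨fun τ => c τ + c' τ, fun x => ?_⟩
  simp only []
  rw [hc, hc', ← Finset.sum_add_distrib]
  exact Finset.sum_congr rfl fun τ _ => by ring

private theorem Q.smul {d r : ℕ} {f : (Fin d → ℝ) → ℝ} (a : ℝ) (hf : Q d r f) :
    Q d r (fun x => a * f x) := by
  obtain ⟨c, hc⟩ := hf
  refine ⟨fun τ => a * c τ, fun x => ?_⟩
  simp only []
  rw [hc, Finset.mul_sum]
  exact Finset.sum_congr rfl fun τ _ => by ring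

private theorem Q.step {d r : ℕ} {f : (Fin d → ℝ) → ℝ} (a : ℝ) (g : Fin d → ℝ) (hf : Q d r f) :
    Q d (r + 1) (fun x => f x * (a + ∑ i, g i * x i)) := by
  obtain ⟨c, hc⟩ := hf
  refine ⟨fun τ => (τ 0).elim a g * c (Fin.tail τ), fun x => ?_⟩
  simp only []
  rw [← (Fin.consEquiv fun _ : Fin (r + 1) => Option (Fin d)).sum_comp]
  rw [Fintype.sum_prod_type, Fintype.sum_option]
  have hcons : ∀ p : Option (Fin d) × (Fin r → Option (Fin d)),
      (Fin.consEquiv fun _ : Fin (r + 1) => Option (Fin d)) p = Fin.cons p.1 p.2 := fun _ => rfl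
  simp only [hcons, Fin.cons_zero, Fin.tail_cons, Fin.prod_univ_succ, Fin.cons_succ,
    Option.elim_none, Option.elim_some]
  rw [hc, mul_add, Finset.mul_sum, Finset.sum_mul]
  congr 1
  · exact Finset.sum_congr rfl fun τ _ => by ring
  · refine Finset.sum_congr rfl fun i _ => ?_
    rw [Finset.sum_mul]
    exact Finset.sum_congr rfl fun τ _ => by ring

private theorem Q.up {d r : ℕ} {f : (Fin d → ℝ) → ℝ} (hf : Q d r f) : Q d (r + 1) f := by
  have h := hf.step 1 (fun _ => 0)
  simpa using h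

private theorem Q.mono {d r s : ℕ} {f : (Fin d → ℝ) → ℝ} (hrs : r ≤ s) (hf : Q d r f) : Q d s f := by
  induction hrs with
  | refl => exact hf
  | step _ ih => exact ih.up

private theorem Q.pow {d : ℕ} (g : Fin d → ℝ) (m : ℕ) : Q d m (fun x => (∑ i, g i * x i) ^ m) := by
  induction m with
  | zero => exact ⟨fun _ => 1, fun x => by simp⟩
  | succ m ih =>
    have h := ih.step 0 g
    simpa [pow_succ] using h

end Rnk

open Rnk in
theorem wRnk : S_Rnk := by
  intro P d g
  have h : ∀ s : Finset ℕ, (∀ m ∈ s, m ≤ P.natDegree) →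
      Q d P.natDegree (fun x => ∑ m ∈ s, P.coeff m * (∑ i, g i * x i) ^ m) := by
    intro s
    induction s using Finset.induction_on with
    | empty => intro _; simpa using Q.zero d P.natDegree
    | insert a s ha ih =>
      intro hs
      have h1 := ((Q.pow g a).mono (hs a (Finset.mem_insert_self a s))).smul (P.coeff a)
      have h2 := ih (fun m hm => hs m (Finset.mem_insert_of_mem hm))
      have h3 := h1.add h2
      simpa [Finset.sum_insert ha] using h3
  obtain ⟨c, hc⟩ := h (range (P.natDegree + 1)) (fun m hm => by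
    have := Finset.mem_range.1 hm
    omega)
  refine ⟨c, fun x => ?_⟩
  rw [← hc x, Polynomial.eval_eq_sum_range]

end Pool.Agent.Lib.MP_537232_an.NM
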