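import Pool.Agent.Lib.MP_537232_an.NM.SpecS

set_option autoImplicit false

/-!
# MP_537232_an, directory NM: proof of `Rp`
-/

namespace Pool.Agent.Lib.MP_537232_an.NM

open Finset

private theorem normsq {u v : ℕ} (g : Fin v → EuclideanSpace ℝ (Fin u)) (J : Finset (Fin v)) (a : Fin v → ℝ) :
    ‖∑ i ∈ J, a i • g i‖ ^ 2 = ∑ t ∈ J, ∑ t' ∈ J, a t * a t' * inner ℝ (g t) (g t') := by
  rw [← real_inner_self_eq_norm_sq, sum_inner]
  refine Finset.sum_congr rfl fun t _ => ?_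
  rw [inner_sum]
  refine Finset.sum_congr rfl fun t' _ => ?_
  rw [real_inner_smul_left, real_inner_smul_right]
  ring

theorem wRp : S_Rp := by
  intro u v s K g hK hg hOB
  refine ⟨hg, fun J hJ => ?_⟩
  have hJs : J.card ≤ s := by exact_mod_cast hJ.trans hK
  have key : ∀ a : Fin v → ℝ, |‖∑ i ∈ J, a i • g i‖ ^ 2 - ∑ t ∈ J, a t ^ 2| ≤ 1 / 2 * ∑ t ∈ J, a t ^ 2 := by
    intro a
    rw [normsq]
    exact hOB J a hJs
  have hnn : ∀ a : Fin v → ℝ, 0 ≤ ∑ t ∈ J, a t ^ 2 := fun a => Finset.sum_nonneg fun t _ => sq_nonneg _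
  refine ⟨fun a => ?_, fun a => ?_, fun x => ?_⟩
  · have h := abs_le.1 (key a)
    linarith [h.1, h.2]
  · have h := abs_le.1 (key a)
    linarith [h.1, h.2, hnn a]
  · set a : Fin v → ℝ := fun i => inner ℝ x (g i) with ha
    set A : ℝ := ∑ i ∈ J, a i ^ 2 with hA
    have h1 : A = inner ℝ x (∑ i ∈ J, a i • g i) := by
      rw [inner_sum, hA]
      refine Finset.sum_congr rfl fun i _ => ?_
      rw [real_inner_smul_right, ha]
      ring
    have h2 : A ≤ ‖x‖ * ‖∑ i ∈ J, a i • g i‖ := by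
      rw [h1]
      exact real_inner_le_norm _ _
    have h3 : ‖∑ i ∈ J, a i • g i‖ ^ 2 ≤ 2 * A := by
      have h := abs_le.1 (key a)
      have := hnn a
      linarith [h.1, h.2]
    have hA0 : 0 ≤ A := hnn a
    have h4 : A ^ 2 ≤ ‖x‖ ^ 2 * (2 * A) := by
      calc A ^ 2 ≤ (‖x‖ * ‖∑ i ∈ J, a i • g i‖) ^ 2 := by gcongr
        _ = ‖x‖ ^ 2 * ‖∑ i ∈ J, a i • g i‖ ^ 2 := by ring
        _ ≤ ‖x‖ ^ 2 * (2 * A) := by gcongr
    show A ≤ 2 * ‖x‖ ^ 2
    rcases hA0.eq_or_lt with h0 | h0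
    · rw [← h0]; positivity
    · have : A * A ≤ A * (2 * ‖x‖ ^ 2) := by nlinarith
      exact le_of_mul_le_mul_left this h0

end Pool.Agent.Lib.MP_537232_an.NM
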