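import Pool.Agent.Lib.MP_537232_an.NM.SpecD

set_option autoImplicit false

/-!
# MP_537232_an, directory NM, Rw: the rows and the functionals
-/

namespace Pool.Agent.Lib.MP_537232_an.NM

open MeasureTheory ProbabilityTheory Finset Filter Topology

namespace RwAux

private theorem prodsum {α β : Type} [Fintype α] [Fintype β] {N : ℕ} (a : α → ℝ)
    (b : Fin N → β → ℝ) :
    ∑ ω : α × (Fin N → β), a ω.1 * ∏ j, b j (ω.2 j) = (∑ k, a k) * ∏ j, ∑ k, b j k := by
  classical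
  rw [Fintype.sum_prod_type, Finset.prod_univ_sum, Finset.sum_mul_sum, Fintype.piFinset_univ]

private theorem quarter (N : ℕ) (hN : 2 ≤ N) : (1 / 4 : ℝ) ≤ (1 - 1 / (N : ℝ)) ^ N := by
  have hN2 : (2 : ℝ) ≤ N := by exact_mod_cast hN
  have hN0 : (0 : ℝ) < N := by linarith
  have h1 : (1 : ℝ) / N ≤ 1 / 2 := one_div_le_one_div_of_le (by norm_num) hN2
  have h2 := one_add_mul_self_le_rpow_one_add (s := -(1 / (N : ℝ))) (by linarith)
    (p := (N : ℝ) / 2) (by linarith)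
  have h3 : 1 + (N : ℝ) / 2 * -(1 / (N : ℝ)) = 1 / 2 := by
    field_simp
    norm_num
  rw [h3] at h2
  have h4 : (1 + -(1 / (N : ℝ))) = 1 - 1 / (N : ℝ) := by ring
  rw [h4] at h2
  have h5 : (1 - 1 / (N : ℝ)) ^ N = ((1 - 1 / (N : ℝ)) ^ ((N : ℝ) / 2)) ^ 2 := by
    rw [← Real.rpow_natCast, ← Real.rpow_natCast, ← Real.rpow_mul (by linarith)]
    congr 1
    push_cast
    ring
  rw [h5]
  nlinarith

variable {q : ℝ} {C : Cst q} {N r : ℕ} {Pi : ℝ} {d : ℕ} (S : SiteD q C N r Pi d)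

private theorem wtn (ω : S.Om) : 0 ≤ S.wt ω :=
  mul_nonneg (S.P_nonneg _) (Finset.prod_nonneg fun _ _ => S.P_nonneg _)

private theorem linsq (g : Fin d → ℝ) (hg : ∑ i, g i ^ 2 = 1) :
    ∑ ω, S.P ω * S.lin g ω ^ 2 = S.v := by
  have h1 : ∀ ω, S.P ω * S.lin g ω ^ 2 =
      ∑ i, ∑ j, g i * g j * (S.P ω * (S.ξ i ω * S.ξ j ω)) := by
    intro ω
    rw [pow_two, SiteD.lin, Finset.sum_mul_sum, Finset.mul_sum]
    refine Finset.sum_congr rfl fun i _ => ?_
    rw [Finset.mul_sum]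
    exact Finset.sum_congr rfl fun j _ => by ring
  rw [Finset.sum_congr rfl fun ω _ => h1 ω, Finset.sum_comm]
  have h2 : ∀ i, ∑ ω, ∑ j, g i * g j * (S.P ω * (S.ξ i ω * S.ξ j ω)) = S.v * g i ^ 2 := by
    intro i
    rw [Finset.sum_comm]
    have h3 : ∀ j, ∑ ω, g i * g j * (S.P ω * (S.ξ i ω * S.ξ j ω)) =
        if i = j then S.v * (g i * g j) else 0 := by
      intro j
      rw [← Finset.mul_sum, S.cov]
      split <;> ring
    rw [Finset.sum_congr rfl fun j _ => h3 j, Finset.sum_ite_eq]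
    simp [pow_two]
  rw [Finset.sum_congr rfl fun i _ => h2 i, ← Finset.mul_sum, hg, mul_one]

/-- the row as a product -/
private theorem row_eq (G : ℕ → Fin d → ℝ) (ω : S.Om) :
    S.row G ω = S.wt ω ^ (1 / q) * mq q ^ (-(1 / q)) * S.lin (G 0) ω.1 * (C.σ ^ N)⁻¹ *
      ∏ l : Fin N, (Real.sin C.α * (kap q * S.lin (G (l + 1)) (ω.2 l)) + Real.cos C.α) := by
  rw [prod_add, sum_powerset, card_univ, Fintype.card_fin, mul_sum]
  unfold SiteD.row Xs
  refine sum_congr rfl fun m _ => ?_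
  unfold SiteD.xrow co
  have h1 : ∀ t ∈ powersetCard m (univ : Finset (Fin N)),
      (∏ l ∈ t, Real.sin C.α * (kap q * S.lin (G (l + 1)) (ω.2 l))) *
        ∏ l ∈ univ \ t, Real.cos C.α = Real.cos C.α ^ (N - m) * Real.sin C.α ^ m *
        (∏ l ∈ t, kap q * S.lin (G (l + 1)) (ω.2 l)) := by
    intro t ht
    have h2 := mem_powersetCard.1 ht
    rw [prod_mul_distrib, prod_const, prod_const, h2.2, card_univ_sdiff, Fintype.card_fin, h2.2]
    ring
  rw [sum_congr rfl h1, ← mul_sum]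
  ring

private theorem frow_pow (hMom : S_Mom) (hq : 2 < q) (G : ℕ → Fin d → ℝ) (ω : S.Om) :
    |S.frow G ω| ^ (q / (q - 1)) =
      (S.P ω.1 * |S.lin (G 0) ω.1| ^ (q / (q - 1)) * (mq (q / (q - 1)))⁻¹) *
        ∏ l : Fin N, (S.P (ω.2 l) * |S.fp (G (l + 1)) (ω.2 l)| ^ (q / (q - 1))) := by
  have hq0 : 0 < q := by linarith
  have hq1 : 0 < q - 1 := by linarith
  have hm : 0 < mq (q / (q - 1)) := hMom.1 _ (div_nonneg hq0.le hq1.le)
  unfold SiteD.frow SiteD.hrow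
  rw [abs_mul, abs_mul, abs_mul, abs_of_nonneg (Real.rpow_nonneg (wtn S ω) _),
    abs_of_nonneg (Real.rpow_nonneg hm.le _), abs_prod,
    Real.mul_rpow (Real.rpow_nonneg (wtn S ω) _) (mul_nonneg (mul_nonneg
      (Real.rpow_nonneg hm.le _) (abs_nonneg _)) (prod_nonneg fun _ _ => abs_nonneg _)),
    Real.mul_rpow (mul_nonneg (Real.rpow_nonneg hm.le _) (abs_nonneg _))
      (prod_nonneg fun _ _ => abs_nonneg _),
    Real.mul_rpow (Real.rpow_nonneg hm.le _) (abs_nonneg _),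
    ← Real.finsetProd_rpow _ _ (fun _ _ => abs_nonneg _),
    ← Real.rpow_mul (wtn S ω), ← Real.rpow_mul hm.le]
  have h1 : (q - 1) / q * (q / (q - 1)) = 1 := by
    field_simp
  have h2 : -((q - 1) / q) * (q / (q - 1)) = -1 := by
    rw [neg_mul, h1]
  rw [h1, h2, Real.rpow_one, Real.rpow_neg_one, prod_mul_distrib]
  unfold SiteD.wt
  ring

end RwAux

open RwAux in
theorem wRw (h1 : S_Mom) (h2 : S_Mod) : S_Rw := by
  intro q hq C N r Pi d S G hN hG
  have hq0 : 0 < q := by linarith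
  have hq1 : 0 < q - 1 := by linarith
  have hmq : 0 < mq q := h1.1 q hq0.le
  have hm : 0 < mq (q / (q - 1)) := h1.1 _ (div_nonneg hq0.le hq1.le)
  have hσ : 0 < C.σ := C.σ_pos
  have hσq : 0 < C.σ ^ q := Real.rpow_pos_of_pos hσ q
  refine ⟨?_, ?_, ?_⟩
  · have h3 := (h2 q hq C N r Pi d S G hG).cpx (C.α : ℂ)
    have h4 : MC (kap q) q (C.α : ℂ) = C.σ ^ q := by
      rw [← C.att]
      unfold MC MR
      refine integral_congr_ae (Filter.Eventually.of_forall fun x => ?_)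
      show ‖Complex.cos (C.α : ℂ) + ((kap q : ℝ) : ℂ) * Complex.sin (C.α : ℂ) * (x : ℂ)‖ ^ q =
        |Yv (kap q) C.α x| ^ q
      have h5 : Complex.cos (C.α : ℂ) + ((kap q : ℝ) : ℂ) * Complex.sin (C.α : ℂ) * (x : ℂ) =
          ((Yv (kap q) C.α x : ℝ) : ℂ) := by
        unfold Yv
        push_cast
        rfl
      rw [h5, Complex.norm_real, Real.norm_eq_abs]
    rw [h4, div_self hσq.ne', one_pow] at h3
    have h6 : ∀ ω, ‖Xc N (S.xrow G) (C.α : ℂ) ω‖ = |S.row G ω| := by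
      intro ω
      have h7 : Xc N (S.xrow G) (C.α : ℂ) ω = ((S.row G ω : ℝ) : ℂ) := by
        unfold Xc SiteD.row Xs co
        push_cast
        rfl
      rw [h7, Complex.norm_real, Real.norm_eq_abs]
    simp only [h6] at h3
    exact h3
  · rw [sum_congr rfl fun ω _ => frow_pow S h1 hq G ω]
    have h0 := prodsum (N := N) (fun k : Fin S.K => S.P k * |S.lin (G 0) k| ^ (q / (q - 1)) *
      (mq (q / (q - 1)))⁻¹) (fun l (k : Fin S.K) => S.P k * |S.fp (G (l + 1)) k| ^ (q / (q - 1)))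
    have h0' : ∑ ω : S.Om, (S.P ω.1 * |S.lin (G 0) ω.1| ^ (q / (q - 1)) *
      (mq (q / (q - 1)))⁻¹) *
        ∏ l : Fin N, (S.P (ω.2 l) * |S.fp (G (l + 1)) (ω.2 l)| ^ (q / (q - 1))) = _ := h0
    rw [h0']
    have h3 : ∑ k : Fin S.K, S.P k * |S.lin (G 0) k| ^ (q / (q - 1)) *
        (mq (q / (q - 1)))⁻¹ ≤ 1 := by
      rw [← sum_mul, ← div_eq_mul_inv, div_le_one hm]
      exact S.domp (G 0) (hG 0)
    have h4 : ∀ l : Fin N, 0 ≤ ∑ k : Fin S.K, S.P k * |S.fp (G (l + 1)) k| ^ (q / (q - 1)) :=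
      fun l => sum_nonneg fun k _ => mul_nonneg (S.P_nonneg k)
        (Real.rpow_nonneg (abs_nonneg _) _)
    have h5 : ∏ l : Fin N, ∑ k : Fin S.K, S.P k * |S.fp (G (l + 1)) k| ^ (q / (q - 1)) ≤ 1 :=
      prod_le_one (fun l _ => h4 l) fun l _ => S.fp_p (G (l + 1)) (hG _)
    exact mul_le_one₀ h3 (prod_nonneg fun l _ => h4 l) h5
  · -- the pairing
    have h3 : ∀ ω : S.Om, S.frow G ω * S.row G ω =
        (mq (q / (q - 1)) ^ (-((q - 1) / q)) * mq q ^ (-(1 / q))) *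
        ((S.P ω.1 * S.lin (G 0) ω.1 ^ 2) * ∏ l : Fin N, (S.P (ω.2 l) *
          (S.fp (G (l + 1)) (ω.2 l) * (Real.cos C.α + kap q * Real.sin C.α *
            S.lin (G (l + 1)) (ω.2 l))) * C.σ⁻¹)) := by
      intro ω
      have h4 : S.wt ω ^ ((q - 1) / q) * S.wt ω ^ (1 / q) = S.wt ω := by
        rw [← Real.rpow_add_of_nonneg (wtn S ω) (by positivity) (by positivity)]
        have h5 : (q - 1) / q + 1 / q = 1 := by
          field_simp
          ring
        rw [h5, Real.rpow_one]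
      rw [row_eq]
      unfold SiteD.frow SiteD.hrow
      have h6 : ∀ l : Fin N, Real.sin C.α * (kap q * S.lin (G (l + 1)) (ω.2 l)) + Real.cos C.α =
          Real.cos C.α + kap q * Real.sin C.α * S.lin (G (l + 1)) (ω.2 l) := by
        intro l
        ring
      simp only [h6]
      rw [prod_mul_distrib, prod_mul_distrib, prod_mul_distrib, prod_const, card_univ,
        Fintype.card_fin, inv_pow]
      calc _ = (S.wt ω ^ ((q - 1) / q) * S.wt ω ^ (1 / q)) *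
          (mq (q / (q - 1)) ^ (-((q - 1) / q)) * mq q ^ (-(1 / q)) * S.lin (G 0) ω.1 ^ 2 *
          (∏ l : Fin N, S.fp (G (l + 1)) (ω.2 l)) * (∏ l : Fin N, (Real.cos C.α +
            kap q * Real.sin C.α * S.lin (G (l + 1)) (ω.2 l))) * (C.σ ^ N)⁻¹) := by ring
        _ = _ := by
          rw [h4]
          unfold SiteD.wt
          ring
    rw [sum_congr rfl fun ω _ => h3 ω, ← mul_sum]
    have h0 := prodsum (N := N) (fun k : Fin S.K => S.P k * S.lin (G 0) k ^ 2)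
      (fun l (k : Fin S.K) => S.P k * (S.fp (G (l + 1)) k * (Real.cos C.α +
        kap q * Real.sin C.α * S.lin (G (l + 1)) k)) * C.σ⁻¹)
    have h0' : ∑ ω : S.Om, ((S.P ω.1 * S.lin (G 0) ω.1 ^ 2) * ∏ l : Fin N, (S.P (ω.2 l) *
          (S.fp (G (l + 1)) (ω.2 l) * (Real.cos C.α + kap q * Real.sin C.α *
            S.lin (G (l + 1)) (ω.2 l))) * C.σ⁻¹)) = _ := h0
    rw [h0', linsq S (G 0) (hG 0)]
    have hN2 : (2 : ℝ) ≤ N := by exact_mod_cast hN
    have h7 : (1 : ℝ) / N ≤ 1 / 2 := one_div_le_one_div_of_le (by norm_num) hN2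
    have h8 : ∀ l : Fin N, 1 - 1 / (N : ℝ) ≤ ∑ k : Fin S.K, S.P k * (S.fp (G (l + 1)) k *
        (Real.cos C.α + kap q * Real.sin C.α * S.lin (G (l + 1)) k)) * C.σ⁻¹ := by
      intro l
      rw [← sum_mul, ← div_eq_mul_inv, le_div_iff₀ hσ, mul_comm]
      exact S.fp_pair (G (l + 1)) (hG _)
    have h9 : (1 / 4 : ℝ) ≤ ∏ l : Fin N, ∑ k : Fin S.K, S.P k * (S.fp (G (l + 1)) k *
        (Real.cos C.α + kap q * Real.sin C.α * S.lin (G (l + 1)) k)) * C.σ⁻¹ := by
      refine (quarter N hN).trans ?_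
      have h10 : (1 - 1 / (N : ℝ)) ^ N = ∏ _l : Fin N, (1 - 1 / (N : ℝ)) := by
        rw [prod_const, card_univ, Fintype.card_fin]
      rw [h10]
      exact prod_le_prod (fun _ _ => by linarith) fun l _ => h8 l
    have h11 : c0 q = (mq (q / (q - 1)) ^ (-((q - 1) / q)) * mq q ^ (-(1 / q))) * (1 / 8) := by
      unfold c0
      rw [Real.rpow_neg hm.le, Real.rpow_neg hmq.le, ← mul_inv, one_div, mul_inv]
      ring
    rw [h11]
    refine mul_le_mul_of_nonneg_left ?_ (mul_nonneg (Real.rpow_nonneg hm.le _)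
      (Real.rpow_nonneg hmq.le _))
    calc (1 / 8 : ℝ) = 1 / 2 * (1 / 4) := by norm_num
      _ ≤ _ := mul_le_mul S.v_low h9 (by norm_num) (by linarith [S.v_low])

end Pool.Agent.Lib.MP_537232_an.NM
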