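import Pool.Agent.Lib.MP_537232_an.NM.SpecA

set_option autoImplicit false

namespace Pool.Agent.Lib.MP_537232_an.NM

open MeasureTheory ProbabilityTheory Finset Filter Topology

private theorem sd1 (q : ℝ) (hq : 2 < q) (t : ℝ) :
    HasDerivAt (fun x : ℝ => |x| ^ q) (q * (|t| ^ (q - 2) * t)) t := by
  have := hasDerivAt_abs_rpow t (p := q) (by linarith)
  rwa [mul_assoc] at this

private theorem sd2 (r : ℝ) (hr : 0 < r) (t : ℝ) :
    HasDerivAt (fun x : ℝ => |x| ^ r * x) ((r + 1) * |t| ^ r) t := by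
  rcases eq_or_ne t 0 with rfl | ht
  · rw [hasDerivAt_iff_tendsto_slope_zero]
    have h1 : Tendsto (fun t : ℝ => |t| ^ r) (𝓝[≠] 0) (𝓝 ((r + 1) * |(0 : ℝ)| ^ r)) := by
      have h2 : Tendsto (fun t : ℝ => |t| ^ r) (𝓝 0) (𝓝 (|(0 : ℝ)| ^ r)) :=
        (continuous_abs.rpow_const (fun _ => Or.inr hr.le)).tendsto 0
      have h3 : |(0 : ℝ)| ^ r = 0 := by rw [abs_zero, Real.zero_rpow hr.ne']
      rw [h3] at h2 ⊢
      rw [mul_zero]
      exact h2.mono_left nhdsWithin_le_nhds
    refine h1.congr' ?_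
    filter_upwards [self_mem_nhdsWithin] with s hs
    have hs0 : s ≠ 0 := hs
    simp only [zero_add, mul_zero, sub_zero, smul_eq_mul]
    field_simp
  · have ha : HasDerivAt (fun x : ℝ => |x|) ((SignType.sign t : ℝ)) t := hasDerivAt_abs ht
    have h1 := ha.rpow_const (p := r) (Or.inl (abs_ne_zero.2 ht))
    have h2 := h1.mul (hasDerivAt_id t)
    have h3 : (SignType.sign t : ℝ) * t = |t| := sign_mul_self t
    have h4 : |t| ^ (r - 1) * |t| = |t| ^ r := by
      rw [← Real.rpow_add_one (abs_ne_zero.2 ht)]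
      congr 1
      ring
    have h5 : (SignType.sign t : ℝ) * r * |t| ^ (r - 1) * id t + |t| ^ r * 1 =
        (r + 1) * |t| ^ r := by
      have : (SignType.sign t : ℝ) * r * |t| ^ (r - 1) * id t =
          r * (|t| ^ (r - 1) * ((SignType.sign t : ℝ) * t)) := by
        simp only [id]
        ring
      rw [this, h3, h4]
      ring
    rw [h5] at h2
    exact h2

/-- the numerator -/
private noncomputable def sdf (q y z s : ℝ) : ℝ := |y + s * z| ^ q + |y - s * z| ^ q - 2 * |y| ^ q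

private noncomputable def sdf' (q y z s : ℝ) : ℝ :=
  q * z * (|y + s * z| ^ (q - 2) * (y + s * z) - |y - s * z| ^ (q - 2) * (y - s * z))

private theorem sdf_deriv (q : ℝ) (hq : 2 < q) (y z s : ℝ) :
    HasDerivAt (sdf q y z) (sdf' q y z s) s := by
  have h1 : HasDerivAt (fun s : ℝ => y + s * z) z s := by
    simpa using ((hasDerivAt_id s).mul_const z).const_add y
  have h2 : HasDerivAt (fun s : ℝ => y - s * z) (-z) s := by
    simpa using ((hasDerivAt_id s).mul_const z).const_sub y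
  have h3 := (sd1 q hq (y + s * z)).comp s h1
  have h4 := (sd1 q hq (y - s * z)).comp s h2
  have h5 := (h3.add h4).sub_const (2 * |y| ^ q)
  have h6 : q * (|y + s * z| ^ (q - 2) * (y + s * z)) * z +
      q * (|y - s * z| ^ (q - 2) * (y - s * z)) * -z = sdf' q y z s := by
    unfold sdf'
    ring
  rw [h6] at h5
  exact h5

private theorem sdf_zero (q y z : ℝ) : sdf q y z 0 = 0 := by
  unfold sdf
  simp only [zero_mul, add_zero, sub_zero]
  ring

private theorem sdf_lim (q : ℝ) (hq : 2 < q) (y z : ℝ) :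
    Tendsto (fun s => sdf q y z s / s ^ 2) (𝓝[≠] 0) (𝓝 (q * (q - 1) * (|y| ^ (q - 2) * z ^ 2))) := by
  refine HasDerivAt.lhopital_zero_nhdsNE (f' := sdf' q y z) (g' := fun s => 2 * s)
    (Eventually.of_forall fun s => sdf_deriv q hq y z s) (Eventually.of_forall fun s => ?_) ?_ ?_ ?_ ?_
  · simpa using hasDerivAt_pow 2 s
  · filter_upwards [self_mem_nhdsWithin] with s hs
    exact mul_ne_zero two_ne_zero hs
  · have h1 : Tendsto (sdf q y z) (𝓝 0) (𝓝 (sdf q y z 0)) :=
      (sdf_deriv q hq y z 0).continuousAt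
    rw [sdf_zero] at h1
    exact h1.mono_left nhdsWithin_le_nhds
  · have h1 : Tendsto (fun s : ℝ => s ^ 2) (𝓝 0) (𝓝 (0 ^ 2)) := (continuous_pow 2).tendsto 0
    rw [zero_pow two_ne_zero] at h1
    exact h1.mono_left nhdsWithin_le_nhds
  · -- the derivative of `sdf'` at `0`
    have h1 : HasDerivAt (fun s : ℝ => y + s * z) z 0 := by
      simpa using ((hasDerivAt_id (0 : ℝ)).mul_const z).const_add y
    have h2 : HasDerivAt (fun s : ℝ => y - s * z) (-z) 0 := by
      simpa using ((hasDerivAt_id (0 : ℝ)).mul_const z).const_sub y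
    have hr : 0 < q - 2 := by linarith
    have h3 := (sd2 (q - 2) hr (y + 0 * z)).comp 0 h1
    have h4 := (sd2 (q - 2) hr (y - 0 * z)).comp 0 h2
    have h5 := (h3.sub h4).const_mul (q * z)
    have h6 := h5.tendsto_slope_zero
    have h7 : Tendsto (fun t : ℝ => sdf' q y z t / (2 * t)) (𝓝[≠] 0)
        (𝓝 ((q * z * ((q - 2 + 1) * |y + 0 * z| ^ (q - 2) * z -
          (q - 2 + 1) * |y - 0 * z| ^ (q - 2) * -z)) / 2)) := by
      refine (h6.div_const 2).congr' ?_
      filter_upwards [self_mem_nhdsWithin] with s hs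
      have hs0 : s ≠ 0 := hs
      unfold sdf'
      simp only [Function.comp, Pi.sub_apply, zero_add, zero_mul, add_zero, sub_zero, smul_eq_mul]
      field_simp
      ring
    have h8 : (q * z * ((q - 2 + 1) * |y + 0 * z| ^ (q - 2) * z -
          (q - 2 + 1) * |y - 0 * z| ^ (q - 2) * -z)) / 2 = q * (q - 1) * (|y| ^ (q - 2) * z ^ 2) := by
      rw [zero_mul, add_zero, sub_zero]
      ring
    rw [h8] at h7
    exact h7

private theorem sdf_bound (q : ℝ) (hq : 2 < q) (y z s : ℝ) (hs : |s| ≤ 1) :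
    |sdf q y z s| ≤ 2 * q * (q - 1) * (|y| + |z|) ^ (q - 2) * z ^ 2 * s ^ 2 := by
  have hr : 0 < q - 2 := by linarith
  set M : ℝ := |y| + |z| with hM
  have hM0 : 0 ≤ M := by positivity
  have hin : ∀ t : ℝ, |t| ≤ 1 → y + t * z ∈ Set.Icc (-M) M ∧ y - t * z ∈ Set.Icc (-M) M := by
    intro t ht
    have h1 : |t * z| ≤ |z| := by
      rw [abs_mul]
      exact mul_le_of_le_one_left (abs_nonneg z) ht
    have h2 : |y + t * z| ≤ M := (abs_add_le _ _).trans (by linarith)
    have h3 : |y - t * z| ≤ M := (abs_sub _ _).trans (by linarith)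
    exact ⟨abs_le.1 h2, abs_le.1 h3⟩
  have hg : ∀ u ∈ Set.Icc (-M) M, ∀ v ∈ Set.Icc (-M) M,
      |(|v| ^ (q - 2) * v) - (|u| ^ (q - 2) * u)| ≤ (q - 1) * M ^ (q - 2) * |v - u| := by
    intro u hu v hv
    have := Convex.norm_image_sub_le_of_norm_hasDerivWithin_le (f := fun x : ℝ => |x| ^ (q - 2) * x)
      (f' := fun t => (q - 2 + 1) * |t| ^ (q - 2)) (C := (q - 1) * M ^ (q - 2))
      (s := Set.Icc (-M) M)
      (fun t _ => (sd2 (q - 2) hr t).hasDerivWithinAt) (fun t ht => ?_) (convex_Icc _ _) hu hv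
    · simpa [Real.norm_eq_abs] using this
    · rw [Real.norm_eq_abs, abs_mul, abs_of_nonneg (by linarith : (0 : ℝ) ≤ q - 2 + 1),
        abs_of_nonneg (Real.rpow_nonneg (abs_nonneg t) _)]
      have h1 : |t| ≤ M := abs_le.2 ht
      have h2 : |t| ^ (q - 2) ≤ M ^ (q - 2) := Real.rpow_le_rpow (abs_nonneg t) h1 hr.le
      have h3 : q - 2 + 1 = q - 1 := by ring
      rw [h3]
      exact mul_le_mul_of_nonneg_left h2 (by linarith)
  have hf' : ∀ t : ℝ, |t| ≤ |s| → |sdf' q y z t| ≤
      2 * q * (q - 1) * M ^ (q - 2) * z ^ 2 * |s| := by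
    intro t ht
    have ht1 : |t| ≤ 1 := ht.trans hs
    unfold sdf'
    rw [abs_mul, abs_mul, abs_of_pos (by linarith : (0 : ℝ) < q)]
    have h1 := hg _ (hin t ht1).2 _ (hin t ht1).1
    have h2 : |y + t * z - (y - t * z)| = 2 * |t| * |z| := by
      have : y + t * z - (y - t * z) = 2 * t * z := by ring
      rw [this, abs_mul, abs_mul, abs_two]
    rw [h2] at h1
    have h3 : 0 ≤ q * |z| := by positivity
    have h4 : 0 ≤ (q - 1) * M ^ (q - 2) := mul_nonneg (by linarith) (Real.rpow_nonneg hM0 _)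
    calc q * |z| * |(|y + t * z| ^ (q - 2) * (y + t * z)) - (|y - t * z| ^ (q - 2) * (y - t * z))|
        ≤ q * |z| * ((q - 1) * M ^ (q - 2) * (2 * |t| * |z|)) := mul_le_mul_of_nonneg_left h1 h3
      _ ≤ q * |z| * ((q - 1) * M ^ (q - 2) * (2 * |s| * |z|)) := by
          refine mul_le_mul_of_nonneg_left (mul_le_mul_of_nonneg_left ?_ h4) h3
          exact mul_le_mul_of_nonneg_right (by linarith) (abs_nonneg z)
      _ = 2 * q * (q - 1) * M ^ (q - 2) * |z| ^ 2 * |s| := by ring
      _ = 2 * q * (q - 1) * M ^ (q - 2) * z ^ 2 * |s| := by rw [sq_abs]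
  have := Convex.norm_image_sub_le_of_norm_hasDerivWithin_le (f := sdf q y z)
    (f' := sdf' q y z) (C := 2 * q * (q - 1) * M ^ (q - 2) * z ^ 2 * |s|)
    (s := Set.Icc (-|s|) |s|) (x := 0) (y := s)
    (fun t _ => (sdf_deriv q hq y z t).hasDerivWithinAt) (fun t ht => ?_) (convex_Icc _ _)
    ⟨by linarith [abs_nonneg s], abs_nonneg s⟩ ⟨neg_abs_le s, le_abs_self s⟩
  · rw [sdf_zero, sub_zero, sub_zero, Real.norm_eq_abs, Real.norm_eq_abs] at this
    calc |sdf q y z s| ≤ 2 * q * (q - 1) * M ^ (q - 2) * z ^ 2 * |s| * |s| := this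
      _ = 2 * q * (q - 1) * M ^ (q - 2) * z ^ 2 * |s| ^ 2 := by ring
      _ = _ := by rw [sq_abs]
  · rw [Real.norm_eq_abs]
    exact hf' t (abs_le.2 ht)

theorem wSd (hI : S_Int) : S_Sd := by
  intro q hq a b c d
  have hq0 : 0 < q := by linarith
  set K : ℝ := |a| + |b| + |c| + |d| with hK
  have hK0 : 0 ≤ K := by positivity
  set A : ℝ := 2 * q * (q - 1) * K ^ q with hA
  have hcont1 : ∀ s : ℝ, Continuous fun x : ℝ => sdf q (a + b * x) (c + d * x) s := by
    intro s
    unfold sdf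
    refine ((Continuous.rpow_const (by fun_prop) fun _ => Or.inr hq0.le).add
      (Continuous.rpow_const (by fun_prop) fun _ => Or.inr hq0.le)).sub
      (continuous_const.mul (Continuous.rpow_const (by fun_prop) fun _ => Or.inr hq0.le))
  have hA0 : 0 ≤ A := by
    have : 0 ≤ q - 1 := by linarith
    positivity
  have hbd : Integrable (fun x : ℝ => A * (1 + |x|) ^ q) gam := by
    refine (hI A q hq0.le).1 _ ?_ (fun x => ?_)
    · exact continuous_const.mul (Continuous.rpow_const (by fun_prop) fun _ => Or.inr hq0.le)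
    · rw [abs_of_nonneg (mul_nonneg hA0 (Real.rpow_nonneg (by positivity) _))]
  have key : ∀ s : ℝ, (∫ x, (|a + b * x + s * (c + d * x)| ^ q + |a + b * x - s * (c + d * x)| ^ q -
      2 * |a + b * x| ^ q) ∂gam) / s ^ 2 =
      ∫ x, sdf q (a + b * x) (c + d * x) s / s ^ 2 ∂gam := by
    intro s
    rw [integral_div]
    rfl
  simp only [key]
  rw [← integral_const_mul]
  refine tendsto_integral_filter_of_dominated_convergence (fun x : ℝ => A * (1 + |x|) ^ q) ?_ ?_ hbd ?_
  · exact Eventually.of_forall fun s => ((hcont1 s).div_const _).aestronglyMeasurable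
  · have h1 : ∀ᶠ s : ℝ in 𝓝[≠] 0, |s| ≤ 1 ∧ s ≠ 0 := by
      have h2 : ∀ᶠ s : ℝ in 𝓝 0, |s| ≤ 1 := by
        have : Set.Icc (-1 : ℝ) 1 ∈ 𝓝 (0 : ℝ) := Icc_mem_nhds (by norm_num) (by norm_num)
        filter_upwards [this] with s hs
        exact abs_le.2 hs
      filter_upwards [h2.filter_mono nhdsWithin_le_nhds, self_mem_nhdsWithin] with s hs hs'
      exact ⟨hs, hs'⟩
    filter_upwards [h1] with s hs
    refine Eventually.of_forall fun x => ?_
    have hs2 : 0 < s ^ 2 := by
      have := hs.2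
      positivity
    rw [Real.norm_eq_abs, abs_div, abs_of_pos hs2, div_le_iff₀ hs2]
    refine (sdf_bound q hq _ _ s hs.1).trans ?_
    refine mul_le_mul_of_nonneg_right ?_ hs2.le
    have hx1 : 0 ≤ 1 + |x| := by positivity
    have hy : |a + b * x| + |c + d * x| ≤ K * (1 + |x|) := by
      have h3 : |a + b * x| ≤ |a| + |b| * |x| := (abs_add_le _ _).trans (by rw [abs_mul])
      have h4 : |c + d * x| ≤ |c| + |d| * |x| := (abs_add_le _ _).trans (by rw [abs_mul])
      have h5 : 0 ≤ (|a| + |c|) * |x| := by positivity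
      have h6 : 0 ≤ |b| + |d| := by positivity
      have h7 : K * (1 + |x|) = |a| + |b| + |c| + |d| + (|a| + |c|) * |x| + (|b| + |d|) * |x| := by
        rw [hK]
        ring
      rw [h7]
      nlinarith
    have hz : (c + d * x) ^ 2 ≤ (K * (1 + |x|)) ^ 2 := by
      rw [← sq_abs (c + d * x)]
      refine pow_le_pow_left₀ (abs_nonneg _) ?_ 2
      exact (le_add_of_nonneg_left (abs_nonneg _)).trans hy
    have h8 : (|a + b * x| + |c + d * x|) ^ (q - 2) ≤ (K * (1 + |x|)) ^ (q - 2) :=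
      Real.rpow_le_rpow (by positivity) hy (by linarith)
    have h9 : (K * (1 + |x|)) ^ (q - 2) * (K * (1 + |x|)) ^ 2 = K ^ q * (1 + |x|) ^ q := by
      rw [← Real.mul_rpow hK0 hx1]
      rcases (mul_nonneg hK0 hx1).eq_or_lt with h0 | h0
      · rw [← h0, Real.zero_rpow (by linarith), Real.zero_rpow hq0.ne', zero_mul]
      · rw [← Real.rpow_natCast (K * (1 + |x|)) 2, ← Real.rpow_add h0]
        congr 1
        push_cast
        ring
    have h10 : 0 ≤ 2 * q * (q - 1) := by
      have : 0 ≤ q - 1 := by linarith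
      positivity
    calc 2 * q * (q - 1) * (|a + b * x| + |c + d * x|) ^ (q - 2) * (c + d * x) ^ 2
        = 2 * q * (q - 1) * ((|a + b * x| + |c + d * x|) ^ (q - 2) * (c + d * x) ^ 2) := by ring
      _ ≤ 2 * q * (q - 1) * ((K * (1 + |x|)) ^ (q - 2) * (K * (1 + |x|)) ^ 2) := by
          refine mul_le_mul_of_nonneg_left ?_ h10
          exact mul_le_mul h8 hz (sq_nonneg _) (Real.rpow_nonneg (mul_nonneg hK0 hx1) _)
      _ = A * (1 + |x|) ^ q := by
          rw [h9, hA]
          ring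
  · refine Eventually.of_forall fun x => ?_
    exact sdf_lim q hq (a + b * x) (c + d * x)

end Pool.Agent.Lib.MP_537232_an.NM
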