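import Pool.Agent.Lib.MP_537232_an.NM.SpecG

set_option autoImplicit false

namespace Pool.Agent.Lib.MP_537232_an.NM

open Finset

namespace SgnAux

variable {v d : ℕ}

lemma Ge_self (hd : 1 ≤ d) (ε : Fin v → Fin d → Bool) (t : Fin v) : Ge ε t t = 1 := by
  unfold Ge
  have h1 : ∀ i : Fin d, sg (ε t i) * sg (ε t i) = 1 := by
    intro i
    unfold sg
    split_ifs <;> norm_num
  have hd0 : (d : ℝ) ≠ 0 := by
    have : (1 : ℝ) ≤ d := by exact_mod_cast hd
    linarith
  simp only [h1, sum_const, card_univ, Fintype.card_fin, nsmul_eq_mul, mul_one]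
  exact div_self hd0

lemma sq_nn (J : Finset (Fin v)) (a : Fin v → ℝ) : 0 ≤ ∑ t ∈ J, a t ^ 2 :=
  sum_nonneg fun _ _ => sq_nonneg _

lemma OB_UB {Γ : Fin v → Fin v → ℝ} {s : ℕ} {δ : ℝ} (h : OB Γ s δ) : UB Γ s (1 + δ) := by
  intro J a hJ
  have h1 := h J a hJ
  have h2 := (abs_le.1 h1).2
  linarith

lemma OB_mono {Γ : Fin v → Fin v → ℝ} {s : ℕ} {δ δ' : ℝ} (hδ : δ ≤ δ') (h : OB Γ s δ) :
    OB Γ s δ' := by
  intro J a hJ
  exact (h J a hJ).trans (mul_le_mul_of_nonneg_right hδ (sq_nn J a))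

/-- The products. -/
noncomputable def GA (ε : ℕ → Fin v → Fin d → Bool) (A : Finset ℕ) (t t' : Fin v) : ℝ :=
  Ge (ε 0) t t' * ∏ j ∈ A, Ge (ε (j + 1)) t t'

lemma GA_empty (ε : ℕ → Fin v → Fin d → Bool) : GA ε ∅ = Ge (ε 0) := by
  funext t t'
  unfold GA
  rw [prod_empty, mul_one]

lemma GA_insert (ε : ℕ → Fin v → Fin d → Bool) {A : Finset ℕ} {j : ℕ} (hj : j ∉ A) :
    GA ε (insert j A) = fun t t' => GA ε A t t' * Ge (ε (j + 1)) t t' := by
  funext t t'
  unfold GA
  rw [prod_insert hj]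
  ring

lemma GA_gram (hG : S_Grm) (hd : 1 ≤ d) (ε : ℕ → Fin v → Fin d → Bool) (A : Finset ℕ) :
    IsGram (GA ε A) := by
  induction A using Finset.induction_on with
  | empty =>
    rw [GA_empty]
    exact hG.2.1 v d _ hd
  | insert j A hj ih =>
    rw [GA_insert ε hj]
    exact hG.1 v _ _ ih (hG.2.1 v d _ hd)

lemma GA_self (hd : 1 ≤ d) (ε : ℕ → Fin v → Fin d → Bool) (A : Finset ℕ) (t : Fin v) :
    GA ε A t t = 1 := by
  unfold GA
  rw [Ge_self hd, one_mul]
  exact prod_eq_one fun j _ => Ge_self hd _ t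

lemma GA_update (ε : ℕ → Fin v → Fin d → Bool) (j : ℕ) (e : Fin v → Fin d → Bool)
    {A : Finset ℕ} (hj : j ∉ A) : GA (Function.update ε (j + 1) e) A = GA ε A := by
  funext t t'
  unfold GA
  rw [Function.update_of_ne (Nat.succ_ne_zero j).symm]
  congr 1
  refine prod_congr rfl fun i hi => ?_
  rw [Function.update_of_ne]
  intro h
  apply hj
  have : i = j := by omega
  rw [← this]
  exact hi

lemma UB_one (s : ℕ) : UB (fun _ _ : Fin v => (1 : ℝ)) s s := by
  intro J a hJ
  have h1 : ∑ t ∈ J, ∑ t' ∈ J, a t * a t' * (1 : ℝ) = (∑ t ∈ J, a t) ^ 2 := by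
    rw [pow_two, sum_mul_sum]
    simp only [mul_one]
  rw [h1]
  have h2 := sq_sum_le_card_mul_sum_sq (s := J) (f := a)
  refine h2.trans (mul_le_mul_of_nonneg_right ?_ (sq_nn J a))
  exact_mod_cast hJ

end SgnAux

open SgnAux in
theorem pSgn (hFg : S_Fg) (hStp : S_Stp) (hGrm : S_Grm) (hNum : S_Num) : S_Sgn := by
  intro N k Cs Ci μ hCs hμ
  obtain ⟨d₀, hd₀, hN⟩ := hNum.2 N k Cs Ci μ hCs hμ
  refine ⟨d₀, hd₀, fun d hd => ?_⟩
  have hd1 : 1 ≤ d := hd₀.trans hd
  have hdR : (0 : ℝ) < d := by exact_mod_cast hd1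
  have hv1 : 1 ≤ d ^ Ci := Nat.one_le_pow _ _ hd1
  set v : ℕ := d ^ Ci with hv
  set s : ℕ := Cs * d ^ (k + 1) with hs
  have hs1 : 1 ≤ s := Nat.one_le_iff_ne_zero.2 (Nat.mul_ne_zero (by omega)
    (pow_ne_zero _ (by omega)))
  obtain ⟨hM1, hdl2⟩ := hN d hd _ _ rfl rfl
  set L : ℝ := Real.log (16 * ((2 : ℝ) ^ (N + 1) + 1) * ((d : ℝ) ^ Ci) ^ 2) with hL
  set M : ℝ := 8 * (Nat.log 2 s : ℝ) + 20 with hM
  have hvR : (v : ℝ) = (d : ℝ) ^ Ci := by rw [hv]; push_cast; rfl
  have hv1R : (1 : ℝ) ≤ (d : ℝ) ^ Ci := by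
    rw [← hvR]
    exact_mod_cast hv1
  have hM0 : 0 ≤ M := by
    rw [hM]
    positivity
  -- logarithms
  have hlog : ∀ n : ℕ, n ≤ 2 ^ (N + 1) → Real.log (16 * ((n : ℝ) + 1) * (v : ℝ) ^ 2) ≤ L := by
    intro n hn
    have hnR : (n : ℝ) ≤ 2 ^ (N + 1) := by exact_mod_cast hn
    rw [hL, hvR]
    apply Real.log_le_log
    · positivity
    · have h1 : (0 : ℝ) ≤ ((d : ℝ) ^ Ci) ^ 2 := by positivity
      apply mul_le_mul_of_nonneg_right _ h1
      linarith
  have hL0 : 0 < L := by
    have h1 : (1 : ℝ) < 16 * ((2 : ℝ) ^ (N + 1) + 1) * ((d : ℝ) ^ Ci) ^ 2 := by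
      have h2 : (1 : ℝ) ≤ ((d : ℝ) ^ Ci) ^ 2 := one_le_pow₀ hv1R
      have h3 : (0 : ℝ) < (2 : ℝ) ^ (N + 1) := by positivity
      nlinarith
    rw [hL]
    exact Real.log_pos h1
  have hdl := fun (β : ℝ) (hβ : 0 < β) => hNum.1 β L d hβ hL0 hdR
  have hcond : ∀ (n : ℕ), n ≤ 2 ^ (N + 1) → ∀ β : ℝ, 0 < β →
      2 * β * (1 + 2 * dl β L d) * Real.log (16 * ((n : ℝ) + 1) * (v : ℝ) ^ 2) ≤
        dl β L d ^ 2 * d := by
    intro n hn β hβ
    obtain ⟨h1, h2⟩ := hdl β hβ
    refine le_trans (mul_le_mul_of_nonneg_left (hlog n hn) ?_) h2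
    positivity
  -- the bounds β are at least one
  have hbt : ∀ i, 1 ≤ bt M L d s i := by
    intro i
    induction i with
    | zero =>
      show (1 : ℝ) ≤ s
      exact_mod_cast hs1
    | succ i ih =>
      show 1 ≤ 1 + M * dl (bt M L d s i) L d
      have h1 := (hdl _ (lt_of_lt_of_le one_pos ih)).1
      have h2 := mul_nonneg hM0 h1.le
      linarith
  have hbt0 : ∀ i, 0 < bt M L d s i := fun i => lt_of_lt_of_le one_pos (hbt i)
  have hbts : ∀ i, bt M L d s (i + 1) = 1 + dl (bt M L d s i) L d * M := by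
    intro i
    show 1 + M * dl (bt M L d s i) L d = _
    ring
  -- from OD to OB
  have hODOB : ∀ (Γ : Fin v → Fin v → ℝ) (δ : ℝ), (∀ t, Γ t t = 1) → 0 ≤ δ → OD Γ s δ →
      OB Γ s (δ * M) := fun Γ δ h1 h2 h3 => hFg v Γ s δ h1 h2 h3
  -- the first signs
  have h0 : ∃ ε : ℕ → Fin v → Fin d → Bool, (∀ t t', t ≠ t' → |Ge (ε 0) t t'| ≤ μ) ∧
      UB (Ge (ε 0)) s (bt M L d s 1) := by
    have hpow : (2 : ℕ) ≤ 2 ^ (N + 1) := by
      calc 2 = 2 ^ 1 := (pow_one 2).symm
        _ ≤ _ := Nat.pow_le_pow_right (by norm_num) (by omega)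
    have hsR : (0 : ℝ) < s := by exact_mod_cast hs1
    obtain ⟨e, he⟩ := hStp 2 v d (fun _ _ _ => 1) ![2, s] ![2, (s : ℝ)] ![dl 2 L d, dl s L d]
      hv1 hd1 (fun _ => hGrm.2.2 v)
      (by
        intro i
        fin_cases i
        · have h := UB_one (v := v) 2
          simpa using h
        · exact UB_one (v := v) s)
      (by
        intro i
        fin_cases i
        · show (0 : ℝ) < 2
          norm_num
        · exact hsR)
      (by
        intro i
        fin_cases i
        · exact (hdl 2 (by norm_num)).1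
        · exact (hdl s hsR).1)
      (by
        intro i
        fin_cases i
        · exact hcond 2 hpow 2 (by norm_num)
        · exact hcond 2 hpow s hsR)
    refine ⟨fun _ => e, ?_, ?_⟩
    · intro t t' htt
      have h1 := he 0 {t} {t'} (fun _ => 1) (disjoint_singleton.2 htt) (by
        show ({t} : Finset (Fin v)).card + ({t'} : Finset (Fin v)).card ≤ 2
        rw [card_singleton, card_singleton]) (fun _ => Or.inl rfl)
      rw [sum_singleton, sum_singleton, card_singleton, card_singleton] at h1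
      have h2 : |Ge e t t'| ≤ dl 2 L d := by
        have h3 : (![dl 2 L d, dl s L d] : Fin 2 → ℝ) 0 = dl 2 L d := rfl
        rw [h3] at h1
        simpa using h1
      exact h2.trans hdl2
    · have h1 := he 1
      have h2 : OD (Ge e) s (dl s L d) := by
        have h3 : (fun t t' => (1 : ℝ) * Ge e t t') = Ge e := by
          funext t t'
          rw [one_mul]
        rw [h3] at h1
        exact h1
      have h3 := hODOB (Ge e) _ (Ge_self hd1 e) (hdl s hsR).1.le h2
      rw [hbts]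
      exact OB_UB h3
  -- the claim
  have hclaim : ∀ j, j ≤ N → ∃ ε : ℕ → Fin v → Fin d → Bool,
      (∀ t t', t ≠ t' → |Ge (ε 0) t t'| ≤ μ) ∧
      ∀ A : Finset ℕ, A ⊆ range j → A.card ≤ k + 1 → UB (GA ε A) s (bt M L d s (A.card + 1)) ∧
        (A.card = k + 1 → OB (GA ε A) s (1 / 2)) := by
    intro j
    induction j with
    | zero =>
      intro _
      obtain ⟨ε, h1, h2⟩ := h0
      refine ⟨ε, h1, fun A hA _ => ?_⟩
      have hA0 : A = ∅ := by
        rw [range_zero] at hA
        exact subset_empty.1 hA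
      subst hA0
      rw [GA_empty, card_empty]
      exact ⟨h2, fun h => absurd h (by omega)⟩
    | succ j ih =>
      intro hj
      obtain ⟨ε, h1, h2⟩ := ih (by omega)
      let 𝒜 : Finset (Finset ℕ) := (range j).powerset.filter fun A => A.card ≤ k
      have h𝒜 : ∀ A, A ∈ 𝒜 ↔ A ⊆ range j ∧ A.card ≤ k := by
        intro A
        rw [mem_filter, mem_powerset]
      let eq : 𝒜 ≃ Fin 𝒜.card := 𝒜.equivFin
      have hcard : 𝒜.card ≤ 2 ^ (N + 1) := by
        calc 𝒜.card ≤ (range j).powerset.card := card_filter_le _ _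
          _ = 2 ^ j := by rw [card_powerset, card_range]
          _ ≤ 2 ^ (N + 1) := Nat.pow_le_pow_right (by norm_num) (by omega)
      obtain ⟨e, he⟩ := hStp 𝒜.card v d (fun i => GA ε (eq.symm i).1) (fun _ => s)
        (fun i => bt M L d s ((eq.symm i).1.card + 1))
        (fun i => dl (bt M L d s ((eq.symm i).1.card + 1)) L d) hv1 hd1
        (fun i => GA_gram hGrm hd1 ε _)
        (fun i => (h2 _ ((h𝒜 _).1 (eq.symm i).2).1
          (((h𝒜 _).1 (eq.symm i).2).2.trans (by omega))).1)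
        (fun i => hbt0 _) (fun i => (hdl _ (hbt0 _)).1)
        (fun i => hcond _ hcard _ (hbt0 _))
      refine ⟨Function.update ε (j + 1) e, ?_, ?_⟩
      · intro t t' htt
        rw [Function.update_of_ne (Nat.succ_ne_zero j).symm]
        exact h1 t t' htt
      · intro A hA hAk
        by_cases hjA : j ∈ A
        · have hB : j ∉ A.erase j := notMem_erase j A
          have hins : insert j (A.erase j) = A := insert_erase hjA
          have hBc : (A.erase j).card + 1 = A.card := card_erase_add_one hjA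
          have hBs : A.erase j ⊆ range j := by
            intro x hx
            rw [mem_erase] at hx
            have h3 := mem_range.1 (hA hx.2)
            exact mem_range.2 (by omega)
          have hBm : A.erase j ∈ 𝒜 := (h𝒜 _).2 ⟨hBs, by omega⟩
          have h4 := he (eq ⟨A.erase j, hBm⟩)
          simp only [Equiv.symm_apply_apply] at h4
          have h5 : GA (Function.update ε (j + 1) e) A =
              fun t t' => GA ε (A.erase j) t t' * Ge e t t' := by
            have h6 := GA_insert (Function.update ε (j + 1) e) hB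
            rw [hins, GA_update ε j e hB, Function.update_self] at h6
            exact h6
          rw [← h5] at h4
          have h7 := hODOB _ _ (GA_self hd1 _ A) (hdl _ (hbt0 _)).1.le h4
          refine ⟨?_, fun hc => ?_⟩
          · rw [← hBc, hbts]
            exact OB_UB h7
          · refine OB_mono ?_ h7
            have hBk : (A.erase j).card = k := by omega
            rw [hBk, mul_comm]
            exact hM1
        · rw [GA_update ε j e hjA]
          refine h2 A ?_ hAk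
          intro x hx
          have h3 := mem_range.1 (hA hx)
          have h4 : x ≠ j := fun h => hjA (h ▸ hx)
          exact mem_range.2 (by omega)
  obtain ⟨ε, h1, h2⟩ := hclaim N le_rfl
  exact ⟨ε, h1, fun A hA hc => (h2 A hA hc.le).2 hc⟩

end Pool.Agent.Lib.MP_537232_an.NM
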