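import Pool.Agent.Lib.MP_537232_an.NM.SpecC

/-!
# MP_537232_an, NM/Sit: the finite sites (task of helper81, by helper27)
-/

set_option autoImplicit false

namespace Pool.Agent.Lib.MP_537232_an.NM

open MeasureTheory ProbabilityTheory Finset Filter Topology

namespace Sit

lemma poly_bound (P : Polynomial ℝ) (x : ℝ) :
    |P.eval x| ≤ (∑ i ∈ range (P.natDegree + 1), |P.coeff i|) * (1 + |x|) ^ (P.natDegree : ℝ) := by
  rw [Polynomial.eval_eq_sum_range, Real.rpow_natCast, Finset.sum_mul]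
  refine (Finset.abs_sum_le_sum_abs _ _).trans (Finset.sum_le_sum fun i hi => ?_)
  rw [abs_mul, abs_pow]
  have h0 := abs_nonneg x
  have h1 : |x| ^ i ≤ (1 + |x|) ^ i := by gcongr; linarith
  have h2 : (1 + |x|) ^ i ≤ (1 + |x|) ^ P.natDegree :=
    pow_le_pow_right₀ (by linarith) (Nat.lt_succ_iff.mp (Finset.mem_range.mp hi))
  exact mul_le_mul_of_nonneg_left (h1.trans h2) (abs_nonneg _)

lemma kap_le_one {q : ℝ} (hq : 2 < q) : kap q ≤ 1 := by
  unfold kap bq
  rw [Real.sqrt_le_one]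
  rw [div_le_one (by linarith)]
  linarith

lemma kap_nonneg (q : ℝ) : 0 ≤ kap q := Real.sqrt_nonneg _

lemma one_le_prod_real {ι : Type} (s : Finset ι) (f : ι → ℝ) (h : ∀ i ∈ s, 1 ≤ f i) :
    1 ≤ ∏ i ∈ s, f i :=
  Finset.prod_induction _ (fun x : ℝ => 1 ≤ x) (fun _ _ ha hb => one_le_mul_of_one_le_of_one_le ha hb)
    le_rfl h

lemma mono_integrable (hInt : S_Int) {r d : ℕ} (τ : Fin r → Option (Fin d)) :
    Integrable (fun x : Fin d → ℝ => ∏ l, (τ l).elim 1 x) (gad d) := by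
  have h1 : Integrable (fun x : ℝ => (1 + |x|) ^ r) gam := by
    refine (hInt 1 (r : ℝ) (Nat.cast_nonneg r)).1 (fun x => (1 + |x|) ^ r) (by fun_prop)
      (fun x => ?_)
    rw [Real.rpow_natCast, one_mul, abs_of_nonneg]
    have := abs_nonneg x
    positivity
  have h2 : Integrable (fun x : Fin d → ℝ => ∏ i, (1 + |x i|) ^ r) (gad d) := by
    unfold gad
    exact Integrable.fintype_prod (f := fun _ : Fin d => fun x : ℝ => (1 + |x|) ^ r)
      (μ := fun _ => gam) (fun _ => h1)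
  refine h2.mono' ?_ (Filter.Eventually.of_forall fun x => ?_)
  · apply Continuous.aestronglyMeasurable
    refine continuous_finset_prod _ fun l _ => ?_
    cases τ l with
    | none => exact continuous_const
    | some i => exact continuous_apply i
  · rw [Real.norm_eq_abs, Finset.abs_prod]
    have h3 : ∀ l, |(τ l).elim 1 x| ≤ ∏ i, (1 + |x i|) := by
      intro l
      have hone : ∀ i, 1 ≤ 1 + |x i| := fun i => by
        have := abs_nonneg (x i)
        linarith
      cases hτ : τ l with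
      | none =>
        rw [Option.elim_none, abs_one]
        exact one_le_prod_real _ _ fun i _ => hone i
      | some i =>
        rw [Option.elim_some]
        have h4 : |x i| ≤ 1 + |x i| := by linarith
        refine h4.trans ?_
        rw [← Finset.mul_prod_erase _ _ (Finset.mem_univ i)]
        exact le_mul_of_one_le_right (zero_le_one.trans (hone i))
          (one_le_prod_real _ _ fun j _ => hone j)
    calc ∏ l, |(τ l).elim 1 x| ≤ ∏ _l : Fin r, ∏ i, (1 + |x i|) :=
          Finset.prod_le_prod (fun _ _ => abs_nonneg _) fun l _ => h3 l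
      _ = ∏ i, (1 + |x i|) ^ r := by
          rw [Finset.prod_const, Finset.card_univ, Fintype.card_fin, Finset.prod_pow]

lemma cnd_sum {X I T : Type} [MeasurableSpace X] [Fintype T] (μ : Measure X)
    (s : X → I) (c : T → ℝ) (m : T → X → ℝ) (hm : ∀ t, Integrable (m t) μ) (i : I) :
    cnd μ s (fun x => ∑ t, c t * m t x) i = ∑ t, c t * cnd μ s (m t) i := by
  unfold cnd
  rw [integral_finset_sum _ fun t _ => ((hm t).integrableOn.const_mul (c t)), Finset.smul_sum]
  refine Finset.sum_congr rfl fun t _ => ?_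
  rw [integral_const_mul, smul_eq_mul, smul_eq_mul]
  ring

end Sit

open Sit in
/-- **Sit.** The finite sites. -/
theorem wSit (h1 : S_Int) (h2 : S_Exf) (h3 : S_Cel) (h4 : S_Dsc) (h5 : S_Rnk) : S_Sit := by
  classical
  intro q hq C N hN
  obtain ⟨P, hPp, hPpair⟩ := h2 q hq C N hN
  have hp1 : 1 ≤ q / (q - 1) := by
    rw [le_div_iff₀ (by linarith)]
    linarith
  have hNr : (0 : ℝ) < N := by exact_mod_cast hN
  have hσ := C.σ_pos
  obtain ⟨I2, hI2⟩ : ∃ I2 : ℝ, I2 = ∫ x, P.eval x ^ 2 ∂gam := ⟨_, rfl⟩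
  have hI20 : 0 ≤ I2 := by
    rw [hI2]
    exact integral_nonneg fun x => sq_nonneg _
  refine ⟨P.natDegree, 1 + I2, by linarith, fun d => ?_⟩
  obtain ⟨ε, hε0, hε1, hε2⟩ : ∃ ε : ℝ, 0 < ε ∧ ε ≤ 1 / 2 ∧
      Real.sqrt I2 * Real.sqrt ε ≤ C.σ / (2 * N) := by
    refine ⟨min (1 / 2) ((C.σ / (2 * N)) ^ 2 / (1 + I2)), by positivity, min_le_left _ _, ?_⟩
    rw [← Real.sqrt_mul hI20]
    apply Real.sqrt_le_iff.mpr
    refine ⟨by positivity, ?_⟩
    calc I2 * min (1 / 2) ((C.σ / (2 * N)) ^ 2 / (1 + I2))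
        ≤ (1 + I2) * ((C.σ / (2 * N)) ^ 2 / (1 + I2)) :=
          mul_le_mul (by linarith) (min_le_right _ _) (by positivity) (by linarith)
      _ = (C.σ / (2 * N)) ^ 2 := by field_simp
  obtain ⟨K, s, c, hs, hc, hv1, hv2⟩ := h3 ε hε0
  obtain ⟨v, hv⟩ : ∃ v : ℝ, v = ∑ i, gam.real (s ⁻¹' {i}) * c i ^ 2 := ⟨_, rfl⟩
  rw [← hv] at hv1 hv2
  obtain ⟨S, hS⟩ : ∃ S : (Fin d → ℝ) → (Fin d → Fin K), ∀ x i, S x i = s (x i) :=
    ⟨fun x i => s (x i), fun _ _ => rfl⟩
  obtain ⟨Q, hQ⟩ : ∃ Q : (Fin d → Fin K) → ℝ, ∀ ω, Q ω = (gad d).real (S ⁻¹' {ω}) :=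
    ⟨fun ω => (gad d).real (S ⁻¹' {ω}), fun _ => rfl⟩
  obtain ⟨d1, d2, d3, d4, d5⟩ := h4 K s c v hs hc hv hv2 d S Q hS hQ
  obtain ⟨e⟩ : Nonempty ((Fin d → Fin K) ≃ Fin (Fintype.card (Fin d → Fin K))) :=
    ⟨Fintype.equivFin _⟩
  have hsum : ∀ f : (Fin d → Fin K) → ℝ,
      ∑ k : Fin (Fintype.card (Fin d → Fin K)), f (e.symm k) = ∑ ω, f ω :=
    fun f => e.symm.sum_comp f
  have hPc : Continuous fun x : ℝ => P.eval x := P.continuous
  have hPb := poly_bound P
  exact ⟨{
    K := Fintype.card (Fin d → Fin K)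
    P := fun k => Q (e.symm k)
    P_nonneg := fun k => by
      rw [hQ]
      exact measureReal_nonneg
    P_sum := by
      rw [hsum Q]
      exact d1
    ξ := fun i k => c (e.symm k i)
    v := v
    v_low := by linarith
    v_up := hv2
    cov := fun i j => by
      rw [hsum fun ω => Q ω * (c (ω i) * c (ω j))]
      exact d2 i j
    dom := fun c₀ c₁ a ha => by
      rw [hsum fun ω => Q ω * ‖c₀ + c₁ * ((∑ i, a i * c (ω i) : ℝ) : ℂ)‖ ^ q]
      exact d3 q c₀ c₁ a (by linarith) ha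
    domp := fun a ha => by
      rw [hsum fun ω => Q ω * |∑ i, a i * c (ω i)| ^ (q / (q - 1))]
      have h := d3 (q / (q - 1)) 0 1 a hp1 ha
      have e1 : ∀ y : ℝ, ‖(0 : ℂ) + 1 * ((y : ℝ) : ℂ)‖ = |y| := by
        intro y
        rw [zero_add, one_mul, Complex.norm_real, Real.norm_eq_abs]
      simp_rw [e1] at h
      exact h
    fp := fun g k => cnd (gad d) S (fun x => P.eval (∑ i, g i * x i)) (e.symm k)
    fp_p := fun g hg => by
      rw [hsum fun ω => Q ω * |cnd (gad d) S (fun x => P.eval (∑ i, g i * x i)) ω| ^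
        (q / (q - 1))]
      exact (d4 (q / (q - 1)) _ _ (fun x => P.eval x) g hp1 (Nat.cast_nonneg _) hPc hPb hg).trans
        hPp
    fp_2 := fun g hg => by
      rw [hsum fun ω => Q ω * cnd (gad d) S (fun x => P.eval (∑ i, g i * x i)) ω ^ 2]
      have h := d4 2 _ _ (fun x => P.eval x) g (by norm_num) (Nat.cast_nonneg _) hPc hPb hg
      have e1 : ∀ y : ℝ, |y| ^ (2 : ℝ) = y ^ 2 := by
        intro y
        rw [Real.rpow_two, sq_abs]
      simp_rw [e1] at h
      rw [← hI2] at h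
      linarith
    fp_pair := fun g hg => by
      rw [hsum fun ω => Q ω * (cnd (gad d) S (fun x => P.eval (∑ i, g i * x i)) ω *
        (Real.cos C.α + kap q * Real.sin C.α * ∑ i, g i * c (ω i)))]
      have h := d5 _ _ (Real.cos C.α) (kap q * Real.sin C.α) (fun x => P.eval x) g
        (Nat.cast_nonneg _) hPc hPb hg
      refine le_trans ?_ h
      rw [← hI2]
      have e1 : ∫ x, P.eval x * (Real.cos C.α + kap q * Real.sin C.α * x) ∂gam =
          ∫ x, P.eval x * Yv (kap q) C.α x ∂gam := rfl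
      rw [e1]
      have e2 : |kap q * Real.sin C.α| ≤ 1 := by
        rw [abs_mul, abs_of_nonneg (kap_nonneg q)]
        exact mul_le_one₀ (kap_le_one hq) (abs_nonneg _) (Real.abs_sin_le_one _)
      have e3 : Real.sqrt (1 - v) ≤ Real.sqrt ε := Real.sqrt_le_sqrt (by linarith)
      have e4 : |kap q * Real.sin C.α| * Real.sqrt I2 * Real.sqrt (1 - v) ≤ C.σ / (2 * N) := by
        calc |kap q * Real.sin C.α| * Real.sqrt I2 * Real.sqrt (1 - v)
            ≤ 1 * Real.sqrt I2 * Real.sqrt ε := by gcongr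
          _ = Real.sqrt I2 * Real.sqrt ε := by rw [one_mul]
          _ ≤ C.σ / (2 * N) := hε2
      have e5 : C.σ * (1 - 1 / N) = C.σ * (1 - 1 / (2 * N)) - C.σ / (2 * N) := by
        field_simp
        ring
      rw [e5]
      linarith
    mon := fun τ k => cnd (gad d) S (fun x => ∏ l, (τ l).elim 1 x) (e.symm k)
    rank := fun g hg => by
      obtain ⟨b, hb⟩ := h5 P d g
      refine ⟨b, fun k => ?_⟩
      have e1 : (fun x : Fin d → ℝ => P.eval (∑ i, g i * x i)) =
          fun x => ∑ τ, b τ * ∏ l, (τ l).elim 1 x := by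
        funext x
        exact hb x
      rw [e1]
      exact cnd_sum (gad d) S b (fun τ x => ∏ l, (τ l).elim 1 x)
        (fun τ => mono_integrable h1 τ) (e.symm k) }⟩

end Pool.Agent.Lib.MP_537232_an.NM
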