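import Pool.Agent.Lib.MP_537232_an.NM.SpecS

set_option autoImplicit false

/-!
# MP_537232_an, NM, Stg: the stage lemma (helper25, task 11682)
-/

namespace Pool.Agent.Lib.MP_537232_an.NM

open MeasureTheory ProbabilityTheory Finset Filter Topology

namespace Stg

/-- transport of `ApxI` along an injective map of the coordinates -/
theorem apx {q : ℝ} (hq : 2 < q) {Cc : ℕ → ℝ} {L : ℕ → ℕ} {m v D n k : ℕ} {ι : Type} [Fintype ι]
    {r : Fin v → Fin D → ℝ} {w : Fin v → ι → ℝ} (h : ApxI q Cc L m r w) (e : ι → Fin n)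
    (he : Function.Injective e) (g : Fin k → EuclideanSpace ℝ (Fin n)) (φ : Fin v → Fin k)
    (hg : ∀ t j, g (φ t) (e j) = w t j) : Apx q Cc L m r φ g := by
  classical
  obtain ⟨B, hB1, hB2⟩ := h
  have key : ∀ (l : ℕ) (ω : Fin D) (a : Fin n → ℝ),
      ∑ i, a i * Function.extend e (fun j => B l j ω) 0 i = ∑ j, a (e j) * B l j ω := by
    intro l ω a
    symm
    refine Fintype.sum_of_injective e he _ _ (fun i hi => ?_) fun j => ?_
    · rw [Function.extend_apply' _ _ _ fun ⟨j, hj⟩ => hi ⟨j, hj⟩]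
      simp
    · rw [he.extend_apply]
  refine ⟨fun l i ω => Function.extend e (fun j => B l j ω) 0 i, fun l a => ?_,
    fun i hi t => ?_⟩
  · simp_rw [key]
    refine (hB1 l fun j => a (e j)).trans ?_
    refine Real.rpow_le_rpow (by positivity) ?_ (by linarith)
    refine mul_le_mul_of_nonneg_left ?_ (by positivity)
    calc ∑ j, a (e j) ^ 2 = ∑ i ∈ univ.image e, a i ^ 2 := by
          rw [sum_image fun _ _ _ _ h => he h]
      _ ≤ ∑ i, a i ^ 2 := sum_le_sum_of_subset_of_nonneg (subset_univ _) fun _ _ _ => sq_nonneg _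
  · obtain ⟨c, hc, hc'⟩ := hB2 i hi t
    refine ⟨c, hc, ?_⟩
    simp_rw [key, hg]
    exact hc'

theorem rip_mono {u v : ℕ} {K K' : ℝ} {g : Fin v → EuclideanSpace ℝ (Fin u)} (h : Rip K g)
    (hK : K' ≤ K) : Rip K' g := ⟨h.1, fun J hJ => h.2 J (hJ.trans hK)⟩

theorem c0_pos (h1 : S_Mom) {q : ℝ} (hq : 2 < q) : 0 < c0 q := by
  have hq1 : 0 < q - 1 := by linarith
  have a1 := h1.1 (q / (q - 1)) (by positivity)
  have a2 := h1.1 q (by linarith)
  unfold c0
  positivity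

end Stg

theorem wStg (h1 : S_Mom) (h2 : S_Arg) (h3 : S_Pre) (h4 : S_Coh) (h5 : S_Rp) (h6 : S_Odb) :
    S_Stg := by
  intro q hq
  obtain ⟨C⟩ := h2 q hq
  obtain ⟨Cc, L, hpre⟩ := h3 q hq C
  refine ⟨c0 q, Cc, L, Stg.c0_pos h1 hq, fun m u₀ v₀ S => ?_⟩
  set K₀ : ℕ := max (2 * u₀ * (2 * m) ^ 2 + 1) (19 * (2 * m + 1) ^ 2) with hK₀
  have hK₀pos : 0 < K₀ := lt_of_lt_of_le (Nat.succ_pos _) (le_max_left _ _)
  obtain ⟨v, D, ι, ι', _, _, w, w', r, f, hA, hB, hv, hw, hcoh, hw', hOB, hr, hf, hrf, ha, ha',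
    hfew⟩ := hpre m K₀ (max (v₀ + 1) (19 * (2 * m + 1) ^ 3 * (6 * (2 * m + 1) + 1) ^ S))
      (18 * (2 * m + 1) ^ 5 + 2 * (2 * m + 1) ^ 2 + 1 + 19 * (2 * m + 2) ^ 2)
  set u : ℕ := Fintype.card ι with hu
  have hu0 : v₀ + 1 ≤ u := (le_max_left _ _).trans hA
  obtain ⟨u', v', hA', huv', hB', g', φ, e, hφ, he, hrip', hge⟩ := h6 v _ ι' w' hw' hOB
    (max (v + 1) (19 * (2 * m + 2) ^ 3 * (6 * (2 * m + 2) + 1) ^ (S + u)))
    (18 * (2 * m + 2) ^ 5)
  let e1 : ι ≃ Fin u := Fintype.equivFin ι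
  let g : Fin v → EuclideanSpace ℝ (Fin u) := fun t => WithLp.toLp 2 fun i => w t (e1.symm i)
  have hgapp : ∀ t j, g t (e1 j) = w t j := fun t j => by
    show w t (e1.symm (e1 j)) = w t j
    rw [e1.symm_apply_apply]
  have hinner : ∀ t t', inner ℝ (g t) (g t') = ∑ j, w t j * w t' j := by
    intro t t'
    rw [PiLp.inner_apply, ← e1.sum_comp]
    refine sum_congr rfl fun j _ => ?_
    rw [hgapp, hgapp]
    simp [mul_comm]
  have hnorm : ∀ t, ‖g t‖ = 1 := by
    intro t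
    have h := hinner t t
    rw [real_inner_self_eq_norm_sq] at h
    have h' : ∑ j, w t j * w t j = 1 := by
      rw [← hw t]
      exact sum_congr rfl fun j _ => (sq _).symm
    rw [h'] at h
    exact (pow_eq_one_iff_of_nonneg (norm_nonneg _) two_ne_zero).1 h
  have hrip : Rip (max (2 * (u₀ : ℝ) * (2 * m) ^ 2 + 1) (19 * (2 * (m : ℝ) + 1) ^ 2)) g := by
    refine h5 u v K₀ _ g ?_ hnorm ?_
    · rw [hK₀]
      push_cast
      exact le_rfl
    · have hKr : (0 : ℝ) < K₀ := by exact_mod_cast hK₀pos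
      refine h4 v _ K₀ (1 / (2 * K₀)) (1 / 2) (fun t => ?_) (by positivity) (fun t t' htt => ?_) ?_
      · rw [hinner, ← hw t]
        exact sum_congr rfl fun j _ => (sq _).symm
      · rw [hinner, le_div_iff₀ (by positivity)]
        have := hcoh t t' htt
        linarith
      · refine le_of_eq ?_
        field_simp
  have hm0 : (0 : ℝ) ≤ m := Nat.cast_nonneg m
  have hur : (1 : ℝ) ≤ u := by
    have : 1 ≤ u := by omega
    exact_mod_cast this
  refine ⟨u, v, u', v', g, g', hu0, hv, ?_, huv', ?_, ?_, ?_, ?_, hrip, ?_, ⟨?_⟩⟩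
  · exact (le_max_left _ _).trans hA'
  · exact (le_max_right _ _).trans hA
  · exact (le_max_right _ _).trans hA'
  · refine le_trans ?_ hB.le
    have : 9 * (2 * m + 1) ^ 3 * (2 * u * (2 * m + 1) ^ 2) = 18 * (2 * m + 1) ^ 5 * u := by ring
    rw [this]
    refine Nat.mul_le_mul_right _ ?_
    omega
  · refine le_trans (le_of_eq ?_) hB'
    ring
  · refine Stg.rip_mono hrip' ?_
    push_cast
    refine max_le ?_ ?_
    · nlinarith [mul_nonneg (show (0 : ℝ) ≤ 18 * (2 * m + 1) ^ 5 by positivity)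
        (show (0 : ℝ) ≤ u by positivity),
        mul_nonneg (show (0 : ℝ) ≤ 19 * (2 * (m : ℝ) + 2) ^ 2 by positivity)
        (show (0 : ℝ) ≤ u by positivity)]
    · have k1 : (0 : ℝ) ≤ 19 * (2 * (m : ℝ) + 2) ^ 2 := by positivity
      have k2 : (0 : ℝ) ≤ 18 * (2 * (m : ℝ) + 1) ^ 5 + 2 * (2 * m + 1) ^ 2 + 1 := by positivity
      nlinarith [mul_le_mul_of_nonneg_left hur k1, mul_nonneg k2 (show (0 : ℝ) ≤ u by positivity)]
  · exact {
      D := D
      r := r
      f := f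
      ι := φ
      ι_inj := hφ
      r_norm := hr
      f_norm := hf
      pair := hrf
      app := Stg.apx hq ha e1 e1.injective g id hgapp
      app' := Stg.apx hq ha' e he g' φ fun t => (hge t).1
      few := hfew }

end Pool.Agent.Lib.MP_537232_an.NM
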