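import Pool.Agent.Lib.MP_537232_an.NM.SpecG

set_option autoImplicit false

/-!
# MP_537232_an, NM/Stp: simultaneous choice (helper82)
-/

namespace Pool.Agent.Lib.MP_537232_an.NM

open Finset

theorem wStp (h1 : S_Odd) : S_Stp := by
  classical
  intro n v d Γ s β δ hv hd hG hU hβ hδ hL
  by_contra hcon
  have hcon' : ∀ ε : Fin v → Fin d → Bool, ∃ i, ¬ OD (fun t t' => Γ i t t' * Ge ε t t') (s i) (δ i) := by
    intro ε
    by_contra h2
    exact hcon ⟨ε, fun i => by
      by_contra h3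
      exact h2 ⟨i, h3⟩⟩
  let bad : Fin n → Finset (Fin v → Fin d → Bool) := fun i =>
    univ.filter fun ε => ¬ OD (fun t t' => Γ i t t' * Ge ε t t') (s i) (δ i)
  have hbad : ∀ i, ((n : ℝ) + 1) * ((bad i).card : ℝ) ≤ 2 ^ (v * d) := by
    intro i
    have h2 := h1 v d (s i) (Γ i) (β i) (δ i) ((n : ℝ) + 1) hv hd (hG i) (hU i) (hβ i) (hδ i)
      (by
        have : (0 : ℝ) ≤ n := Nat.cast_nonneg n
        linarith) (hL i)
    have h3 : ({ε : Fin v → Fin d → Bool | ¬ OD (fun t t' => Γ i t t' * Ge ε t t') (s i) (δ i)} :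
        Set _).ncard = (bad i).card := by
      rw [← Set.ncard_coe_finset]
      congr 1
      ext ε
      simp [bad]
    rw [h3] at h2
    exact h2
  have hcov : (univ : Finset (Fin v → Fin d → Bool)) ⊆ univ.biUnion bad := by
    intro ε _
    obtain ⟨i, hi⟩ := hcon' ε
    exact mem_biUnion.2 ⟨i, mem_univ _, mem_filter.2 ⟨mem_univ _, hi⟩⟩
  have hcard : (2 : ℝ) ^ (v * d) ≤ ∑ i, ((bad i).card : ℝ) := by
    have h2 := (card_le_card hcov).trans card_biUnion_le
    have h3 : (univ : Finset (Fin v → Fin d → Bool)).card = 2 ^ (v * d) := by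
      rw [card_univ, Fintype.card_fun, Fintype.card_fun, Fintype.card_bool, Fintype.card_fin,
        Fintype.card_fin, ← pow_mul, mul_comm]
    rw [h3] at h2
    exact_mod_cast h2
  have hfin : ((n : ℝ) + 1) * 2 ^ (v * d) ≤ n * 2 ^ (v * d) := by
    calc ((n : ℝ) + 1) * 2 ^ (v * d) ≤ ((n : ℝ) + 1) * ∑ i, ((bad i).card : ℝ) :=
          mul_le_mul_of_nonneg_left hcard (by positivity)
      _ = ∑ i, ((n : ℝ) + 1) * ((bad i).card : ℝ) := by rw [mul_sum]
      _ ≤ ∑ _i : Fin n, (2 : ℝ) ^ (v * d) := sum_le_sum fun i _ => hbad i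
      _ = n * 2 ^ (v * d) := by rw [sum_const, card_univ, Fintype.card_fin, nsmul_eq_mul]
  have hpos : (0 : ℝ) < 2 ^ (v * d) := by positivity
  linarith

end Pool.Agent.Lib.MP_537232_an.NM
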