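import Pool.Agent.Lib.MP_537232_an.NM.SpecD

set_option autoImplicit false

/-!
# MP_537232_an, NM/Ten: tensorization
-/

namespace Pool.Agent.Lib.MP_537232_an.NM

open MeasureTheory ProbabilityTheory Finset Filter Topology

namespace Ten

/-- Minkowski's inequality for finite sums of nonnegative functions. -/
lemma mink {Ω ι : Type} [Fintype Ω] (J : Finset ι) {r : ℝ} (hr : 1 ≤ r) (G : ι → Ω → ℝ)
    (hG : ∀ j ω, 0 ≤ G j ω) :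
    (∑ ω, (∑ j ∈ J, G j ω) ^ r) ^ (1 / r) ≤ ∑ j ∈ J, (∑ ω, G j ω ^ r) ^ (1 / r) := by
  classical
  have hr0 : r ≠ 0 := by linarith
  induction J using Finset.induction_on with
  | empty =>
    simp only [Finset.sum_empty]
    rw [Real.zero_rpow hr0, Finset.sum_const_zero, Real.zero_rpow (one_div_ne_zero hr0)]
  | insert j J hj ih =>
    simp only [Finset.sum_insert hj]
    refine le_trans (Real.Lp_add_le_of_nonneg (s := (univ : Finset Ω)) (f := fun ω => G j ω)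
      (g := fun ω => ∑ i ∈ J, G i ω) hr (fun ω _ => hG j ω)
      (fun ω _ => Finset.sum_nonneg fun i _ => hG i ω)) ?_
    exact add_le_add le_rfl ih

/-- Weighted Minkowski inequality for squares. -/
lemma minkw {Ω ι : Type} [Fintype Ω] [Fintype ι] {q : ℝ} (hq : 2 ≤ q) (P : Ω → ℝ)
    (hP : ∀ ω, 0 ≤ P ω) (F : ι → Ω → ℝ) (s : ℝ) (c : ι → ℝ) (hs : ∀ j, 0 ≤ s * c j)
    (h : ∀ j, ∑ ω, P ω * |F j ω| ^ q ≤ (s * c j) ^ (q / 2)) :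
    ∑ ω, P ω * (∑ j, F j ω ^ 2) ^ (q / 2) ≤ (s * ∑ j, c j) ^ (q / 2) := by
  have hr : 1 ≤ q / 2 := by linarith
  have hr0 : q / 2 ≠ 0 := by linarith
  have hrp : 0 < q / 2 := by linarith
  have h1 := mink (univ : Finset ι) hr (fun j ω => P ω ^ (1 / (q / 2)) * F j ω ^ 2)
    (fun j ω => mul_nonneg (Real.rpow_nonneg (hP ω) _) (sq_nonneg _))
  have hPr : ∀ ω, (P ω ^ (1 / (q / 2))) ^ (q / 2) = P ω := by
    intro ω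
    rw [← Real.rpow_mul (hP ω), one_div_mul_cancel hr0, Real.rpow_one]
  have h2 : ∀ ω, (∑ j, P ω ^ (1 / (q / 2)) * F j ω ^ 2) ^ (q / 2) =
      P ω * (∑ j, F j ω ^ 2) ^ (q / 2) := by
    intro ω
    rw [← Finset.mul_sum, Real.mul_rpow (Real.rpow_nonneg (hP ω) _)
      (Finset.sum_nonneg fun j _ => sq_nonneg _), hPr]
  have h3 : ∀ j ω, (P ω ^ (1 / (q / 2)) * F j ω ^ 2) ^ (q / 2) = P ω * |F j ω| ^ q := by
    intro j ω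
    rw [Real.mul_rpow (Real.rpow_nonneg (hP ω) _) (sq_nonneg _), hPr, ← sq_abs,
      ← Real.rpow_natCast (|F j ω|) 2, ← Real.rpow_mul (abs_nonneg _)]
    congr 2
    push_cast
    ring
  simp only [h2, h3] at h1
  have h4 : ∑ j, (∑ ω, P ω * |F j ω| ^ q) ^ (1 / (q / 2)) ≤ ∑ j, s * c j := by
    refine Finset.sum_le_sum fun j _ => ?_
    have h5 := Real.rpow_le_rpow (Finset.sum_nonneg fun ω _ =>
      mul_nonneg (hP ω) (Real.rpow_nonneg (abs_nonneg (F j ω)) q)) (h j)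
      (by positivity : (0 : ℝ) ≤ 1 / (q / 2))
    refine le_trans h5 (le_of_eq ?_)
    rw [← Real.rpow_mul (hs j), mul_one_div_cancel hr0, Real.rpow_one]
  have h6 := h1.trans h4
  have hnn : 0 ≤ ∑ ω, P ω * (∑ j, F j ω ^ 2) ^ (q / 2) :=
    Finset.sum_nonneg fun ω _ => mul_nonneg (hP ω)
      (Real.rpow_nonneg (Finset.sum_nonneg fun j _ => sq_nonneg _) _)
  have h7 := Real.rpow_le_rpow (Real.rpow_nonneg hnn _) h6 hrp.le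
  rw [← Real.rpow_mul hnn, one_div_mul_cancel hr0, Real.rpow_one, ← Finset.mul_sum] at h7
  exact h7

lemma two {q : ℝ} (hq : 2 ≤ q) (Ω₁ Ω₂ ι₁ ι₂ : Type) [Fintype Ω₁] [Fintype Ω₂] [Fintype ι₁]
    [Fintype ι₂] (P₁ : Ω₁ → ℝ) (P₂ : Ω₂ → ℝ) (b₁ : ι₁ → Ω₁ → ℝ) (b₂ : ι₂ → Ω₂ → ℝ) (s₁ s₂ : ℝ)
    (hP₁ : ∀ ω, 0 ≤ P₁ ω) (_hP₂ : ∀ ω, 0 ≤ P₂ ω) (hs₁ : 0 ≤ s₁) (hs₂ : 0 ≤ s₂)
    (h₁ : ∀ a : ι₁ → ℝ, ∑ ω, P₁ ω * |∑ i, a i * b₁ i ω| ^ q ≤ (s₁ * ∑ i, a i ^ 2) ^ (q / 2))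
    (h₂ : ∀ a : ι₂ → ℝ, ∑ ω, P₂ ω * |∑ i, a i * b₂ i ω| ^ q ≤ (s₂ * ∑ i, a i ^ 2) ^ (q / 2))
    (a : ι₁ × ι₂ → ℝ) :
    ∑ ω : Ω₁ × Ω₂, P₁ ω.1 * P₂ ω.2 * |∑ j, a j * (b₁ j.1 ω.1 * b₂ j.2 ω.2)| ^ q ≤
      (s₁ * s₂ * ∑ j, a j ^ 2) ^ (q / 2) := by
  have hF : ∀ ω₁ ω₂, ∑ j : ι₁ × ι₂, a j * (b₁ j.1 ω₁ * b₂ j.2 ω₂) =
      ∑ j, (∑ i, a (i, j) * b₁ i ω₁) * b₂ j ω₂ := by
    intro ω₁ ω₂
    rw [Fintype.sum_prod_type_right]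
    refine Finset.sum_congr rfl fun j _ => ?_
    rw [Finset.sum_mul]
    exact Finset.sum_congr rfl fun i _ => by ring
  rw [Fintype.sum_prod_type]
  have e1 : ∀ ω₁ : Ω₁, ∑ ω₂ : Ω₂, P₁ ω₁ * P₂ ω₂ *
      |∑ j : ι₁ × ι₂, a j * (b₁ j.1 ω₁ * b₂ j.2 ω₂)| ^ q ≤
      s₂ ^ (q / 2) * (P₁ ω₁ * (∑ j, (∑ i, a (i, j) * b₁ i ω₁) ^ 2) ^ (q / 2)) := by
    intro ω₁
    have e2 := h₂ fun j => ∑ i, a (i, j) * b₁ i ω₁
    rw [Real.mul_rpow hs₂ (Finset.sum_nonneg fun j _ => sq_nonneg _)] at e2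
    calc ∑ ω₂ : Ω₂, P₁ ω₁ * P₂ ω₂ * |∑ j : ι₁ × ι₂, a j * (b₁ j.1 ω₁ * b₂ j.2 ω₂)| ^ q =
          P₁ ω₁ * ∑ ω₂, P₂ ω₂ * |∑ j, (∑ i, a (i, j) * b₁ i ω₁) * b₂ j ω₂| ^ q := by
          rw [Finset.mul_sum]
          refine Finset.sum_congr rfl fun ω₂ _ => ?_
          rw [hF]
          ring
      _ ≤ P₁ ω₁ * (s₂ ^ (q / 2) * (∑ j, (∑ i, a (i, j) * b₁ i ω₁) ^ 2) ^ (q / 2)) :=
          mul_le_mul_of_nonneg_left e2 (hP₁ ω₁)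
      _ = _ := by ring
  refine le_trans (Finset.sum_le_sum fun ω₁ _ => e1 ω₁) ?_
  rw [← Finset.mul_sum]
  have e3 := minkw hq P₁ hP₁ (fun j ω₁ => ∑ i, a (i, j) * b₁ i ω₁) s₁
    (fun j => ∑ i, a (i, j) ^ 2)
    (fun j => mul_nonneg hs₁ (Finset.sum_nonneg fun i _ => sq_nonneg _))
    (fun j => h₁ fun i => a (i, j))
  refine le_trans (mul_le_mul_of_nonneg_left e3 (Real.rpow_nonneg hs₂ _)) (le_of_eq ?_)
  rw [← Real.mul_rpow hs₂ (mul_nonneg hs₁ (Finset.sum_nonneg fun j _ =>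
    Finset.sum_nonneg fun i _ => sq_nonneg _)), Fintype.sum_prod_type_right]
  congr 1
  ring

lemma many {q : ℝ} (hq : 2 ≤ q) (Ω ι : Type) [Fintype Ω] [Fintype ι] (P : Ω → ℝ) (b : ι → Ω → ℝ)
    (s : ℝ) (hP : ∀ ω, 0 ≤ P ω) (hs : 0 ≤ s)
    (h : ∀ a : ι → ℝ, ∑ ω, P ω * |∑ i, a i * b i ω| ^ q ≤ (s * ∑ i, a i ^ 2) ^ (q / 2)) (N : ℕ) :
    ∀ a : (Fin N → ι) → ℝ, ∑ ω : Fin N → Ω, (∏ j, P (ω j)) * |∑ κ, a κ * ∏ j, b (κ j) (ω j)| ^ q ≤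
      (s ^ N * ∑ κ, a κ ^ 2) ^ (q / 2) := by
  induction N with
  | zero =>
    intro a
    rw [Fintype.sum_unique, Fintype.sum_unique, Fintype.sum_unique]
    simp only [Finset.univ_eq_empty, Finset.prod_empty, pow_zero, one_mul, mul_one]
    refine le_of_eq ?_
    rw [← sq_abs (a default), ← Real.rpow_natCast (|a default|) 2,
      ← Real.rpow_mul (abs_nonneg _)]
    congr 1
    push_cast
    ring
  | succ N ih =>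
    intro a
    have key := two hq Ω (Fin N → Ω) ι (Fin N → ι) P (fun ω => ∏ j, P (ω j)) b
      (fun κ ω => ∏ j, b (κ j) (ω j)) s (s ^ N) hP
      (fun ω => Finset.prod_nonneg fun j _ => hP _) hs (pow_nonneg hs N) h ih
      (fun k => a (Fin.cons k.1 k.2))
    have e1 : ∀ ω : Fin (N + 1) → Ω, ∑ κ : Fin (N + 1) → ι, a κ * ∏ j, b (κ j) (ω j) =
        ∑ k : ι × (Fin N → ι), a (Fin.cons k.1 k.2) *
          (b k.1 (ω 0) * ∏ j : Fin N, b (k.2 j) (ω j.succ)) := by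
      intro ω
      rw [← (Fin.consEquiv fun _ : Fin (N + 1) => ι).sum_comp]
      refine Finset.sum_congr rfl fun k _ => ?_
      rw [Fin.prod_univ_succ]
      rfl
    have e2 : ∑ κ : Fin (N + 1) → ι, a κ ^ 2 =
        ∑ k : ι × (Fin N → ι), a (Fin.cons k.1 k.2) ^ 2 := by
      rw [← (Fin.consEquiv fun _ : Fin (N + 1) => ι).sum_comp]
      rfl
    rw [e2, pow_succ, mul_comm (s ^ N) s]
    refine le_trans (le_of_eq ?_) key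
    rw [← (Fin.consEquiv fun _ : Fin (N + 1) => Ω).sum_comp]
    refine Finset.sum_congr rfl fun w _ => ?_
    rw [e1, Fin.prod_univ_succ]
    rfl

end Ten

open Ten in
theorem wTen : S_Ten := fun _ hq => ⟨fun Ω₁ Ω₂ ι₁ ι₂ _ _ _ _ P₁ P₂ b₁ b₂ s₁ s₂ h1 h2 h3 h4 h5 h6 a =>
  two hq Ω₁ Ω₂ ι₁ ι₂ P₁ P₂ b₁ b₂ s₁ s₂ h1 h2 h3 h4 h5 h6 a,
  fun Ω ι _ _ P b s h1 h2 h3 N a => many hq Ω ι P b s h1 h2 h3 N a⟩

end Pool.Agent.Lib.MP_537232_an.NM
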