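import Pool.Agent.Lib.MP_537232_an.NM.SpecE

set_option autoImplicit false

/-!
# MP_537232_an, directory NM: the truncation error (`S_Tru`)
-/

namespace Pool.Agent.Lib.MP_537232_an.NM

open MeasureTheory ProbabilityTheory Finset Filter Topology

namespace Tru

private lemma key {q : ℝ} (hq : 2 < q) {C : Cst q} {N : ℕ} {Ω : Type} [Fintype Ω]
    {x : ℕ → Ω → ℝ} (hx : Model q C N x) {T : Finset ℕ} (hT : T ⊆ range (N + 1)) (θ B ε : ℝ)
    (hB : 0 < B) (hε : 0 < ε)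
    (h : ∑ m ∈ T, (N.choose m : ℝ) * co N m θ ^ 2 ≤ B ^ 2 + ε ^ 2) :
    ∑ ω, |∑ m ∈ T, co N m θ * x m ω| ^ q ≤ (B + ε) ^ q := by
  have h1 := hx.hil (fun m => if m ∈ T then co N m θ else 0)
  have e1 : ∀ ω, ∑ m ∈ range (N + 1), (if m ∈ T then co N m θ else 0) * x m ω =
      ∑ m ∈ T, co N m θ * x m ω := by
    intro ω
    rw [← Finset.sum_subset hT]
    · exact Finset.sum_congr rfl fun m hm => by rw [if_pos hm]
    · intro m _ hm
      rw [if_neg hm, zero_mul]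
  have e2 : ∑ m ∈ range (N + 1), (N.choose m : ℝ) * (if m ∈ T then co N m θ else 0) ^ 2 =
      ∑ m ∈ T, (N.choose m : ℝ) * co N m θ ^ 2 := by
    rw [← Finset.sum_subset hT]
    · exact Finset.sum_congr rfl fun m hm => by rw [if_pos hm]
    · intro m _ hm
      rw [if_neg hm]
      ring
  simp only [e1, e2] at h1
  refine h1.trans ?_
  have h2 : 0 ≤ ∑ m ∈ T, (N.choose m : ℝ) * co N m θ ^ 2 :=
    Finset.sum_nonneg fun m _ => by positivity
  have h3 : ∑ m ∈ T, (N.choose m : ℝ) * co N m θ ^ 2 ≤ (B + ε) ^ 2 := by nlinarith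
  calc (∑ m ∈ T, (N.choose m : ℝ) * co N m θ ^ 2) ^ (q / 2)
      ≤ ((B + ε) ^ 2) ^ (q / 2) := Real.rpow_le_rpow h2 h3 (by linarith)
    _ = (B + ε) ^ q := by
        rw [← Real.rpow_natCast (B + ε) 2, ← Real.rpow_mul (by positivity)]
        congr 1
        push_cast
        ring

private lemma kk_le (α : ℝ) (N : ℕ) : kk α N ≤ N := by
  unfold kk
  refine Nat.floor_le_of_le ?_
  have h1 := Real.sin_sq_le_one α
  have h2 : (0 : ℝ) ≤ N := Nat.cast_nonneg N
  nlinarith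

private lemma split {Ω : Type} (α : ℝ) (N : ℕ) (x : ℕ → Ω → ℝ) (θ : ℝ) (ω : Ω) :
    Xs N (range (N + 1)) x θ ω = Xs N (Rlo α N) x θ ω + Xs N (Rhi α N) x θ ω := by
  have hk := kk_le α N
  unfold Xs
  rw [← Finset.sum_union]
  · refine Finset.sum_congr ?_ fun _ _ => rfl
    ext m
    simp only [Rlo, Rhi, Finset.mem_union, Finset.mem_range, Finset.mem_Ioc]
    omega
  · rw [Finset.disjoint_left]
    intro m
    simp only [Rlo, Rhi, Finset.mem_range, Finset.mem_Ioc]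
    omega

end Tru

open Tru in
theorem wTru (h1 : S_Bin) : S_Tru := by
  intro q hq C δ ε hδ hε
  obtain ⟨N₀, hN₀⟩ := h1 C.α C.α_pos C.α_lt δ (ε ^ 2) hδ (by positivity)
  refine ⟨N₀, fun N hN Ω _ x hx s R hsR => ?_⟩
  obtain ⟨ha, hb⟩ := hN₀ N hN
  have hk := kk_le C.α N
  have hexp : Real.exp (-2 * δ ^ 2) = Real.exp (-δ ^ 2) ^ 2 := by
    rw [← Real.exp_nat_mul]
    congr 1
    push_cast
    ring
  rw [hexp] at ha hb
  rcases hsR with ⟨rfl, rfl⟩ | ⟨rfl, rfl⟩
  · have e1 : (-1 : ℝ) * δ = -δ := by ring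
    rw [e1]
    have e2 : ∀ ω, Xs N (range (N + 1)) x (th C.α (-δ) N) ω - Xs N (Rlo C.α N) x (th C.α (-δ) N) ω =
        Xs N (Rhi C.α N) x (th C.α (-δ) N) ω := by
      intro ω
      rw [split C.α]
      ring
    simp only [e2]
    refine key hq hx ?_ _ _ _ (Real.exp_pos _) hε ha
    intro m hm
    rw [Rhi, Finset.mem_Ioc] at hm
    exact Finset.mem_range.2 (by omega)
  · rw [one_mul]
    have e2 : ∀ ω, Xs N (range (N + 1)) x (th C.α δ N) ω - Xs N (Rhi C.α N) x (th C.α δ N) ω =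
        Xs N (Rlo C.α N) x (th C.α δ N) ω := by
      intro ω
      rw [split C.α]
      ring
    simp only [e2]
    refine key hq hx ?_ _ _ _ (Real.exp_pos _) hε hb
    intro m hm
    rw [Rlo, Finset.mem_range] at hm
    exact Finset.mem_range.2 (by omega)

end Pool.Agent.Lib.MP_537232_an.NM
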