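import Pool.Agent.Lib.MP_537232_an.NM.SpecD

set_option autoImplicit false

/-!
# MP_537232_an, NM/Wwt: the weights
-/

namespace Pool.Agent.Lib.MP_537232_an.NM

open MeasureTheory ProbabilityTheory Finset Filter Topology

namespace Wwt

lemma co_sq (N m : ℕ) (θ : ℝ) :
    co N m θ ^ 2 = (Real.sin θ ^ 2) ^ m * (Real.cos θ ^ 2) ^ (N - m) := by
  unfold co
  rw [mul_pow, ← pow_mul, ← pow_mul, ← pow_mul, ← pow_mul, mul_comm (N - m) 2, mul_comm m 2,
    mul_comm]

lemma co_le (N m : ℕ) (θ : ℝ) : co N m θ ^ 2 ≤ 1 := by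
  rw [co_sq]
  have h1 : (Real.sin θ ^ 2) ^ m ≤ 1 := pow_le_one₀ (sq_nonneg _) (Real.sin_sq_le_one θ)
  have h2 : (Real.cos θ ^ 2) ^ (N - m) ≤ 1 := pow_le_one₀ (sq_nonneg _) (Real.cos_sq_le_one θ)
  exact mul_le_one₀ h1 (pow_nonneg (sq_nonneg _) _) h2

lemma binom (N : ℕ) (θ : ℝ) :
    ∑ m ∈ range (N + 1), (N.choose m : ℝ) * co N m θ ^ 2 = 1 := by
  have h := add_pow (Real.sin θ ^ 2) (Real.cos θ ^ 2) N
  rw [Real.sin_sq_add_cos_sq, one_pow] at h
  rw [h]
  refine Finset.sum_congr rfl fun m _ => ?_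
  rw [co_sq]
  ring

lemma summ (α s : ℝ) (N m : ℕ) :
    Summable fun l : ℕ => (1 / 2 : ℝ) ^ (l + 1) * co N m (th α (s * qp l) N) ^ 2 := by
  have h1 : Summable fun l : ℕ => (1 / 2 : ℝ) ^ (l + 1) := by
    have := summable_geometric_two.mul_left (1 / 2 : ℝ)
    refine this.congr fun l => ?_
    rw [pow_succ]
    ring
  refine Summable.of_nonneg_of_le (fun l => by positivity) (fun l => ?_) h1
  calc (1 / 2 : ℝ) ^ (l + 1) * co N m (th α (s * qp l) N) ^ 2 ≤ (1 / 2 : ℝ) ^ (l + 1) * 1 :=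
        mul_le_mul_of_nonneg_left (co_le _ _ _) (by positivity)
    _ = (1 / 2 : ℝ) ^ (l + 1) := mul_one _

lemma part1 (α s : ℝ) (N m : ℕ) : 0 ≤ ww α s N m ∧
    ∀ l : ℕ, (1 / 2 : ℝ) ^ (l + 1) * co N m (th α (s * qp l) N) ^ 2 ≤ ww α s N m := by
  refine ⟨tsum_nonneg fun l => by positivity, fun l => ?_⟩
  exact (summ α s N m).le_tsum l fun l' _ => by positivity

lemma total (α s : ℝ) (N : ℕ) : ∑ m ∈ range (N + 1), (N.choose m : ℝ) * ww α s N m = 1 := by
  unfold ww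
  have h1 : ∀ m ∈ range (N + 1), (N.choose m : ℝ) *
      ∑' l, (1 / 2 : ℝ) ^ (l + 1) * co N m (th α (s * qp l) N) ^ 2 =
      ∑' l, (N.choose m : ℝ) * ((1 / 2 : ℝ) ^ (l + 1) * co N m (th α (s * qp l) N) ^ 2) :=
    fun m _ => tsum_mul_left.symm
  rw [Finset.sum_congr rfl h1,
    ← Summable.tsum_finsetSum fun m _ => (summ α s N m).mul_left _]
  have h2 : ∀ l : ℕ, ∑ m ∈ range (N + 1),
      (N.choose m : ℝ) * ((1 / 2 : ℝ) ^ (l + 1) * co N m (th α (s * qp l) N) ^ 2) =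
      (1 / 2 : ℝ) * (1 / 2) ^ l := by
    intro l
    have h3 := binom N (th α (s * qp l) N)
    calc _ = (1 / 2 : ℝ) ^ (l + 1) *
          ∑ m ∈ range (N + 1), (N.choose m : ℝ) * co N m (th α (s * qp l) N) ^ 2 := by
          rw [Finset.mul_sum]
          exact Finset.sum_congr rfl fun m _ => by ring
      _ = _ := by rw [h3, mul_one, pow_succ]; ring
  simp only [h2]
  rw [tsum_mul_left, tsum_geometric_two]
  norm_num

lemma vp_le (α s : ℝ) (N : ℕ) (R : Finset ℕ) (hR : R ⊆ range (N + 1)) : vp α s N R ≤ 1 := by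
  rw [← total α s N]
  unfold vp
  refine Finset.sum_le_sum_of_subset_of_nonneg hR fun m _ _ => ?_
  exact mul_nonneg (Nat.cast_nonneg _) (part1 α s N m).1

lemma vp_pos (α s : ℝ) (N : ℕ) (R : Finset ℕ) (m : ℕ) (hm : m ∈ R) (hc : 0 < (N.choose m : ℝ))
    (h : co N m (th α (s * qp 0) N) ≠ 0) : 0 < vp α s N R := by
  unfold vp
  refine Finset.sum_pos' (fun m _ => mul_nonneg (Nat.cast_nonneg _) (part1 α s N m).1)
    ⟨m, hm, mul_pos hc ?_⟩
  refine lt_of_lt_of_le ?_ ((part1 α s N m).2 0)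
  have : 0 < co N m (th α (s * qp 0) N) ^ 2 := by positivity
  positivity

lemma qp0 : qp 0 = 1 := by
  unfold qp
  simp

end Wwt

open Wwt in
theorem wWwt : S_Wwt := by
  refine ⟨part1, vp_le, ?_⟩
  intro α N h0 h1 hN
  have hN1 : (1 : ℝ) ≤ N := by exact_mod_cast hN
  have hs1 : 1 ≤ Real.sqrt N := by
    rw [← Real.sqrt_one]
    exact Real.sqrt_le_sqrt hN1
  have hs0 : 0 < Real.sqrt N := by linarith
  have hi : 1 / Real.sqrt N ≤ 1 := by
    rw [div_le_one hs0]
    exact hs1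
  have hi0 : 0 < 1 / Real.sqrt N := by positivity
  have hpi := Real.pi_gt_three
  have hcos : 0 < Real.cos α := Real.cos_pos_of_mem_Ioo ⟨by linarith, h1⟩
  have hk : kk α N < N := by
    unfold kk
    rw [Nat.floor_lt (by positivity)]
    have h2 : Real.sin α ^ 2 < 1 := by
      have := Real.sin_sq_add_cos_sq α
      have h3 : 0 < Real.cos α ^ 2 := by positivity
      linarith
    calc (N : ℝ) * Real.sin α ^ 2 < N * 1 := by
          exact mul_lt_mul_of_pos_left h2 (by linarith)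
      _ = N := mul_one _
  refine ⟨?_, ?_, ?_, ?_, hk⟩
  · refine vp_pos α (-1) N _ 0 ?_ ?_ ?_
    · unfold Rlo
      rw [mem_range]
      omega
    · simp
    · unfold co th
      rw [qp0, pow_zero, mul_one]
      refine pow_ne_zero _ (ne_of_gt (Real.cos_pos_of_mem_Ioo ⟨?_, ?_⟩))
      · have : -1 * 1 / Real.sqrt N = -(1 / Real.sqrt N) := by ring
        rw [this]
        linarith
      · have : -1 * 1 / Real.sqrt N = -(1 / Real.sqrt N) := by ring
        rw [this]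
        linarith
  · refine vp_pos α 1 N _ N ?_ ?_ ?_
    · unfold Rhi
      rw [mem_Ioc]
      omega
    · simp
    · unfold co th
      rw [qp0, Nat.sub_self, pow_zero, one_mul, mul_one]
      refine pow_ne_zero _ (ne_of_gt (Real.sin_pos_of_pos_of_lt_pi ?_ ?_))
      · linarith
      · linarith
  · unfold Rlo
    refine Finset.range_subset_range.2 ?_
    omega
  · unfold Rhi
    intro m hm
    rw [mem_Ioc] at hm
    rw [mem_range]
    omega

end Pool.Agent.Lib.MP_537232_an.NM
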