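import Pool.Agent.Lib.MP_537232_an.NM.Int
import Pool.Agent.Lib.MP_537232_an.NM.Mom
import Pool.Agent.Lib.MP_537232_an.NM.Sd
import Pool.Agent.Lib.MP_537232_an.NM.Max
import Pool.Agent.Lib.MP_537232_an.NM.Arg
import Pool.Agent.Lib.MP_537232_an.NM.Cfm
import Pool.Agent.Lib.MP_537232_an.NM.Pgl
import Pool.Agent.Lib.MP_537232_an.NM.Clo
import Pool.Agent.Lib.MP_537232_an.NM.Plo
import Pool.Agent.Lib.MP_537232_an.NM.PhL
import Pool.Agent.Lib.MP_537232_an.NM.Hb
import Pool.Agent.Lib.MP_537232_an.NM.Lim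
import Pool.Agent.Lib.MP_537232_an.NM.Bin
import Pool.Agent.Lib.MP_537232_an.NM.Tru
import Pool.Agent.Lib.MP_537232_an.NM.Apl
import Pool.Agent.Lib.MP_537232_an.NM.Fg
import Pool.Agent.Lib.MP_537232_an.NM.Hoe
import Pool.Agent.Lib.MP_537232_an.NM.Flt
import Pool.Agent.Lib.MP_537232_an.NM.Odd
import Pool.Agent.Lib.MP_537232_an.NM.Stp
import Pool.Agent.Lib.MP_537232_an.NM.Grm
import Pool.Agent.Lib.MP_537232_an.NM.Num
import Pool.Agent.Lib.MP_537232_an.NM.Sgn
import Pool.Agent.Lib.MP_537232_an.NM.Sch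
import Pool.Agent.Lib.MP_537232_an.NM.Ten
import Pool.Agent.Lib.MP_537232_an.NM.Ee
import Pool.Agent.Lib.MP_537232_an.NM.Ex
import Pool.Agent.Lib.MP_537232_an.NM.Mod
import Pool.Agent.Lib.MP_537232_an.NM.Rw
import Pool.Agent.Lib.MP_537232_an.NM.Hr
import Pool.Agent.Lib.MP_537232_an.NM.Wwt
import Pool.Agent.Lib.MP_537232_an.NM.Blk
import Pool.Agent.Lib.MP_537232_an.NM.Cbx
import Pool.Agent.Lib.MP_537232_an.NM.Pol
import Pool.Agent.Lib.MP_537232_an.NM.Exf
import Pool.Agent.Lib.MP_537232_an.NM.Cel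
import Pool.Agent.Lib.MP_537232_an.NM.Cnd
import Pool.Agent.Lib.MP_537232_an.NM.Gmd
import Pool.Agent.Lib.MP_537232_an.NM.Dsc
import Pool.Agent.Lib.MP_537232_an.NM.Rnk
import Pool.Agent.Lib.MP_537232_an.NM.Sit
import Pool.Agent.Lib.MP_537232_an.NM.Coh
import Pool.Agent.Lib.MP_537232_an.NM.Rp
import Pool.Agent.Lib.MP_537232_an.NM.Fil
import Pool.Agent.Lib.MP_537232_an.NM.Odb
import Pool.Agent.Lib.MP_537232_an.NM.Fw
import Pool.Agent.Lib.MP_537232_an.NM.Lw
import Pool.Agent.Lib.MP_537232_an.NM.Hg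
import Pool.Agent.Lib.MP_537232_an.NM.Nu
import Pool.Agent.Lib.MP_537232_an.NM.Pre
import Pool.Agent.Lib.MP_537232_an.NM.Stg
import Pool.Agent.Lib.MP_537232_an.NM.Par
import Pool.Agent.Lib.MP_537232_an.NM.DatE
import Pool.Agent.Lib.MP_537232_an.NM.Mul
import Pool.Agent.Lib.MP_537232_an.NM.Fr
import Pool.Agent.Lib.MP_537232_an.NM.Jc
import Pool.Agent.Lib.MP_537232_an.NM.Emb
import Pool.Agent.Lib.MP_537232_an.NM.Fun
import Pool.Agent.Lib.MP_537232_an.NM.Dua
import Pool.Agent.Lib.MP_537232_an.NM.Opb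
import Pool.Agent.Lib.MP_537232_an.NM.Opc
import Pool.Agent.Lib.MP_537232_an.NM.RowR
import Pool.Agent.Lib.MP_537232_an.NM.RowM
import Pool.Agent.Lib.MP_537232_an.NM.RowI
import Pool.Agent.Lib.MP_537232_an.NM.RowF
import Pool.Agent.Lib.MP_537232_an.NM.ColE
import Pool.Agent.Lib.MP_537232_an.NM.ColR
import Pool.Agent.Lib.MP_537232_an.NM.ColM
import Pool.Agent.Lib.MP_537232_an.NM.ColI
import Pool.Agent.Lib.MP_537232_an.NM.ColF

namespace Pool.Agent.Lib.MP_537232_an.NM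

theorem aInt : S_Int := wInt

theorem aMom : S_Mom := wMom

theorem aSd : S_Sd := wSd aInt

theorem aMax : S_Max := wMax aInt aSd

theorem aArg : S_Arg := wArg aInt aMom aMax

theorem aCfm : S_Cfm := wCfm

theorem aPgl : S_Pgl := wPgl aInt aCfm

theorem aClo : S_Clo := wClo aInt aMax aCfm

theorem aPlo : S_Plo := wPlo aClo

theorem aPhL : S_PhL := wPhL

theorem aHb : S_Hb := wHb

theorem aLim : S_Lim := wLim

theorem aBin : S_Bin := wBin

theorem aTru : S_Tru := wTru aBin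

theorem aApl : S_Apl := wApl aPgl aPlo aPhL aHb aLim aTru

theorem aFg : S_Fg := wFg

theorem aHoe : S_Hoe := wHoe

theorem aFlt : S_Flt := wFlt aHoe

theorem aOdd : S_Odd := wOdd aFlt

theorem aStp : S_Stp := wStp aOdd

theorem aGrm : S_Grm := wGrm

theorem aNum : S_Num := wNum

theorem aSgn : S_Sgn := pSgn aFg aStp aGrm aNum

theorem aSch : S_Sch := wSch

theorem aTen : S_Ten := wTen

theorem aEe : S_Ee := wEe aMom aTen

theorem aEx : S_Ex := wEx

theorem aMod : S_Mod := pMod aMom aEe aEx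

theorem aRw : S_Rw := wRw aMom aMod

theorem aHr : S_Hr := wHr aMom

theorem aWwt : S_Wwt := wWwt

theorem aBlk : S_Blk := wBlk aEx aEe aWwt

theorem aCbx : S_Cbx := wCbx

theorem aPol : S_Pol := wPol

theorem aExf : S_Exf := wExf aInt aPol

theorem aCel : S_Cel := wCel

theorem aCnd : S_Cnd := wCnd

theorem aGmd : S_Gmd := wGmd

theorem aDsc : S_Dsc := wDsc aInt aCnd aGmd

theorem aRnk : S_Rnk := wRnk

theorem aSit : S_Sit := wSit aInt aExf aCel aDsc aRnk

theorem aCoh : S_Coh := wCoh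

theorem aRp : S_Rp := wRp

theorem aFil : S_Fil := wFil

theorem aOdb : S_Odb := wOdb aCoh aRp aFil

theorem aFw : S_Fw := wFw

theorem aLw : S_Lw := wLw aEx aWwt

theorem aHg : S_Hg := wHg aEx aWwt aLw aSch aGrm

theorem aNu : S_Nu := wNu

theorem aPre : S_Pre := wPre aMom aSit aApl aMod aRw aHr aWwt aBlk aCbx aSgn aFw aLw aHg aNu

theorem aStg : S_Stg := wStg aMom aArg aPre aCoh aRp aOdb

theorem aPar : S_Par := wPar aStg

theorem aDatE : S_DatE := wDatE aPar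

theorem aMul : S_Mul := wMul

theorem aFr : S_Fr := wFr

theorem aJc : S_Jc := wJc

theorem aEmb : S_Emb := wEmb

theorem aFun : S_Fun := wFun

theorem aDua : S_Dua := wDua

theorem aOpb : S_Opb := wOpb aFun

theorem aOpc : S_Opc := wOpc

theorem aRowR : S_RowR := wRowR aFun

theorem aRowM : S_RowM := wRowM aFr aFun aDua aOpb

theorem aRowI : S_RowI := wRowI aEmb aFun aJc aDatE

theorem aRowF : S_RowF := wRowF aRowR aRowM aRowI

theorem aColE : S_ColE := wColE

theorem aColR : S_ColR := wColR aEmb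

theorem aColM : S_ColM := wColM aFr aOpc

theorem aColI : S_ColI := wColI aFun aJc aDatE

theorem aColF : S_ColF := wColF aColR aColM aColI

end Pool.Agent.Lib.MP_537232_an.NM
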