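import Pool.Agent.Lib.MP_537232_an.NM.SpecC

set_option autoImplicit false

/-!
# MP_537232_an, NM/Cel (helper68)
-/

namespace Pool.Agent.Lib.MP_537232_an.NM

open MeasureTheory ProbabilityTheory Finset Filter Topology

namespace Cel

theorem memLp_id (p : NNReal) : MemLp (fun x : ℝ => x) p gam := memLp_id_gaussianReal p

theorem int_id : Integrable (fun x : ℝ => x) gam := (memLp_id 1).integrable (by simp)

theorem int_sq : Integrable (fun x : ℝ => x ^ 2) gam := (memLp_id 2).integrable_sq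

theorem sq_eq : ∫ x, x ^ 2 ∂gam = 1 := by
  have h1 : Var[fun x : ℝ => x; gaussianReal 0 1] = ((1 : NNReal) : ℝ) := variance_fun_id_gaussianReal
  have h2 := variance_of_integral_eq_zero (X := fun x : ℝ => x) (μ := gam)
    int_id.aemeasurable (by
      have := integral_id_gaussianReal (μ := 0) (v := 1)
      exact this)
  rw [← h2]
  exact h1

variable {K : ℕ} {s : ℝ → Fin K}

theorem split (hs : Measurable s) (f : ℝ → ℝ)
    (hf : ∀ i, IntegrableOn f (s ⁻¹' {i}) gam) :
    ∫ x, f x ∂gam = ∑ i, ∫ x in s ⁻¹' {i}, f x ∂gam := by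
  rw [← integral_iUnion_fintype (fun i => hs (measurableSet_singleton i)) ?_ hf]
  · have : (⋃ i, s ⁻¹' {i}) = Set.univ := by
      ext x
      simp
    rw [this, setIntegral_univ]
  · intro i j hij
    refine Set.disjoint_left.2 fun x hx hx' => hij ?_
    exact (Set.mem_singleton_iff.1 hx).symm.trans (Set.mem_singleton_iff.1 hx')

/-- the quadratic error of a function of the cell -/
theorem err (hs : Measurable s) (c : Fin K → ℝ)
    (hc : ∀ i, c i * gam.real (s ⁻¹' {i}) = ∫ x in s ⁻¹' {i}, x ∂gam) (a : Fin K → ℝ) :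
    ∫ x, (x - a (s x)) ^ 2 ∂gam = 1 - ∑ i, gam.real (s ⁻¹' {i}) * c i ^ 2 +
      ∑ i, gam.real (s ⁻¹' {i}) * (a i - c i) ^ 2 := by
  have hm : ∀ i, MeasurableSet (s ⁻¹' {i}) := fun i => hs (measurableSet_singleton i)
  have hcell : ∀ i, Set.EqOn (fun x => (x - a (s x)) ^ 2)
      (fun x => x ^ 2 - (2 * a i) * x + a i ^ 2) (s ⁻¹' {i}) := by
    intro i x hx
    have h1 : s x = i := hx
    simp only [h1]
    ring
  have hint : ∀ i, Integrable (fun x : ℝ => x ^ 2 - (2 * a i) * x + a i ^ 2) gam := fun i =>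
    (int_sq.sub (int_id.const_mul _)).add (integrable_const _)
  rw [split hs _ fun i => ((hint i).integrableOn).congr_fun (hcell i).symm (hm i)]
  have h1 : ∀ i, ∫ x in s ⁻¹' {i}, (x - a (s x)) ^ 2 ∂gam =
      (∫ x in s ⁻¹' {i}, x ^ 2 ∂gam) - (2 * a i) * (c i * gam.real (s ⁻¹' {i})) +
        gam.real (s ⁻¹' {i}) * a i ^ 2 := by
    intro i
    have i1 : IntegrableOn (fun x : ℝ => x ^ 2) (s ⁻¹' {i}) gam := int_sq.integrableOn
    have i2 : IntegrableOn (fun x : ℝ => (2 * a i) * x) (s ⁻¹' {i}) gam :=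
      (int_id.const_mul _).integrableOn
    have i3 : IntegrableOn (fun x : ℝ => x ^ 2 - (2 * a i) * x) (s ⁻¹' {i}) gam := i1.sub i2
    have i4 : IntegrableOn (fun _ : ℝ => a i ^ 2) (s ⁻¹' {i}) gam :=
      (integrable_const _).integrableOn
    rw [setIntegral_congr_fun (hm i) (hcell i), integral_add i3 i4, integral_sub i1 i2,
      integral_const_mul, hc i, setIntegral_const, smul_eq_mul]
  rw [Finset.sum_congr rfl fun i _ => h1 i]
  have h2 : ∑ i, ∫ x in s ⁻¹' {i}, x ^ 2 ∂gam = 1 := by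
    rw [← split hs (fun x => x ^ 2) fun i => int_sq.integrableOn, sq_eq]
  rw [← h2, ← Finset.sum_sub_distrib, ← Finset.sum_add_distrib]
  exact Finset.sum_congr rfl fun i _ => by ring

end Cel

open Cel in
theorem wCel : S_Cel := by
  classical
  intro ε hε
  have hsq : 0 < Real.sqrt ε := Real.sqrt_pos.2 hε
  obtain ⟨f, hf1, hf2⟩ := (memLp_id 2).exists_simpleFunc_eLpNorm_sub_lt (by simp)
    (ε := ENNReal.ofReal (Real.sqrt ε)) (by simpa using hε)
  let e := f.range.equivFin
  let s : ℝ → Fin f.range.card := fun x => e ⟨f x, f.mem_range_self x⟩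
  have hs : Measurable s := by
    refine measurable_to_countable' fun i => ?_
    have : s ⁻¹' {i} = f ⁻¹' {((e.symm i : f.range) : ℝ)} := by
      ext x
      rw [Set.mem_preimage, Set.mem_singleton_iff, Set.mem_preimage, Set.mem_singleton_iff]
      constructor
      · intro h
        have h1 : (⟨f x, f.mem_range_self x⟩ : f.range) = e.symm i := by
          rw [← h, Equiv.symm_apply_apply]
        exact congrArg Subtype.val h1
      · intro h
        have h1 : (⟨f x, f.mem_range_self x⟩ : f.range) = e.symm i := Subtype.ext h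
        change e ⟨f x, f.mem_range_self x⟩ = i
        rw [h1, Equiv.apply_symm_apply]
    rw [this]
    exact f.measurableSet_fiber _
  let a : Fin f.range.card → ℝ := fun i => ((e.symm i : f.range) : ℝ)
  have ha : ∀ x, a (s x) = f x := by
    intro x
    change ((e.symm (e ⟨f x, f.mem_range_self x⟩) : f.range) : ℝ) = f x
    rw [Equiv.symm_apply_apply]
  let c : Fin f.range.card → ℝ := fun i => (gam.real (s ⁻¹' {i}))⁻¹ * ∫ x in s ⁻¹' {i}, x ∂gam
  have hc : ∀ i, c i * gam.real (s ⁻¹' {i}) = ∫ x in s ⁻¹' {i}, x ∂gam := by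
    intro i
    change (gam.real (s ⁻¹' {i}))⁻¹ * (∫ x in s ⁻¹' {i}, x ∂gam) * gam.real (s ⁻¹' {i}) = _
    by_cases h0 : gam.real (s ⁻¹' {i}) = 0
    · have hA0 : gam (s ⁻¹' {i}) = 0 := by
        rcases (ENNReal.toReal_eq_zero_iff _).1 h0 with h | h
        · exact h
        · exact absurd h (measure_ne_top _ _)
      rw [setIntegral_measure_zero _ hA0, h0]
      simp
    · field_simp
  refine ⟨f.range.card, s, c, hs, hc, ?_, ?_⟩
  · have h1 := err hs c hc a
    have h2 : ∫ x, (x - a (s x)) ^ 2 ∂gam ≤ ε := by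
      have h3 : eLpNorm (fun x => x - f x) 2 gam < ENNReal.ofReal (Real.sqrt ε) := hf1
      have hmem : MemLp (fun x => x - f x) 2 gam := (memLp_id 2).sub hf2
      rw [hmem.eLpNorm_eq_integral_rpow_norm (by norm_num) (by norm_num)] at h3
      have h4 := (ENNReal.ofReal_lt_ofReal_iff hsq).1 h3
      have h5 : (fun x => (x - a (s x)) ^ 2) = fun x => ‖x - f x‖ ^ (2 : ENNReal).toReal := by
        funext x
        rw [ha x, ENNReal.toReal_ofNat, Real.rpow_two, Real.norm_eq_abs, sq_abs]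
      rw [h5]
      set J := ∫ x, ‖x - f x‖ ^ (2 : ENNReal).toReal ∂gam with hJ
      have hJ0 : 0 ≤ J := integral_nonneg fun x => Real.rpow_nonneg (norm_nonneg _) _
      have h6 : J ^ ((2 : ENNReal).toReal⁻¹) = Real.sqrt J := by
        rw [Real.sqrt_eq_rpow, ENNReal.toReal_ofNat]
        norm_num
      rw [h6] at h4
      exact ((Real.sqrt_lt_sqrt_iff hJ0).1 h4).le
    have h7 : 0 ≤ ∑ i, gam.real (s ⁻¹' {i}) * (a i - c i) ^ 2 :=
      Finset.sum_nonneg fun i _ => mul_nonneg measureReal_nonneg (sq_nonneg _)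
    linarith
  · have h1 := err hs c hc c
    have h2 : 0 ≤ ∫ x, (x - c (s x)) ^ 2 ∂gam := integral_nonneg fun x => sq_nonneg _
    have h3 : ∑ i, gam.real (s ⁻¹' {i}) * (c i - c i) ^ 2 = 0 :=
      Finset.sum_eq_zero fun i _ => by ring
    linarith

end Pool.Agent.Lib.MP_537232_an.NM
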