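import Pool.Agent.Lib.MP_537232_an.Defs

set_option autoImplicit false

/-!
# MP_537232_an, directory NM (author helper81): for 1 < p < 2 the maps φ₁, φ₂, φ₃ do not preserve meets

Definitions for all parts.  `q > 2` is the conjugate exponent of `p`, `G` is a standard Gaussian variable.
-/

namespace Pool.Agent.Lib.MP_537232_an.NM

open MeasureTheory ProbabilityTheory Finset

/-! ## One Gaussian site -/

/-- the standard Gaussian measure on `ℝ` -/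
noncomputable def gam : Measure ℝ := gaussianReal 0 1

instance : IsProbabilityMeasure gam := by unfold gam; infer_instance

/-- `E|G|^r` -/
noncomputable def mq (r : ℝ) : ℝ := ∫ x, |x| ^ r ∂gam

/-- `Y = cos θ + κ sin θ G` -/
noncomputable def Yv (κ θ x : ℝ) : ℝ := Real.cos θ + κ * Real.sin θ * x

/-- `Z = -sin θ + κ cos θ G`, the derivative of `Y` -/
noncomputable def Zv (κ θ x : ℝ) : ℝ := -Real.sin θ + κ * Real.cos θ * x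

/-- `E|Y|^q` -/
noncomputable def MR (κ q θ : ℝ) : ℝ := ∫ x, |Yv κ θ x| ^ q ∂gam

/-- `E|Y|^(q-2) Z²` -/
noncomputable def VS (κ q θ : ℝ) : ℝ := ∫ x, |Yv κ θ x| ^ (q - 2) * Zv κ θ x ^ 2 ∂gam

/-- `E|cos z + κ sin z G|^q` for complex `z` -/
noncomputable def MC (κ q : ℝ) (z : ℂ) : ℝ :=
  ∫ x : ℝ, ‖Complex.cos z + (κ : ℂ) * Complex.sin z * (x : ℂ)‖ ^ q ∂gam

/-- the number `b = q/(2(q-1)) < 1` -/
noncomputable def bq (q : ℝ) : ℝ := q / (2 * (q - 1))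

/-- the number `κ = √b`, `1/(q-1) < κ² < 1` -/
noncomputable def kap (q : ℝ) : ℝ := Real.sqrt (bq q)

/-- The extremal angle `α` and the maximum `σ^q` of `E|cos θ + κ sin θ G|^q`. -/
structure Cst (q : ℝ) where
  α : ℝ
  σ : ℝ
  α_pos : 0 < α
  α_lt : α < Real.pi / 2
  σ_pos : 0 < σ
  att : MR (kap q) q α = σ ^ q
  max : ∀ θ, MR (kap q) q θ ≤ σ ^ q

/-! ## Discretization of the site `(ℝ^d, Gaussian measure)` -/

/-- A finite site of dimension `d`: a finite probability space with `d` random variables `ξ i` (conditional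
expectations of independent standard Gaussian variables), and functions `fp g` of rank at most `(1+d)^r` which almost
norm `cos α + κ sin α ⟨g,ξ⟩`. -/
structure SiteD (q : ℝ) (C : Cst q) (N r : ℕ) (Pi : ℝ) (d : ℕ) where
  K : ℕ
  P : Fin K → ℝ
  P_nonneg : ∀ ω, 0 ≤ P ω
  P_sum : ∑ ω, P ω = 1
  ξ : Fin d → Fin K → ℝ
  v : ℝ
  v_low : 1 / 2 ≤ v
  v_up : v ≤ 1
  cov : ∀ i j, ∑ ω, P ω * (ξ i ω * ξ j ω) = if i = j then v else 0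
  dom : ∀ (c₀ c₁ : ℂ) (a : Fin d → ℝ), ∑ i, a i ^ 2 = 1 →
    ∑ ω, P ω * ‖c₀ + c₁ * ((∑ i, a i * ξ i ω : ℝ) : ℂ)‖ ^ q ≤ ∫ x : ℝ, ‖c₀ + c₁ * (x : ℂ)‖ ^ q ∂gam
  domp : ∀ a : Fin d → ℝ, ∑ i, a i ^ 2 = 1 →
    ∑ ω, P ω * |∑ i, a i * ξ i ω| ^ (q / (q - 1)) ≤ mq (q / (q - 1))
  fp : (Fin d → ℝ) → Fin K → ℝ
  fp_p : ∀ g : Fin d → ℝ, ∑ i, g i ^ 2 = 1 → ∑ ω, P ω * |fp g ω| ^ (q / (q - 1)) ≤ 1
  fp_2 : ∀ g : Fin d → ℝ, ∑ i, g i ^ 2 = 1 → ∑ ω, P ω * fp g ω ^ 2 ≤ Pi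
  fp_pair : ∀ g : Fin d → ℝ, ∑ i, g i ^ 2 = 1 → C.σ * (1 - 1 / N) ≤
    ∑ ω, P ω * (fp g ω * (Real.cos C.α + kap q * Real.sin C.α * ∑ i, g i * ξ i ω))
  mon : (Fin r → Option (Fin d)) → Fin K → ℝ
  rank : ∀ g : Fin d → ℝ, ∑ i, g i ^ 2 = 1 → ∃ c : (Fin r → Option (Fin d)) → ℝ,
    ∀ ω, fp g ω = ∑ τ, c τ * mon τ ω

/-! ## Coherent families and their truncations -/

/-- the threshold `⌊N sin² α⌋` -/
noncomputable def kk (α : ℝ) (N : ℕ) : ℕ := ⌊(N : ℝ) * Real.sin α ^ 2⌋₊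

/-- the angle `α + δ/√N` -/
noncomputable def th (α δ : ℝ) (N : ℕ) : ℝ := α + δ / Real.sqrt N

/-- `cos^(N-m) θ sin^m θ` -/
noncomputable def co (N m : ℕ) (θ : ℝ) : ℝ := Real.cos θ ^ (N - m) * Real.sin θ ^ m

/-- an enumeration (with repetitions) of the positive rational numbers -/
noncomputable def qp (l : ℕ) : ℝ := ((Nat.unpair l).1 + 1 : ℝ) / ((Nat.unpair l).2 + 1)

/-- `∑_{m ∈ R} cos^(N-m) θ sin^m θ x_m` -/
noncomputable def Xs {Ω : Type} (N : ℕ) (R : Finset ℕ) (x : ℕ → Ω → ℝ) (θ : ℝ) (ω : Ω) : ℝ :=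
  ∑ m ∈ R, co N m θ * x m ω

/-- The same for complex `z`, `R = {0, ..., N}`. -/
noncomputable def Xc {Ω : Type} (N : ℕ) (x : ℕ → Ω → ℝ) (z : ℂ) (ω : Ω) : ℂ :=
  ∑ m ∈ range (N + 1), Complex.cos z ^ (N - m) * Complex.sin z ^ m * (x m ω : ℂ)

/-- The two properties of the components `x_m` of the rows which are used in the approximation lemma. -/
structure Model (q : ℝ) (C : Cst q) (N : ℕ) {Ω : Type} [Fintype Ω] (x : ℕ → Ω → ℝ) : Prop where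
  cpx : ∀ z : ℂ, ∑ ω, ‖Xc N x z ω‖ ^ q ≤ (MC (kap q) q z / C.σ ^ q) ^ N
  hil : ∀ a : ℕ → ℝ, ∑ ω, |∑ m ∈ range (N + 1), a m * x m ω| ^ q ≤
    (∑ m ∈ range (N + 1), (N.choose m : ℝ) * a m ^ 2) ^ (q / 2)

/-- the lower and the upper part of `{0, ..., N}` -/
noncomputable def Rlo (α : ℝ) (N : ℕ) : Finset ℕ := range (kk α N + 1)

/-- the upper part of `{0, ..., N}` -/
noncomputable def Rhi (α : ℝ) (N : ℕ) : Finset ℕ := Ioc (kk α N) N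

/-! ## Tensor products of sites -/

section tensor

variable {q : ℝ} {C : Cst q} {N r : ℕ} {Pi : ℝ} {d : ℕ} (S : SiteD q C N r Pi d)

/-- the space `Ω` of the sites `0, 1, ..., N` -/
abbrev SiteD.Om : Type := Fin S.K × (Fin N → Fin S.K)

/-- the weight of a point of `Ω` -/
noncomputable def SiteD.wt (ω : S.Om) : ℝ := S.P ω.1 * ∏ j, S.P (ω.2 j)

/-- `⟨g, ξ⟩` -/
noncomputable def SiteD.lin (g : Fin d → ℝ) (ω : Fin S.K) : ℝ := ∑ i, g i * S.ξ i ω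

/-- the component `x_m` of the row given by the unit vectors `G 0, G 1, ..., G N` -/
noncomputable def SiteD.xrow (G : ℕ → Fin d → ℝ) (m : ℕ) (ω : S.Om) : ℝ :=
  S.wt ω ^ (1 / q) * mq q ^ (-(1 / q)) * S.lin (G 0) ω.1 * (C.σ ^ N)⁻¹ *
    ∑ A ∈ powersetCard m (univ : Finset (Fin N)), ∏ j ∈ A, (kap q * S.lin (G (j + 1)) (ω.2 j))

/-- the row -/
noncomputable def SiteD.row (G : ℕ → Fin d → ℝ) (ω : S.Om) : ℝ :=
  Xs N (range (N + 1)) (S.xrow G) C.α ω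

/-- the function without weight of the functional almost norming the row -/
noncomputable def SiteD.hrow (G : ℕ → Fin d → ℝ) (ω : S.Om) : ℝ :=
  mq (q / (q - 1)) ^ (-((q - 1) / q)) * S.lin (G 0) ω.1 * ∏ j : Fin N, S.fp (G (j + 1)) (ω.2 j)

/-- the functional almost norming the row -/
noncomputable def SiteD.frow (G : ℕ → Fin d → ℝ) (ω : S.Om) : ℝ :=
  S.wt ω ^ ((q - 1) / q) * S.hrow G ω

end tensor

/-! ## Blocks -/

/-- the number of `j` with `κ j ≠ none` -/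
def nz {d N : ℕ} (κ : Fin N → Option (Fin d)) : ℕ := (univ.filter fun j => κ j ≠ none).card

/-- the indices of the tensors with a number of factors in `R` -/
abbrev Bx (d N : ℕ) (R : Finset ℕ) : Type := {j : Fin d × (Fin N → Option (Fin d)) // nz j.2 ∈ R}

/-- the entries of the tensors -/
noncomputable def tv {d N : ℕ} (G : ℕ → Fin d → ℝ) (j : Fin d × (Fin N → Option (Fin d))) : ℝ :=
  G 0 j.1 * ∏ l : Fin N, (j.2 l).elim 1 (G (l + 1))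

/-- the weights `w(m) = ∑_l 2^(-l-1) cos^(2(N-m)) θ_l sin^(2m) θ_l`, `θ_l = α + s q_l/√N`, `s = ±1` -/
noncomputable def ww (α s : ℝ) (N m : ℕ) : ℝ :=
  ∑' l, (1 / 2 : ℝ) ^ (l + 1) * co N m (th α (s * qp l) N) ^ 2

/-- the total weight of `R` -/
noncomputable def vp (α s : ℝ) (N : ℕ) (R : Finset ℕ) : ℝ :=
  ∑ m ∈ R, (N.choose m : ℝ) * ww α s N m

/-- the vector of the block -/
noncomputable def gv (α s : ℝ) {d N : ℕ} (R : Finset ℕ) (G : ℕ → Fin d → ℝ) (j : Bx d N R) : ℝ :=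
  Real.sqrt (ww α s N (nz j.1.2) / vp α s N R) * tv G j.1

/-- the matrices `B_l` -/
noncomputable def SiteD.bm {q : ℝ} {C : Cst q} {N r : ℕ} {Pi : ℝ} {d : ℕ} (S : SiteD q C N r Pi d)
    (s : ℝ) (R : Finset ℕ) (l : ℕ) (j : Bx d N R) (ω : S.Om) : ℝ :=
  Real.sqrt (vp C.α s N R / ww C.α s N (nz j.1.2)) * co N (nz j.1.2) (th C.α (s * qp l) N) *
    (S.wt ω ^ (1 / q) * mq q ^ (-(1 / q)) * S.ξ j.1.1 ω.1 * (C.σ ^ N)⁻¹ *
      ∏ i : Fin N, (j.1.2 i).elim 1 fun e => kap q * S.ξ e (ω.2 i))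

/-! ## Gram matrices -/

/-- `Γ` is the Gram matrix of unit vectors. -/
def IsGram {v : ℕ} (Γ : Fin v → Fin v → ℝ) : Prop :=
  ∃ (n : ℕ) (y : Fin v → Fin n → ℝ), (∀ t t', Γ t t' = ∑ i, y t i * y t' i) ∧ ∀ t, Γ t t = 1

/-- upper bound for the sets of at most `s` elements -/
def UB {v : ℕ} (Γ : Fin v → Fin v → ℝ) (s : ℕ) (β : ℝ) : Prop :=
  ∀ (J : Finset (Fin v)) (a : Fin v → ℝ), J.card ≤ s →
    ∑ t ∈ J, ∑ t' ∈ J, a t * a t' * Γ t t' ≤ β * ∑ t ∈ J, a t ^ 2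

/-- bound for the off-diagonal form, sets of at most `s` elements -/
def OB {v : ℕ} (Γ : Fin v → Fin v → ℝ) (s : ℕ) (δ : ℝ) : Prop :=
  ∀ (J : Finset (Fin v)) (a : Fin v → ℝ), J.card ≤ s →
    |∑ t ∈ J, ∑ t' ∈ J, a t * a t' * Γ t t' - ∑ t ∈ J, a t ^ 2| ≤ δ * ∑ t ∈ J, a t ^ 2

/-- restricted orthogonality for sign vectors -/
def OD {v : ℕ} (Γ : Fin v → Fin v → ℝ) (s : ℕ) (δ : ℝ) : Prop :=
  ∀ (J J' : Finset (Fin v)) (τ : Fin v → ℝ), Disjoint J J' → J.card + J'.card ≤ s →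
    (∀ t, τ t = 1 ∨ τ t = -1) →
    |∑ t ∈ J, ∑ t' ∈ J', τ t * τ t' * Γ t t'| ≤ δ * Real.sqrt (J.card * J'.card)

/-- the sign `±1` of a Boolean -/
def sg (b : Bool) : ℝ := if b then 1 else -1

/-- the Gram matrix of the vectors `ε_t/√d` -/
noncomputable def Ge {v d : ℕ} (ε : Fin v → Fin d → Bool) (t t' : Fin v) : ℝ :=
  (∑ i, sg (ε t i) * sg (ε t' i)) / d

/-! ## Blocks of the problem and stages -/

/-- The conditions of the problem for the vectors `g` of a block, sets of at most `K` elements. -/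
def Rip {u v : ℕ} (K : ℝ) (g : Fin v → EuclideanSpace ℝ (Fin u)) : Prop :=
  (∀ t, ‖g t‖ = 1) ∧ ∀ J : Finset (Fin v), (J.card : ℝ) ≤ K →
    (∀ a : Fin v → ℝ, 1 / 2 * ∑ i ∈ J, a i ^ 2 ≤ ‖∑ i ∈ J, a i • g i‖ ^ 2) ∧
    (∀ a : Fin v → ℝ, ‖∑ i ∈ J, a i • g i‖ ^ 2 ≤ 2 * ∑ i ∈ J, a i ^ 2) ∧
    ∀ x : EuclideanSpace ℝ (Fin u), ∑ i ∈ J, (inner ℝ x (g i)) ^ 2 ≤ 2 * ‖x‖ ^ 2

/-- The rows `r t` are approximated, for every `i ≤ m` up to `1/(i+1)`, by combinations with coefficients `≤ Cc i` of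
`⟨g (ι t), B l ω⟩`, `l < L i`, where the matrices `B l` have norm at most `2^((l+1)/2)` from `ℓ₂^u` to `ℓ_q^D`. -/
def Apx (q : ℝ) (Cc : ℕ → ℝ) (L : ℕ → ℕ) (m : ℕ) {v D u w : ℕ} (r : Fin v → Fin D → ℝ)
    (ι : Fin v → Fin w) (g : Fin w → EuclideanSpace ℝ (Fin u)) : Prop :=
  ∃ B : ℕ → Fin u → Fin D → ℝ,
    (∀ l (a : Fin u → ℝ), ∑ ω, |∑ j, a j * B l j ω| ^ q ≤ ((2 : ℝ) ^ (l + 1) * ∑ j, a j ^ 2) ^ (q / 2)) ∧
    ∀ i ≤ m, ∀ t, ∃ c : Fin (L i) → ℝ, (∀ l, |c l| ≤ Cc i) ∧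
      ∑ ω, |r t ω - ∑ l, c l * ∑ j, g (ι t) j * B l j ω| ^ q ≤ (1 / ((i : ℝ) + 1)) ^ q

/-- The functionals `f t` have few large coordinates: for every matrix `Λ` of norm at most `b ≤ m` from `ℓ_p^D` to `ℓ₂^n`
at most the part `1/(m+1)` of the `t` have a coordinate `|Λ_s(f_t)| ≥ 1/(m+1)`. -/
def Few (p : ℝ) (m : ℕ) {v D : ℕ} (f : Fin v → Fin D → ℝ) : Prop :=
  ∀ (b : ℝ) (n : ℕ) (Λ : Fin n → Fin D → ℝ), 0 ≤ b → b ≤ m →
    (∀ h : Fin D → ℝ, ∑ s, (∑ ω, Λ s ω * h ω) ^ 2 ≤ b ^ 2 * (∑ ω, |h ω| ^ p) ^ (2 / p)) →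
    ∀ J : Finset (Fin v), (∀ t ∈ J, ∃ s, 1 / ((m : ℝ) + 1) ≤ |∑ ω, Λ s ω * f t ω|) →
      ((m : ℝ) + 1) * J.card ≤ v

/-- The `m`-th stage: the even block `(u, v, g)`, the odd block `(u', v', g')`. -/
structure Stage (q c : ℝ) (Cc : ℕ → ℝ) (L : ℕ → ℕ) (m : ℕ) {u v u' v' : ℕ}
    (g : Fin v → EuclideanSpace ℝ (Fin u)) (g' : Fin v' → EuclideanSpace ℝ (Fin u')) where
  D : ℕ
  r : Fin v → Fin D → ℝ
  f : Fin v → Fin D → ℝ
  ι : Fin v → Fin v'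
  ι_inj : Function.Injective ι
  r_norm : ∀ t, ∑ ω, |r t ω| ^ q ≤ 1
  f_norm : ∀ t, ∑ ω, |f t ω| ^ (q / (q - 1)) ≤ 1
  pair : ∀ t, c ≤ ∑ ω, f t ω * r t ω
  app : Apx q Cc L m r id g
  app' : Apx q Cc L m r ι g'
  few : Few (q / (q - 1)) m f

end Pool.Agent.Lib.MP_537232_an.NM
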