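import Pool.Agent.Lib.MP_537232_an.NM.SpecS

set_option autoImplicit false

/-!
# MP_537232_an, NM/Hg (helper68)
-/

namespace Pool.Agent.Lib.MP_537232_an.NM

open MeasureTheory ProbabilityTheory Finset Filter Topology

namespace Hg

theorem elim_mul {β : Type} (o : Option β) (f g : β → ℝ) :
    o.elim 1 f * o.elim 1 g = o.elim 1 fun e => f e * g e := by
  cases o
  · simp
  · rfl

/-- the inner product of two vectors of the block -/
theorem gv_sum (h1 : S_Ex) (h2 : S_Wwt) {α s : ℝ} {d N : ℕ} (R : Finset ℕ)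
    (G G' : ℕ → Fin d → ℝ) : ∑ j : Bx d N R, gv α s R G j * gv α s R G' j =
      gg (G 0) (G' 0) * ∑ m ∈ R, ww α s N m / vp α s N R *
        ∑ A ∈ powersetCard m (univ : Finset (Fin N)), ∏ l ∈ A, gg (G (l + 1)) (G' (l + 1)) := by
  have hvp : 0 ≤ vp α s N R :=
    Finset.sum_nonneg fun m _ => mul_nonneg (Nat.cast_nonneg _) (h2.1 α s N m).1
  have h3 := h1 d N R (fun m => ww α s N m / vp α s N R) (fun i => G 0 i * G' 0 i)
    (fun l e => G (l + 1) e * G' (l + 1) e)
  unfold gg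
  rw [← h3]
  refine Finset.sum_congr rfl fun j _ => ?_
  unfold gv tv
  have h4 : Real.sqrt (ww α s N (nz j.1.2) / vp α s N R) *
      Real.sqrt (ww α s N (nz j.1.2) / vp α s N R) = ww α s N (nz j.1.2) / vp α s N R :=
    Real.mul_self_sqrt (div_nonneg (h2.1 α s N _).1 hvp)
  have h5 : (∏ l : Fin N, (j.1.2 l).elim 1 (G (l + 1))) * (∏ l : Fin N, (j.1.2 l).elim 1 (G' (l + 1))) =
      ∏ l : Fin N, (j.1.2 l).elim 1 fun e => G (l + 1) e * G' (l + 1) e := by
    rw [← Finset.prod_mul_distrib]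
    exact Finset.prod_congr rfl fun l _ => elim_mul _ _ _
  rw [← h5]
  calc Real.sqrt (ww α s N (nz j.1.2) / vp α s N R) *
        (G 0 j.1.1 * ∏ l : Fin N, (j.1.2 l).elim 1 (G (l + 1))) *
        (Real.sqrt (ww α s N (nz j.1.2) / vp α s N R) *
        (G' 0 j.1.1 * ∏ l : Fin N, (j.1.2 l).elim 1 (G' (l + 1))))
      = (Real.sqrt (ww α s N (nz j.1.2) / vp α s N R) *
        Real.sqrt (ww α s N (nz j.1.2) / vp α s N R)) * (G 0 j.1.1 * G' 0 j.1.1 *
        ((∏ l : Fin N, (j.1.2 l).elim 1 (G (l + 1))) *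
          (∏ l : Fin N, (j.1.2 l).elim 1 (G' (l + 1))))) := by ring
    _ = _ := by rw [h4]

/-- the sum over the sets, ordered by the number of elements -/
theorem regroup {N : ℕ} (R : Finset ℕ) (a : ℕ → ℝ) (f : Finset (Fin N) → ℝ) :
    ∑ m ∈ R, a m * ∑ A ∈ powersetCard m (univ : Finset (Fin N)), f A =
      ∑ A : Finset (Fin N), (if A.card ∈ R then a A.card else 0) * f A := by
  have h1 : ∀ A : Finset (Fin N), (if A.card ∈ R then a A.card else 0) * f A =
      ∑ m ∈ R, if A.card = m then a m * f A else 0 := by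
    intro A
    rw [Finset.sum_ite_eq]
    split_ifs
    · rfl
    · rw [zero_mul]
  rw [Finset.sum_congr rfl fun A _ => h1 A, Finset.sum_comm]
  refine Finset.sum_congr rfl fun m _ => ?_
  rw [Finset.mul_sum, ← Finset.univ_filter_card_eq, Finset.sum_filter]

/-- products of Gram matrices -/
theorem gram_prod (h5 : S_Grm) {N v d : ℕ} (hd : 1 ≤ d) (ε : ℕ → Fin v → Fin d → Bool)
    (A : Finset (Fin N)) : IsGram fun t t' => ∏ l ∈ A, Ge (ε (l + 1)) t t' := by
  classical
  induction A using Finset.induction_on with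
  | empty =>
    simp only [Finset.prod_empty]
    exact h5.2.2 v
  | insert l A hl ih =>
    have h6 := h5.1 v _ _ (h5.2.1 v d (ε (l + 1)) hd) ih
    simp only [Finset.prod_insert hl]
    exact h6

end Hg

open Hg in
theorem wHg (h1 : S_Ex) (h2 : S_Wwt) (h3 : S_Lw) (h4 : S_Sch) (h5 : S_Grm) : S_Hg := by
  classical
  intro q _ C N v d s ε hN hd hA
  have hvp := (h2.2.2 C.α N C.α_pos C.α_lt hN).2.1
  have hmat : (fun t t' => ∑ j : Bx d N (Rhi C.α N), gv C.α 1 (Rhi C.α N) (Gs ε t) j *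
      gv C.α 1 (Rhi C.α N) (Gs ε t') j) = fun t t' => ∑ A : Finset (Fin N),
        (if A.card ∈ Rhi C.α N then ww C.α 1 N A.card / vp C.α 1 N (Rhi C.α N) else 0) *
          (Ge (ε 0) t t' * ∏ l ∈ A, Ge (ε (l + 1)) t t') := by
    funext t t'
    rw [gv_sum h1 h2, regroup (Rhi C.α N) (fun m => ww C.α 1 N m / vp C.α 1 N (Rhi C.α N)),
      h3.2.1 v d ε t t' 0 hd, Finset.mul_sum]
    refine Finset.sum_congr rfl fun A _ => ?_
    have h7 : ∏ l ∈ A, gg (Gs ε t ((l : ℕ) + 1)) (Gs ε t' ((l : ℕ) + 1)) =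
        ∏ l ∈ A, Ge (ε ((l : ℕ) + 1)) t t' :=
      Finset.prod_congr rfl fun l _ => h3.2.1 v d ε t t' ((l : ℕ) + 1) hd
    rw [h7]
    ring
  rw [hmat]
  refine h4.2 v (Finset (Fin N)) _ _ s (1 / 2) ?_ ?_ ?_
  · intro A
    split_ifs
    · exact div_nonneg (h2.1 _ _ _ _).1 hvp.le
    · exact le_refl _
  · have h6 := regroup (N := N) (Rhi C.α N) (fun m => ww C.α 1 N m / vp C.α 1 N (Rhi C.α N))
      (fun _ => 1)
    simp only [mul_one] at h6
    rw [← h6]
    have h7 : ∀ m ∈ Rhi C.α N, ww C.α 1 N m / vp C.α 1 N (Rhi C.α N) *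
        ∑ _A ∈ powersetCard m (univ : Finset (Fin N)), (1 : ℝ) =
        (N.choose m : ℝ) * ww C.α 1 N m / vp C.α 1 N (Rhi C.α N) := by
      intro m _
      rw [Finset.sum_const, Finset.card_powersetCard, Finset.card_univ, Fintype.card_fin,
        nsmul_eq_mul, mul_one]
      ring
    rw [Finset.sum_congr rfl h7, ← Finset.sum_div]
    exact div_self hvp.ne'
  · intro A hw
    have hAR : A.card ∈ Rhi C.α N := by
      by_contra hcon
      rw [if_neg hcon] at hw
      exact lt_irrefl _ hw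
    have hk : kk C.α N + 1 ≤ A.card := by
      have := (Finset.mem_Ioc.1 hAR).1
      omega
    obtain ⟨A', hA'sub, hA'card⟩ := Finset.exists_subset_card_eq hk
    have h6 : (fun t t' => Ge (ε 0) t t' * ∏ l ∈ A, Ge (ε (l + 1)) t t') =
        fun t t' => (Ge (ε 0) t t' * ∏ j ∈ A'.map Fin.valEmbedding, Ge (ε (j + 1)) t t') *
          ∏ l ∈ A \ A', Ge (ε (l + 1)) t t' := by
      funext t t'
      rw [Finset.prod_map, mul_assoc, mul_comm (∏ x ∈ A', _), ← Finset.prod_sdiff hA'sub]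
      rfl
    rw [h6]
    refine h4.1 v _ _ s (1 / 2) (hA (A'.map Fin.valEmbedding) ?_ ?_) (gram_prod h5 hd ε (A \ A'))
    · intro j hj
      obtain ⟨l, _, rfl⟩ := Finset.mem_map.1 hj
      exact Finset.mem_range.2 l.2
    · rw [Finset.card_map, hA'card]

end Pool.Agent.Lib.MP_537232_an.NM
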