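import Pool.Agent.Lib.MP_537232_an.NM.SpecA

set_option autoImplicit false

/-!
# MP_537232_an, NM, Int: integrability and continuity in a parameter
-/

namespace Pool.Agent.Lib.MP_537232_an.NM

open MeasureTheory ProbabilityTheory Finset Filter Topology

namespace Int

theorem pow_int (n : ℕ) : Integrable (fun x : ℝ => |x| ^ n) gam := by
  by_cases hn : n = 0
  · subst hn
    simp
  · have h := (memLp_id_gaussianReal (μ := 0) (v := 1) (n : NNReal))
    have h' : MemLp (id : ℝ → ℝ) (n : ENNReal) gam := by
      unfold gam
      simpa using h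
    simpa using h'.integrable_norm_pow hn

theorem bound_int (A r : ℝ) : Integrable (fun x : ℝ => A * (1 + |x|) ^ r) gam := by
  apply Integrable.const_mul
  obtain ⟨n, hn⟩ := exists_nat_ge r
  have h1 : Integrable (fun x : ℝ => (2 : ℝ) ^ (n - 1) * (1 ^ n + |x| ^ n)) gam :=
    ((integrable_const _).add (pow_int n)).const_mul _
  refine h1.mono' ?_ (Filter.Eventually.of_forall fun x => ?_)
  · apply Continuous.aestronglyMeasurable
    refine Continuous.rpow_const (by fun_prop) fun x => Or.inl ?_
    have := abs_nonneg x
    positivity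
  · have hx : 1 ≤ 1 + |x| := by linarith [abs_nonneg x]
    rw [Real.norm_eq_abs, abs_of_nonneg (by positivity)]
    calc (1 + |x|) ^ r ≤ (1 + |x|) ^ (n : ℝ) := Real.rpow_le_rpow_of_exponent_le hx hn
      _ = (1 + |x|) ^ n := Real.rpow_natCast _ _
      _ ≤ _ := add_pow_le zero_le_one (abs_nonneg x) n

end Int

theorem wInt : S_Int := by
  intro A r _
  refine ⟨fun F hF hb => ?_, fun F hF hb => ?_⟩
  · exact (Int.bound_int A r).mono' hF.aestronglyMeasurable
      (Filter.Eventually.of_forall fun x => by rw [Real.norm_eq_abs]; exact hb x)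
  · refine continuous_of_dominated (bound := fun x => A * (1 + |x|) ^ r) (fun t => ?_) (fun t => ?_)
      (Int.bound_int A r) (Filter.Eventually.of_forall fun x => ?_)
    · exact (hF.comp (Continuous.prodMk_right t)).aestronglyMeasurable
    · exact Filter.Eventually.of_forall fun x => by rw [Real.norm_eq_abs]; exact hb t x
    · exact hF.comp (Continuous.prodMk_left x)

end Pool.Agent.Lib.MP_537232_an.NM
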