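import Pool.Agent.Lib.MP_537232_an.NM.SpecE

set_option autoImplicit false

/-!
# MP_537232_an, directory NM: limits of entire functions (`S_Lim`)
-/

namespace Pool.Agent.Lib.MP_537232_an.NM

open MeasureTheory ProbabilityTheory Finset Filter Topology

namespace Lim

/-- Taylor coefficients -/
private noncomputable def tc (ψ : ℂ → ℂ) (k : ℕ) : ℂ := ((k.factorial : ℕ) : ℂ)⁻¹ * iteratedDeriv k ψ 0

private lemma tc_sum {ψ : ℂ → ℂ} (h : Differentiable ℂ ψ) (z : ℂ) :
    ∑' k, z ^ k * tc ψ k = ψ z := by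
  have h1 := (Complex.hasSum_taylorSeries_of_entire h 0 z).tsum_eq
  rw [← h1]
  refine tsum_congr fun k => ?_
  unfold tc
  simp only [smul_eq_mul, sub_zero]
  ring

private lemma tc_le {ψ : ℂ → ℂ} (h : Differentiable ℂ ψ) (hb : ∀ z, ‖ψ z‖ ≤ Real.exp (z.im ^ 2))
    {R : ℝ} (hR : 0 < R) (k : ℕ) : ‖tc ψ k‖ ≤ Real.exp (R ^ 2) / R ^ k := by
  have h1 := Complex.norm_iteratedDeriv_le_of_forall_mem_sphere_norm_le (c := 0) (R := R)
    (C := Real.exp (R ^ 2)) (f := ψ) k hR h.diffContOnCl (by
      intro z hz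
      refine (hb z).trans (Real.exp_le_exp.2 ?_)
      have h2 : ‖z‖ = R := by simpa using hz
      have h3 := Complex.abs_im_le_norm z
      rw [h2] at h3
      have h4 := abs_nonneg z.im
      rw [← sq_abs]
      nlinarith)
  have h2 : (0 : ℝ) < (k.factorial : ℝ) := by exact_mod_cast k.factorial_pos
  unfold tc
  rw [norm_mul, norm_inv, Complex.norm_natCast]
  calc (k.factorial : ℝ)⁻¹ * ‖iteratedDeriv k ψ 0‖
      ≤ (k.factorial : ℝ)⁻¹ * (k.factorial * Real.exp (R ^ 2) / R ^ k) :=
        mul_le_mul_of_nonneg_left h1 (by positivity)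
    _ = Real.exp (R ^ 2) / R ^ k := by field_simp

end Lim

open Lim in
theorem wLim : S_Lim := by
  intro ψ hψ hb
  set U : Ultrafilter ℕ := Ultrafilter.of atTop with hU
  have hUle : (U : Filter ℕ) ≤ atTop := Ultrafilter.of_le atTop
  have hlim : ∀ k, ∃ a : ℂ, Tendsto (fun m => tc (ψ m) k) U (𝓝 a) ∧
      ∀ R : ℝ, 0 < R → ‖a‖ ≤ Real.exp (R ^ 2) / R ^ k := by
    intro k
    have hc : IsCompact (Metric.closedBall (0 : ℂ) (Real.exp (1 ^ 2) / 1 ^ k)) :=
      isCompact_closedBall _ _
    obtain ⟨a, _, ha⟩ := hc.ultrafilter_le_nhds (U.map fun m => tc (ψ m) k) (by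
      rw [le_principal_iff]
      refine Ultrafilter.mem_map.2 ?_
      refine Filter.univ_mem' fun m => ?_
      have := tc_le (hψ m) (hb m) one_pos k
      simpa using this)
    have ha' : Tendsto (fun m => tc (ψ m) k) U (𝓝 a) := ha
    refine ⟨a, ha', fun R hR => ?_⟩
    exact le_of_tendsto ha'.norm (Eventually.of_forall fun m => tc_le (hψ m) (hb m) hR k)
  choose a ha hale using hlim
  refine ⟨U, fun z => ∑' k, z ^ k * a k, hUle, ?_, ?_⟩
  · have hd : ∀ r : ℝ, 0 < r → DifferentiableOn ℂ (fun z : ℂ => ∑' k, z ^ k * a k)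
        (Metric.ball 0 r) := by
      intro r hr
      refine Complex.differentiableOn_tsum_of_summable_norm
        (u := fun k => Real.exp ((2 * r) ^ 2) * (1 / 2) ^ k)
        ((summable_geometric_of_lt_one (by norm_num) (by norm_num)).mul_left _) ?_ Metric.isOpen_ball ?_
      · intro k
        exact ((differentiable_pow k).mul_const (a k)).differentiableOn
      · intro k w hw
        have hw' : ‖w‖ ≤ r := by
          have := mem_ball_zero_iff.1 hw
          exact this.le
        have h1 := hale k (2 * r) (by positivity)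
        rw [norm_mul, norm_pow]
        calc ‖w‖ ^ k * ‖a k‖ ≤ r ^ k * (Real.exp ((2 * r) ^ 2) / (2 * r) ^ k) :=
              mul_le_mul (pow_le_pow_left₀ (norm_nonneg _) hw' k) h1 (norm_nonneg _) (by positivity)
          _ = Real.exp ((2 * r) ^ 2) * (1 / 2) ^ k := by
              rw [mul_pow 2 r k, one_div, inv_pow]
              have h5 : (r : ℝ) ^ k ≠ 0 := by positivity
              generalize Real.exp ((2 * r) ^ 2) = E
              field_simp
    intro z
    exact (hd (‖z‖ + 1) (by positivity)).differentiableAt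
      (Metric.isOpen_ball.mem_nhds (by simp))
  · intro z
    have h1 : ∀ m, ψ m z = ∑' k, z ^ k * tc (ψ m) k := fun m => (tc_sum (hψ m) z).symm
    simp only [h1]
    set R : ℝ := 2 * (‖z‖ + 1) with hRdef
    have hR : 0 < R := by positivity
    refine tendsto_tsum_of_dominated_convergence
      (bound := fun k => Real.exp (R ^ 2) * (1 / 2) ^ k)
      ((summable_geometric_of_lt_one (by norm_num) (by norm_num)).mul_left _) ?_ ?_
    · intro k
      exact (ha k).const_mul _
    · refine Eventually.of_forall fun m k => ?_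
      have h2 := tc_le (hψ m) (hb m) hR k
      rw [norm_mul, norm_pow]
      calc ‖z‖ ^ k * ‖tc (ψ m) k‖ ≤ (‖z‖ + 1) ^ k * (Real.exp (R ^ 2) / R ^ k) :=
            mul_le_mul (pow_le_pow_left₀ (norm_nonneg _) (by linarith) k) h2 (norm_nonneg _)
              (by positivity)
        _ = Real.exp (R ^ 2) * (1 / 2) ^ k := by
            have h5 : (‖z‖ + 1) ^ k ≠ 0 := by positivity
            have h6 : R ^ k = 2 ^ k * (‖z‖ + 1) ^ k := by rw [hRdef, mul_pow]
            rw [h6, one_div, inv_pow]
            generalize Real.exp (R ^ 2) = E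
            generalize (‖z‖ + 1) ^ k = F at h5 ⊢
            field_simp

end Pool.Agent.Lib.MP_537232_an.NM
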