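import Pool.Agent.Lib.MP_537232_an.NM.SpecJ

set_option autoImplicit false

open scoped ENNReal Topology
open Filter Finset

namespace Pool.Agent.Lib.MP_537232_an.NM

theorem wOpb (h1 : S_Fun) : S_Opb := by
  intro r hr _ u hu D b A K hb hK hA
  classical
  have hr0 : 0 < r := by linarith
  have hpr : (ENNReal.ofReal r).toReal = r := ENNReal.toReal_ofReal hr0.le
  have hp0 : 0 < (ENNReal.ofReal r).toReal := by rw [hpr]; exact hr0
  let L : ∀ m, lp (E u) (ENNReal.ofReal r) →ₗ[ℝ] E u (b m) := fun m =>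
    { toFun := fun x => ∑ ω, fc hu x (pos D m ω) • A m ω
      map_add' := fun x y => by
        rw [← Finset.sum_add_distrib]
        refine Finset.sum_congr rfl fun ω _ => ?_
        rw [← add_smul]
        rfl
      map_smul' := fun c x => by
        rw [RingHom.id_apply, Finset.smul_sum]
        refine Finset.sum_congr rfl fun ω _ => ?_
        rw [smul_smul]
        rfl }
  have hg : ∀ n, ∃ g : lp (E u) (ENNReal.ofReal r) →ₗ[ℝ] E u n,
      (∀ m (h : b m = n), h ▸ L m = g) ∧ ((¬ ∃ m, b m = n) → g = 0) := by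
    intro n
    by_cases h : ∃ m, b m = n
    · obtain ⟨m, rfl⟩ := h
      refine ⟨L m, fun m' h' => ?_, fun h => absurd ⟨m, rfl⟩ h⟩
      have := hb h'
      subst this
      rfl
    · exact ⟨0, fun m h' => absurd ⟨m, h'⟩ h, fun _ => rfl⟩
  choose g hg1 hg2 using hg
  have hgb : ∀ m, g (b m) = L m := fun m => (hg1 (b m) m rfl).symm
  have hL : ∀ x m, ‖L m x‖ ^ r ≤ K ^ r * ∑ ω : Fin (D m), |fc hu x (pos D m ω)| ^ r := by
    intro x m
    have h2 := hA m (fun ω => fc hu x (pos D m ω))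
    have h3 : (0 : ℝ) ≤ ∑ ω : Fin (D m), |fc hu x (pos D m ω)| ^ r :=
      Finset.sum_nonneg fun ω _ => Real.rpow_nonneg (abs_nonneg _) _
    calc ‖L m x‖ ^ r ≤ (K * (∑ ω : Fin (D m), |fc hu x (pos D m ω)| ^ r) ^ (1 / r)) ^ r :=
          Real.rpow_le_rpow (norm_nonneg _) h2 hr0.le
      _ = K ^ r * ∑ ω : Fin (D m), |fc hu x (pos D m ω)| ^ r := by
          rw [Real.mul_rpow hK (Real.rpow_nonneg h3 _), ← Real.rpow_mul h3, one_div_mul_cancel hr0.ne',
            Real.rpow_one]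
  have key : ∀ (x : lp (E u) (ENNReal.ofReal r)) (s : Finset ℕ),
      ∑ n ∈ s, ‖g n x‖ ^ (ENNReal.ofReal r).toReal ≤ (K * ‖x‖) ^ (ENNReal.ofReal r).toReal := by
    intro x s
    rw [hpr]
    have e1 : ∑ m ∈ s.preimage b hb.injOn, ‖g (b m) x‖ ^ r = ∑ n ∈ s, ‖g n x‖ ^ r := by
      refine Finset.sum_preimage b s hb.injOn (fun n => ‖g n x‖ ^ r) ?_
      intro n _ hn
      rw [hg2 n (fun ⟨m, hm⟩ => hn ⟨m, hm⟩)]
      simp [Real.zero_rpow hr0.ne']
    rw [← e1]
    calc ∑ m ∈ s.preimage b hb.injOn, ‖g (b m) x‖ ^ r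
        ≤ ∑ m ∈ s.preimage b hb.injOn, K ^ r * ∑ ω : Fin (D m), |fc hu x (pos D m ω)| ^ r := by
          refine Finset.sum_le_sum fun m _ => ?_
          rw [hgb]
          exact hL x m
      _ = K ^ r * ∑ m ∈ s.preimage b hb.injOn, ∑ ω : Fin (D m), |fc hu x (pos D m ω)| ^ r := by
          rw [Finset.mul_sum]
      _ ≤ K ^ r * ‖x‖ ^ r := by
          gcongr
          exact (h1 r hr u hu D x).1 _
      _ = (K * ‖x‖) ^ r := (Real.mul_rpow hK (norm_nonneg _)).symm
  have hmem : ∀ x : lp (E u) (ENNReal.ofReal r), Memℓp (fun n => g n x) (ENNReal.ofReal r) :=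
    fun x => memℓp_gen' (key x)
  refine ⟨LinearMap.mkContinuous
    { toFun := fun x => (⟨fun n => g n x, hmem x⟩ : lp (E u) (ENNReal.ofReal r))
      map_add' := fun x y => by
        refine lp.ext (funext fun n => ?_)
        exact (g n).map_add x y
      map_smul' := fun c x => by
        refine lp.ext (funext fun n => ?_)
        exact (g n).map_smul c x } K (fun x => ?_), ?_⟩
  · exact lp.norm_le_of_forall_sum_le hp0 (by positivity) (key x)
  · intro x m
    change g (b m) x = _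
    rw [hgb]
    rfl

end Pool.Agent.Lib.MP_537232_an.NM
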