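import Pool.Agent.Lib.MP_537232_an.NM.SpecG

set_option autoImplicit false

/-!
# MP_537232_an, NM/Sch: Schur products (helper82)
-/

namespace Pool.Agent.Lib.MP_537232_an.NM

open Finset

theorem wSch : S_Sch := by
  refine ⟨?_, ?_⟩
  · rintro v Γ Γ' s δ hO ⟨n, y, hy, hy1⟩ J a hJ
    have hsq : ∀ t, ∑ i, y t i ^ 2 = 1 := by
      intro t
      rw [← hy1 t, hy t t]
      exact sum_congr rfl fun i _ => sq (y t i)
    have h1 : ∑ t ∈ J, ∑ t' ∈ J, a t * a t' * (Γ t t' * Γ' t t') =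
        ∑ i, ∑ t ∈ J, ∑ t' ∈ J, (a t * y t i) * (a t' * y t' i) * Γ t t' := by
      have e1 : ∀ t ∈ J, ∑ t' ∈ J, a t * a t' * (Γ t t' * Γ' t t') =
          ∑ i, ∑ t' ∈ J, (a t * y t i) * (a t' * y t' i) * Γ t t' := by
        intro t _
        rw [sum_comm]
        refine sum_congr rfl fun t' _ => ?_
        rw [hy t t', mul_sum, mul_sum]
        refine sum_congr rfl fun i _ => ?_
        ring
      rw [sum_congr rfl e1, sum_comm]
    have h2 : ∑ t ∈ J, a t ^ 2 = ∑ i, ∑ t ∈ J, (a t * y t i) ^ 2 := by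
      rw [sum_comm]
      refine sum_congr rfl fun t _ => ?_
      rw [← mul_one (a t ^ 2), ← hsq t, mul_sum]
      refine sum_congr rfl fun i _ => ?_
      ring
    show |∑ t ∈ J, ∑ t' ∈ J, a t * a t' * (Γ t t' * Γ' t t') - ∑ t ∈ J, a t ^ 2| ≤ _
    rw [h1, h2, ← sum_sub_distrib, mul_sum]
    exact (abs_sum_le_sum_abs _ _).trans (sum_le_sum fun i _ => hO J (fun t => a t * y t i) hJ)
  · intro v ι _ w Γ s δ hw hw1 hO J a hJ
    have h1 : ∑ t ∈ J, ∑ t' ∈ J, a t * a t' * (∑ i, w i * Γ i t t') =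
        ∑ i, w i * ∑ t ∈ J, ∑ t' ∈ J, a t * a t' * Γ i t t' := by
      simp only [mul_sum]
      rw [sum_comm]
      have h2 : ∀ t' ∈ J, ∑ t ∈ J, ∑ i, a t * a t' * (w i * Γ i t t') =
          ∑ i, ∑ t ∈ J, a t * a t' * (w i * Γ i t t') := fun t' _ => sum_comm
      rw [sum_congr rfl h2, sum_comm]
      refine sum_congr rfl fun i _ => ?_
      rw [sum_comm]
      refine sum_congr rfl fun t _ => sum_congr rfl fun t' _ => ?_
      ring
    have h2 : ∑ t ∈ J, a t ^ 2 = ∑ i, w i * ∑ t ∈ J, a t ^ 2 := by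
      rw [← sum_mul, hw1, one_mul]
    show |∑ t ∈ J, ∑ t' ∈ J, a t * a t' * (∑ i, w i * Γ i t t') - ∑ t ∈ J, a t ^ 2| ≤
      δ * ∑ t ∈ J, a t ^ 2
    have h3 : ∑ t ∈ J, ∑ t' ∈ J, a t * a t' * (∑ i, w i * Γ i t t') - ∑ t ∈ J, a t ^ 2 =
        ∑ i, w i * (∑ t ∈ J, ∑ t' ∈ J, a t * a t' * Γ i t t' - ∑ t ∈ J, a t ^ 2) := by
      simp only [mul_sub, sum_sub_distrib]
      rw [h1, ← h2]
    have h4 : δ * ∑ t ∈ J, a t ^ 2 = ∑ i, w i * (δ * ∑ t ∈ J, a t ^ 2) := by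
      rw [← sum_mul, hw1, one_mul]
    rw [h3, h4]
    refine (abs_sum_le_sum_abs _ _).trans (sum_le_sum fun i _ => ?_)
    rw [abs_mul, abs_of_nonneg (hw i)]
    rcases (hw i).eq_or_lt with h5 | h5
    · rw [← h5, zero_mul, zero_mul]
    · exact mul_le_mul_of_nonneg_left (hO i h5 J a hJ) (hw i)

end Pool.Agent.Lib.MP_537232_an.NM
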