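import Pool.Agent.Lib.MP_537232_an.NM.Defs

set_option autoImplicit false

/-!
# MP_537232_an, directory NM, part A: one Gaussian site

Every statement `S_Xxx` is a `Prop`, proved in its own file `NM/Xxx.lean` (`theorem wXxx`), with the statements it uses
as hypotheses.  The complete proofs are in the docstrings.  `gam` is the standard Gaussian measure on `ℝ`.
-/

namespace Pool.Agent.Lib.MP_537232_an.NM

open MeasureTheory ProbabilityTheory Finset Filter Topology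

/-- **Int.**  Integrability and continuity in a parameter.

Proof.  `memLp_id_gaussianReal` (all powers of `|x|` are integrable), `(1+|x|)^r ≤ 2^r (1 + |x|^r)`; a continuous function
which is dominated by an integrable function is integrable; the second claim is
`MeasureTheory.continuous_of_dominated`. -/
def S_Int : Prop := ∀ A r : ℝ, 0 ≤ r →
  (∀ F : ℝ → ℝ, Continuous F → (∀ x, |F x| ≤ A * (1 + |x|) ^ r) → Integrable F gam) ∧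
  ∀ F : ℝ → ℝ → ℝ, Continuous (fun z : ℝ × ℝ => F z.1 z.2) → (∀ t x, |F t x| ≤ A * (1 + |x|) ^ r) →
    Continuous fun t => ∫ x, F t x ∂gam

/-- **Mom.**  Gaussian moments.

Proof.  `∫ |x|^r dgam = (2/√(2π)) ∫_{x > 0} x^r exp(-x²/2) dx = 2^(r/2) Γ((r+1)/2)/√π` (`integral_rpow_mul_exp_neg_mul_rpow` or
`integral_rpow_mul_exp_neg_mul_sq`; `gaussianReal_of_var_ne_zero`, `gaussianPDFReal`, evenness:
`integral_comp_abs`), so `mq q/mq (q-2) = 2 Γ((q+1)/2)/Γ((q-1)/2) = q - 1` (`Real.Gamma_add_one`).  `mq r > 0`. -/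
def S_Mom : Prop := (∀ r : ℝ, 0 ≤ r → 0 < mq r) ∧ mq 2 = 1 ∧ ∀ q : ℝ, 2 < q → mq q = (q - 1) * mq (q - 2)

/-- **Sd** (from `Int`).  Second difference.

Proof.  Let `h(t) = |t|^q`, `q > 2`: `h` is twice continuously differentiable, `h' = q |t|^(q-1) sign t`, `h'' = q(q-1)|t|^(q-2)`.  For
fixed `y, z` the quotient `(h(y+sz) + h(y-sz) - 2h(y))/s²` tends to `q(q-1)|y|^(q-2) z²` as `s → 0`, and for `0 < |s| ≤ 1` it is (Taylor,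
or twice the mean value theorem: `h(y+sz) + h(y-sz) - 2h(y) = ∫_0^s (h'(y+tz) - h'(y-tz)) z dt`) at most
`q(q-1)(|y|+|z|)^(q-2) z²` in absolute value.  With `y = a+bx`, `z = c+dx` this is at most `A(1+|x|)^q`; dominated convergence
(`tendsto_integral_filter_of_dominated_convergence`). -/
def S_Sd : Prop := ∀ q : ℝ, 2 < q → ∀ a b c d : ℝ,
  Tendsto (fun s : ℝ => (∫ x, (|a + b * x + s * (c + d * x)| ^ q + |a + b * x - s * (c + d * x)| ^ q -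
    2 * |a + b * x| ^ q) ∂gam) / s ^ 2) (𝓝[≠] 0)
    (𝓝 (q * (q - 1) * ∫ x, |a + b * x| ^ (q - 2) * (c + d * x) ^ 2 ∂gam))

/-- **Max** (from `Int`, `Sd`).  The second order condition at a maximum.

Proof.  For every real `φ`: `Yv κ (α+φ) x = cos φ Yv κ α x + sin φ Zv κ α x`.  For a real number `s` let `φ = arctan s`:
`cos φ = (1+s²)^(-1/2)`, `sin φ = s cos φ`, so `∫|Y + sZ|^q = (1+s²)^(q/2) MR(α+φ) ≤ (1+s²)^(q/2) MR(α)` (`Y = Yv κ α x`, `Z = Zv κ α x`); the same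
for `-s`.  Therefore the quotient in `Sd` (with `a = cos α`, `b = κ sin α`, `c = -sin α`, `d = κ cos α`) is at most
`2 MR(α) ((1+s²)^(q/2) - 1)/s²`, which tends to `q MR(α)`.  So `q(q-1) VS(α) ≤ q MR(α)`. -/
def S_Max : Prop := ∀ q κ α : ℝ, 2 < q → (∀ θ, MR κ q θ ≤ MR κ q α) → (q - 1) * VS κ q α ≤ MR κ q α

/-- **Arg** (from `Int`, `Mom`, `Max`).  The extremal angle is in `(0, π/2)`.

Proof.  `κ = kap q`, `1/(q-1) < κ² = q/(2(q-1)) < 1`.  `θ ↦ MR κ q θ` is continuous (`Int`), has the period `π`, and is even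
(`gam` is symmetric: `Yv κ (-θ) x = Yv κ θ (-x)`) and `MR(π-θ) = MR(θ)` (`Yv κ (π-θ) x = -Yv κ θ (-x)`).  So it has a maximum on `ℝ`,
which is attained at some `α ∈ [0, π/2]`.  `α ≠ 0`: otherwise (`Yv = 1`, `Zv = κx`) `Max` gives `(q-1) κ² ∫x² ≤ 1`, but
`(q-1)κ² > 1`.  `α ≠ π/2`: otherwise (`Yv = κx`, `Zv = -1`) `(q-1) κ^(q-2) mq (q-2) ≤ κ^q mq q = κ^q (q-1) mq (q-2)`, so `κ² ≥ 1`.
`σ = (MR(α))^(1/q)`, `MR(α) ≥ MR(0) = 1 > 0`. -/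
def S_Arg : Prop := ∀ q : ℝ, 2 < q → Nonempty (Cst q)

/-- **Cfm.**  The formula for complex angles.

Proof.  `z = θ + iy`: `cos z = cos θ cosh y - i sin θ sinh y`, `sin z = sin θ cosh y + i cos θ sinh y` (`Complex.cos_add_mul_I`,
`Complex.sin_add_mul_I`), so `cos z + κ x sin z = cosh y Yv κ θ x + i sinh y Zv κ θ x`.  `‖w‖^q = (‖w‖²)^(q/2)`. -/
def S_Cfm : Prop := ∀ (q κ : ℝ) (z : ℂ), MC κ q z =
  ∫ x, (Real.cosh z.im ^ 2 * Yv κ z.re x ^ 2 + Real.sinh z.im ^ 2 * Zv κ z.re x ^ 2) ^ (q / 2) ∂gam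

/-- **Pgl** (from `Int`, `Cfm`).  The global bound.

Proof.  Let `θ = re z`, `y = im z`, `λ = cosh² y/(cosh² y + sinh² y)`, `cosh² y + sinh² y = cosh 2y`.  `t ↦ t^(q/2)` is convex on `[0,∞)`:
`(cosh² y Y² + sinh² y Z²)^(q/2) ≤ (cosh 2y)^(q/2) (λ|Y|^q + (1-λ)|Z|^q)`.  As `Zv κ θ = Yv κ (θ+π/2)`, the integral is at most
`(cosh 2y)^(q/2) (λ MR(θ) + (1-λ) MR(θ+π/2)) ≤ σ^q (cosh 2y)^(q/2)`.  For `z = α + (x+iy)/√N`:
`(cosh(2y/√N))^(qN/2) ≤ exp((2y²/N)(qN/2)) = exp(q y²)` (`Real.cosh_le_exp_half_sq`). -/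
def S_Pgl : Prop := ∀ q : ℝ, 2 < q → ∀ C : Cst q, ∀ (N : ℕ) (x y : ℝ), 1 ≤ N →
  (MC (kap q) q ((C.α : ℂ) + ((x : ℂ) + (y : ℂ) * Complex.I) / ((Real.sqrt N : ℝ) : ℂ)) / C.σ ^ q) ^ N ≤
    Real.exp (q * y ^ 2)

/-- **Clo** (from `Int`, `Max`, `Cfm`).  The local bound.

Proof.  `κ = kap q`.  With `T = sinh²(y/√N)`, `cosh² = 1 + T`, `θ = α + x/√N` and `A = Yv κ θ ²`, `B = Yv κ θ ² + Zv κ θ ²` the integrand of
`Cfm` is `(A + T B)^(q/2)`.  This is convex in `T ≥ 0`: for `0 ≤ T ≤ T₀`, `(A+TB)^(q/2) ≤ A^(q/2) + (T/T₀)((A+T₀B)^(q/2) - A^(q/2))`.  So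
`MC ≤ σ^q + T F(θ)/T₀`, `F(θ) = ∫ ((A+T₀B)^(q/2) - A^(q/2)) dgam`, a continuous function of `θ` (`Int`; everything is bounded by
`A'(1+|x|)^q`).  (1) As `T₀ → 0+`: `F(α)/T₀ → (q/2) ∫ |Y|^(q-2)(Y²+Z²) = (q/2)(σ^q + VS(α)) ≤ (q/2) σ^q (1 + 1/(q-1)) = q b σ^q` (`Max`, `b = bq q`;
dominated convergence: the quotient `((A+T₀B)^(q/2) - A^(q/2))/T₀` is between `0` and `(q/2)(A+B)^(q/2-1) B` for `0 < T₀ ≤ 1`; pointwise it is the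
derivative of `t ↦ (A+tB)^(q/2)` at `0`, which is `(q/2) A^(q/2-1) B`, `q/2 > 1`).  So for every `ε' > 0` there is `T₀ ∈ (0,1]` with
`F(α)/T₀ ≤ qbσ^q + ε'`.  (2) `N T → y²` (`sinh(t)/t → 1`) and `F(α + x/√N) → F(α)` as `N → ∞`, so `N(MC - σ^q) ≤ N T F(θ)/T₀` is eventually at most
`q b y² σ^q + ε' y² + ε'`.  Choose `ε'(y²+1) ≤ ε σ^q`. -/
def S_Clo : Prop := ∀ q : ℝ, 2 < q → ∀ C : Cst q, ∀ x y ε : ℝ, 0 < ε → ∃ N₀ : ℕ, 1 ≤ N₀ ∧ ∀ N : ℕ, N₀ ≤ N →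
  MC (kap q) q ((C.α : ℂ) + ((x : ℂ) + (y : ℂ) * Complex.I) / ((Real.sqrt N : ℝ) : ℂ)) ≤
    C.σ ^ q * (1 + (q * bq q * y ^ 2 + ε) / N)

/-- **Plo** (from `Clo`).

Proof.  `(1 + t/N)^N ≤ exp t`, `t = q b y² + ε` (`Real.add_one_le_exp`; `MC ≥ 0`). -/
def S_Plo : Prop := ∀ q : ℝ, 2 < q → ∀ C : Cst q, ∀ x y ε : ℝ, 0 < ε → ∃ N₀ : ℕ, 1 ≤ N₀ ∧ ∀ N : ℕ, N₀ ≤ N →
  (MC (kap q) q ((C.α : ℂ) + ((x : ℂ) + (y : ℂ) * Complex.I) / ((Real.sqrt N : ℝ) : ℂ)) / C.σ ^ q) ^ N ≤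
    Real.exp (q * bq q * y ^ 2 + ε)

end Pool.Agent.Lib.MP_537232_an.NM
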