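import Pool.Agent.Lib.MP_537232_an.NM.SpecA

set_option autoImplicit false

/-!
# MP_537232_an, directory NM, part C: the finite sites (discretization of Gaussian space)
-/

namespace Pool.Agent.Lib.MP_537232_an.NM

open MeasureTheory ProbabilityTheory Finset Filter Topology

/-- **Pol.**  Polynomials are dense in `L₂(gam)`.

Proof.  Otherwise there is `h ∈ L₂(gam)`, not `0`, orthogonal to all polynomials (the closure of the subspace of `Lp ℝ 2 gam` of the classes of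
polynomials is not everything; orthogonal complement, or Hahn-Banach).  For real `t`: `∫ h(x) exp(itx) = ∑_n (it)^n/n! ∫ h x^n = 0` (dominated
convergence with the majorant `|h| exp(|tx|)`, integrable since both factors are in `L₂`: `exp(|tx|) ≤ exp(tx) + exp(-tx)`).  So the finite measures
`h⁺ gam` and `h⁻ gam` (`withDensity`) have the same characteristic function and are equal (`MeasureTheory.Measure.ext_of_charFun`), so `h⁺ = h⁻` almost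
everywhere, `h = 0`. -/
def S_Pol : Prop := ∀ f : ℝ → ℝ, MemLp f 2 gam → ∀ ε : ℝ, 0 < ε → ∃ P : Polynomial ℝ,
  ∫ x, (f x - P.eval x) ^ 2 ∂gam ≤ ε

/-- **Exf** (from `Int`, `Pol`).  A polynomial almost norming `Y`.

Proof.  `p = q/(q-1) ∈ (1,2)`, `Y = Yv κ α x`, `h = sign(Y)|Y|^(q-1)/σ^(q-1)`: `∫|h|^p = ∫|Y|^q/σ^q = 1`, `∫hY = σ`, `h ∈ L₂` (`|Y|^(2(q-1))` is integrable, `Int`).  `Pol`:
`P₀` with `‖h - P₀‖₂ ≤ ε ≤ 1`.  `‖P₀‖_p ≤ ‖h‖_p + ‖h-P₀‖_p ≤ 1+ε` (`eLpNorm_le_eLpNorm_of_exponent_le`, probability measure), `P = P₀/(1+ε)`: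
`∫PY ≥ (σ - ε‖Y‖₂)/(1+ε) ≥ σ(1-1/(2N))` for small `ε`. -/
def S_Exf : Prop := ∀ q : ℝ, 2 < q → ∀ (C : Cst q) (N : ℕ), 1 ≤ N → ∃ P : Polynomial ℝ,
  ∫ x, |P.eval x| ^ (q / (q - 1)) ∂gam ≤ 1 ∧ C.σ * (1 - 1 / (2 * N)) ≤ ∫ x, P.eval x * Yv (kap q) C.α x ∂gam

/-- **Cel.**  A finite partition of the line.

Proof.  There is a simple function `f : ℝ → ℝ` with `∫(x - f(x))² dgam ≤ ε` (`MemLp.exists_simpleFunc_eLpNorm_sub_lt`, `memLp_id_gaussianReal`).  Enumerate its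
finite range: `f = a ∘ s`, `s : ℝ → Fin K` measurable.  `c i` = mean of `x` on the cell (`0` if the cell has measure `0`).  `∫ x c(s x) = ∑gam(cell)c²`
`= ∫ c(s x)²`, so `∫(x - c(s x))² = 1 - ∑gam(cell)c²` (`∫x² = 1`: variance of `gaussianReal 0 1`), and
`∫(x - a(s x))² = ∫(x - c(s x))² + ∫(c - a)²(s x) ≥ ∫(x-c(s x))²`. -/
def S_Cel : Prop := ∀ ε : ℝ, 0 < ε → ∃ (K : ℕ) (s : ℝ → Fin K) (c : Fin K → ℝ), Measurable s ∧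
  (∀ i, c i * gam.real (s ⁻¹' {i}) = ∫ x in s ⁻¹' {i}, x ∂gam) ∧
  1 - ε ≤ ∑ i, gam.real (s ⁻¹' {i}) * c i ^ 2 ∧ ∑ i, gam.real (s ⁻¹' {i}) * c i ^ 2 ≤ 1

/-- the mean value of `F` on the cells `s = i` (`0` if the cell has measure `0`) -/
noncomputable def cnd {X I E : Type} [MeasurableSpace X] [NormedAddCommGroup E] [NormedSpace ℝ E] (μ : Measure X)
    (s : X → I) (F : X → E) (i : I) : E := (μ.real (s ⁻¹' {i}))⁻¹ • ∫ x in s ⁻¹' {i}, F x ∂μ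

/-- **Cnd.**  Properties of `cnd`.

Proof.  (1) Jensen on each cell of positive measure: `‖mean F‖^r ≤ (mean ‖F‖)^r ≤ mean ‖F‖^r` (`ConvexOn.map_average_le`, or Hölder), sum over the
cells (`integral_fintype`-like: `X` is the disjoint union of the cells).  (2) `μ(cell)·cnd F i·c i = ∫_cell F c(s x)`; a cell of measure `0` gives `0` on
both sides. -/
def S_Cnd : Prop := ∀ (X : Type) [MeasurableSpace X] (I : Type) [Fintype I] [MeasurableSpace I]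
  [MeasurableSingletonClass I] (μ : Measure X) [IsProbabilityMeasure μ] (s : X → I), Measurable s →
  (∀ (r : ℝ) (F : X → ℂ), 1 ≤ r → Integrable F μ → Integrable (fun x => ‖F x‖ ^ r) μ →
    ∑ i, μ.real (s ⁻¹' {i}) * ‖cnd μ s F i‖ ^ r ≤ ∫ x, ‖F x‖ ^ r ∂μ) ∧
  (∀ (r : ℝ) (F : X → ℝ), 1 ≤ r → Integrable F μ → Integrable (fun x => |F x| ^ r) μ →
    ∑ i, μ.real (s ⁻¹' {i}) * |cnd μ s F i| ^ r ≤ ∫ x, |F x| ^ r ∂μ) ∧
  ∀ (F : X → ℝ) (c : I → ℝ), Integrable F μ →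
    ∑ i, μ.real (s ⁻¹' {i}) * (cnd μ s F i * c i) = ∫ x, F x * c (s x) ∂μ

/-- the standard Gaussian measure on `ℝ^d` -/
noncomputable def gad (d : ℕ) : Measure (Fin d → ℝ) := Measure.pi fun _ => gam

instance (d : ℕ) : IsProbabilityMeasure (gad d) := by unfold gad; infer_instance

/-- **Gmd.**  The law of linear forms.

Proof.  The coordinates are independent standard Gaussian variables (`iIndepFun_pi`), a linear combination with `∑a² = 1` has the law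
`gaussianReal 0 1`; e.g. characteristic functions: `charFun` of the image at `t` is `∏_i exp(-a_i²t²/2) = exp(-t²/2)` (`Measure.ext_of_charFun`,
`charFun_gaussianReal`, `integral_fintype_prod_eq_prod`). -/
def S_Gmd : Prop := ∀ (d : ℕ) (a : Fin d → ℝ), ∑ i, a i ^ 2 = 1 → (gad d).map (fun x => ∑ i, a i * x i) = gam

/-- **Dsc** (from `Int`, `Cnd`, `Gmd`).  The discretization in dimension `d`.

Proof.  `μ = gad d`, `S x = (s(x_i))_i`, the cell of `ω` is a box, `μ(cell) = ∏_i gam(s⁻¹{ω_i})`, `ξ_i(ω) = c(ω_i)`.  (1), (2): products of one-dimensional sums,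
`∑_i gam(cell_i) = 1`, `∑_i gam(cell_i)c_i = ∫x = 0`, `v = ∑_i gam(cell_i)c_i²`.  (3) `cnd μ S (x_i)(ω) = c(ω_i)` if `μ(cell) > 0` (Fubini on the box), so
`cnd μ S (c₀+c₁∑a_ix_i)(ω) = c₀+c₁∑a_iξ_i(ω)` there; `Cnd`(1) and `Gmd`: `∫‖c₀+c₁∑a_ix_i‖^r dμ = ∫‖c₀+c₁x‖^r dgam`.  (4) `Cnd`(2), `Gmd`.  (5) `Cnd`(3):
`∑P·φ·(u+w⟨g,ξ⟩) = ∫F(⟨g,x⟩)(u+w⟨g,ξ(Sx)⟩)dμ = ∫F(x)(u+wx)dgam - w∫F(⟨g,x⟩)⟨g,x-ξ(Sx)⟩dμ`, and (Cauchy-Schwarz)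
`|∫F⟨g,x-ξ⟩| ≤ (∫F²)^(1/2)(∫⟨g,x-ξ⟩²)^(1/2)`, `∫⟨g,x-ξ⟩² = ∑g_i²∫(x-c(s x))²dgam = 1-v` (independent coordinates with mean `0`;
`∫(x-c(s x))² = 1 - 2v + v`). -/
def S_Dsc : Prop := ∀ (K : ℕ) (s : ℝ → Fin K) (c : Fin K → ℝ) (v : ℝ), Measurable s →
  (∀ i, c i * gam.real (s ⁻¹' {i}) = ∫ x in s ⁻¹' {i}, x ∂gam) → v = ∑ i, gam.real (s ⁻¹' {i}) * c i ^ 2 → v ≤ 1 →
  ∀ (d : ℕ) (S : (Fin d → ℝ) → (Fin d → Fin K)) (P : (Fin d → Fin K) → ℝ), (∀ x i, S x i = s (x i)) →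
  (∀ ω, P ω = (gad d).real (S ⁻¹' {ω})) →
  ∑ ω, P ω = 1 ∧
  (∀ i j, ∑ ω, P ω * (c (ω i) * c (ω j)) = if i = j then v else 0) ∧
  (∀ (r : ℝ) (c₀ c₁ : ℂ) (a : Fin d → ℝ), 1 ≤ r → ∑ i, a i ^ 2 = 1 →
    ∑ ω, P ω * ‖c₀ + c₁ * ((∑ i, a i * c (ω i) : ℝ) : ℂ)‖ ^ r ≤ ∫ x : ℝ, ‖c₀ + c₁ * (x : ℂ)‖ ^ r ∂gam) ∧
  (∀ (r A m : ℝ) (F : ℝ → ℝ) (g : Fin d → ℝ), 1 ≤ r → 0 ≤ m → Continuous F → (∀ x, |F x| ≤ A * (1 + |x|) ^ m) →
    ∑ i, g i ^ 2 = 1 →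
    ∑ ω, P ω * |cnd (gad d) S (fun x => F (∑ i, g i * x i)) ω| ^ r ≤ ∫ x, |F x| ^ r ∂gam) ∧
  ∀ (A m u w : ℝ) (F : ℝ → ℝ) (g : Fin d → ℝ), 0 ≤ m → Continuous F → (∀ x, |F x| ≤ A * (1 + |x|) ^ m) →
    ∑ i, g i ^ 2 = 1 →
    ∫ x, F x * (u + w * x) ∂gam - |w| * Real.sqrt (∫ x, F x ^ 2 ∂gam) * Real.sqrt (1 - v) ≤
      ∑ ω, P ω * (cnd (gad d) S (fun x => F (∑ i, g i * x i)) ω * (u + w * ∑ i, g i * c (ω i)))

/-- **Rnk.**  Polynomials of linear forms.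

Proof.  `P(y) = ∑_{m≤r} a_m y^m`, `(∑_ig_ix_i)^m = ∑_{τ : Fin m → Fin d} ∏g_{τ_l}x_{τ_l}` (`Finset.sum_pow'`-like, `Finset.prod_univ_sum`), and `τ` is extended to
`Fin r → Option (Fin d)` by `none`. -/
def S_Rnk : Prop := ∀ (P : Polynomial ℝ) (d : ℕ) (g : Fin d → ℝ), ∃ c : (Fin P.natDegree → Option (Fin d)) → ℝ,
  ∀ x : Fin d → ℝ, P.eval (∑ i, g i * x i) = ∑ τ, c τ * ∏ l, (τ l).elim 1 x

/-- **Sit** (from `Int`, `Exf`, `Cel`, `Dsc`, `Rnk`).  The finite sites.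

Proof.  `P` the polynomial of `Exf`, `r = natDegree P`, `Pi = 1 + ∫P²`.  `ε > 0` with `ε ≤ 1/2` and `√Pi √ε ≤ σ/(2N)`; `Cel` gives `K, s, c`, `v = ∑gam(cell)c² ≥ 1-ε`.  For given `d`: the
index set `Fin d → Fin K` is identified with `Fin (K^d)` (any equivalence, `Fintype.equivFin`), `ξ_i(ω) = c(ω_i)`, `fp g = cnd (gad d) S (fun x => P.eval (∑g_ix_i))`,
`mon τ = cnd (gad d) S (fun x => ∏_l (τ l).elim 1 x)` (`cnd` is linear; the functions are integrable).  `dom`, `domp` (`r = q` and `r = q/(q-1) > 1`; `c₀ = 0`, `c₁ = 1`):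
`Dsc`(3).  `fp_p`, `fp_2`: `Dsc`(4) with `r = q/(q-1)`, `r = 2`.  `fp_pair`: `Dsc`(5) with `u = cos α`, `w = κ sin α`, `|w| ≤ 1`, and
`σ(1-1/(2N)) - σ/(2N) = σ(1-1/N)`.  `rank`: `Rnk`. -/
def S_Sit : Prop := ∀ q : ℝ, 2 < q → ∀ (C : Cst q) (N : ℕ), 1 ≤ N → ∃ (r : ℕ) (Pi : ℝ), 0 < Pi ∧
  ∀ d : ℕ, Nonempty (SiteD q C N r Pi d)

end Pool.Agent.Lib.MP_537232_an.NM
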