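import Pool.Agent.Lib.MP_537232_an.NM.SpecA

set_option autoImplicit false

/-!
# MP_537232_an, directory NM, part D: products of sites, the blocks
-/

namespace Pool.Agent.Lib.MP_537232_an.NM

open MeasureTheory ProbabilityTheory Finset Filter Topology

/-- **Ten.**  Tensorization, two factors and `N` factors.

Proof.  Two factors: let `F_j(ω₁) = ∑_i a_ij b₁_i(ω₁)`, `r = q/2 ≥ 1`.  For fixed `ω₁` the second hypothesis gives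
`∑_{ω₂} P₂|∑_j F_j(ω₁)b₂_j(ω₂)|^q ≤ (s₂∑_jF_j(ω₁)²)^r`.  Minkowski's inequality in `L_r(P₁)`:
`(∑P₁(∑_jF_j²)^r)^(1/r) ≤ ∑_j(∑P₁|F_j|^q)^(1/r) ≤ ∑_j s₁∑_ia_ij²` (Minkowski for finite sums of nonnegative functions with weights: induction from
`Real.Lp_add_le_of_nonneg` applied to `P₁^(1/r)f`, or convexity).  `N` factors: induction (`Fin.consEquiv`, `Fin.prod_univ_succ`), `ι₁ = ι`,
`ι₂ = Fin N → ι`; `N = 0`: `|a|^q = (a²)^(q/2)`. -/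
def S_Ten : Prop := ∀ q : ℝ, 2 ≤ q →
  (∀ (Ω₁ Ω₂ ι₁ ι₂ : Type) [Fintype Ω₁] [Fintype Ω₂] [Fintype ι₁] [Fintype ι₂] (P₁ : Ω₁ → ℝ) (P₂ : Ω₂ → ℝ)
    (b₁ : ι₁ → Ω₁ → ℝ) (b₂ : ι₂ → Ω₂ → ℝ) (s₁ s₂ : ℝ), (∀ ω, 0 ≤ P₁ ω) → (∀ ω, 0 ≤ P₂ ω) → 0 ≤ s₁ → 0 ≤ s₂ →
    (∀ a : ι₁ → ℝ, ∑ ω, P₁ ω * |∑ i, a i * b₁ i ω| ^ q ≤ (s₁ * ∑ i, a i ^ 2) ^ (q / 2)) →
    (∀ a : ι₂ → ℝ, ∑ ω, P₂ ω * |∑ i, a i * b₂ i ω| ^ q ≤ (s₂ * ∑ i, a i ^ 2) ^ (q / 2)) →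
    ∀ a : ι₁ × ι₂ → ℝ, ∑ ω : Ω₁ × Ω₂, P₁ ω.1 * P₂ ω.2 * |∑ j, a j * (b₁ j.1 ω.1 * b₂ j.2 ω.2)| ^ q ≤
      (s₁ * s₂ * ∑ j, a j ^ 2) ^ (q / 2)) ∧
  ∀ (Ω ι : Type) [Fintype Ω] [Fintype ι] (P : Ω → ℝ) (b : ι → Ω → ℝ) (s : ℝ), (∀ ω, 0 ≤ P ω) → 0 ≤ s →
    (∀ a : ι → ℝ, ∑ ω, P ω * |∑ i, a i * b i ω| ^ q ≤ (s * ∑ i, a i ^ 2) ^ (q / 2)) →
    ∀ (N : ℕ) (a : (Fin N → ι) → ℝ), ∑ ω : Fin N → Ω, (∏ j, P (ω j)) * |∑ κ, a κ * ∏ j, b (κ j) (ω j)| ^ q ≤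
      (s ^ N * ∑ κ, a κ ^ 2) ^ (q / 2)

/-- the elementary tensors, normalized: `wt^(1/q) ‖G‖_q^(-1) ξ_i(ω₀) σ^(-N) ∏ (κ ξ_e(ω_l))` -/
noncomputable def SiteD.ee {q : ℝ} {C : Cst q} {N r : ℕ} {Pi : ℝ} {d : ℕ} (S : SiteD q C N r Pi d)
    (j : Fin d × (Fin N → Option (Fin d))) (ω : S.Om) : ℝ :=
  S.wt ω ^ (1 / q) * mq q ^ (-(1 / q)) * S.ξ j.1 ω.1 * (C.σ ^ N)⁻¹ *
    ∏ i : Fin N, (j.2 i).elim 1 fun e => kap q * S.ξ e (ω.2 i)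

/-- **Ee** (from `Mom`, `Ten`).  The elementary tensors are bounded from `ℓ₂` to `ℓ_q`.

Proof.  One site, functions `b_none = 1`, `b_(some i) = κξ_i` (`ι = Option (Fin d)`): for real `c₀`, `a` with `t = |a|₂ > 0`, `SiteD.dom` with the unit vector
`a/t`, `c₁ = κt`: `∑P|c₀ + κ∑a_iξ_i|^q ≤ ∫|c₀ + κtx|^q = (c₀²+t²)^(q/2) MR(θ) ≤ (σ²(c₀²+t²))^(q/2)` where `cos θ = c₀/√(c₀²+t²)`, `sin θ = t/√(c₀²+t²)`; `t = 0`: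
`|c₀|^q ≤ σ^q|c₀|^q` as `σ^q ≥ MR(0) = 1`.  So `s = σ²`.  Site 0, functions `mq^(-1/q) ξ_i`, `s = 1`: `SiteD.dom` with `c₀ = 0`, `c₁ = |a|₂`, `∫|x|^q = mq q > 0` (`Mom`).
`Ten`: `N` sites (`s = σ^(2N)`), then the product with site 0; the factor `wt^(1/q)` gives the weight, `(C.σ^N)⁻¹` cancels `σ^(2N)`. -/
def S_Ee : Prop := ∀ q : ℝ, 2 < q → ∀ (C : Cst q) (N r : ℕ) (Pi : ℝ) (d : ℕ) (S : SiteD q C N r Pi d)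
  (a : Fin d × (Fin N → Option (Fin d)) → ℝ), ∑ ω, |∑ j, a j * S.ee j ω| ^ q ≤ (∑ j, a j ^ 2) ^ (q / 2)

/-- **Ex.**  Expansion of the products.

Proof.  The left side is `(∑_ih₀ i) ∑_{κ, nz κ ∈ R} w(nz κ) ∏_l (κ l).elim 1 (h l)`.  Group the `κ` by `A = {l : κ l ≠ none}`: for fixed `A`,
`∑_κ ∏_l = ∏_{l∈A} ∑_e h l e` (`Finset.prod_univ_sum` with the sets `{none}` for `l ∉ A`, `univ.image some` for `l ∈ A`; `Fintype.piFinset`). -/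
def S_Ex : Prop := ∀ (d N : ℕ) (R : Finset ℕ) (w : ℕ → ℝ) (h₀ : Fin d → ℝ) (h : Fin N → Fin d → ℝ),
  ∑ j : Bx d N R, w (nz j.1.2) * (h₀ j.1.1 * ∏ l, (j.1.2 l).elim 1 (h l)) =
    (∑ i, h₀ i) * ∑ m ∈ R, w m * ∑ A ∈ powersetCard m (univ : Finset (Fin N)), ∏ l ∈ A, ∑ e, h l e

/-- the vectors `G j` are unit vectors -/
def UG {d : ℕ} (G : ℕ → Fin d → ℝ) : Prop := ∀ j, ∑ i, G j i ^ 2 = 1

/-- inner product -/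
def gg {d : ℕ} (g g' : Fin d → ℝ) : ℝ := ∑ i, g i * g' i

/-- **Mod** (from `Mom`, `Ee`, `Ex`).  The rows form a model.

Proof.  `hil`: by `Ex` (`h₀ i = G 0 i ξ_i`, `h l e = G (l+1) e κ ξ_e(ω_l)`) `∑_{m ≤ N} a_m xrow m = ∑_{j : Bx d N (range (N+1))} a(nz j) tv G j ee j` (`nz ≤ N` always, so this is a sum
over all `j`); `Ee`, and `∑_j a(nz j)² tv²= ∑_m a_m² C(N,m)` (`Ex` with `h₀ i = (G 0 i)²`, `h l e = (G (l+1) e)²`, all sums `= 1`, `Finset.card_powersetCard`).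
`cpx`: `∑_{m≤N} cos^(N-m)z sin^m z ∑_{|A|=m} ∏_{l∈A} y_l = ∏_l (cos z + sin z y_l)` (`Finset.prod_add`), `y_l = κ lin(G(l+1))(ω_l)`, so
`∑_ω‖Xc z ω‖^q = (∑P|lin (G 0)|^q/mq q) ∏_l (∑P‖cos z + κ sin z lin‖^q/σ^q) ≤ 1·(MC/σ^q)^N` (`SiteD.dom` with `c₀ = 0, c₁ = 1`, and with
`c₀ = cos z`, `c₁ = κ sin z`; `Finset.prod_univ_sum`/`Fintype.sum_pow`-like: the sum over `Fin N → Fin K` of a product is the product of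
the sums). -/
def S_Mod : Prop := ∀ q : ℝ, 2 < q → ∀ (C : Cst q) (N r : ℕ) (Pi : ℝ) (d : ℕ) (S : SiteD q C N r Pi d)
  (G : ℕ → Fin d → ℝ), UG G → Model q C N (S.xrow G)

/-- the constant `c = 1/(8 ‖G‖_p ‖G‖_q)`, `p = q/(q-1)` -/
noncomputable def c0 (q : ℝ) : ℝ := 1 / (8 * (mq (q / (q - 1)) ^ ((q - 1) / q) * mq q ^ (1 / q)))

/-- **Rw** (from `Mom`, `Mod`).  The rows and the functionals.

Proof.  (1) `Model.cpx` at the real point `z = α`: `MC = MR(α) = σ^q` and `Xc = Xs`.  (2) `p = q/(q-1)`: `|frow|^p = wt·|hrow|^p`; the sum is the product of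
`∑P|lin(G 0)|^p/mq p ≤ 1` (`domp`) and the factors `∑P|fp|^p ≤ 1` (`fp_p`).  (3) `frow·row = wt·hrow·(row/wt^(1/q))` and
`row/wt^(1/q) = mq^(-1/q) lin(G 0) ∏_l(cos α + κ sin α lin(G(l+1)))/σ` (`Finset.prod_add` as in `Mod`), so the sum is
`mq p^(-1/p) mq q^(-1/q) (∑P lin(G 0)²) ∏_l(∑P fp·(cos α + κ sin α lin)/σ)`; `∑P lin² = v ≥ 1/2` (`cov`), each factor of the product is `≥ 1-1/N`
(`fp_pair`), `(1-1/N)^N ≥ 1/4` for `N ≥ 2`.  (Points with `wt = 0` do not matter.) -/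
def S_Rw : Prop := ∀ q : ℝ, 2 < q → ∀ (C : Cst q) (N r : ℕ) (Pi : ℝ) (d : ℕ) (S : SiteD q C N r Pi d)
  (G : ℕ → Fin d → ℝ), 2 ≤ N → UG G → ∑ ω, |S.row G ω| ^ q ≤ 1 ∧ ∑ ω, |S.frow G ω| ^ (q / (q - 1)) ≤ 1 ∧
    c0 q ≤ ∑ ω, S.frow G ω * S.row G ω

/-- **Hr** (from `Mom`).  Hilbert space bounds and rank.

Proof.  Products over the sites: `∑wt = 1`; `∑wt·hrow(G)hrow(G') = mq p^(-2/p) (∑P lin(G 0)lin(G' 0)) ∏_l ∑P fp(G(l+1))fp(G'(l+1))`, the first factor is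
`v gg(G 0)(G' 0)`, `0 ≤ v ≤ 1`, the others are `≤ Pi` in absolute value (Cauchy-Schwarz, `fp_2`).  Rank: `hrow G` is a combination of the products
`ξ_i(ω₀) ∏_l mon τ_l (ω_l)`, `i < d`, `τ_l : Fin r → Option (Fin d)`; there are `d((1+d)^r)^N` of them. -/
def S_Hr : Prop := ∀ q : ℝ, 2 < q → ∀ (C : Cst q) (N r : ℕ) (Pi : ℝ) (d : ℕ) (S : SiteD q C N r Pi d),
  ∑ ω, S.wt ω = 1 ∧ (∀ ω, 0 ≤ S.wt ω) ∧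
  (∀ G G' : ℕ → Fin d → ℝ, UG G → UG G' → |∑ ω, S.wt ω * (S.hrow G ω * S.hrow G' ω)| ≤
    mq (q / (q - 1)) ^ (-(2 * ((q - 1) / q))) * |gg (G 0) (G' 0)| * Pi ^ N) ∧
  ∃ e : Fin (d * (1 + d) ^ (r * N)) → S.Om → ℝ, ∀ G : ℕ → Fin d → ℝ, UG G →
    ∃ c : Fin (d * (1 + d) ^ (r * N)) → ℝ, ∀ ω, S.hrow G ω = ∑ i, c i * e i ω

/-- **Wwt.**  The weights.

Proof.  The terms are between `0` and `2^(-l-1)`: summable; each term is at most the sum.  `∑_{m≤N} C(N,m) co N m θ ² = (cos²θ+sin²θ)^N = 1`, so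
`∑_{m ≤ N} C(N,m) ww m = 1`.  Positivity: `qp 0 = 1` (`Nat.unpair 0 = (0,0)`), `1/√N ≤ 1 < π/2`: `cos(α-1/√N) > 0`, so the term `l = 0`, `m = 0 ∈ Rlo` is positive;
`α + 1/√N ∈ (0, π)`, so `sin > 0` and the term `l = 0`, `m = N ∈ Rhi` is positive (`kk α N < N` since `sin²α < 1`, `N ≥ 1`). -/
def S_Wwt : Prop := (∀ (α s : ℝ) (N m : ℕ), 0 ≤ ww α s N m ∧
    ∀ l : ℕ, (1 / 2 : ℝ) ^ (l + 1) * co N m (th α (s * qp l) N) ^ 2 ≤ ww α s N m) ∧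
  (∀ (α s : ℝ) (N : ℕ) (R : Finset ℕ), R ⊆ range (N + 1) → vp α s N R ≤ 1) ∧
  ∀ (α : ℝ) (N : ℕ), 0 < α → α < Real.pi / 2 → 1 ≤ N → 0 < vp α (-1) N (Rlo α N) ∧ 0 < vp α 1 N (Rhi α N) ∧
    Rlo α N ⊆ range (N + 1) ∧ Rhi α N ⊆ range (N + 1) ∧ kk α N < N

/-- **Blk** (from `Ex`, `Ee`, `Wwt`).  The blocks.

Proof.  (1) `Ex` with `w(m) = ww m/vp`, `h₀ i = G 0 i G' 0 i`, `h l e = G (l+1) e G' (l+1) e`; `√(ww/vp)² = ww/vp`.  (2) `G' = G`: all `gg = 1`, the sum is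
`∑_{m∈R} C(N,m) ww m/vp = 1`.  (3) `bm l j = √(vp/ww)co(θ_l) ee j` with `|√(vp/ww) co| ≤ 2^((l+1)/2)` (`Wwt`: `2^(-l-1)co² ≤ ww`, `vp ≤ 1`; if `ww = 0` the square root of
`vp/0 = 0` is `0`); `Ee` for the coefficients `a_j √(vp/ww) co` (extended by `0` from `Bx d N R` to all `j`).  (4) `√(ww/vp)√(vp/ww) = 1` if `ww > 0`, and `co = 0` if
`ww = 0`; so the sum is `∑_j co(nz j) tv G j ee j`, `Ex` as in `Mod`. -/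
def S_Blk : Prop := ∀ q : ℝ, 2 < q → ∀ (C : Cst q) (N r : ℕ) (Pi : ℝ) (d : ℕ) (S : SiteD q C N r Pi d) (s : ℝ)
  (R : Finset ℕ), R ⊆ range (N + 1) → 0 < vp C.α s N R →
  (∀ G G' : ℕ → Fin d → ℝ, ∑ j : Bx d N R, gv C.α s R G j * gv C.α s R G' j =
    gg (G 0) (G' 0) * ∑ m ∈ R, ww C.α s N m / vp C.α s N R *
      ∑ A ∈ powersetCard m (univ : Finset (Fin N)), ∏ l ∈ A, gg (G (l + 1)) (G' (l + 1))) ∧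
  (∀ G : ℕ → Fin d → ℝ, UG G → ∑ j : Bx d N R, gv C.α s R G j ^ 2 = 1) ∧
  (∀ (l : ℕ) (a : Bx d N R → ℝ), ∑ ω, |∑ j, a j * S.bm s R l j ω| ^ q ≤ ((2 : ℝ) ^ (l + 1) * ∑ j, a j ^ 2) ^ (q / 2)) ∧
  ∀ (l : ℕ) (G : ℕ → Fin d → ℝ) (ω : S.Om), ∑ j : Bx d N R, gv C.α s R G j * S.bm s R l j ω =
    Xs N R (S.xrow G) (th C.α (s * qp l) N) ω

/-- **Cbx.**  Dimensions.

Proof.  The number of `κ` with `nz κ = m` is `C(N,m)d^m` (for the upper bound: choose the set `A`, then the values), so for `d ≥ 1` the cardinality is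
`d∑_{m≤k}C(N,m)d^m ≤ d·2^N·d^k`; the `d` indices `(i, (none, ..., none))` are in `Bx d N (Rlo α N)`. -/
def S_Cbx : Prop := ∀ (α : ℝ) (d N : ℕ), 1 ≤ d → d ≤ Fintype.card (Bx d N (Rlo α N)) ∧
  Fintype.card (Bx d N (Rlo α N)) ≤ 2 ^ N * d ^ (kk α N + 1)

end Pool.Agent.Lib.MP_537232_an.NM
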