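import Pool.Agent.Lib.MP_537232_an.NM.SpecA

set_option autoImplicit false

/-!
# MP_537232_an, directory NM, part E: the approximation lemma

A coherent family `X_θ = ∑_m cos^(N-m)θ sin^mθ x_m` (`Model`), `θ = α`, is approximated by bounded combinations of the
truncations (`m ≤ N sin²α` resp. `m > N sin²α`) of `X_θ`, `θ = α ± δ/√N`, `δ > 0` rational.
-/

namespace Pool.Agent.Lib.MP_537232_an.NM

open MeasureTheory ProbabilityTheory Finset Filter Topology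

/-- **PhL.**  A Phragmen-Lindelöf lemma.

Proof.  `Ψ(z) = ψ(z) exp(bz²)`: `|Ψ(x+iy)| ≤ exp(bx²)`, and `|Ψ(x)| ≤ exp(-(1-b)x²)` for `x < 0`.  Let `c = 1-b > 0`, `B > 0` arbitrary, and
choose `γ ∈ (1/2, 1)` so close to `1` that `c cos(γπ) + B sin(γπ) + b cos²(γπ/2) ≤ 0` (at `γ = 1` the value is `-c < 0`; continuity).  For `ζ` in the
closed first quadrant let `H(ζ) = Ψ(-ζ^γ) exp((c - iB) ζ^(2γ))` (`Complex.cpow`; `H(0) = Ψ(0)`; `H` is continuous on the closed quadrant and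
holomorphic inside).  `ζ = r e^(iφ)`, `0 ≤ φ ≤ π/2`: `|exp((c-iB)ζ^(2γ))| = exp(r^(2γ)(c cos 2γφ + B sin 2γφ))` and
`re(-ζ^γ) = -r^γ cos γφ`, so `|H(ζ)| ≤ exp((b+c+B) r^(2γ))`, `2γ < 2`.  `φ = 0`: `|H| ≤ exp((-(1-b)+c) r^(2γ)) = 1` (`r > 0`; `r = 0` by continuity).
`φ = π/2`: `|H| ≤ exp(r^(2γ)(b cos²(γπ/2) + c cos γπ + B sin γπ)) ≤ 1`.  `PhragmenLindelof.quadrant_I`: `|H| ≤ 1` in the quadrant.  So for
`z = -ρ e^(iϑ)`, `ρ > 0`, `0 ≤ ϑ ≤ γπ/2` (`ρ = r^γ`, `ϑ = γφ`): `|Ψ(z)| ≤ exp(-ρ²(c cos 2ϑ + B sin 2ϑ))`.  Take `ϑ = π/4`: for every `B > 0` (the choice of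
`γ > 1/2` gives `ϑ ≤ γπ/2`) `|Ψ(-ρe^(iπ/4))| ≤ exp(-ρ²B)`.  `B → ∞`: `Ψ(-ρe^(iπ/4)) = 0` for all `ρ > 0`; `ρ → 0`: `ψ(0) = Ψ(0) = 0`. -/
def S_PhL : Prop := ∀ b : ℝ, 0 < b → b < 1 → ∀ ψ : ℂ → ℂ, Differentiable ℂ ψ →
  (∀ z, ‖ψ z‖ ≤ Real.exp (b * z.im ^ 2)) → (∀ x : ℝ, x < 0 → ‖ψ (x : ℂ)‖ ≤ Real.exp (-x ^ 2)) → ψ 0 = 0

/-- **Hb.**  Hahn-Banach in `ℓ_q^Ω`.

Proof.  `F = PiLp (ENNReal.ofReal q) (fun _ : Ω => ℝ)`, a finite-dimensional normed space with norm `(∑|x|^q)^(1/q)`.  The set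
`S = {∑ c_l x_l : |c_l| ≤ K}` is convex and disjoint from the open (even closed) ball with centre `x₀` and radius `η`.
`geometric_hahn_banach_open`: there is a functional `f` and `u` with `f < u` on the ball and `u ≤ f` on `S`; `f ≠ 0` (`S` contains `0`, the
ball is not empty), and `f(x₀) + η‖f‖ ≤ u` (the supremum over the ball).  `φ = -f/‖f‖` (`φ ω` is the value at the unit vector): for all
`|c_l| ≤ K`, `φ(x₀) - η ≥ φ(∑c_lx_l)`; take `c_l = K sign φ(x_l)`.  For complex `X` let `|w| = 1` with `w ∑φX` real and `≥ 0`; then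
`‖∑φX‖ = φ(re(wX)) ≤ (∑|re(wX)|^q)^(1/q) ≤ B`. -/
def S_Hb : Prop := ∀ q : ℝ, 1 < q → ∀ (Ω : Type) [Fintype Ω] (L : ℕ) (x₀ : Ω → ℝ) (x : Fin L → Ω → ℝ)
  (K η : ℝ), 0 ≤ K → 0 < η →
  (∀ c : Fin L → ℝ, (∀ l, |c l| ≤ K) → η ^ q < ∑ ω, |x₀ ω - ∑ l, c l * x l ω| ^ q) →
  ∃ φ : Ω → ℝ,
    (∀ (X : Ω → ℂ) (B : ℝ), 0 ≤ B → ∑ ω, ‖X ω‖ ^ q ≤ B ^ q → ‖∑ ω, (φ ω : ℂ) * X ω‖ ≤ B) ∧
    η + K * ∑ l, |∑ ω, φ ω * x l ω| ≤ ∑ ω, φ ω * x₀ ω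

/-- **Lim.**  Limits of entire functions.

Proof.  `U` any ultrafilter `≤ atTop` (`Filter.hyperfilter ℕ`, or `Ultrafilter.of atTop`).  Taylor coefficients at `0`: `ψ_m(z) = ∑_k a_{m,k} z^k`
for all `z`, `|a_{m,k}| ≤ exp(R²)/R^k` for every `R > 0` (Cauchy).  For fixed `k` the sequence `(a_{m,k})_m` is bounded, so it has a limit
`a_k` along `U`, `|a_k| ≤ exp(R²)/R^k`; `φ(z) = ∑_k a_k z^k` is entire.  For fixed `z` and `R = 2‖z‖+1` the terms are dominated by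
`exp(R²) 2^(-k)`: `tendsto_tsum_of_dominated_convergence`.  (Alternatively: pointwise limit along `U` (bounded sequences), equicontinuity
by the Cauchy estimate for the derivative, so locally uniform convergence, `TendstoLocallyUniformlyOn.differentiableOn`.) -/
def S_Lim : Prop := ∀ ψ : ℕ → ℂ → ℂ, (∀ m, Differentiable ℂ (ψ m)) →
  (∀ m z, ‖ψ m z‖ ≤ Real.exp (z.im ^ 2)) →
  ∃ (U : Ultrafilter ℕ) (φ : ℂ → ℂ), (U : Filter ℕ) ≤ atTop ∧ Differentiable ℂ φ ∧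
    ∀ z, Tendsto (fun m => ψ m z) U (𝓝 (φ z))

/-- **Bin.**  Binomial tails.

Proof.  `k = kk α N = ⌊N sin²α⌋`, `S = N sin²α`.  For `0 < θ < π/2`: `co N m θ ² = cos^(2N)θ tan^(2m)θ = co N m α ² · (cos θ/cos α)^(2N) (tan θ/tan α)^(2m)` for
`m ≤ N`.  (1) `θ = α - δ/√N ∈ (0, α)` for large `N`: `tan θ/tan α ≤ 1` and `m ≥ k+1 ≥ S`, so `(tan θ/tan α)^(2m) ≤ (tan θ/tan α)^(2S)` (real power); as
`∑_m C(N,m) co N m α ² = (cos²α + sin²α)^N = 1`, the sum is `≤ exp(2N f(θ))`, `f(θ) = cos²α log(cos θ/cos α) + sin²α log(sin θ/sin α)`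
(`log(tan θ/tan α) = log(sin θ/sin α) - log(cos θ/cos α)`).  (2) `θ = α + δ/√N ∈ (α, π/2)`: `tan θ/tan α ≥ 1`, `m ≤ k ≤ S`, the same bound.
`f(α) = 0`, `f'(θ) = -cos²α tan θ + sin²α cot θ`, `f'(α) = 0`, `f''(α) = -cos²α/cos²α - sin²α/sin²α = -2`, so
`N f(α ± δ/√N) → -δ²` and the sum is eventually `≤ exp(-2δ²) + ε`.  (For the limit: `f(α+t)/t² → -1` as `t → 0`, e.g. by l'Hôpital, or by
`log(cos(α+t)/cos α) = log(cos t - sin t tan α)`, `log(sin(α+t)/sin α) = log(cos t + sin t cot α)` and `log(1+u) ≤ u - u²/2 + |u|³` for small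
`u`: only an upper bound is needed.) -/
def S_Bin : Prop := ∀ α : ℝ, 0 < α → α < Real.pi / 2 → ∀ δ ε : ℝ, 0 < δ → 0 < ε → ∃ N₀ : ℕ, ∀ N : ℕ, N₀ ≤ N →
  ∑ m ∈ Rhi α N, (N.choose m : ℝ) * co N m (th α (-δ) N) ^ 2 ≤ Real.exp (-2 * δ ^ 2) + ε ∧
  ∑ m ∈ Rlo α N, (N.choose m : ℝ) * co N m (th α δ N) ^ 2 ≤ Real.exp (-2 * δ ^ 2) + ε

/-- **Tru** (from `Bin`).  The truncation error.

Proof.  `R = Rlo`, `s = -1`: `range (N+1) = Rlo ∪ Rhi` (disjoint; `kk α N ≤ N`), so the difference is `∑_{m ∈ Rhi} co N m θ x_m`,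
`θ = th α (-δ) N`.  `Model.hil` with `a m = co N m θ` for `m ∈ Rhi`, `0` otherwise, and `Bin`: at most `(exp(-2δ²)+ε')^(q/2)`; choose `ε'` with
`√(exp(-2δ²)+ε') ≤ exp(-δ²)+ε` (`ε' = ε²`).  The same for `R = Rhi`, `s = 1`. -/
def S_Tru : Prop := ∀ q : ℝ, 2 < q → ∀ C : Cst q, ∀ δ ε : ℝ, 0 < δ → 0 < ε → ∃ N₀ : ℕ, ∀ N : ℕ, N₀ ≤ N →
  ∀ (Ω : Type) [Fintype Ω] (x : ℕ → Ω → ℝ), Model q C N x → ∀ (s : ℝ) (R : Finset ℕ),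
  (s = -1 ∧ R = Rlo C.α N ∨ s = 1 ∧ R = Rhi C.α N) →
    ∑ ω, |Xs N (range (N + 1)) x (th C.α (s * δ) N) ω - Xs N R x (th C.α (s * δ) N) ω| ^ q ≤
      (Real.exp (-δ ^ 2) + ε) ^ q

/-- **Apl** (from `Pgl`, `Plo`, `PhL`, `Hb`, `Lim`, `Tru`).  The approximation lemma.

Proof.  Suppose it is false for `η`.  For every `m ≥ 1` (`L = N₀ = m`, `K = m`) there are `N = N_m ≥ m`, a model `x` on `Ω` and `(s,R)` such that no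
`c` exists.  `Hb` (`x₀ = X_α`, `x_l = Xs N R x (th α (s q_l) N)`, `l < m`) gives `φ = φ_m`.  Let
`ψ_m(z) = ∑_ω φ(ω) Xc N x (α - s z/√N)(ω)`, entire.  By `Model.cpx` and `Pgl`: `∑‖Xc N x (α - s(x+iy)/√N)‖^q ≤ exp(qy²)`, so `|ψ_m(x+iy)| ≤ exp(y²)`.
By `Plo`, for fixed `x, y, ε` and large `m`: `|ψ_m(x+iy)| ≤ exp(b y² + ε)`, `b = bq q ∈ (0,1)`.  `ψ_m(0) = φ(X_α) ∈ [η, 1]` (`Xc N x α = Xs N (range (N+1)) x α`), so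
`m |φ(x_l)| ≤ 1` for `l < m`.  `ψ_m(-q_l) = φ(X_θ)`, `θ = α + s q_l/√N = th α (s q_l) N`, and `|φ(X_θ)| ≤ |φ(x_l)| + |φ(X_θ - x_l)| ≤ 1/m + exp(-q_l²) + ε` for large
`m` (`Tru`).  Let `U, φ_∞ =: ψ` be as in `Lim`.  Then `|ψ(x+iy)| ≤ exp(by²)`, `|ψ(-q_l)| ≤ exp(-q_l²)` for all `l`; the numbers `q_l` are all
positive rational numbers, which are dense in `(0,∞)`, so `|ψ(x)| ≤ exp(-x²)` for `x < 0` by continuity; `re ψ(0) ≥ η > 0`.  This contradicts `PhL`. -/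
def S_Apl : Prop := ∀ q : ℝ, 2 < q → ∀ C : Cst q, ∀ η : ℝ, 0 < η → ∃ (L N₀ : ℕ) (K : ℝ), 1 ≤ K ∧ ∀ N : ℕ, N₀ ≤ N →
  ∀ (Ω : Type) [Fintype Ω] (x : ℕ → Ω → ℝ), Model q C N x → ∀ (s : ℝ) (R : Finset ℕ),
  (s = -1 ∧ R = Rlo C.α N ∨ s = 1 ∧ R = Rhi C.α N) → ∃ c : Fin L → ℝ, (∀ l, |c l| ≤ K) ∧
    ∑ ω, |Xs N (range (N + 1)) x C.α ω - ∑ l, c l * Xs N R x (th C.α (s * qp l) N) ω| ^ q ≤ η ^ q

end Pool.Agent.Lib.MP_537232_an.NM
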