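import Pool.Agent.Lib.MP_537232_an.NM.Defs

set_option autoImplicit false

/-!
# MP_537232_an, directory NM, part G: tensor products of random sign vectors are restricted isometries

Final statement: `S_Sgn`.  For vectors `ε^0_t, ..., ε^N_t ∈ {±1}^d/√d`, `t < d^Ci`, every product of `k+2` of them (the factor 0 included)
is a restricted isometry of order `Cs d^(k+1)` (the dimension of the space of these tensors is `d^(k+2)`).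
-/

namespace Pool.Agent.Lib.MP_537232_an.NM

open Finset

/-- **Fg.**  From flat vectors to all vectors.

Proof.  Let `lg = Nat.log 2 s`, `n = (lg+2)/2` (division of natural numbers), so `2n ≥ lg+1` and `4^n ≥ 2^(lg+1) > s`.
(1) Let `J₁, J₂` be disjoint, `|J₁|+|J₂| ≤ s`, `a` real numbers on `J₁`, `c` on `J₂`, `|a|₂ = (∑_{J₁} a²)^(1/2)`.  Claim:
`|∑_{J₁×J₂} a_t c_t' Γ(t,t')| ≤ δ(4lg+10)|a|₂|c|₂`.  Split `J₁` in the level sets `J₁^l = {2^(-l-1)|a|₂ < |a_t| ≤ 2^(-l)|a|₂}`, `l < n`, and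
`J₁^n = {|a_t| ≤ 2^(-n)|a|₂}`; the same for `J₂`, `c`.  For two level sets: `|∑ a_t c_t' Γ| ≤ 2^(-l-l')|a|₂|c|₂ |∑ τ_t τ_t' Γ|` for suitable signs `τ`
(`∑_t a_t V_t ≤ max|a_t| ∑_t τ_t V_t` with `τ_t = sign V_t`, first for the variable `t`, then for `t'`), so it is at most
`δ 2^(-l)|a|₂√|J₁^l| 2^(-l')|c|₂√|J₂^l'|` (`OD`; subsets of `J₁, J₂` are allowed).  Now `∑_{l<n} 2^(-l)|a|₂√|J₁^l| ≤ 2∑_{l<n} |a restricted to J₁^l|₂ ≤ 2√n|a|₂` and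
`2^(-n)|a|₂√|J₁^n| ≤ |a|₂` (`|J₁^n| ≤ s ≤ 4^n`); the same for `c`: the total is `≤ δ(2√n+1)²|a|₂|c|₂ ≤ δ(8n+2)|a|₂|c|₂ ≤ δ(4lg+10)|a|₂|c|₂`.
(2) `∑_{t≠t' ∈ J} a_t a_t' Γ(t,t') = 4·2^(-|J|) ∑_{J₁ ⊆ J} ∑_{t ∈ J₁, t' ∈ J∖J₁} a_t a_t' Γ(t,t')` (for `t ≠ t'` a quarter of the subsets contains `t` and not `t'`;
`Finset.powerset`).  Each inner sum is `≤ δ(4lg+10)|a_{J₁}|₂|a_{J∖J₁}|₂ ≤ δ(4lg+10)|a|₂²/2`.  The diagonal part is `∑a_t²` since `Γ(t,t) = 1`. -/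
def S_Fg : Prop := ∀ (v : ℕ) (Γ : Fin v → Fin v → ℝ) (s : ℕ) (δ : ℝ), (∀ t, Γ t t = 1) → 0 ≤ δ → OD Γ s δ →
  OB Γ s (δ * (8 * (Nat.log 2 s : ℝ) + 20))

/-- **Hoe.**  Hoeffding's inequality, counting form.

Proof.  `∑_ε exp(x ∑a_i ε_i) = ∏_i (e^(xa_i) + e^(-xa_i)) = 2^n ∏ cosh(xa_i) ≤ 2^n exp(x²V/2)` (`Real.cosh_le_exp_half_sq`, `Finset.prod_univ_sum` or
`Fintype.piFinset`), Markov with `x = λ/V`, for `∑` and `-∑`. -/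
def S_Hoe : Prop := ∀ (ι : Type) [Fintype ι] (a : ι → ℝ) (lam V : ℝ), 0 ≤ lam → 0 < V → ∑ i, a i ^ 2 ≤ V →
  (({ε : ι → Bool | lam < |∑ i, a i * sg (ε i)|}.ncard : ℕ) : ℝ) ≤
    2 * 2 ^ (Fintype.card ι) * Real.exp (-(lam ^ 2 / (2 * V)))

/-- **Flt** (from `Hoe`).  One pair of flat vectors.

Proof.  `Γ(t,t') = ⟨y_t, y_t'⟩` (`IsGram`), `x_t = y_t ⊗ ε_t/√d`.  Fix the signs `ε_t(i)` for `t ∉ J'`.  If the first condition of the set does not hold (it only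
depends on `t ∈ J`) there is nothing to count.  Otherwise the double sum is the linear form
`∑_{t' ∈ J', i} ε_t'(i) w(t',i)`, `w(t',i) = τ_t' (1/d) ∑_{t ∈ J} τ_t ε_t(i) Γ(t,t') = (τ_t'/d) ⟨z_i, y_t'⟩`, `z_i = ∑_{t ∈ J} τ_t ε_t(i) y_t`.  `UB` gives the Bessel inequality
`∑_{t' ∈ J'} ⟨z, y_t'⟩² ≤ β|z|²` (`a_t' = ⟨z,y_t'⟩`: `∑a² = ⟨z, ∑a_t'y_t'⟩ ≤ |z| (β∑a²)^(1/2)`; `|J'| ≤ s`), so
`∑w² ≤ (β/d²) ∑_i |z_i|² = (β/d) ∑_{t,t' ∈ J} τ_tτ_t' Γ(t,t') Ge(t,t') ≤ V = (β/d)(1+2δ)|J|`.  `Hoe` with `λ = δ√(|J||J'|)`: at most the part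
`2exp(-δ²|J||J'|/(2V)) = 2exp(-δ²|J'|d/(2β(1+2δ)))` of the signs `ε_t'(i)`, `t' ∈ J'`.  (To fix the other signs: split
`Fin v → Fin d → Bool` as a product, e.g. `Equiv.piEquivPiSubtypeProd` for the index set `Fin v × Fin d`, or write the number as a double sum over
`ε` on the complement and `ε` on `J'`; disjointness of `J` and `J'` is used.) -/
def S_Flt : Prop := ∀ (v d s : ℕ) (Γ : Fin v → Fin v → ℝ) (β δ : ℝ) (J J' : Finset (Fin v)) (τ : Fin v → ℝ),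
  1 ≤ d → IsGram Γ → UB Γ s β → 0 < β → 0 < δ → Disjoint J J' → J.card + J'.card ≤ s → 1 ≤ J.card →
  (∀ t, τ t = 1 ∨ τ t = -1) →
  (({ε : Fin v → Fin d → Bool |
      ∑ t ∈ J, ∑ t' ∈ J, τ t * τ t' * (Γ t t' * Ge ε t t') ≤ (1 + 2 * δ) * J.card ∧
      δ * Real.sqrt (J.card * J'.card) < |∑ t ∈ J, ∑ t' ∈ J', τ t * τ t' * (Γ t t' * Ge ε t t')|}.ncard : ℕ) : ℝ) ≤
    2 * 2 ^ (v * d) * Real.exp (-(δ ^ 2 * J'.card * d / (2 * β * (1 + 2 * δ))))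

/-- **Odd** (from `Flt`).  The union bound.

Proof.  Let `Γ' = Γ·Ge ε` (symmetric, diagonal `1` as `sg² = 1`, `d ≥ 1`).  (1) Suppose that for all `J₁, J₂, τ` (disjoint, `1 ≤ |J₁| ≤ |J₂|`,
`|J₁|+|J₂| ≤ s`) with `∑_{J₁×J₁} ττ'Γ' ≤ (1+2δ)|J₁|` we have `|∑_{J₁×J₂}| ≤ δ√(|J₁||J₂|)`.  Then `OD Γ' s δ`: first, `∑_{J×J} ττ'Γ' ≤ (1+2δ)|J|` for all `|J| ≤ s`, by
strong induction on `|J|`: `∑_{J×J} = |J| + 4·2^(-|J|)∑_{J₁⊆J}∑_{J₁×(J∖J₁)}` (as in `Fg`), and for every `J₁`, with `J₂ = J∖J₁`, the smaller one of the two sets (if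
not empty) has fewer elements than `J`, so by induction it satisfies the condition, so (symmetry) `|∑_{J₁×J₂}| ≤ δ√(|J₁||J₂|) ≤ δ|J|/2`; total
`≤ |J| + 2δ|J|`.  So the condition always holds, and `OD` follows by symmetry (empty sets are trivial).  (2) So if `¬OD`, then for some
`(J₁,J₂,τ)` as above `ε` is in the set of `Flt`.  This only depends on `τ` on `J₁ ∪ J₂`: the number of choices for `J₁`, `τ` on `J₁` with `|J₁| = j₁` is at most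
`(2v)^(j₁)` (a signed set is a set of `j₁` elements of `Fin v × Bool`), so for the pair at most `(2v)^(2j₂)`, `j₁ ≤ j₂`.  With
`x = exp(-δ²d/(2β(1+2δ))) ≤ 1/(16Tv²)` and `y = 4v²x ≤ 1/(4T) ≤ 1/4` the number of bad `ε` is at most
`2^(vd) ∑_{j₂ ≥ 1} j₂ 2 (4v²)^(j₂) x^(j₂) = 2^(vd)·2y/(1-y)² ≤ 2^(vd)(32/9)y ≤ 2^(vd)/T`. -/
def S_Odd : Prop := ∀ (v d s : ℕ) (Γ : Fin v → Fin v → ℝ) (β δ T : ℝ), 1 ≤ v → 1 ≤ d → IsGram Γ → UB Γ s β →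
  0 < β → 0 < δ → 1 ≤ T → 2 * β * (1 + 2 * δ) * Real.log (16 * T * (v : ℝ) ^ 2) ≤ δ ^ 2 * d →
  T * (({ε : Fin v → Fin d → Bool | ¬ OD (fun t t' => Γ t t' * Ge ε t t') s δ}.ncard : ℕ) : ℝ) ≤ 2 ^ (v * d)

/-- **Stp** (from `Odd`).  Simultaneous choice.

Proof.  `Odd` with `T = n+1`: the bad `ε` for the index `i` are at most `2^(vd)/(n+1)`, altogether at most `(n/(n+1)) 2^(vd) < 2^(vd)`, the number of all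
`ε`. -/
def S_Stp : Prop := ∀ (n v d : ℕ) (Γ : Fin n → Fin v → Fin v → ℝ) (s : Fin n → ℕ) (β δ : Fin n → ℝ), 1 ≤ v → 1 ≤ d →
  (∀ i, IsGram (Γ i)) → (∀ i, UB (Γ i) (s i) (β i)) → (∀ i, 0 < β i) → (∀ i, 0 < δ i) →
  (∀ i, 2 * β i * (1 + 2 * δ i) * Real.log (16 * ((n : ℝ) + 1) * (v : ℝ) ^ 2) ≤ δ i ^ 2 * d) →
  ∃ ε : Fin v → Fin d → Bool, ∀ i, OD (fun t t' => Γ i t t' * Ge ε t t') (s i) (δ i)

/-- **Grm.**  Products of Gram matrices.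

Proof.  Tensor products of the vectors (`Fin n × Fin m ≃ Fin (n*m)`: `finProdFinEquiv`); the vectors `ε_t/√d`; the vector `1` in dimension 1. -/
def S_Grm : Prop := (∀ (v : ℕ) (Γ Γ' : Fin v → Fin v → ℝ), IsGram Γ → IsGram Γ' → IsGram fun t t' => Γ t t' * Γ' t t') ∧
  (∀ (v d : ℕ) (ε : Fin v → Fin d → Bool), 1 ≤ d → IsGram (Ge ε)) ∧ ∀ v : ℕ, IsGram (fun _ _ : Fin v => (1 : ℝ))

/-- `δ = max(√r, r)`, `r = 6βL/d` -/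
noncomputable def dl (β L d : ℝ) : ℝ := max (Real.sqrt (6 * β * L / d)) (6 * β * L / d)

/-- the upper bounds `β_i`: `β_0 = s`, `β_(i+1) = 1 + M δ(β_i)` -/
noncomputable def bt (M L d s : ℝ) : ℕ → ℝ
  | 0 => s
  | i + 1 => 1 + M * dl (bt M L d s i) L d

/-- **Num.**  Numerical facts.

Proof.  (1) `r = 6βL/d > 0`, `δ = max(√r,r)`: `δ² ≥ (r/3)(1+2δ)` (`r ≥ 1`: `δ = r`, `1+2r ≤ 3r`; `r < 1`: `δ = √r < 1`, `1+2δ ≤ 3`).  Multiply by `d`.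
(2) `L = log(16(2^(N+1)+1)d^(2Ci))`, `M = 8Nat.log 2 (Cs d^(k+1)) + 20`, `X = 6LM`; `L, M = O(log d)`.  `dl ≤ 1 + r` (`√r ≤ 1+r`), so `β_(i+1) ≤ 1 + M + (X/d)β_i`, and by induction
`β_i ≤ 4M + s(X/d)^i` if `X/d ≤ 1/2` (`1+M ≤ 2M`, `(X/d)4M ≤ 2M`).  With `s = Cs d^(k+1)`: `β_(k+1) ≤ 4M + Cs X^(k+1)`, a polynomial in `log d`, so
`r = 6β_(k+1)L/d → 0` and `M max(√r,r) → 0`.  `dl 2 L d → 0`.  (`isLittleO_log_rpow_atTop` or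
`Real.isLittleO_pow_log_id_atTop`.) -/
def S_Num : Prop := (∀ β L d : ℝ, 0 < β → 0 < L → 0 < d → 0 < dl β L d ∧
    2 * β * (1 + 2 * dl β L d) * L ≤ dl β L d ^ 2 * d) ∧
  ∀ (N k Cs Ci : ℕ) (μ : ℝ), 1 ≤ Cs → 0 < μ → ∃ d₀ : ℕ, 1 ≤ d₀ ∧ ∀ d : ℕ, d₀ ≤ d → ∀ L M : ℝ,
    L = Real.log (16 * ((2 : ℝ) ^ (N + 1) + 1) * ((d : ℝ) ^ Ci) ^ 2) →
    M = 8 * (Nat.log 2 (Cs * d ^ (k + 1)) : ℝ) + 20 →
    M * dl (bt M L d (Cs * d ^ (k + 1) : ℕ) (k + 1)) L d ≤ 1 / 2 ∧ dl 2 L d ≤ μ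

/-- **Sgn** (from `Fg`, `Stp`, `Grm`, `Num`).

Proof.  `v = d^Ci`, `s = Cs d^(k+1)`, `L, M` as in `Num`, `β_i = bt M L d s i` (`≥ 1`), `d ≥ d₀` of `Num` (`d₀ ≥ 1`).  `Γ_A = Ge(ε_0)∏_{j∈A}Ge(ε_(j+1))`, a Gram
matrix (`Grm`).  The signs are chosen one after the other.  `ε_0`: `Stp` with `n = 2`, `Γ = 1` (all entries), once with `(s, β, δ) = (2, 2, dl 2 L d)` and once with
`(s, s, dl s L d)` (`∑a_ta_t' = (∑_Ja_t)² ≤ |J|∑a²`).  The first one gives (`J = {t}`, `J' = {t'}`) `|Ge(ε_0)(t,t')| ≤ dl 2 L d ≤ μ`; the second one with `Fg`: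
`OB (Ge ε_0) s (M dl s L d)`, so `UB (Ge ε_0) s β_1`.  Claim for `j ≤ N`: there are `ε_0, ..., ε_j` with: for all `A ⊆ range j`, `|A| ≤ k+1`:
`UB Γ_A s β_(|A|+1)`, and `OB Γ_A s (1/2)` if `|A| = k+1`.  Step `j → j+1` (`j < N`): `Stp` with the family of the `A ⊆ range j` with `|A| ≤ k`
(`n ≤ 2^N` members; enumerate them by `Fin n`), `Γ_A`, `s`, `β_(|A|+1)`, `δ = dl β_(|A|+1) L d` (`Num`(1); `log(16(n+1)v²) ≤ L` and `n+1 ≤ 2^(N+1)+1`).  For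
`A' = A ∪ {j}`: `OD Γ_{A'} s δ`, by `Fg` `OB Γ_{A'} s (Mδ)`, so `UB Γ_{A'} s (1+Mδ)`, `1+Mδ = β_(|A'|+1)`, and for `|A'| = k+1`: `Mδ ≤ 1/2` (`Num`).  (`Function.update` for the
new signs; the statements for `A ⊆ range j` do not change.) -/
def S_Sgn : Prop := ∀ (N k Cs Ci : ℕ) (μ : ℝ), 1 ≤ Cs → 0 < μ → ∃ d₀ : ℕ, 1 ≤ d₀ ∧ ∀ d : ℕ, d₀ ≤ d →
  ∃ ε : ℕ → Fin (d ^ Ci) → Fin d → Bool, (∀ t t', t ≠ t' → |Ge (ε 0) t t'| ≤ μ) ∧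
    ∀ A : Finset ℕ, A ⊆ range N → A.card = k + 1 →
      OB (fun t t' => Ge (ε 0) t t' * ∏ j ∈ A, Ge (ε (j + 1)) t t') (Cs * d ^ (k + 1)) (1 / 2)

/-- **Sch.**  Schur products.

Proof.  `Γ' = ⟨c_t, c_t'⟩`: `∑a_ta_t'ΓΓ' = ∑_i ∑_{t,t'} (a_tc_t(i))(a_t'c_t'(i))Γ(t,t')`, and `∑_i∑_t (a_tc_t(i))² = ∑a_t²`: apply `OB` to the vectors
`(a_tc_t(i))_t` and add over `i`.  Convex combinations are clear. -/
def S_Sch : Prop := (∀ (v : ℕ) (Γ Γ' : Fin v → Fin v → ℝ) (s : ℕ) (δ : ℝ), OB Γ s δ → IsGram Γ' →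
    OB (fun t t' => Γ t t' * Γ' t t') s δ) ∧
  ∀ (v : ℕ) (ι : Type) [Fintype ι] (w : ι → ℝ) (Γ : ι → Fin v → Fin v → ℝ) (s : ℕ) (δ : ℝ), (∀ i, 0 ≤ w i) →
    ∑ i, w i = 1 → (∀ i, 0 < w i → OB (Γ i) s δ) → OB (fun t t' => ∑ i, w i * Γ i t t') s δ

end Pool.Agent.Lib.MP_537232_an.NM
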