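import Pool.Agent.Lib.MP_537232_an.NM.SpecS
import Pool.Agent.Lib.MP_537232_an.ColsMain

set_option autoImplicit false

/-!
# MP_537232_an, directory NM, part J: the operators and the ideals

The operator `R` has the rows `r t` (block `2m`, number `t`), placed on the first coordinates of the blocks
`pos D m ω`.  It belongs to the ideals of the even and of the odd blocks, but not to the ideal of the inclusion `I`.
The files `Ideal.lean`, `Coord.lean`, `Shift.lean`, `Rows.lean`, `RowsMain.lean`, `ColDefs.lean`, `Pos.lean` of the parent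
directory (namespace `Pool.Agent.Lib.MP_537232_an`) may be used freely: they are imported.
-/

open scoped ENNReal Topology
open Filter Finset

namespace Pool.Agent.Lib.MP_537232_an.NM

/-- the exponent `p = q/(q-1)` -/
noncomputable abbrev pE (q : ℝ) : ℝ≥0∞ := ENNReal.ofReal (q / (q - 1))

/-- the exponent `q` -/
noncomputable abbrev qE (q : ℝ) : ℝ≥0∞ := ENNReal.ofReal q

/-- Parameters with stages. -/
structure Dat (q : ℝ) where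
  P : Params (pE q)
  c : ℝ
  Cc : ℕ → ℝ
  L : ℕ → ℕ
  c_pos : 0 < c
  st : ∀ m, Stage q c Cc L m (P.g (2 * m)) (P.g (2 * m + 1))

/-- the number of coordinates of the stage `m` -/
def Dat.D {q : ℝ} (X : Dat q) (m : ℕ) : ℕ := (X.st m).D

/-- the first coordinate of the block `b` -/
noncomputable def fc {u : ℕ → ℕ} (hu : ∀ n, 0 < u n) {r : ℝ≥0∞} (x : lp (E u) r) (b : ℕ) : ℝ :=
  x b ⟨0, hu b⟩

/-- **DatE** (from `Par`).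

Proof.  `Classical.choice` for the stages.  `D m > 0`: `v(2m) > 0`, so there is a `t`, and `∑_ω f r ≥ c > 0`. -/
def S_DatE : Prop := ∀ q : ℝ, 2 < q → Nonempty (Dat q) ∧ ∀ (X : Dat q) (m : ℕ), 0 < X.D m

/-- multiplication of the coordinates by bounded numbers -/
def MulSp {v : ℕ → ℕ} {Z : Type} [NormedAddCommGroup Z] [NormedSpace ℝ Z] (hZ : CoordSpace v Z) : Prop :=
  ∀ c : Ix v → ℝ, (∀ ν, |c ν| ≤ 1) → ∀ z, ∃ z', ∀ ν, hZ.c z' ν = c ν * hZ.c z ν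

/-- **Mul.**  `W_exists`, `mem_V_iff` of `Coord.lean`. -/
def S_Mul : Prop := ∀ v : ℕ → ℕ, MulSp (coordV v) ∧ MulSp (coordW v)

/-- **Fr.**  Rank one operators.

Proof.  `T x₀ ≠ 0`; a functional `ψ` on `Y` with `ψ(T x₀) = 1` (Hahn-Banach); `A = ψ ⊗ y`, `B = φ ⊗ x₀`: `A T B x = φ(x)ψ(Tx₀)y`. -/
def S_Fr : Prop := ∀ (X Y : Type) [NormedAddCommGroup X] [NormedSpace ℝ X] [NormedAddCommGroup Y] [NormedSpace ℝ Y]
  (T : X →L[ℝ] Y), T ≠ 0 → ∀ (φ : X →L[ℝ] ℝ) (y : Y), φ.smulRight y ∈ idealGen T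

/-- **Jc.**  The ideals which contain `I` but not `R`.

Proof.  `‖F m t‖ ≤ 1`.  Linear subspace: clear (averages of norms).  `A T B'`: `‖A T B' B F‖ ≤ ‖A‖‖T(B'B)F‖`, resp. `‖F∘B∘(A T B')‖ ≤ ‖F∘(BA)∘T‖‖B'‖`.  Closed:
`|avg‖TBF‖ - avg‖T'BF‖| ≤ ‖T-T'‖‖B‖`, the limit superior of the averages is a continuous function of `T`. -/
def S_Jc : Prop := ∀ (X Y : Type) [NormedAddCommGroup X] [NormedSpace ℝ X] [NormedAddCommGroup Y] [NormedSpace ℝ Y]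
  (n : ℕ → ℕ), (∀ m, 0 < n m) →
  (∀ F : ∀ m, Fin (n m) → X, (∀ m t, ‖F m t‖ ≤ 1) → ∃ K : Submodule ℝ (X →L[ℝ] Y), IsClosedIdeal K ∧
    ∀ T, T ∈ K ↔ ∀ B : X →L[ℝ] X, Tendsto (fun m => (∑ t, ‖T (B (F m t))‖) / n m) atTop (𝓝 0)) ∧
  (∀ F : ∀ m, Fin (n m) → (Y →L[ℝ] ℝ), (∀ m t, ‖F m t‖ ≤ 1) → ∃ K : Submodule ℝ (X →L[ℝ] Y), IsClosedIdeal K ∧
    ∀ T, T ∈ K ↔ ∀ B : Y →L[ℝ] Y, Tendsto (fun m => (∑ t, ‖(F m t).comp (B.comp T)‖) / n m) atTop (𝓝 0))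

/-- **Emb.**  The embeddings of `ℓ_r^(D m)` in the `ℓ_r`-sum of the blocks.

Proof.  `J m y` has in the block `pos D m ω` the vector `y ω · e_0`, and `0` in the other blocks: `J m y = ∑_ω lp.single (pos D m ω) (y ω • e_0)`; `pos_injective` of
`Pos.lean`; norm: `lp.norm_rpow_eq_tsum` or `lp.norm_sum_single`. -/
def S_Emb : Prop := ∀ r : ℝ, 1 < r → ∀ [Fact (1 ≤ ENNReal.ofReal r)] (u : ℕ → ℕ) (hu : ∀ n, 0 < u n) (D : ℕ → ℕ),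
  ∃ J : ∀ m, (Fin (D m) → ℝ) →ₗ[ℝ] lp (E u) (ENNReal.ofReal r),
    (∀ m y, ‖J m y‖ = (∑ ω, |y ω| ^ r) ^ (1 / r)) ∧ (∀ m y ω, fc hu (J m y) (pos D m ω) = y ω) ∧
    ∀ m y b, J m y b = ∑ ω, if pos D m ω = b then EuclideanSpace.single ⟨0, hu b⟩ (y ω) else 0

/-- **Fun.**  First coordinates.

Proof.  `∑_b|x_b(0)|^r ≤ ∑_b‖x_b‖^r = ‖x‖^r`, and the positions `pos D m ω` are different for different `(m,ω)` (`pos_injective`), so the sums over `ω` are the terms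
of a convergent series over `m`.  Hölder. -/
def S_Fun : Prop := ∀ r : ℝ, 1 < r → ∀ [Fact (1 ≤ ENNReal.ofReal r)] (u : ℕ → ℕ) (hu : ∀ n, 0 < u n) (D : ℕ → ℕ)
  (x : lp (E u) (ENNReal.ofReal r)),
  (∀ s : Finset ℕ, ∑ m ∈ s, ∑ ω : Fin (D m), |fc hu x (pos D m ω)| ^ r ≤ ‖x‖ ^ r) ∧
  Tendsto (fun m => ∑ ω : Fin (D m), |fc hu x (pos D m ω)| ^ r) atTop (𝓝 0) ∧
  ∀ m (f : Fin (D m) → ℝ), |∑ ω, f ω * fc hu x (pos D m ω)| ≤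
    (∑ ω, |f ω| ^ (r / (r - 1))) ^ ((r - 1) / r) * (∑ ω : Fin (D m), |fc hu x (pos D m ω)| ^ r) ^ (1 / r)

/-- **Dua.**  Duality.

Proof.  `w = ∑y_ωA_ω`; for `|a|₂ = 1`: `⟨w,a⟩ = ∑y_ω⟨A_ω,a⟩ ≤ (∑|y|^p)^(1/p)(∑|⟨A_ω,a⟩|^q)^(1/q)` (Hölder), `p = q/(q-1)`, `1/p = (q-1)/q`; `a = w/‖w‖`. -/
def S_Dua : Prop := ∀ q : ℝ, 2 < q → ∀ (u D : ℕ) (A : Fin D → EuclideanSpace ℝ (Fin u)) (K : ℝ), 0 ≤ K →
  (∀ a : EuclideanSpace ℝ (Fin u), ∑ ω, |inner ℝ (A ω) a| ^ q ≤ (K * ‖a‖) ^ q) →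
  ∀ y : Fin D → ℝ, ‖∑ ω, y ω • A ω‖ ≤ K * (∑ ω, |y ω| ^ (q / (q - 1))) ^ ((q - 1) / q)

/-- **Opb** (from `Fun`).  Block operators on the `ℓ_r`-sum, first type.

Proof.  `(Bx)_n = ∑_ω fc x (pos D m ω) • A m ω` if `n = b m`, `0` if there is no such `m`.  For a finite set of `m`: `∑_m‖(Bx)_(b m)‖^r ≤ K^r∑_m∑_ω|fc|^r ≤ K^r‖x‖^r`
(`memℓp_gen'`, `lp.norm_le_of_forall_sum_le`; compare `exists_shift` in `Shift.lean`). -/
def S_Opb : Prop := ∀ r : ℝ, 1 < r → ∀ [Fact (1 ≤ ENNReal.ofReal r)] (u : ℕ → ℕ) (hu : ∀ n, 0 < u n) (D b : ℕ → ℕ)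
  (A : ∀ m, Fin (D m) → E u (b m)) (K : ℝ), Function.Injective b → 0 ≤ K →
  (∀ m (y : Fin (D m) → ℝ), ‖∑ ω, y ω • A m ω‖ ≤ K * (∑ ω, |y ω| ^ r) ^ (1 / r)) →
  ∃ B : lp (E u) (ENNReal.ofReal r) →L[ℝ] lp (E u) (ENNReal.ofReal r), ∀ x m,
    B x (b m) = ∑ ω, fc hu x (pos D m ω) • A m ω

/-- **Opc.**  Block operators on the `ℓ_r`-sum, second type.

Proof.  `Bx = ∑_m J m (⟨A m ω, x_(b m)⟩)_ω`: the coordinate of the block `pos D m ω` is `⟨A m ω, x_(b m)⟩ e_0`, the other blocks are `0`; the sum of the `r`-th powers of the norms is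
`∑_m∑_ω|⟨A m ω,x_(b m)⟩|^r ≤ K^r∑_m‖x_(b m)‖^r ≤ K^r‖x‖^r` (`b` injective; every block is at most one `pos D m ω`).  Values on `lp.single`: only the block `n = b m` is not `0`. -/
def S_Opc : Prop := ∀ r : ℝ, 1 < r → ∀ [Fact (1 ≤ ENNReal.ofReal r)] (u : ℕ → ℕ) (hu : ∀ n, 0 < u n) (D b : ℕ → ℕ)
  (J : ∀ m, (Fin (D m) → ℝ) →ₗ[ℝ] lp (E u) (ENNReal.ofReal r))
  (A : ∀ m, Fin (D m) → E u (b m)) (K : ℝ),
  (∀ m y b', J m y b' = ∑ ω, if pos D m ω = b' then EuclideanSpace.single ⟨0, hu b'⟩ (y ω) else 0) →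
  Function.Injective b → 0 ≤ K → (∀ m (z : E u (b m)), ∑ ω, |inner ℝ (A m ω) z| ^ r ≤ (K * ‖z‖) ^ r) →
  ∃ B : lp (E u) (ENNReal.ofReal r) →L[ℝ] lp (E u) (ENNReal.ofReal r),
    ∀ m (z : E u (b m)), B (lp.single (ENNReal.ofReal r) (b m) z) = J m fun ω => inner ℝ (A m ω) z

/-! ## Operators from `U` to `V` or `W` -/

/-- `R` has the rows `r t` in the even blocks. -/
def IsR {q : ℝ} (X : Dat q) {Z : Type} [NormedAddCommGroup Z] [NormedSpace ℝ Z] (hZ : CoordSpace X.P.v Z)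
    [Fact (1 ≤ pE q)] (R : USp X.P.u (pE q) →L[ℝ] Z) : Prop :=
  ∀ x, (∀ m (t : Fin (X.P.v (2 * m))), hZ.c (R x) ⟨2 * m, t⟩ =
      ∑ ω : Fin (X.D m), (X.st m).r t ω * fc X.P.u_pos x (pos X.D m ω)) ∧
    ∀ m (t : Fin (X.P.v (2 * m + 1))), hZ.c (R x) ⟨2 * m + 1, t⟩ = 0

/-- **RowR** (from `Fun`).  Existence of `R`.

Proof.  `CoordSpace.exists_op` with `C = 1`: by `Fun` (`r = q/(q-1)`, `r/(r-1) = q`, `(r-1)/r = 1/q`) and `Stage.r_norm` the coordinates of the block `2m` are at most `(∑_ω|fc|^r)^(1/r)`, which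
is `≤ ‖x‖` and tends to `0` as `m → ∞`, so `{ν | ε ≤ |f ν|}` is finite (`finite_fst`).  Every `n` is `2m` or `2m+1`: define the coordinate with
`n % 2 = 0` and the stage number `n / 2`, or by a match on `Nat.even_or_odd'`; casts can be avoided with the family `ν ↦ (ν.1/2, ...)` and
`2*(ν.1/2) = ν.1`. -/
def S_RowR : Prop := ∀ q : ℝ, 2 < q → ∀ [Fact (1 ≤ pE q)] (X : Dat q) (Z : Type) [NormedAddCommGroup Z]
  [NormedSpace ℝ Z] (hZ : CoordSpace X.P.v Z), ∃ R : USp X.P.u (pE q) →L[ℝ] Z, IsR X hZ R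

/-- **RowM** (from `Fr`, `Fun`, `Dua`, `Opb`).  `R` belongs to the ideal of `T_M`.

Proof.  Let `i ∈ ℕ`, `η = 1/(i+1)`.  For every `m` let `B_m` be the matrices of `Apx`.  For `l < L i` let `A_m^l ω ∈ E u (b m)` have the coordinates `B_m l j ω`: `∑_ω|⟨A ω,a⟩|^q ≤ (2^((l+1)/2)‖a‖)^q`,
so `Dua` and `Opb` (`r = q/(q-1)`) give `B^l ∈ L(U)` with `(B^l x)_(b m) = ∑_ω fc x (pos D m ω) • A_m^l ω`.  For `m ≥ i` let `c_l(m,t)` be the coefficients of `Apx` (`|c_l| ≤ Cc i`), and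
`A^l ∈ L(Z)`: the coordinate `(2m,t)` of `A^l z` is `c_l(m,t) z(b m, φ m t)` if `m ≥ i`, all other coordinates are `0` (`exists_shuffle` with
`σ(2m,t) = some (b m, φ m t)`, injective, composed with a multiplication (`MulSp`), times `|Cc i| + 1`).  `R₁ = R - ∑_l A^l T B^l`: for `m ≥ i` its coordinate `(2m,t)` at `x` is
`∑_ω(r t ω - ∑_lc_l∑_jg(φ t)_jB_m l j ω)fc x(pos D m ω)`, at most `(1/(i+1))‖x‖` (`Fun`); the other coordinates with block number `≥ 2i` vanish; for block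
numbers `< 2i` they are those of `R` (all of them vanish for `A^l`).  So `R = ∑A^lTB^l + R₂ + R₃`, where `R₂` has finitely many nonzero coordinates (block numbers
`< 2i`) and `‖R₃‖ ≤ 1/(i+1)` (`le_of`; `exists_coordProj`).  `R₂ = ∑_ν (row functional) ⊗ z_ν`, `c z_ν = δ_ν` (`exists_of`, `exists_coord`), is in
`idealGen T` by `Fr` (`T ≠ 0`: for `m = 0` the vector `g` has norm 1).  `IsClosedIdeal.mem_of_approx`. -/
def S_RowM : Prop := ∀ q : ℝ, 2 < q → ∀ [Fact (1 ≤ pE q)] (X : Dat q) (Z : Type) [NormedAddCommGroup Z]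
  [NormedSpace ℝ Z] (hZ : CoordSpace X.P.v Z), MulSp hZ → ∀ R : USp X.P.u (pE q) →L[ℝ] Z, IsR X hZ R →
  ∀ (M : Set ℕ) (T : USp X.P.u (pE q) →L[ℝ] Z), IsT X.P hZ M T →
  ∀ (b : ℕ → ℕ) (φ : ∀ m, Fin (X.P.v (2 * m)) → Fin (X.P.v (b m))), Function.Injective b → (∀ m, b m ∈ M) →
  (∀ m, Function.Injective (φ m)) → (∀ m, Apx q X.Cc X.L m (X.st m).r (φ m) (X.P.g (b m))) → R ∈ idealGen T

/-- **RowI** (from `Emb`, `Fun`, `Jc`, `DatE`).  `R` does not belong to the ideal of `I`.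

Proof.  `F m t = J m (f t)` (`Emb`, `r = p = q/(q-1)`; `‖F m t‖ ≤ 1` by `Stage.f_norm`), `n m = v(2m) > 0`, `K` the closed ideal of `Jc`(1).  (1) `I ∈ K`: let `B ∈ L(U)`, `b = ‖B‖`, `m ≥ b`.  Let
`J₀` be the set of the `t` with `‖I(B(F m t))‖ > 1/(m+1)`; for `t ∈ J₀` there is (`le_of`) a `ν = ν(t)` with `|(B F m t)(tw ν)| > 1/(m+1)` (`IsI`).  Enumerate the finite set
`{ν(t)}` as `ν_s`, `s < n'`, and `Λ_s ω = (B (J m e_ω))(tw ν_s)`, so `∑_ωΛ_s ω h ω = (B(J m h))(tw ν_s)`.  `tw` is injective, so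
`∑_s(...)² ≤ ∑_n‖(B J h)_n‖² ≤ (∑_n‖(BJh)_n‖^p)^(2/p) = ‖BJh‖² ≤ b²(∑|h|^p)^(2/p)` (`p ≤ 2`: for a finite sum of numbers `x_n ≥ 0`, `∑x_n² ≤ (∑x_n^p)^(2/p)`).  `Stage.few`: `(m+1)|J₀| ≤ v(2m)`.  So the average is at most
`b/(m+1) + 1/(m+1) → 0` (`‖I‖ ≤ 1`: `|c(I x)ν| ≤ ‖x‖`).  (2) `R ∉ K`: for `B = id`, `‖R(F m t)‖ ≥ |∑_ωr t ω f t ω| ≥ c` (`Emb`, `c_le`), so the average is `≥ c`.  Therefore
`idealGen I ≤ K` and `R ∉ idealGen I`. -/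
def S_RowI : Prop := ∀ q : ℝ, 2 < q → ∀ [Fact (1 ≤ pE q)] (X : Dat q) (Z : Type) [NormedAddCommGroup Z]
  [NormedSpace ℝ Z] (hZ : CoordSpace X.P.v Z) (R I : USp X.P.u (pE q) →L[ℝ] Z), IsR X hZ R → IsI X.P hZ I →
  R ∉ idealGen I

/-- **RowF** (from `RowR`, `RowM`, `RowI`).  The maps `φ₁`, `φ₂`.

Proof.  `M` = even, `N` = odd numbers: `M ∩ N = ∅` is finite, `phi T I ∅ = idealGen I`.  `RowM` with `b m = 2m`, `φ = id` (`Stage.app`) and with `b m = 2m+1`, `φ = ι`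
(`Stage.app'`, `Stage.ι_inj`). -/
def S_RowF : Prop := ∀ q : ℝ, 2 < q → ∀ [Fact (1 ≤ pE q)] (X : Dat q) (Z : Type) [NormedAddCommGroup Z]
  [NormedSpace ℝ Z] (hZ : CoordSpace X.P.v Z), MulSp hZ → ∀ (T : Set ℕ → (USp X.P.u (pE q) →L[ℝ] Z))
  (I : USp X.P.u (pE q) →L[ℝ] Z), (∀ M, IsT X.P hZ M (T M)) → IsI X.P hZ I →
  phi T I ({n | Even n} ∩ {n | Odd n}) ≠ phi T I {n | Even n} ⊓ phi T I {n | Odd n}

/-! ## Operators from `V*` to `U_*` -/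

open Classical in
/-- `S` is the operator `S_M`, for the `ℓ_q`-sum. -/
def IsSq {q : ℝ} (X : Dat q) [Fact (1 ≤ qE q)] (M : Set ℕ) (S : YSp X.P.v →L[ℝ] lp (E X.P.u) (qE q)) : Prop :=
  ∀ ν, S (eY X.P.v ν) = if ν.1 ∈ M then lp.single (qE q) ν.1 (X.P.g ν.1 ν.2) else 0

/-- `I` is the formal inclusion, for the `ℓ_q`-sum. -/
def IsIq {q : ℝ} (X : Dat q) [Fact (1 ≤ qE q)] (I : YSp X.P.v →L[ℝ] lp (E X.P.u) (qE q)) : Prop :=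
  ∀ ν, I (eY X.P.v ν) = lp.single (qE q) (X.P.tw ν).1 (EuclideanSpace.single (X.P.tw ν).2 1)

/-- **ColE.**  Existence of `S_M` and `I`, and the formulas for all vectors.

Proof.  `Y_lift` (`ColDefs.lean`), as `exists_S`, `exists_IS` in `ColsMain.lean`.  The formulas: both sides are continuous linear functions of `y` with the same values on the
`eY ν` (`Y_ext`; compare `formula_of_isS`, `formula_of_isIS` in `ColsMain.lean`, which can be adapted: coordinate maps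
`lp (E u) q → E u n`). -/
def S_ColE : Prop := ∀ q : ℝ, 2 < q → ∀ [Fact (1 ≤ qE q)] (X : Dat q),
  (∀ M, ∃ S : YSp X.P.v →L[ℝ] lp (E X.P.u) (qE q), IsSq X M S) ∧
  (∃ I : YSp X.P.v →L[ℝ] lp (E X.P.u) (qE q), IsIq X I) ∧
  (∀ (M : Set ℕ) [DecidablePred (· ∈ M)] (S : YSp X.P.v →L[ℝ] lp (E X.P.u) (qE q)), IsSq X M S →
    ∀ (y : YSp X.P.v) (n : ℕ), S y n = if n ∈ M then ∑ j, y n j • X.P.g n j else 0) ∧
  ∀ I : YSp X.P.v →L[ℝ] lp (E X.P.u) (qE q), IsIq X I → ∀ (y : YSp X.P.v) (m : ℕ) (t : Fin (X.P.u m)) (n : ℕ)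
    (j : Fin (X.P.v n)), pos X.P.v n j = pos X.P.u m t → I y m t = y n j

/-- `R` has the columns `J m (r t)` in the even blocks. -/
def IsRq {q : ℝ} (X : Dat q) [Fact (1 ≤ qE q)] (J : ∀ m, (Fin (X.D m) → ℝ) →ₗ[ℝ] lp (E X.P.u) (qE q))
    (R : YSp X.P.v →L[ℝ] lp (E X.P.u) (qE q)) : Prop :=
  (∀ m (t : Fin (X.P.v (2 * m))), R (eY X.P.v ⟨2 * m, t⟩) = J m ((X.st m).r t)) ∧
    ∀ m (t : Fin (X.P.v (2 * m + 1))), R (eY X.P.v ⟨2 * m + 1, t⟩) = 0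

/-- the third property of `Emb` -/
def IsJ {q : ℝ} (X : Dat q) (J : ∀ m, (Fin (X.D m) → ℝ) →ₗ[ℝ] lp (E X.P.u) (qE q)) : Prop :=
  ∀ m y b, J m y b = ∑ ω, if pos X.D m ω = b then EuclideanSpace.single ⟨0, X.P.u_pos b⟩ (y ω) else 0

/-- **ColR** (from `Emb`).  Existence of `R`.

Proof.  `Emb` with `r = q` (the third property determines `J`, so it has the first two properties), `Y_lift` with `C = 1`: `‖J m (r t)‖ = (∑|r t|^q)^(1/q) ≤ 1`.  Even and odd `n` as in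
`RowR`. -/
def S_ColR : Prop := ∀ q : ℝ, 2 < q → ∀ [Fact (1 ≤ qE q)] (X : Dat q),
  ∃ (J : ∀ m, (Fin (X.D m) → ℝ) →ₗ[ℝ] lp (E X.P.u) (qE q)) (R : YSp X.P.v →L[ℝ] lp (E X.P.u) (qE q)),
    IsJ X J ∧ IsRq X J R ∧ ∀ m y, ‖J m y‖ = (∑ ω, |y ω| ^ q) ^ (1 / q)

/-- **ColM** (from `Fr`, `Opc`).  `R` belongs to the ideal of `S_M`.

Proof.  As `RowM`, transposed.  For `l < L i`, `A_m^l ω ∈ E u (b m)` with the coordinates `B_m l j ω`, `Opc` (`r = q`, `K = 2^((l+1)/2)`): `B^l ∈ L(U_*)` with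
`B^l(single (b m) z) = J m (⟨A_m^l ω, z⟩)_ω`.  `A^l ∈ L(V*)`: `eY (2m,t) ↦ c_l(m,t) eY (b m, φ m t)` if `m ≥ i`, all other `eY ν ↦ 0` (`Y_lift`).  For `m ≥ i`:
`(R - ∑_lB^lSA^l)(eY (2m,t)) = J m (r t - ∑_lc_l∑_jg(φ t)_jB_m l j)`, norm `≤ 1/(i+1)`.  The part of `R` on the `eY ν` with `ν.1 < 2i` is a finite sum of operators
`e_ν* ⊗ R(eY ν)` (`e_ν*` by `Y_lift` with values in `ℝ`), in `idealGen S` by `Fr`.  `Y_norm_le`, `Y_ext`, `IsClosedIdeal.mem_of_approx`. -/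
def S_ColM : Prop := ∀ q : ℝ, 2 < q → ∀ [Fact (1 ≤ qE q)] (X : Dat q)
  (J : ∀ m, (Fin (X.D m) → ℝ) →ₗ[ℝ] lp (E X.P.u) (qE q)), IsJ X J → (∀ m y, ‖J m y‖ = (∑ ω, |y ω| ^ q) ^ (1 / q)) →
  ∀ R : YSp X.P.v →L[ℝ] lp (E X.P.u) (qE q), IsRq X J R →
  ∀ (M : Set ℕ) (S : YSp X.P.v →L[ℝ] lp (E X.P.u) (qE q)), IsSq X M S →
  ∀ (b : ℕ → ℕ) (φ : ∀ m, Fin (X.P.v (2 * m)) → Fin (X.P.v (b m))), Function.Injective b → (∀ m, b m ∈ M) →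
  (∀ m, Function.Injective (φ m)) → (∀ m, Apx q X.Cc X.L m (X.st m).r (φ m) (X.P.g (b m))) → R ∈ idealGen S

/-- **ColI** (from `Fun`, `Jc`, `DatE`).  `R` does not belong to the ideal of `I`.

Proof.  `F m t` = the functional `x ↦ ∑_ω f t ω fc x (pos D m ω)` on `lp (E u) q`, `‖F m t‖ ≤ 1` (`Fun` with `r = q`, `r/(r-1) = q/(q-1) = p`, `Stage.f_norm`).  `K` the closed ideal of `Jc`(2), `X = V*`, `Y = U_*`,
`n m = v(2m)`.  (1) `I ∈ K`: `B ∈ L(U_*)`, `b = ‖B‖`, `m ≥ b`, `J₀ = {t : ‖F m t ∘ B ∘ I‖ > 1/(m+1)}`; for `t ∈ J₀` there is (`Y_norm_le`) a `ν(t)` with `|F m t (B(I(eY ν)))| > 1/(m+1)`.  Enumerate the finite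
set `{ν(t)}` as `ν_s`; `Λ_s ω = fc (B(I(eY ν_s))) (pos D m ω)`.  For `h : Fin (D m) → ℝ` let `F_h = ∑_ωh ω fc(·)(pos D m ω)`, `‖F_h‖ ≤ (∑|h|^p)^(1/p)`, and `c_s = ∑_ωΛ_s ω h ω = F_h(B(I eY ν_s))`.  Then
`∑c_s² = F_h(B(∑_sc_sI(eY ν_s))) ≤ ‖F_h‖ b ‖∑_sc_sI(eY ν_s)‖`, and `I(eY ν_s) = e_(tw ν_s)` are different unit vectors of the `ℓ_q`-sum of the blocks, so (`q ≥ 2`) the last norm is
`(∑_n(∑_{s : tw ν_s in the block n}c_s²)^(q/2))^(1/q) ≤ (∑_sc_s²)^(1/2)`.  So `∑c_s² ≤ b²(∑|h|^p)^(2/p)`, and `Stage.few`: `(m+1)|J₀| ≤ v(2m)`; the average is `≤ b/(m+1) + 1/(m+1)` (`‖I‖ ≤ 1`).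
(2) `R ∉ K`: `B = id`: `|F m t (R(eY (2m,t)))| = |∑_ωf t ω r t ω| ≥ c` (`IsJ` gives `fc (J m y)(pos D m ω) = y ω`, `pos_injective`; `‖eY‖ = 1`). -/
def S_ColI : Prop := ∀ q : ℝ, 2 < q → ∀ [Fact (1 ≤ qE q)] (X : Dat q)
  (J : ∀ m, (Fin (X.D m) → ℝ) →ₗ[ℝ] lp (E X.P.u) (qE q)), IsJ X J →
  ∀ R I : YSp X.P.v →L[ℝ] lp (E X.P.u) (qE q), IsRq X J R → IsIq X I → R ∉ idealGen I

/-- **ColF** (from `ColR`, `ColM`, `ColI`).  The map `φ₃`.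

Proof.  As `RowF`. -/
def S_ColF : Prop := ∀ q : ℝ, 2 < q → ∀ [Fact (1 ≤ qE q)] (X : Dat q)
  (S : Set ℕ → (YSp X.P.v →L[ℝ] lp (E X.P.u) (qE q))) (I : YSp X.P.v →L[ℝ] lp (E X.P.u) (qE q)),
  (∀ M, IsSq X M (S M)) → IsIq X I →
  phi S I ({n | Even n} ∩ {n | Odd n}) ≠ phi S I {n | Even n} ⊓ phi S I {n | Odd n}

end Pool.Agent.Lib.MP_537232_an.NM
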