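import Pool.Agent.Lib.MP_537232_an.NM.SpecC
import Pool.Agent.Lib.MP_537232_an.NM.SpecD
import Pool.Agent.Lib.MP_537232_an.NM.SpecE
import Pool.Agent.Lib.MP_537232_an.NM.SpecG

set_option autoImplicit false

/-!
# MP_537232_an, directory NM, part S: the stages and the parameters
-/

namespace Pool.Agent.Lib.MP_537232_an.NM

open MeasureTheory ProbabilityTheory Finset Filter Topology

/-- **Coh.**  Small coherence.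

Proof.  `|∑_{t≠t'} a_ta_t'Γ| ≤ μ(∑_J|a_t|)² ≤ μ|J|∑a²` (Cauchy-Schwarz), `0 ≤ μ`. -/
def S_Coh : Prop := ∀ (v : ℕ) (Γ : Fin v → Fin v → ℝ) (s : ℕ) (μ δ : ℝ), (∀ t, Γ t t = 1) → 0 ≤ μ →
  (∀ t t', t ≠ t' → |Γ t t'| ≤ μ) → μ * s ≤ δ → OB Γ s δ

/-- **Rp.**  From the Gram matrix to the conditions of the problem.

Proof.  `‖∑a_ig_i‖² = ∑∑a_ia_jΓ`, so it is between `1/2∑a²` and `(3/2)∑a²`.  Bessel: with `a_i = ⟨x,g_i⟩`: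
`∑a² = ⟨x,∑a_ig_i⟩ ≤ ‖x‖((3/2)∑a²)^(1/2)`, so `∑a² ≤ (3/2)‖x‖²`. -/
def S_Rp : Prop := ∀ (u v s : ℕ) (K : ℝ) (g : Fin v → EuclideanSpace ℝ (Fin u)), K ≤ s → (∀ t, ‖g t‖ = 1) →
  OB (fun t t' => inner ℝ (g t) (g t')) s (1 / 2) → Rip K g

/-- **Fil.**  Vectors with small coherence (DeVore).

Proof.  `Pr ≥ n` prime, `F = ZMod Pr`.  For a polynomial `f = a+bX+cX²`, `(a,b,c) ∈ F³`, let `y_f = (1/√Pr)∑_{x∈F} e_(x,f(x)) ∈ ℝ^(F×F)`: `‖y_f‖² = 1` and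
`⟨y_f,y_f'⟩ = #{x : f(x) = f'(x)}/Pr ≤ 2/Pr` for `f ≠ f'` (a nonzero polynomial of degree `≤ 2` has at most `2` roots).  Enumerate `F³`, `F×F`. -/
def S_Fil : Prop := ∀ n : ℕ, ∃ Pr : ℕ, n ≤ Pr ∧ 1 ≤ Pr ∧ ∃ y : Fin (Pr ^ 3) → Fin (Pr ^ 2) → ℝ, (∀ c, ∑ i, y c i ^ 2 = 1) ∧
  ∀ c c', c ≠ c' → |∑ i, y c i * y c' i| ≤ 2 / Pr

/-- **Odb** (from `Coh`, `Rp`, `Fil`).  The odd blocks.

Proof.  Choose `Pr` (`Fil`) large, `u' = card ι + Pr²`, `v' = v + Pr³` (`Fin (a+b) ≃ Fin a ⊕ Fin b`: `finSumFinEquiv`; `ι ≃ Fin (card ι)`).  The vectors with number `t < v` are `w t`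
in the first summand, the others are the `y_c` in the second summand.  `u' ≥ A`, `u' < v'`, `B u' ≤ v'` for large `Pr`.  The Gram matrix is block
diagonal, each block satisfies `OB _ s (1/2)` (the second one by `Coh`, `μ = 2/Pr`, `2s/Pr ≤ 1/2`), so the whole matrix does (split `J` and add).  `Rp`. -/
def S_Odb : Prop := ∀ (v s : ℕ) (ι : Type) [Fintype ι] (w : Fin v → ι → ℝ), (∀ t, ∑ j, w t j ^ 2 = 1) →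
  OB (fun t t' => ∑ j, w t j * w t' j) s (1 / 2) → ∀ A B : ℕ, ∃ u' v' : ℕ, A ≤ u' ∧ u' < v' ∧ B * u' ≤ v' ∧
  ∃ (g' : Fin v' → EuclideanSpace ℝ (Fin u')) (φ : Fin v → Fin v') (e : ι → Fin u'), Function.Injective φ ∧
    Function.Injective e ∧ Rip s g' ∧ ∀ t, (∀ j, g' (φ t) (e j) = w t j) ∧ ∀ i, (∀ j, e j ≠ i) → g' (φ t) i = 0

/-- **Fw.**  The functionals have few large coordinates.

Proof.  On `F = span{h_t}` (`dim F ≤ R`) consider the inner product `⟨h,h'⟩ = ∑P h h'` (if it is degenerate: work with the vectors `P^(1/2)h` in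
`EuclideanSpace ℝ (Fin D)`).  For `f = P^(1/p)h`: `(∑|f|^p)^(1/p) = (∑P|h|^p)^(1/p) ≤ (∑P h²)^(1/2)` (`p < 2`, `∑P = 1`), so
`∑_sΛ_s(P^(1/p)h)² ≤ b²⟨h,h⟩`.  Let `λ_s ∈ F` be the Riesz representation of `h ↦ Λ_s(P^(1/p)h)` on `F`: `‖λ_s‖ ≤ b` and
`∑_s‖λ_s‖² = ∑_e∑_s⟨λ_s,e⟩² ≤ Rb²` (`e` in an orthonormal basis of `F`).  For fixed `s` let `J_s = {t ∈ J : |⟨λ_s,h_t⟩| ≥ 1/(m+1)}`, `n = |J_s|`:
`n/(m+1) ≤ ∑τ_t⟨λ_s,h_t⟩ ≤ ‖λ_s‖‖∑τ_th_t‖ ≤ ‖λ_s‖(nV2+n²μ)^(1/2)`, so `n²/(m+1)² ≤ ‖λ_s‖²nV2 + b²n²μ`, and `b²μ ≤ 1/(2(m+1)²)`: `n ≤ 2(m+1)²V2‖λ_s‖²`.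
`J = ∪J_s`: `|J| ≤ 2(m+1)²V2Rb²`, `b ≤ m`. -/
def S_Fw : Prop := ∀ p : ℝ, 1 < p → p < 2 → ∀ (v D R m : ℕ) (P : Fin D → ℝ) (h : Fin v → Fin D → ℝ)
  (e : Fin R → Fin D → ℝ) (V2 μ : ℝ), (∀ ω, 0 ≤ P ω) → ∑ ω, P ω = 1 →
  (∀ t, ∃ c : Fin R → ℝ, ∀ ω, h t ω = ∑ i, c i * e i ω) → (∀ t, ∑ ω, P ω * h t ω ^ 2 ≤ V2) →
  (∀ t t', t ≠ t' → |∑ ω, P ω * (h t ω * h t' ω)| ≤ μ) → 0 ≤ V2 → 0 ≤ μ →
  2 * (m : ℝ) ^ 2 * μ * ((m : ℝ) + 1) ^ 2 ≤ 1 → 2 * ((m : ℝ) + 1) ^ 3 * V2 * (m : ℝ) ^ 2 * R ≤ v →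
  Few p m fun t ω => P ω ^ (1 / p) * h t ω

/-- the vectors `ε_t^j/√d` -/
noncomputable def Gs {v d : ℕ} (ε : ℕ → Fin v → Fin d → Bool) (t : Fin v) (j : ℕ) (i : Fin d) : ℝ :=
  sg (ε j t i) / Real.sqrt d

/-- **Lw** (from `Ex`, `Wwt`).  The low block.

Proof.  `gg (Gs ε t j) (Gs ε t' j) = Ge (ε j) t t'`, `UG (Gs ε t)` for `d ≥ 1`, `|Ge| ≤ 1`.  By `Ex` (`w(m) = ww m/vp`, `h₀ i = G 0 i G' 0 i`, `h l e = G (l+1) e G' (l+1) e`; `√(ww/vp)² = ww/vp`, see `Blk`(1)) the inner product is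
`Ge (ε 0) t t' ∑_{m∈R}(ww m/vp)∑_{|A|=m}∏Ge`, and the double sum is at most `∑_{m∈R}C(N,m)ww m/vp = 1` in absolute value. -/
def S_Lw : Prop := (∀ (v d : ℕ) (ε : ℕ → Fin v → Fin d → Bool) (t : Fin v), 1 ≤ d → UG (Gs ε t)) ∧
  (∀ (v d : ℕ) (ε : ℕ → Fin v → Fin d → Bool) (t t' : Fin v) (j : ℕ), 1 ≤ d → gg (Gs ε t j) (Gs ε t' j) = Ge (ε j) t t') ∧
  ∀ q : ℝ, 2 < q → ∀ (C : Cst q) (N v d : ℕ) (ε : ℕ → Fin v → Fin d → Bool) (t t' : Fin v), 1 ≤ N → 1 ≤ d →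
    |∑ j : Bx d N (Rlo C.α N), gv C.α (-1) (Rlo C.α N) (Gs ε t) j * gv C.α (-1) (Rlo C.α N) (Gs ε t') j| ≤
      |Ge (ε 0) t t'|

/-- **Hg** (from `Ex`, `Wwt`, `Lw`, `Sch`, `Grm`).  The high block.

Proof.  `k = kk α N`.  By `Ex` (as in `Lw`) the matrix is `∑_A w_A Γ_A`, the sum over `A ⊆ Fin N` with `|A| ∈ Rhi`, `w_A = ww|A|/vp ≥ 0`, `∑w_A = 1`,
`Γ_A = Ge(ε 0)∏_{l∈A}Ge(ε(l+1))`.  For `|A| ≥ k+1` choose `A' ⊆ A` with `|A'| = k+1` (`Finset.exists_subset_card_eq`): `Γ_A = Γ_{A'}·∏_{l∈A∖A'}Ge(ε(l+1))`, the second factor is a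
Gram matrix of unit vectors (`Grm`, induction), so `OB Γ_A s (1/2)` (`Sch`; `A'` is mapped to a subset of `range N`).  `Sch`(2). -/
def S_Hg : Prop := ∀ q : ℝ, 2 < q → ∀ (C : Cst q) (N v d s : ℕ) (ε : ℕ → Fin v → Fin d → Bool), 1 ≤ N → 1 ≤ d →
  (∀ A : Finset ℕ, A ⊆ range N → A.card = kk C.α N + 1 →
    OB (fun t t' => Ge (ε 0) t t' * ∏ j ∈ A, Ge (ε (j + 1)) t t') s (1 / 2)) →
  OB (fun t t' => ∑ j : Bx d N (Rhi C.α N), gv C.α 1 (Rhi C.α N) (Gs ε t) j * gv C.α 1 (Rhi C.α N) (Gs ε t') j)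
    s (1 / 2)

/-- As `Apx`, for vectors `w t` with an arbitrary finite index set. -/
def ApxI (q : ℝ) (Cc : ℕ → ℝ) (L : ℕ → ℕ) (m : ℕ) {v D : ℕ} {ι : Type} [Fintype ι] (r : Fin v → Fin D → ℝ)
    (w : Fin v → ι → ℝ) : Prop :=
  ∃ B : ℕ → ι → Fin D → ℝ,
    (∀ l (a : ι → ℝ), ∑ ω, |∑ j, a j * B l j ω| ^ q ≤ ((2 : ℝ) ^ (l + 1) * ∑ j, a j ^ 2) ^ (q / 2)) ∧
    ∀ i ≤ m, ∀ t, ∃ c : Fin (L i) → ℝ, (∀ l, |c l| ≤ Cc i) ∧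
      ∑ ω, |r t ω - ∑ l, c l * ∑ j, w t j * B l j ω| ^ q ≤ (1 / ((i : ℝ) + 1)) ^ q

/-- **Nu.**  Numerical choice of `d`.

Proof.  `Ci = r N + k + 3`, `v = d^Ci`.  `(1+d)^(rN) ≤ (2d)^(rN)`, so `X·d(1+d)^(rN) ≤ X 2^(rN) d^(rN+1) ≤ d^(rN+k+3)` if `d ≥ X2^(rN)`, `d ≥ 1`;
`Bq 2^N d^(k+1) < d^(k+3) ≤ v` if `d ≥ Bq 2^N + 2`. -/
def S_Nu : Prop := ∀ (N k r Bq : ℕ) (X : ℝ), ∃ d₀ : ℕ, 1 ≤ d₀ ∧ ∀ d : ℕ, d₀ ≤ d →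
  X * ((d * (1 + d) ^ (r * N) : ℕ) : ℝ) ≤ ((d ^ (r * N + k + 3) : ℕ) : ℝ) ∧
  Bq * (2 ^ N * d ^ (k + 1)) < d ^ (r * N + k + 3)

/-- **Pre** (from `Mom`, `Sit`, `Apl`, `Mod`, `Rw`, `Hr`, `Wwt`, `Blk`, `Cbx`, `Sgn`, `Fw`, `Lw`, `Hg`, `Nu`).  The main step.

Proof.  For every `i` let `L_i, N₀(i), K_i` be given by `Apl` with `η = 1/(i+1)`; `L i = L_i`, `Cc i = K_i`.  Given `m, K₀, A, B`: `N ≥ 2`, `N ≥ N₀(i)` for all `i ≤ m`;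
`k = kk α N < N` (`Wwt`); `Sit`: `r, Pi`.  `κ₀ = mq p^(-2/p) > 0` (`p = q/(q-1)`), `V2 = κ₀Pi^N`; `μ > 0` with `K₀μ ≤ 1/2` and `2m²(κ₀μPi^N)(m+1)² ≤ 1`.
`Cs = (B+1)2^N`, `Ci = rN+k+3`, `X = 2(m+1)³V2m²`.  `d ≥ A`, `d ≥ d₀` of `Sgn` and of `Nu` (with `Bq = B+1`).  `v = d^Ci`, `ε` from `Sgn`, `S` the site of dimension `d`
(`Sit`).  `ι = Bx d N (Rlo α N)`, `ι' = Bx d N (Rhi α N)`, `w t = gv α (-1) (Rlo α N) (Gs ε t)`, `w' t = gv α 1 (Rhi α N) (Gs ε t)`; `D = card S.Om`, and with an equivalence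
`Fin D ≃ S.Om`: `r t = S.row (Gs ε t)`, `f t = S.frow (Gs ε t)`.  Dimensions: `d ≤ card ι ≤ 2^N d^(k+1)` (`Cbx`), so `A ≤ card ι`, `B card ι < v`, `card ι < v` (`Nu` with `Bq = B+1`),
`B card ι ≤ Cs d^(k+1)`.  Unit vectors: `Blk`(2).  Coherence: `Lw` and `Sgn`(1).  `OB` of order `B card ι`: `Hg` and `Sgn`(2), monotonic in the order.  `r, f`: `Rw` (`N ≥ 2`).
`ApxI`: `B l = S.bm (-1) (Rlo α N) l`, resp. `S.bm 1 (Rhi α N) l`: the norm is `Blk`(3); by `Blk`(4) `∑_j w t j B l j ω = Xs N R (S.xrow G) (th α (s q_l) N) ω` (`G = Gs ε t`), and `r t`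
`= Xs N (range (N+1)) (S.xrow G) α`: `Apl` for the model `S.xrow G` (`Mod`).  `Few`: `Fw` with `P = wt`, `h t = hrow (Gs ε t)`, `R = d(1+d)^(rN)` (`Hr`; `frow = wt^(1/p)hrow`,
`1/p = (q-1)/q`), the diagonal bound `V2` (`gg = 1`), the off-diagonal bound `κ₀μPi^N`. -/
def S_Pre : Prop := ∀ q : ℝ, 2 < q → ∀ C : Cst q, ∃ (Cc : ℕ → ℝ) (L : ℕ → ℕ), ∀ m K₀ A B : ℕ,
  ∃ (v D : ℕ) (ι ι' : Type) (_ : Fintype ι) (_ : Fintype ι') (w : Fin v → ι → ℝ) (w' : Fin v → ι' → ℝ)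
    (r f : Fin v → Fin D → ℝ),
    A ≤ Fintype.card ι ∧ B * Fintype.card ι < v ∧ Fintype.card ι < v ∧
    (∀ t, ∑ j, w t j ^ 2 = 1) ∧ (∀ t t', t ≠ t' → |∑ j, w t j * w t' j| * K₀ ≤ 1 / 2) ∧
    (∀ t, ∑ j, w' t j ^ 2 = 1) ∧ OB (fun t t' => ∑ j, w' t j * w' t' j) (B * Fintype.card ι) (1 / 2) ∧
    (∀ t, ∑ ω, |r t ω| ^ q ≤ 1) ∧ (∀ t, ∑ ω, |f t ω| ^ (q / (q - 1)) ≤ 1) ∧ (∀ t, c0 q ≤ ∑ ω, f t ω * r t ω) ∧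
    ApxI q Cc L m r w ∧ ApxI q Cc L m r w' ∧ Few (q / (q - 1)) m f

/-- **Stg** (from `Mom`, `Arg`, `Pre`, `Coh`, `Rp`, `Odb`).  The stage lemma.

Proof.  `C` from `Arg`, `c = c0 q > 0` (`Mom`).  Given `m, u₀, v₀, S`: `K₀ ≥ max(2u₀(2m)²+1, 19(2m+1)²)`, `A = max(v₀+1, 19(2m+1)³(6(2m+1)+1)^S)`,
`B = 18(2m+1)^5 + 2(2m+1)² + 1 + 19(2m+2)²`; `Pre`.  `u = card ι` (`≥ 1`; `ι ≃ Fin u`), `g t` = the vector `w t`: `Coh` with `s = K₀`, `μ = 1/(2K₀)` (`K₀ ≥ 1`) and `Rp` give the `Rip` of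
`g` (`Rip` is monotonic in the order).  `9(2m+1)³·2u(2m+1)² ≤ Bu ≤ v`.  Odd block: `s = Bu ≥ max(2u(2m+1)²+1, 19(2m+2)²)`; `Odb` with the bounds
`max(v+1, 19(2m+2)³(6(2m+2)+1)^(S+u))` and `18(2m+2)^5`.  `Stage`: `D, r, f` from `Pre`, `ι = φ`; `Apx` for `g`: the matrices of `ApxI` transported by `ι ≃ Fin u`; `Apx` for `g'`:
`B' l i = B l j` if `i = e j`, and `0` if `i` is not in the range of `e` (`∑_i g'(φ t)_i B' l i = ∑_j w' t j B l j`; `∑_i a_iB' l i = ∑_j a_(e j)B l j` and `∑_ja_(e j)² ≤ ∑_ia_i²`). -/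
def S_Stg : Prop := ∀ q : ℝ, 2 < q → ∃ (c : ℝ) (Cc : ℕ → ℝ) (L : ℕ → ℕ), 0 < c ∧ ∀ m u₀ v₀ S : ℕ,
  ∃ (u v u' v' : ℕ) (g : Fin v → EuclideanSpace ℝ (Fin u)) (g' : Fin v' → EuclideanSpace ℝ (Fin u')),
    v₀ < u ∧ u < v ∧ v < u' ∧ u' < v' ∧
    19 * (2 * m + 1) ^ 3 * (6 * (2 * m + 1) + 1) ^ S ≤ u ∧
    19 * (2 * m + 2) ^ 3 * (6 * (2 * m + 2) + 1) ^ (S + u) ≤ u' ∧
    9 * (2 * m + 1) ^ 3 * (2 * u * (2 * m + 1) ^ 2) ≤ v ∧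
    9 * (2 * m + 2) ^ 3 * (2 * u' * (2 * m + 2) ^ 2) ≤ v' ∧
    Rip (max (2 * (u₀ : ℝ) * (2 * m) ^ 2 + 1) (19 * (2 * (m : ℝ) + 1) ^ 2)) g ∧
    Rip (max (2 * (u : ℝ) * (2 * m + 1) ^ 2 + 1) (19 * (2 * (m : ℝ) + 2) ^ 2)) g' ∧
    Nonempty (Stage q c Cc L m g g')

/-- **Par** (from `Stg`).  The parameters.

Proof.  `p = q/(q-1) ∈ (1,2)`, so `sNum p u n = 2 u_n (n+1)²` (`ENNReal.ofReal p < 2`).  A block is a triple `(u,v,g)` (make a structure `Bl`, so that equalities of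
blocks can be rewritten).  Recursion over `m` with `Stg`: the pair of blocks `(b(2m), b(2m+1))` for `S = ∑_{l<2m} u_l`, `u₀ = u_(2m-1)`, `v₀ = v_(2m-1)` (`u₀ = v₀ = 0` for
`m = 0`; then `2u₀(2m)²+1 = 1 = sPrev+1`).  `b n` = first or second component of the pair number `n/2`.  All fields of `Params` for `n = 2m` and `n = 2m+1` are
the conclusions of `Stg`; `lower`, `upper`, `bessel`, `norm_g` are the parts of `Rip`. -/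
def S_Par : Prop := ∀ q : ℝ, 2 < q → ∃ (P : Params (ENNReal.ofReal (q / (q - 1)))) (c : ℝ) (Cc : ℕ → ℝ) (L : ℕ → ℕ),
  0 < c ∧ ∀ m, Nonempty (Stage q c Cc L m (P.g (2 * m)) (P.g (2 * m + 1)))

end Pool.Agent.Lib.MP_537232_an.NM
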